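import Pool.Agent.MP_be9872_an.Defs

-- part MP_be9872_an.Basic
section

set_option autoImplicit false
open Filter Topology Asymptotics Metric

namespace Pool.Agent.MP_be9872_an

/-! ### weights -/

lemma w_pos (x : ℝ) : 0 < w x := Real.exp_pos _
lemma w_nonneg (x : ℝ) : 0 ≤ w x := (w_pos x).le
lemma om_pos (x : ℝ) : 0 < om x := Real.exp_pos _
lemma om_nonneg (x : ℝ) : 0 ≤ om x := (om_pos x).le
lemma w_le_one (x : ℝ) : w x ≤ 1 := by
  unfold w; rw [Real.exp_le_one_iff]; simp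
lemma om_le_one (x : ℝ) : om x ≤ 1 := by
  unfold om; rw [Real.exp_le_one_iff]; simp
lemma w_le_om (x : ℝ) : w x ≤ om x := by
  unfold w om; rw [Real.exp_le_exp]
  rcases le_total x 0 with h | h
  · rw [abs_of_nonpos h, min_eq_left h]; linarith
  · rw [abs_of_nonneg h, min_eq_right h]; linarith
lemma om_le_exp (x : ℝ) : om x ≤ Real.exp x := by
  unfold om; rw [Real.exp_le_exp]; exact min_le_left _ _
lemma w_le_exp (x : ℝ) : w x ≤ Real.exp x := (w_le_om x).trans (om_le_exp x)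
lemma w_neg (x : ℝ) : w (-x) = w x := by unfold w; rw [abs_neg]
lemma w_le_exp_neg (x : ℝ) : w x ≤ Real.exp (-x) := by rw [← w_neg]; exact w_le_exp _
lemma w_of_nonpos {x : ℝ} (h : x ≤ 0) : w x = Real.exp x := by
  unfold w; rw [abs_of_nonpos h, neg_neg]
lemma w_of_nonneg {x : ℝ} (h : 0 ≤ x) : w x = Real.exp (-x) := by
  unfold w; rw [abs_of_nonneg h]
lemma om_of_nonpos {x : ℝ} (h : x ≤ 0) : om x = Real.exp x := by
  unfold om; rw [min_eq_left h]
lemma om_of_nonneg {x : ℝ} (h : 0 ≤ x) : om x = 1 := by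
  unfold om; rw [min_eq_right h, Real.exp_zero]
lemma w_eq_om_mul (x : ℝ) : w x = om x * om (-x) := by
  rcases le_total x 0 with h | h
  · rw [w_of_nonpos h, om_of_nonpos h, om_of_nonneg (by linarith), mul_one]
  · rw [w_of_nonneg h, om_of_nonneg h, om_of_nonpos (by linarith), one_mul]
lemma w_mul_exp_abs (x : ℝ) : w x * Real.exp |x| = 1 := by
  unfold w; rw [← Real.exp_add]; simp

lemma w_le_exp_mul (x y : ℝ) : w y ≤ Real.exp |y - x| * w x := by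
  unfold w; rw [← Real.exp_add, Real.exp_le_exp]
  have := abs_sub_abs_le_abs_sub x y
  rw [abs_sub_comm] at this; linarith
lemma om_le_exp_mul (x y : ℝ) : om y ≤ Real.exp |y - x| * om x := by
  unfold om; rw [← Real.exp_add, Real.exp_le_exp]
  have h1 := le_abs_self (y - x)
  have h2 := abs_nonneg (y - x)
  rcases le_total x 0 with h | h
  · rw [min_eq_left h]; have := min_le_left y 0; linarith
  · rw [min_eq_right h]; have := min_le_right y 0; linarith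

lemma exp_half_le : Real.exp (1 / 2) ≤ 2 := by
  have h : Real.exp (1 / 2) * Real.exp (1 / 2) = Real.exp 1 := by rw [← Real.exp_add]; norm_num
  have h2 := Real.exp_one_lt_d9
  nlinarith [Real.exp_pos (1 / 2)]
lemma exp_le_two {a : ℝ} (h : a ≤ 1 / 2) : Real.exp a ≤ 2 :=
  (Real.exp_le_exp.2 h).trans exp_half_le
lemma exp_le_one_add_two_mul {a : ℝ} (h0 : 0 ≤ a) (h : a ≤ 1) : Real.exp a ≤ 1 + 2 * a := by
  have := Real.abs_exp_sub_one_le (x := a) (by rwa [abs_of_nonneg h0])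
  rw [abs_of_nonneg h0] at this
  linarith [le_abs_self (Real.exp a - 1)]

lemma w_le_two_mul {x y : ℝ} (h : |y - x| ≤ 1 / 2) : w y ≤ 2 * w x :=
  (w_le_exp_mul x y).trans (mul_le_mul_of_nonneg_right (exp_le_two h) (w_nonneg _))
lemma om_le_two_mul {x y : ℝ} (h : |y - x| ≤ 1 / 2) : om y ≤ 2 * om x :=
  (om_le_exp_mul x y).trans (mul_le_mul_of_nonneg_right (exp_le_two h) (om_nonneg _))
lemma abs_re_sub_le (a b : ℂ) : |a.re - b.re| ≤ ‖a - b‖ := by
  rw [← Complex.sub_re]; exact Complex.abs_re_le_norm _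
lemma abs_im_sub_le (a b : ℂ) : |a.im - b.im| ≤ ‖a - b‖ := by
  rw [← Complex.sub_im]; exact Complex.abs_im_le_norm _
lemma w_re_le_two_mul {a b : ℂ} (h : ‖b - a‖ ≤ 1 / 2) : w b.re ≤ 2 * w a.re :=
  w_le_two_mul ((abs_re_sub_le b a).trans h)
lemma om_re_le_two_mul {a b : ℂ} (h : ‖b - a‖ ≤ 1 / 2) : om b.re ≤ 2 * om a.re :=
  om_le_two_mul ((abs_re_sub_le b a).trans h)
lemma w_pow_le {x : ℝ} {m n : ℕ} (h : m ≤ n) : w x ^ n ≤ w x ^ m :=
  pow_le_pow_of_le_one (w_nonneg x) (w_le_one x) h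
lemma continuous_om : Continuous om := by unfold om; fun_prop
lemma continuous_w : Continuous w := by unfold w; fun_prop

/-! ### strips -/

lemma mem_St {ρ : ℝ} {τ : ℂ} : τ ∈ St ρ ↔ |τ.im| < ρ := Iff.rfl
lemma mem_Dom {ρ c : ℝ} {τ : ℂ} : τ ∈ Dom ρ c ↔ |τ.im| < ρ + c * om τ.re := Iff.rfl
lemma isOpen_St (ρ : ℝ) : IsOpen (St ρ) :=
  isOpen_lt (by fun_prop) continuous_const
lemma isOpen_Dom (ρ c : ℝ) : IsOpen (Dom ρ c) :=
  isOpen_lt (by fun_prop) (continuous_const.add (continuous_const.mul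
    (continuous_om.comp Complex.continuous_re)))
lemma convex_St (ρ : ℝ) : Convex ℝ (St ρ) := by
  have : St ρ = {τ : ℂ | -ρ < τ.im} ∩ {τ : ℂ | τ.im < ρ} := by
    ext τ; simp [St, abs_lt]
  rw [this]
  exact (convex_halfSpace_im_gt _).inter (convex_halfSpace_im_lt _)
lemma St_mono {ρ ρ' : ℝ} (h : ρ ≤ ρ') : St ρ ⊆ St ρ' := fun _ hτ => lt_of_lt_of_le hτ h
lemma Dom_mono {ρ ρ' c c' : ℝ} (h : ρ ≤ ρ') (hc : c ≤ c') : Dom ρ c ⊆ Dom ρ' c' := by
  intro τ hτ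
  have := mul_le_mul_of_nonneg_right hc (om_nonneg τ.re)
  rw [mem_Dom] at *; linarith
lemma St_subset_Dom {ρ c : ℝ} (hc : 0 ≤ c) : St ρ ⊆ Dom ρ c := by
  intro τ hτ
  have := mul_nonneg hc (om_nonneg τ.re)
  rw [mem_Dom]; rw [mem_St] at hτ; linarith
lemma Dom_subset_St {ρ c : ℝ} (hc : 0 ≤ c) : Dom ρ c ⊆ St (ρ + c) := by
  intro τ hτ
  have := mul_le_mul_of_nonneg_left (om_le_one τ.re) hc
  rw [mem_St]; rw [mem_Dom] at hτ; linarith
lemma ofReal_mem_St {ρ : ℝ} (h : 0 < ρ) (x : ℝ) : (x : ℂ) ∈ St ρ := by simpa [St] using h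
lemma add_real_mem_St {ρ : ℝ} {τ : ℂ} (h : τ ∈ St ρ) (a : ℝ) : τ + a ∈ St ρ := by
  simpa [St] using h
lemma sub_real_mem_St {ρ : ℝ} {τ : ℂ} (h : τ ∈ St ρ) (a : ℝ) : τ - a ∈ St ρ := by
  simpa [St] using h
lemma neg_mem_St {ρ : ℝ} {τ : ℂ} (h : τ ∈ St ρ) : -τ ∈ St ρ := by
  simpa [St] using h
lemma mem_St_of_norm_sub {ρ δ : ℝ} {τ x : ℂ} (h : τ ∈ St ρ) (hx : ‖x - τ‖ ≤ δ) :
    x ∈ St (ρ + δ) := by
  have h1 := abs_im_sub_le x τ
  have h2 := abs_sub_abs_le_abs_sub x.im τ.im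
  rw [mem_St] at *; linarith
lemma ball_subset_St {ρ δ : ℝ} {τ : ℂ} (h : τ ∈ St (ρ - δ)) : ball τ δ ⊆ St ρ := by
  intro x hx
  have := mem_St_of_norm_sub h (le_of_lt (mem_ball_iff_norm.1 hx))
  simpa using this
lemma diffAt_of_St {ρ : ℝ} {f : ℂ → ℂ} (hf : DifferentiableOn ℂ f (St ρ)) {τ : ℂ}
    (h : τ ∈ St ρ) : DifferentiableAt ℂ f τ := hf.differentiableAt ((isOpen_St ρ).mem_nhds h)
lemma diffAt_of_Dom {ρ c : ℝ} {f : ℂ → ℂ} (hf : DifferentiableOn ℂ f (Dom ρ c)) {τ : ℂ}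
    (h : τ ∈ Dom ρ c) : DifferentiableAt ℂ f τ := hf.differentiableAt ((isOpen_Dom ρ c).mem_nhds h)

/-! ### Schwarz and Cauchy estimates -/

lemma mapsTo_of_bound {f : ℂ → ℂ} {c : ℂ} {R B : ℝ} (hR : 0 < R)
    (hb : ∀ u ∈ ball c R, ‖f u‖ ≤ B) : Set.MapsTo f (ball c R) (closedBall (f c) (2 * B)) := by
  intro u hu
  rw [mem_closedBall_iff_norm]
  have h1 := hb u hu
  have h2 := hb c (mem_ball_self hR)
  linarith [norm_sub_le (f u) (f c)]

lemma schwarz1 {f : ℂ → ℂ} {c z : ℂ} {R B : ℝ} (hd : DifferentiableOn ℂ f (ball c R))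
    (hb : ∀ u ∈ ball c R, ‖f u‖ ≤ B) (hz : z ∈ ball c R) :
    ‖f z - f c‖ ≤ 2 * B / R * ‖z - c‖ := by
  have hR : 0 < R := nonempty_ball.mp ⟨_, hz⟩
  simpa [dist_eq_norm] using
    Complex.dist_le_div_mul_dist_of_mapsTo_ball hd (mapsTo_of_bound hR hb) hz

lemma cauchy1 {f : ℂ → ℂ} {c : ℂ} {R B : ℝ} (hR : 0 < R) (hd : DifferentiableOn ℂ f (ball c R))
    (hb : ∀ u ∈ ball c R, ‖f u‖ ≤ B) : ‖deriv f c‖ ≤ 2 * B / R :=
  Complex.norm_deriv_le_div_of_mapsTo_ball hd (mapsTo_of_bound hR hb) hR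

lemma schwarzN {f : ℂ → ℂ} {c z : ℂ} {R B : ℝ} (n : ℕ) (hd : DifferentiableOn ℂ f (ball c R))
    (hb : ∀ u ∈ ball c R, ‖f u‖ ≤ B) (h0 : f c = 0)
    (hn : f =o[𝓝 c] (fun u => ‖u - c‖ ^ n)) (hz : z ∈ ball c R) :
    ‖f z‖ ≤ B * (‖z - c‖ / R) ^ (n + 1) := by
  have := Complex.dist_le_mul_div_pow_of_mapsTo_ball_of_isLittleO (R₂ := B) (n := n) hd
    (by intro u hu; rw [h0, mem_closedBall_iff_norm, sub_zero]; exact hb u hu)
    (by simpa [h0] using hn) hz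
  simpa [h0, dist_eq_norm] using this

lemma schwarz2 {f : ℂ → ℂ} {c z f' : ℂ} {R B : ℝ} (hd : DifferentiableOn ℂ f (ball c R))
    (hb : ∀ u ∈ ball c R, ‖f u‖ ≤ B) (hf' : HasDerivAt f f' c) (hz : z ∈ ball c R) :
    ‖f z - f c - f' * (z - c)‖ ≤ 4 * B * (‖z - c‖ / R) ^ 2 := by
  have hR : 0 < R := nonempty_ball.mp ⟨_, hz⟩
  have hc : ‖f'‖ ≤ 2 * B / R := by rw [← hf'.deriv]; exact cauchy1 hR hd hb
  refine schwarzN (f := fun u => f u - f c - f' * (u - c)) 1 ?_ ?_ (by simp) ?_ hz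
  · exact (hd.sub_const _).sub (by fun_prop)
  · intro u hu
    have h1 := hb u hu
    have h2 := hb c (mem_ball_self hR)
    have h3 : ‖f' * (u - c)‖ ≤ 2 * B := by
      rw [norm_mul]
      have h4 : ‖u - c‖ ≤ R := le_of_lt (mem_ball_iff_norm.1 hu)
      calc ‖f'‖ * ‖u - c‖ ≤ (2 * B / R) * R := by gcongr; exact (norm_nonneg _).trans hc
        _ = 2 * B := by field_simp
    linarith [norm_sub_le (f u - f c) (f' * (u - c)), norm_sub_le (f u) (f c)]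
  · have := hf'.isLittleO
    simp only [smul_eq_mul, pow_one] at this ⊢
    simpa [mul_comm] using this.norm_right

lemma lip_line {F : ℂ → ℂ} {B d : ℝ} (hd0 : 0 < d) (hd : DifferentiableOn ℂ F (ball 0 1))
    (hb : ∀ u ∈ ball (0 : ℂ) 1, ‖F u‖ ≤ B) (hB : ‖F d‖ ≤ B) : ‖F d - F 0‖ ≤ 2 * B * d := by
  have h0 := hb 0 (mem_ball_self one_pos)
  rcases lt_or_ge d 1 with h | h
  · have := schwarz1 hd hb (z := (d : ℂ)) (by simpa [abs_of_pos hd0] using h)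
    simpa [abs_of_pos hd0] using this
  · have hB0 : 0 ≤ B := (norm_nonneg _).trans h0
    nlinarith [norm_sub_le (F d) (F 0)]

/-- mean value inequality on a convex set -/
lemma mvt {f f' : ℂ → ℂ} {s : Set ℂ} {C : ℝ} (hs : Convex ℝ s)
    (hf : ∀ u ∈ s, HasDerivAt f (f' u) u) (hb : ∀ u ∈ s, ‖f' u‖ ≤ C) {x y : ℂ} (hx : x ∈ s)
    (hy : y ∈ s) : ‖f y - f x‖ ≤ C * ‖y - x‖ :=
  hs.norm_image_sub_le_of_norm_hasDerivWithin_le (fun u hu => (hf u hu).hasDerivWithinAt) hb hx hy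

/-- Cauchy estimate on strips -/
lemma deriv_le_of_St {ρ δ B : ℝ} {f : ℂ → ℂ} (hδ : 0 < δ) (hf : DifferentiableOn ℂ f (St ρ))
    (hb : ∀ τ ∈ St ρ, ‖f τ‖ ≤ B) {τ : ℂ} (h : τ ∈ St (ρ - δ)) : ‖deriv f τ‖ ≤ 2 * B / δ :=
  cauchy1 hδ (hf.mono (ball_subset_St h)) (fun u hu => hb u (ball_subset_St h hu))

lemma diffOn_deriv_St {ρ : ℝ} {f : ℂ → ℂ} (hf : DifferentiableOn ℂ f (St ρ)) :
    DifferentiableOn ℂ (deriv f) (St ρ) := hf.deriv (isOpen_St ρ)

/-- the derivative of a function real on the reals is real on the reals -/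
lemma im_deriv_eq_zero {f : ℂ → ℂ} (hre : IsRe f) {x : ℝ} (hf : DifferentiableAt ℂ f x) :
    (deriv f x).im = 0 := by
  have h1 : HasDerivAt (fun t : ℝ => f t) (deriv f x) x := hf.hasDerivAt.comp_ofReal
  have h2 : HasDerivAt (fun t : ℝ => (f t).im) (deriv f x).im x :=
    Complex.imCLM.hasFDerivAt.comp_hasDerivAt x h1
  have h3 : (fun t : ℝ => (f t).im) = fun _ => 0 := funext hre
  rw [h3] at h2
  exact h2.unique (hasDerivAt_const x 0)

end Pool.Agent.MP_be9872_an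

end

-- part MP_be9872_an.Sums
section

set_option autoImplicit false
open Filter Topology Asymptotics Metric

namespace Pool.Agent.MP_be9872_an

/-- sum over the left half orbit -/
noncomputable def sumL (l : ℝ) (f : ℂ → ℂ) (τ : ℂ) : ℂ := ∑' n : ℕ, f (τ - (n * l : ℝ))
/-- sum over the right half orbit -/
noncomputable def sumR (l : ℝ) (f : ℂ → ℂ) (τ : ℂ) : ℂ := ∑' n : ℕ, f (τ + ((n + 1) * l : ℝ))
/-- sum over the whole orbit -/
noncomputable def sumZ (l : ℝ) (f : ℂ → ℂ) (τ : ℂ) : ℂ := sumL l f τ + sumR l f τ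

lemma w_le_tele {l : ℝ} (hl : 0 < l) (hl1 : l ≤ 1 / 10) (y : ℝ) :
    w y ≤ 5 / l * (Real.exp (y + l) / (1 + Real.exp (y + l)) - Real.exp y / (1 + Real.exp y)) := by
  have ha := Real.exp_pos y
  have hb1 : 1 + l ≤ Real.exp l := by linarith [Real.add_one_le_exp l]
  have hb2 : Real.exp l ≤ 1 + 2 * l := exp_le_one_add_two_mul hl.le (by linarith)
  rw [Real.exp_add]
  set a := Real.exp y with ha'
  set b := Real.exp l
  have hw : w y * (1 + a) ^ 2 ≤ 4 * a := by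
    rcases le_total y 0 with h | h
    · have h1 : a ≤ 1 := by rw [ha', Real.exp_le_one_iff]; exact h
      rw [w_of_nonpos h, ← ha']
      have : (1 + a) ^ 2 ≤ 4 := by nlinarith
      nlinarith
    · have h1 : 1 ≤ a := by rw [ha']; exact Real.one_le_exp h
      rw [w_of_nonneg h, Real.exp_neg, ← ha', inv_mul_le_iff₀ ha]
      nlinarith
  have e : a * b / (1 + a * b) - a / (1 + a) = a * (b - 1) / ((1 + a * b) * (1 + a)) := by
    have hb0 : 0 < b := by linarith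
    have h1 : (1 + a * b) ≠ 0 := by positivity
    have h2 : (1 + a) ≠ 0 := by positivity
    rw [div_sub_div _ _ h1 h2]; congr 1; ring
  rw [e, div_mul_div_comm, le_div_iff₀ (by positivity)]
  have hw0 := w_nonneg y
  have h2 : 1 + a * b ≤ (6 / 5) * (1 + a) := by nlinarith
  calc w y * (l * ((1 + a * b) * (1 + a))) ≤ w y * (l * ((6 / 5) * (1 + a) * (1 + a))) := by
        gcongr
    _ = (6 / 5) * l * (w y * (1 + a) ^ 2) := by ring
    _ ≤ (6 / 5) * l * (4 * a) := by gcongr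
    _ ≤ 5 * (a * (b - 1)) := by nlinarith

lemma logistic_le_om (y : ℝ) : Real.exp y / (1 + Real.exp y) ≤ om y := by
  have ha := Real.exp_pos y
  rw [div_le_iff₀ (by positivity)]
  rcases le_total y 0 with h | h
  · rw [om_of_nonpos h]; nlinarith
  · rw [om_of_nonneg h]; linarith

lemma sum_range_w_left {l : ℝ} (hl : 0 < l) (hl1 : l ≤ 1 / 10) (x : ℝ) (N : ℕ) :
    ∑ n ∈ Finset.range N, w (x - (n + 1) * l) ≤ 5 / l * om x := by
  have key : ∑ n ∈ Finset.range N, w (x - (n + 1) * l) ≤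
      5 / l * (Real.exp x / (1 + Real.exp x) -
        Real.exp (x - N * l) / (1 + Real.exp (x - N * l))) := by
    induction N with
    | zero => simp
    | succ N ih =>
      rw [Finset.sum_range_succ]
      have := w_le_tele hl hl1 (x - (N + 1) * l)
      have e : x - (N + 1) * l + l = x - N * l := by ring
      rw [e] at this
      push_cast
      linarith
  refine key.trans ?_
  have h1 := logistic_le_om x
  have h2 : 0 ≤ Real.exp (x - N * l) / (1 + Real.exp (x - N * l)) := by positivity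
  gcongr
  linarith

lemma summable_w_left' {l : ℝ} (hl : 0 < l) (hl1 : l ≤ 1 / 10) (x : ℝ) :
    Summable (fun n : ℕ => w (x - (n + 1) * l)) :=
  summable_of_sum_range_le (fun _ => w_nonneg _) (sum_range_w_left hl hl1 x)

lemma tsum_w_left' {l : ℝ} (hl : 0 < l) (hl1 : l ≤ 1 / 10) (x : ℝ) :
    ∑' n : ℕ, w (x - (n + 1) * l) ≤ 5 / l * om x :=
  Real.tsum_le_of_sum_range_le (fun _ => w_nonneg _) (sum_range_w_left hl hl1 x)

lemma summable_w_left {l : ℝ} (hl : 0 < l) (hl1 : l ≤ 1 / 10) (x : ℝ) :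
    Summable (fun n : ℕ => w (x - n * l)) := by
  rw [← summable_nat_add_iff 1]
  simpa using summable_w_left' hl hl1 x

lemma tsum_w_left {l : ℝ} (hl : 0 < l) (hl1 : l ≤ 1 / 10) (x : ℝ) :
    ∑' n : ℕ, w (x - n * l) ≤ 6 / l * om x := by
  rw [(summable_w_left hl hl1 x).tsum_eq_zero_add]
  have h1 := tsum_w_left' hl hl1 x
  have h2 := w_le_om x
  have h3 : om x ≤ 1 / l * om x := by
    have : 1 ≤ 1 / l := by rw [le_div_iff₀ hl]; linarith
    nlinarith [om_pos x]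
  simp only [CharP.cast_eq_zero, zero_mul, sub_zero, Nat.cast_add, Nat.cast_one]
  have e : 6 / l * om x = 1 / l * om x + 5 / l * om x := by ring
  linarith

lemma w_right_eq (x l : ℝ) (n : ℕ) : w (x + (n + 1) * l) = w (-x - (n + 1) * l) := by
  rw [← w_neg]; congr 1; ring

lemma summable_w_right {l : ℝ} (hl : 0 < l) (hl1 : l ≤ 1 / 10) (x : ℝ) :
    Summable (fun n : ℕ => w (x + (n + 1) * l)) := by
  simpa only [w_right_eq] using summable_w_left' hl hl1 (-x)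

lemma tsum_w_right {l : ℝ} (hl : 0 < l) (hl1 : l ≤ 1 / 10) (x : ℝ) :
    ∑' n : ℕ, w (x + (n + 1) * l) ≤ 5 / l * om (-x) := by
  simpa only [w_right_eq] using tsum_w_left' hl hl1 (-x)

/-- sequence version, left -/
lemma seq_left {l : ℝ} (hl : 0 < l) (hl1 : l ≤ 1 / 10) {a : ℕ → ℂ} {B x : ℝ} (hB : 0 ≤ B)
    (h : ∀ n : ℕ, ‖a n‖ ≤ B * w (x - n * l)) :
    Summable a ∧ ‖∑' n, a n‖ ≤ 6 * B / l * om x := by
  have hs := (summable_w_left hl hl1 x).mul_left B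
  refine ⟨Summable.of_norm_bounded hs h, ?_⟩
  refine (tsum_of_norm_bounded hs.hasSum h).trans ?_
  rw [tsum_mul_left]
  calc B * ∑' n : ℕ, w (x - n * l) ≤ B * (6 / l * om x) := by
        gcongr; exact tsum_w_left hl hl1 x
    _ = _ := by ring

/-- sequence version, right -/
lemma seq_right {l : ℝ} (hl : 0 < l) (hl1 : l ≤ 1 / 10) {a : ℕ → ℂ} {B x : ℝ} (hB : 0 ≤ B)
    (h : ∀ n : ℕ, ‖a n‖ ≤ B * w (x + (n + 1) * l)) :
    Summable a ∧ ‖∑' n, a n‖ ≤ 5 * B / l * om (-x) := by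
  have hs := (summable_w_right hl hl1 x).mul_left B
  refine ⟨Summable.of_norm_bounded hs h, ?_⟩
  refine (tsum_of_norm_bounded hs.hasSum h).trans ?_
  rw [tsum_mul_left]
  calc B * ∑' n : ℕ, w (x + (n + 1) * l) ≤ B * (5 / l * om (-x)) := by
        gcongr; exact tsum_w_right hl hl1 x
    _ = _ := by ring

/-- `f` is bounded on the horizontal line through `τ` by a shifted weight -/
def LineBd (f : ℂ → ℂ) (τ : ℂ) (B L : ℝ) : Prop :=
  ∀ a : ℝ, ‖f (τ + a)‖ ≤ B * w (τ.re + a - L)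

lemma LineBd.nonneg {f : ℂ → ℂ} {τ : ℂ} {B L : ℝ} (h : LineBd f τ B L) : 0 ≤ B := by
  have := (norm_nonneg _).trans (h 0)
  exact nonneg_of_mul_nonneg_left this (w_pos _)

lemma lineBd_of_St {f : ℂ → ℂ} {ρ B L : ℝ} (h : ∀ τ ∈ St ρ, ‖f τ‖ ≤ B * w (τ.re - L)) {τ : ℂ}
    (hτ : τ ∈ St ρ) : LineBd f τ B L := fun a => by
  simpa using h _ (add_real_mem_St hτ a)

lemma lineBd_of_St0 {f : ℂ → ℂ} {ρ B : ℝ} (h : ∀ τ ∈ St ρ, ‖f τ‖ ≤ B * w τ.re) {τ : ℂ}
    (hτ : τ ∈ St ρ) : LineBd f τ B 0 := lineBd_of_St (by simpa using h) hτ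

lemma LineBd.shift {f : ℂ → ℂ} {τ : ℂ} {B L : ℝ} (h : LineBd f τ B L) (b : ℝ) :
    LineBd f (τ + b) B L := fun a => by
  have := h (b + a)
  simp only [Complex.ofReal_add, Complex.add_re, Complex.ofReal_re] at this ⊢
  rwa [add_assoc, add_assoc]

section line
variable {l : ℝ} (hl : 0 < l) (hl1 : l ≤ 1 / 10) {f g : ℂ → ℂ} {τ : ℂ} {B L B' L' : ℝ}
include hl hl1

lemma LineBd.left (h : LineBd f τ B L) :
    Summable (fun n : ℕ => f (τ - (n * l : ℝ))) ∧ ‖sumL l f τ‖ ≤ 6 * B / l * om (τ.re - L) := by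
  refine seq_left hl hl1 h.nonneg (fun n => ?_)
  have := h (-(n * l))
  rw [Complex.ofReal_neg, ← sub_eq_add_neg] at this
  rwa [show τ.re + -(n * l) - L = τ.re - L - n * l by ring] at this

lemma LineBd.right (h : LineBd f τ B L) :
    Summable (fun n : ℕ => f (τ + ((n + 1) * l : ℝ))) ∧
      ‖sumR l f τ‖ ≤ 5 * B / l * om (-(τ.re - L)) := by
  refine seq_right hl hl1 h.nonneg (fun n => ?_)
  have := h ((n + 1) * l)
  rwa [show τ.re + (n + 1) * l - L = τ.re - L + (n + 1) * l by ring] at this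

lemma LineBd.norm_sumZ (h : LineBd f τ B L) : ‖sumZ l f τ‖ ≤ 11 * B / l := by
  have h1 := (h.left hl hl1).2
  have h2 := (h.right hl hl1).2
  have hB := h.nonneg
  have h3 : 6 * B / l * om (τ.re - L) ≤ 6 * B / l :=
    mul_le_of_le_one_right (by positivity) (om_le_one _)
  have h4 : 5 * B / l * om (-(τ.re - L)) ≤ 5 * B / l :=
    mul_le_of_le_one_right (by positivity) (om_le_one _)
  have e : 11 * B / l = 6 * B / l + 5 * B / l := by ring
  unfold sumZ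
  linarith [norm_add_le (sumL l f τ) (sumR l f τ)]

lemma LineBd.sumL_step (h : LineBd f τ B L) : sumL l f τ = f τ + sumL l f (τ - l) := by
  unfold sumL
  rw [(h.left hl hl1).1.tsum_eq_zero_add]
  congr 1
  · simp
  · congr 1; ext n; congr 1; push_cast; ring

lemma LineBd.sumR_step (h : LineBd f τ B L) : sumR l f τ = f (τ + l) + sumR l f (τ + l) := by
  unfold sumR
  rw [(h.right hl hl1).1.tsum_eq_zero_add]
  congr 1
  · simp
  · congr 1; ext n; congr 1; push_cast; ring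

lemma LineBd.sumZ_shift (h : LineBd f τ B L) : sumZ l f (τ + l) = sumZ l f τ := by
  unfold sumZ
  rw [(h.shift l).sumL_step hl hl1, h.sumR_step hl hl1, add_sub_cancel_right]
  ring

lemma LineBd.sumL_add (h : LineBd f τ B L) (h' : LineBd g τ B' L') :
    sumL l (fun x => f x + g x) τ = sumL l f τ + sumL l g τ :=
  (h.left hl hl1).1.tsum_add (h'.left hl hl1).1

lemma LineBd.sumR_add (h : LineBd f τ B L) (h' : LineBd g τ B' L') :
    sumR l (fun x => f x + g x) τ = sumR l f τ + sumR l g τ :=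
  (h.right hl hl1).1.tsum_add (h'.right hl hl1).1

lemma LineBd.sumZ_add (h : LineBd f τ B L) (h' : LineBd g τ B' L') :
    sumZ l (fun x => f x + g x) τ = sumZ l f τ + sumZ l g τ := by
  unfold sumZ; rw [h.sumL_add hl hl1 h', h.sumR_add hl hl1 h']; ring

lemma LineBd.sumL_sub (h : LineBd f τ B L) (h' : LineBd g τ B' L') :
    sumL l (fun x => f x - g x) τ = sumL l f τ - sumL l g τ :=
  (h.left hl hl1).1.tsum_sub (h'.left hl hl1).1

lemma LineBd.sumR_sub (h : LineBd f τ B L) (h' : LineBd g τ B' L') :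
    sumR l (fun x => f x - g x) τ = sumR l f τ - sumR l g τ :=
  (h.right hl hl1).1.tsum_sub (h'.right hl hl1).1

lemma LineBd.sumZ_sub (h : LineBd f τ B L) (h' : LineBd g τ B' L') :
    sumZ l (fun x => f x - g x) τ = sumZ l f τ - sumZ l g τ := by
  unfold sumZ; rw [h.sumL_sub hl hl1 h', h.sumR_sub hl hl1 h']; ring

end line

lemma sumL_congr {l : ℝ} {f g : ℂ → ℂ} {τ : ℂ} (h : ∀ a : ℝ, f (τ + a) = g (τ + a)) :
    sumL l f τ = sumL l g τ := by
  unfold sumL; congr 1; ext n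
  have := h (-(n * l)); rwa [Complex.ofReal_neg, ← sub_eq_add_neg] at this

lemma sumR_congr {l : ℝ} {f g : ℂ → ℂ} {τ : ℂ} (h : ∀ a : ℝ, f (τ + a) = g (τ + a)) :
    sumR l f τ = sumR l g τ := by
  unfold sumR; congr 1; ext n; exact h _

lemma sumZ_congr {l : ℝ} {f g : ℂ → ℂ} {τ : ℂ} (h : ∀ a : ℝ, f (τ + a) = g (τ + a)) :
    sumZ l f τ = sumZ l g τ := by
  unfold sumZ; rw [sumL_congr h, sumR_congr h]

lemma sumZ_congr_St {l ρ : ℝ} {f g : ℂ → ℂ} {τ : ℂ} (h : ∀ x ∈ St ρ, f x = g x)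
    (hτ : τ ∈ St ρ) : sumZ l f τ = sumZ l g τ :=
  sumZ_congr fun a => h _ (add_real_mem_St hτ a)

lemma sumL_congr_St {l ρ : ℝ} {f g : ℂ → ℂ} {τ : ℂ} (h : ∀ x ∈ St ρ, f x = g x)
    (hτ : τ ∈ St ρ) : sumL l f τ = sumL l g τ :=
  sumL_congr fun a => h _ (add_real_mem_St hτ a)

lemma sumZ_comp_shift (l : ℝ) (f : ℂ → ℂ) (τ : ℂ) (b : ℂ) :
    sumZ l (fun x => f (x + b)) τ = sumZ l f (τ + b) := by
  unfold sumZ sumL sumR
  congr 1
  · exact tsum_congr fun n => by simp only []; congr 1; ring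
  · exact tsum_congr fun n => by simp only []; congr 1; ring

lemma sumL_mul_left (l : ℝ) (c : ℂ) (f : ℂ → ℂ) (τ : ℂ) :
    sumL l (fun x => c * f x) τ = c * sumL l f τ := tsum_mul_left

lemma sumZ_mul_left (l : ℝ) (c : ℂ) (f : ℂ → ℂ) (τ : ℂ) :
    sumZ l (fun x => c * f x) τ = c * sumZ l f τ := by
  unfold sumZ sumL sumR; rw [tsum_mul_left, tsum_mul_left]; ring

lemma per_nat {l ρ : ℝ} {p : ℂ → ℂ} (hp : ∀ τ ∈ St ρ, p (τ + l) = p τ) {τ : ℂ} (hτ : τ ∈ St ρ)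
    (n : ℕ) : p (τ + (n * l : ℝ)) = p τ ∧ p (τ - (n * l : ℝ)) = p τ := by
  induction n with
  | zero => simp
  | succ n ih =>
    constructor
    · rw [← ih.1, ← hp _ (add_real_mem_St hτ (n * l))]; congr 1; push_cast; ring
    · rw [← ih.2, ← hp _ (sub_real_mem_St hτ (((n + 1 : ℕ) : ℝ) * l))]; congr 1; push_cast; ring

/-- a periodic factor comes out of the sum -/
lemma sumZ_per_mul {l ρ : ℝ} {p f : ℂ → ℂ} (hp : ∀ τ ∈ St ρ, p (τ + l) = p τ) {τ : ℂ}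
    (hτ : τ ∈ St ρ) : sumZ l (fun x => p x * f x) τ = p τ * sumZ l f τ := by
  rw [← sumZ_mul_left]
  unfold sumZ sumL sumR
  congr 1
  · exact tsum_congr fun n => by simp only []; rw [(per_nat hp hτ n).2]
  · refine tsum_congr fun n => ?_
    have := (per_nat hp hτ (n + 1)).1
    rw [Nat.cast_add, Nat.cast_one] at this
    simp only []
    rw [this]

/-- telescoping, left -/
lemma sumL_tele {l : ℝ} {F : ℂ → ℂ} {τ a : ℂ}
    (hs : Summable (fun n : ℕ => F (τ - (n * l : ℝ)) - F (τ - (n * l : ℝ) - l)))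
    (ha : Tendsto (fun n : ℕ => F (τ - (n * l : ℝ))) atTop (𝓝 a)) :
    sumL l (fun x => F x - F (x - l)) τ = F τ - a := by
  unfold sumL
  refine tendsto_nhds_unique hs.hasSum.tendsto_sum_nat ?_
  have : ∀ N : ℕ, ∑ n ∈ Finset.range N, (F (τ - (n * l : ℝ)) - F (τ - (n * l : ℝ) - l)) =
      F τ - F (τ - (N * l : ℝ)) := by
    intro N
    induction N with
    | zero => simp
    | succ N ih =>
      rw [Finset.sum_range_succ, ih]
      have : τ - (N * l : ℝ) - l = τ - (((N + 1 : ℕ) : ℝ) * l : ℝ) := by push_cast; ring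
      rw [this]; ring
  simp only [this]
  exact ha.const_sub _

/-- telescoping, right -/
lemma sumR_tele {l : ℝ} {F : ℂ → ℂ} {τ b : ℂ}
    (hs : Summable (fun n : ℕ => F (τ + ((n + 1) * l : ℝ)) - F (τ + ((n + 1) * l : ℝ) - l)))
    (hb : Tendsto (fun n : ℕ => F (τ + (n * l : ℝ))) atTop (𝓝 b)) :
    sumR l (fun x => F x - F (x - l)) τ = b - F τ := by
  unfold sumR
  refine tendsto_nhds_unique hs.hasSum.tendsto_sum_nat ?_
  have : ∀ N : ℕ, ∑ n ∈ Finset.range N,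
      (F (τ + ((n + 1) * l : ℝ)) - F (τ + ((n + 1) * l : ℝ) - l)) =
      F (τ + (N * l : ℝ)) - F τ := by
    intro N
    induction N with
    | zero => simp
    | succ N ih =>
      rw [Finset.sum_range_succ, ih]
      have h1 : τ + ((N + 1) * l : ℝ) - l = τ + (N * l : ℝ) := by push_cast; ring
      have h2 : τ + ((N + 1) * l : ℝ) = τ + (((N + 1 : ℕ) : ℝ) * l : ℝ) := by push_cast; ring
      rw [h1, h2]; ring
  simp only [this]
  exact hb.sub_const _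

lemma tendsto_w_left {l : ℝ} (hl : 0 < l) (hl1 : l ≤ 1 / 10) (x : ℝ) :
    Tendsto (fun n : ℕ => w (x - n * l)) atTop (𝓝 0) :=
  (summable_w_left hl hl1 x).tendsto_atTop_zero

lemma tendsto_om_left {l : ℝ} (hl : 0 < l) (x : ℝ) :
    Tendsto (fun n : ℕ => om (x - n * l)) atTop (𝓝 0) := by
  refine squeeze_zero (fun _ => om_nonneg _) (fun _ => om_le_exp _) ?_
  refine Real.tendsto_exp_atBot.comp ?_
  exact tendsto_atBot_add_const_left _ _
    (tendsto_neg_atTop_atBot.comp (tendsto_natCast_atTop_atTop.atTop_mul_const hl))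

/-! ### reality -/

lemma im_tsum_eq_zero {a : ℕ → ℂ} (h : ∀ n, (a n).im = 0) : (∑' n, a n).im = 0 := by
  have : a = fun n => (((a n).re : ℝ) : ℂ) := by
    ext n; apply Complex.ext <;> simp [h n]
  rw [this, ← Complex.ofReal_tsum]; simp

lemma IsRe.sumL {f : ℂ → ℂ} (h : IsRe f) (l : ℝ) : IsRe (sumL l f) := fun x =>
  im_tsum_eq_zero fun n => by rw [← Complex.ofReal_sub]; exact h _

lemma IsRe.sumR {f : ℂ → ℂ} (h : IsRe f) (l : ℝ) : IsRe (sumR l f) := fun x =>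
  im_tsum_eq_zero fun n => by rw [← Complex.ofReal_add]; exact h _

lemma IsRe.sumZ {f : ℂ → ℂ} (h : IsRe f) (l : ℝ) : IsRe (sumZ l f) := fun x => by
  unfold MP_be9872_an.sumZ
  rw [Complex.add_im, h.sumL l x, h.sumR l x, add_zero]

/-! ### differentiability -/

section diff
variable {l ρ B L : ℝ} (hl : 0 < l) (hl1 : l ≤ 1 / 10) {f : ℂ → ℂ}
  (hf : DifferentiableOn ℂ f (St ρ)) (hb : ∀ τ ∈ St ρ, ‖f τ‖ ≤ B * w (τ.re - L))
include hl hl1 hf hb

lemma sumL_local {τ : ℂ} (hτ : τ ∈ St ρ) :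
    DifferentiableAt ℂ (sumL l f) τ ∧
      HasSum (fun n : ℕ => deriv f (τ - (n * l : ℝ))) (deriv (sumL l f) τ) := by
  have hB : 0 ≤ B := (lineBd_of_St hb hτ).nonneg
  have hU : IsOpen (St ρ ∩ ball τ (1 / 2)) := (isOpen_St ρ).inter isOpen_ball
  have hm : τ ∈ St ρ ∩ ball τ (1 / 2) := ⟨hτ, mem_ball_self (by norm_num)⟩
  have hs := (summable_w_left hl hl1 (τ.re - L)).mul_left (2 * B)
  have hd : ∀ n : ℕ, DifferentiableOn ℂ (fun x => f (x - (n * l : ℝ))) (St ρ ∩ ball τ (1 / 2)) :=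
    fun n => hf.comp (by fun_prop) (fun x hx => sub_real_mem_St hx.1 _)
  have hle : ∀ (n : ℕ) (x : ℂ), x ∈ St ρ ∩ ball τ (1 / 2) →
      ‖f (x - (n * l : ℝ))‖ ≤ 2 * B * w (τ.re - L - n * l) := by
    intro n x hx
    refine (hb _ (sub_real_mem_St hx.1 _)).trans ?_
    have : w ((x - (n * l : ℝ)).re - L) ≤ 2 * w (τ.re - L - n * l) := by
      apply w_le_two_mul
      have h1 := abs_re_sub_le x τ
      have h2 := le_of_lt (mem_ball_iff_norm.1 hx.2)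
      simp only [Complex.sub_re, Complex.ofReal_re]
      rw [show x.re - n * l - L - (τ.re - L - n * l) = x.re - τ.re by ring]
      linarith
    nlinarith
  refine ⟨(Complex.differentiableOn_tsum_of_summable_norm hs hd hU hle).differentiableAt
    (hU.mem_nhds hm), ?_⟩
  have := Complex.hasSum_deriv_of_summable_norm hs hd hU hle hm
  simp only [deriv_comp_sub_const] at this
  exact this

lemma sumR_local {τ : ℂ} (hτ : τ ∈ St ρ) :
    DifferentiableAt ℂ (sumR l f) τ ∧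
      HasSum (fun n : ℕ => deriv f (τ + ((n + 1) * l : ℝ))) (deriv (sumR l f) τ) := by
  have hB : 0 ≤ B := (lineBd_of_St hb hτ).nonneg
  have hU : IsOpen (St ρ ∩ ball τ (1 / 2)) := (isOpen_St ρ).inter isOpen_ball
  have hm : τ ∈ St ρ ∩ ball τ (1 / 2) := ⟨hτ, mem_ball_self (by norm_num)⟩
  have hs := (summable_w_right hl hl1 (τ.re - L)).mul_left (2 * B)
  have hd : ∀ n : ℕ,
      DifferentiableOn ℂ (fun x => f (x + ((n + 1) * l : ℝ))) (St ρ ∩ ball τ (1 / 2)) :=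
    fun n => hf.comp (by fun_prop) (fun x hx => add_real_mem_St hx.1 _)
  have hle : ∀ (n : ℕ) (x : ℂ), x ∈ St ρ ∩ ball τ (1 / 2) →
      ‖f (x + ((n + 1) * l : ℝ))‖ ≤ 2 * B * w (τ.re - L + (n + 1) * l) := by
    intro n x hx
    refine (hb _ (add_real_mem_St hx.1 _)).trans ?_
    have : w ((x + ((n + 1) * l : ℝ)).re - L) ≤ 2 * w (τ.re - L + (n + 1) * l) := by
      apply w_le_two_mul
      have h1 := abs_re_sub_le x τ
      have h2 := le_of_lt (mem_ball_iff_norm.1 hx.2)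
      simp only [Complex.add_re, Complex.ofReal_re]
      rw [show x.re + (n + 1) * l - L - (τ.re - L + (n + 1) * l) = x.re - τ.re by ring]
      linarith
    nlinarith
  refine ⟨(Complex.differentiableOn_tsum_of_summable_norm hs hd hU hle).differentiableAt
    (hU.mem_nhds hm), ?_⟩
  have := Complex.hasSum_deriv_of_summable_norm hs hd hU hle hm
  simp only [deriv_comp_add_const] at this
  exact this

lemma diffOn_sumL : DifferentiableOn ℂ (sumL l f) (St ρ) := fun _ hτ =>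
  (sumL_local hl hl1 hf hb hτ).1.differentiableWithinAt

lemma diffOn_sumR : DifferentiableOn ℂ (sumR l f) (St ρ) := fun _ hτ =>
  (sumR_local hl hl1 hf hb hτ).1.differentiableWithinAt

lemma diffOn_sumZ : DifferentiableOn ℂ (sumZ l f) (St ρ) :=
  (diffOn_sumL hl hl1 hf hb).add (diffOn_sumR hl hl1 hf hb)

lemma deriv_sumZ {τ : ℂ} (hτ : τ ∈ St ρ) : deriv (sumZ l f) τ = sumZ l (deriv f) τ := by
  have h1 := sumL_local hl hl1 hf hb hτ
  have h2 := sumR_local hl hl1 hf hb hτ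
  have : sumZ l f = fun x => sumL l f x + sumR l f x := rfl
  rw [this, deriv_fun_add h1.1 h2.1, ← h1.2.tsum_eq, ← h2.2.tsum_eq]
  rfl

end diff

end Pool.Agent.MP_be9872_an

end

-- part MP_be9872_an.Theta
section

set_option autoImplicit false
open Filter Topology Asymptotics Metric Complex

namespace Pool.Agent.MP_be9872_an

lemma cos_pos_of_abs_lt {y : ℝ} (h : |y| < 3 / 2) : 0 < Real.cos y := by
  apply Real.cos_pos_of_mem_Ioo
  have := Real.pi_gt_three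
  rw [abs_lt] at h
  constructor <;> linarith [h.1, h.2]

lemma cos_ge_of_abs_le {y : ℝ} (h : |y| ≤ 7 / 10) : 3 / 4 ≤ Real.cos y := by
  have h1 := Real.one_sub_sq_div_two_le_cos (x := y)
  have h2 : y ^ 2 ≤ (7 / 10) ^ 2 := by rw [← sq_abs]; gcongr
  linarith

lemma exp_re_pos {τ : ℂ} (h : τ ∈ St (3 / 2)) : 0 < (exp τ).re := by
  rw [exp_re]; exact mul_pos (Real.exp_pos _) (cos_pos_of_abs_lt h)

lemma hasDerivAt_arctan {u : ℂ} (h : u = 0 ∨ 0 < u.re) :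
    HasDerivAt Complex.arctan (1 / (1 + u ^ 2)) u := by
  have h1 : (1 : ℂ) - u * I ≠ 0 := by
    intro h0
    have := congrArg Complex.im h0
    rcases h with h | h
    · simp [h] at h0
    · simp at this; linarith
  have h2 : (1 : ℂ) + u * I ≠ 0 := by
    intro h0
    have := congrArg Complex.im h0
    rcases h with h | h
    · simp [h] at h0
    · simp at this; linarith
  have hs : (1 + u * I) / (1 - u * I) ∈ slitPlane := by
    rcases h with h | h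
    · simp [h]
    · right
      rw [div_im]
      have hn : 0 < normSq (1 - u * I) := normSq_pos.2 h1
      have : ((1 + u * I).im * (1 - u * I).re / normSq (1 - u * I) -
          (1 + u * I).re * (1 - u * I).im / normSq (1 - u * I)) =
          2 * u.re / normSq (1 - u * I) := by
        simp only [add_im, one_im, mul_im, I_im, I_re, sub_re, one_re, mul_re, add_re, sub_im]
        field_simp; ring
      rw [this]; positivity
  have hd : HasDerivAt (fun u : ℂ => (1 + u * I) / (1 - u * I))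
      ((I * (1 - u * I) - (1 + u * I) * (-I)) / (1 - u * I) ^ 2) u := by
    refine HasDerivAt.div ?_ ?_ h1
    · simpa using ((hasDerivAt_id u).mul_const I).const_add 1
    · simpa using ((hasDerivAt_id u).mul_const I).const_sub 1
  have := (hd.clog hs).const_mul (-I / 2)
  have e : (1 : ℂ) + u ^ 2 = (1 + u * I) * (1 - u * I) := by
    ring_nf; simp
  have e2 : 1 / (1 + u ^ 2) = -I / 2 * ((I * (1 - u * I) - (1 + u * I) * (-I)) / (1 - u * I) ^ 2 /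
      ((1 + u * I) / (1 - u * I))) := by
    rw [e]; field_simp; ring_nf; simp
  rw [e2]
  exact this

lemma one_add_exp_sq (τ : ℂ) : 1 + exp τ ^ 2 = 2 * exp τ * cosh τ := by
  have : exp τ * exp (-τ) = 1 := by rw [← Complex.exp_add]; simp
  unfold Complex.cosh
  linear_combination (-1) * this

lemma one_sub_exp_sq (τ : ℂ) : 1 - exp τ ^ 2 = -(2 * exp τ * sinh τ) := by
  have : exp τ * exp (-τ) = 1 := by rw [← Complex.exp_add]; simp
  unfold Complex.sinh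
  linear_combination (-1) * this

lemma re_cosh (τ : ℂ) : (cosh τ).re = Real.cosh τ.re * Real.cos τ.im := by
  unfold Complex.cosh
  rw [Real.cosh_eq]
  simp [exp_re]
  ring

lemma cosh_ne_zero {τ : ℂ} (h : τ ∈ St (3 / 2)) : cosh τ ≠ 0 := by
  intro h0
  have h1 := re_cosh τ
  rw [h0, zero_re] at h1
  have := mul_pos (Real.cosh_pos τ.re) (cos_pos_of_abs_lt h)
  linarith

lemma exp_abs_le_two_cosh (x : ℝ) : Real.exp |x| ≤ 2 * Real.cosh x := by
  rw [← Real.cosh_abs, Real.cosh_eq]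
  linarith [Real.exp_pos (-|x|)]

lemma norm_cosh_ge {τ : ℂ} (h : τ ∈ St (7 / 10)) : 3 / 8 * Real.exp |τ.re| ≤ ‖cosh τ‖ := by
  have h1 := re_cosh τ
  have h2 := cos_ge_of_abs_le (le_of_lt h)
  have h3 := exp_abs_le_two_cosh τ.re
  have h4 := re_le_norm (cosh τ)
  nlinarith [Real.cosh_pos τ.re]

lemma norm_exp_le_abs (τ : ℂ) : ‖exp τ‖ ≤ Real.exp |τ.re| := by
  rw [norm_exp]; exact Real.exp_le_exp.2 (le_abs_self _)

lemma norm_exp_neg_le_abs (τ : ℂ) : ‖exp (-τ)‖ ≤ Real.exp |τ.re| := by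
  simpa using norm_exp_le_abs (-τ)

lemma norm_cosh_le (τ : ℂ) : ‖cosh τ‖ ≤ Real.exp |τ.re| := by
  unfold Complex.cosh
  rw [norm_div, Complex.norm_two]
  linarith [norm_add_le (exp τ) (exp (-τ)), norm_exp_le_abs τ, norm_exp_neg_le_abs τ]

lemma norm_sinh_le (τ : ℂ) : ‖sinh τ‖ ≤ Real.exp |τ.re| := by
  unfold Complex.sinh
  rw [norm_div, Complex.norm_two]
  linarith [norm_sub_le (exp τ) (exp (-τ)), norm_exp_le_abs τ, norm_exp_neg_le_abs τ]

lemma St7_subset : St (7 / 10) ⊆ St (3 / 2) := St_mono (by norm_num)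

lemma norm_inv_cosh_le {τ : ℂ} (h : τ ∈ St (7 / 10)) : ‖1 / cosh τ‖ ≤ 3 * w τ.re := by
  have h1 := norm_cosh_ge h
  have h2 := w_mul_exp_abs τ.re
  have h3 : 0 < ‖cosh τ‖ := lt_of_lt_of_le (by positivity) h1
  rw [norm_div, norm_one, div_le_iff₀ h3]
  nlinarith [w_pos τ.re]

lemma norm_inv_cosh_ge {τ : ℂ} (h : τ ∈ St (3 / 2)) : w τ.re ≤ ‖1 / cosh τ‖ := by
  have h1 := norm_cosh_le τ
  have h2 := w_mul_exp_abs τ.re
  have h3 : 0 < ‖cosh τ‖ := norm_pos_iff.2 (cosh_ne_zero h)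
  rw [norm_div, norm_one, le_div_iff₀ h3]
  nlinarith [w_pos τ.re]

lemma Thp_eq (τ : ℂ) : Thp τ = 1 / 3 * (1 / cosh τ) := by
  unfold Thp; rw [div_mul_div_comm, mul_one]

lemma norm_Thp_le {τ : ℂ} (h : τ ∈ St (7 / 10)) : ‖Thp τ‖ ≤ w τ.re := by
  rw [Thp_eq, norm_mul]
  have := norm_inv_cosh_le h
  have e : ‖(1 / 3 : ℂ)‖ = 1 / 3 := by simp
  rw [e]; linarith

lemma norm_Thp_ge {τ : ℂ} (h : τ ∈ St (3 / 2)) : w τ.re / 3 ≤ ‖Thp τ‖ := by
  rw [Thp_eq, norm_mul]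
  have := norm_inv_cosh_ge h
  have e : ‖(1 / 3 : ℂ)‖ = 1 / 3 := by simp
  rw [e]; linarith

lemma Thp_ne_zero {τ : ℂ} (h : τ ∈ St (3 / 2)) : Thp τ ≠ 0 := by
  rw [← norm_pos_iff]; exact lt_of_lt_of_le (by linarith [w_pos τ.re]) (norm_Thp_ge h)

lemma norm_tanh_le {τ : ℂ} (h : τ ∈ St (7 / 10)) : ‖sinh τ / cosh τ‖ ≤ 3 := by
  have h1 := norm_inv_cosh_le h
  have h2 := norm_sinh_le τ
  have h3 := w_mul_exp_abs τ.re
  rw [div_eq_mul_one_div, norm_mul]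
  calc ‖sinh τ‖ * ‖1 / cosh τ‖ ≤ Real.exp |τ.re| * (3 * w τ.re) := by gcongr
    _ = 3 := by linarith

lemma hasDerivAt_Th {τ : ℂ} (h : τ ∈ St (3 / 2)) : HasDerivAt Th (Thp τ) τ := by
  have h1 := ((hasDerivAt_arctan (Or.inr (exp_re_pos h))).comp τ (Complex.hasDerivAt_exp τ)).const_mul
    (2 / 3 : ℂ)
  have e : Thp τ = 2 / 3 * (1 / (1 + exp τ ^ 2) * exp τ) := by
    rw [one_add_exp_sq]; unfold Thp
    have := cosh_ne_zero h
    have := exp_ne_zero τ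
    field_simp
  rw [e]; exact h1

lemma hasDerivAt_Thp {τ : ℂ} (h : τ ∈ St (3 / 2)) :
    HasDerivAt Thp (-(sinh τ / cosh τ) * Thp τ) τ := by
  have hc := cosh_ne_zero h
  have h1 := ((Complex.hasDerivAt_cosh τ).const_mul 3).inv (mul_ne_zero (by norm_num) hc)
  have e : Thp = (fun τ => 3 * cosh τ)⁻¹ := by ext τ; simp [Thp]
  have e2 : -(sinh τ / cosh τ) * Thp τ = -(3 * sinh τ) / (3 * cosh τ) ^ 2 := by
    unfold Thp; field_simp
  rw [e2, e]; exact h1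

lemma diffAt_Th {τ : ℂ} (h : τ ∈ St (3 / 2)) : DifferentiableAt ℂ Th τ :=
  (hasDerivAt_Th h).differentiableAt
lemma diffAt_Thp {τ : ℂ} (h : τ ∈ St (3 / 2)) : DifferentiableAt ℂ Thp τ :=
  (hasDerivAt_Thp h).differentiableAt

lemma tan_Th {τ : ℂ} (h : τ ∈ St (3 / 2)) : tan (3 * Th τ / 2) = exp τ := by
  have e : 3 * Th τ / 2 = arctan (exp τ) := by unfold Th; ring
  have hp := exp_re_pos h
  rw [e, tan_arctan]
  · intro h0; rw [h0] at hp; simp at hp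
  · intro h0; rw [h0] at hp; simp at hp

lemma cos_Th_ne {τ : ℂ} (h : τ ∈ St (3 / 2)) : cos (3 * Th τ / 2) ≠ 0 := by
  intro h0
  have := tan_Th h
  rw [Complex.tan_eq_sin_div_cos, h0, div_zero] at this
  exact exp_ne_zero τ this.symm

lemma sin_Th_half {τ : ℂ} (h : τ ∈ St (3 / 2)) :
    sin (3 * Th τ / 2) = exp τ * cos (3 * Th τ / 2) := by
  rw [← tan_Th h, Complex.tan_eq_sin_div_cos, div_mul_cancel₀ _ (cos_Th_ne h)]

lemma cos_Th_half_sq {τ : ℂ} (h : τ ∈ St (3 / 2)) :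
    cos (3 * Th τ / 2) ^ 2 * (2 * exp τ * cosh τ) = 1 := by
  rw [← one_add_exp_sq]
  have h1 := Complex.sin_sq_add_cos_sq (3 * Th τ / 2)
  rw [sin_Th_half h] at h1
  linear_combination h1

lemma sin_three_Th {τ : ℂ} (h : τ ∈ St (3 / 2)) : sin (3 * Th τ) = 1 / cosh τ := by
  have h1 := Complex.sin_two_mul (3 * Th τ / 2)
  rw [show 2 * (3 * Th τ / 2) = 3 * Th τ by ring, sin_Th_half h] at h1
  rw [h1, eq_div_iff (cosh_ne_zero h)]
  linear_combination cos_Th_half_sq h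

lemma cos_three_Th {τ : ℂ} (h : τ ∈ St (3 / 2)) : cos (3 * Th τ) = -(sinh τ / cosh τ) := by
  have h1 := Complex.cos_two_mul (3 * Th τ / 2)
  rw [show 2 * (3 * Th τ / 2) = 3 * Th τ by ring] at h1
  have h2 := cos_Th_half_sq h
  have h3 : exp τ * (cosh τ - sinh τ) = 1 := by
    rw [cosh_sub_sinh, ← Complex.exp_add]; simp
  have hc := cosh_ne_zero h
  have he := exp_ne_zero τ
  rw [h1, ← neg_div, eq_div_iff hc]
  apply mul_left_cancel₀ he
  linear_combination h2 - h3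

lemma Th_ofReal (x : ℝ) : Th x = (thR x : ℝ) := by
  unfold Th thR
  rw [← Complex.ofReal_exp, ← Complex.ofReal_arctan]; push_cast; ring

lemma Th_zero : Th 0 = Real.pi / 6 := by
  have := Th_ofReal 0
  simp only [ofReal_zero, thR, Real.exp_zero, Real.arctan_one] at this
  rw [this]; push_cast; ring

lemma Th_neg {τ : ℂ} (h : τ ∈ St (3 / 2)) : Th (-τ) = Real.pi / 3 - Th τ := by
  have key : ‖(Th (-τ) + Th τ) - (Th (-0) + Th 0)‖ ≤ 0 * ‖τ - 0‖ := by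
    refine mvt (f := fun τ => Th (-τ) + Th τ) (f' := fun _ => 0) (convex_St (3 / 2))
      (fun u hu => ?_) (by simp) (by simp [St]) h
    have h1 := ((hasDerivAt_Th (neg_mem_St hu)).comp u (hasDerivAt_neg u)).add (hasDerivAt_Th hu)
    have e : Thp (-u) * -1 + Thp u = 0 := by unfold Thp; rw [cosh_neg]; ring
    rw [e] at h1
    exact h1
  simp only [zero_mul, norm_le_zero_iff, neg_zero, Th_zero] at key
  linear_combination key

lemma Thp_neg (τ : ℂ) : Thp (-τ) = Thp τ := by unfold Thp; rw [cosh_neg]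

lemma isRe_Th : IsRe Th := fun x => by rw [Th_ofReal]; simp
lemma isRe_Thp : IsRe Thp := fun x => by
  unfold Thp; rw [← Complex.ofReal_cosh]; norm_cast

lemma norm_Th_sub_le {x y : ℂ} (hx : x ∈ St (7 / 10)) (hy : y ∈ St (7 / 10))
    (h : ‖y - x‖ ≤ 1 / 2) : ‖Th y - Th x‖ ≤ 2 * w x.re * ‖y - x‖ := by
  refine mvt (f' := Thp) ((convex_St (7 / 10)).inter (convex_closedBall x (1 / 2)))
    (fun u hu => hasDerivAt_Th (St7_subset hu.1)) (fun u hu => ?_)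
    ⟨hx, mem_closedBall_self (by norm_num)⟩ ⟨hy, mem_closedBall_iff_norm.2 h⟩
  exact (norm_Thp_le hu.1).trans (w_re_le_two_mul (mem_closedBall_iff_norm.1 hu.2))

lemma norm_Thp_sub_le {x y : ℂ} (hx : x ∈ St (7 / 10)) (hy : y ∈ St (7 / 10))
    (h : ‖y - x‖ ≤ 1 / 2) : ‖Thp y - Thp x‖ ≤ 6 * w x.re * ‖y - x‖ := by
  refine mvt (f' := fun τ => -(sinh τ / cosh τ) * Thp τ)
    ((convex_St (7 / 10)).inter (convex_closedBall x (1 / 2)))
    (fun u hu => hasDerivAt_Thp (St7_subset hu.1)) (fun u hu => ?_)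
    ⟨hx, mem_closedBall_self (by norm_num)⟩ ⟨hy, mem_closedBall_iff_norm.2 h⟩
  rw [norm_mul, norm_neg]
  have h1 := norm_tanh_le hu.1
  have h2 := (norm_Thp_le hu.1).trans (w_re_le_two_mul (mem_closedBall_iff_norm.1 hu.2))
  calc ‖sinh u / cosh u‖ * ‖Thp u‖ ≤ 3 * (2 * w x.re) := by gcongr
    _ = _ := by ring

lemma re_exp_sq_nonneg {τ : ℂ} (h : τ ∈ St (7 / 10)) : 0 ≤ (exp τ ^ 2).re := by
  rw [← Complex.exp_nat_mul]
  apply le_of_lt (exp_re_pos _)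
  rw [mem_St] at *
  simp only [Nat.cast_ofNat, mul_im, re_ofNat, im_ofNat, zero_mul, add_zero, abs_mul,
    Nat.abs_ofNat]
  linarith

lemma one_le_norm_one_add {u : ℂ} (h : 0 ≤ u.re) : 1 ≤ ‖1 + u‖ := by
  have := re_le_norm (1 + u)
  simp only [add_re, one_re] at this
  linarith

lemma norm_le_norm_one_add {u : ℂ} (h : 0 ≤ u.re) : ‖u‖ ≤ ‖1 + u‖ := by
  rw [← sq_le_sq₀ (norm_nonneg _) (norm_nonneg _), Complex.sq_norm, Complex.sq_norm,
    normSq_apply, normSq_apply]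
  simp only [add_re, one_re, add_im, one_im, zero_add]
  nlinarith

lemma arctan_bounds {z : ℂ} (h1 : 0 < z.re) (h2 : 0 ≤ (z ^ 2).re) :
    ‖arctan z‖ ≤ ‖z‖ ∧ ‖arctan z - z‖ ≤ ‖z‖ ^ 3 := by
  have hseg : ∀ u ∈ segment ℝ (0 : ℂ) z, (u = 0 ∨ 0 < u.re) ∧ 0 ≤ (u ^ 2).re ∧ ‖u‖ ≤ ‖z‖ := by
    intro u hu
    rw [segment_eq_image] at hu
    obtain ⟨t, ⟨ht0, ht1⟩, rfl⟩ := hu
    simp only [smul_zero, zero_add, real_smul]
    refine ⟨?_, ?_, ?_⟩
    · rcases eq_or_lt_of_le ht0 with h | h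
      · left; simp [← h]
      · right; simp only [mul_re, ofReal_re, ofReal_im, zero_mul, sub_zero]; positivity
    · rw [mul_pow, ← ofReal_pow, re_ofReal_mul]; positivity
    · rw [norm_mul, Complex.norm_real, Real.norm_of_nonneg ht0]
      exact mul_le_of_le_one_left (norm_nonneg _) ht1
  have h0 : arctan 0 = 0 := by simp [Complex.arctan]
  constructor
  · have := mvt (f := arctan) (f' := fun u => 1 / (1 + u ^ 2)) (C := 1) (convex_segment 0 z)
      (fun u hu => hasDerivAt_arctan (hseg u hu).1) (fun u hu => by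
        rw [norm_div, norm_one]
        exact div_le_one_of_le₀ (one_le_norm_one_add (hseg u hu).2.1) (norm_nonneg _))
      (left_mem_segment _ _ _) (right_mem_segment _ _ _)
    simpa [h0] using this
  · have := mvt (f := fun u => arctan u - u) (f' := fun u => 1 / (1 + u ^ 2) - 1) (C := ‖z‖ ^ 2)
      (convex_segment 0 z)
      (fun u hu => (hasDerivAt_arctan (hseg u hu).1).sub (hasDerivAt_id u)) (fun u hu => by
        have h3 := one_le_norm_one_add (hseg u hu).2.1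
        have h4 : (1 + u ^ 2) ≠ 0 := by rw [← norm_pos_iff]; linarith
        have e : 1 / (1 + u ^ 2) - 1 = -u ^ 2 / (1 + u ^ 2) := by field_simp; ring
        rw [e, norm_div, norm_neg, norm_pow]
        refine (div_le_self (by positivity) h3).trans ?_
        gcongr
        exact (hseg u hu).2.2)
      (left_mem_segment _ _ _) (right_mem_segment _ _ _)
    simp only [h0, sub_zero] at this
    calc _ ≤ ‖z‖ ^ 2 * ‖z‖ := this
      _ = _ := by ring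

lemma norm_Th_le_exp {τ : ℂ} (h : τ ∈ St (7 / 10)) : ‖Th τ‖ ≤ Real.exp τ.re := by
  have := (arctan_bounds (exp_re_pos (St7_subset h)) (re_exp_sq_nonneg h)).1
  unfold Th
  rw [norm_mul, norm_exp] at *
  have e : ‖(2 / 3 : ℂ)‖ = 2 / 3 := by simp
  rw [e]; linarith [norm_nonneg (arctan (exp τ))]

lemma norm_Th_sub_exp_le {τ : ℂ} (h : τ ∈ St (7 / 10)) :
    ‖Th τ - 2 / 3 * exp τ‖ ≤ Real.exp τ.re ^ 3 := by
  have := (arctan_bounds (exp_re_pos (St7_subset h)) (re_exp_sq_nonneg h)).2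
  unfold Th
  rw [← mul_sub, norm_mul]
  rw [norm_exp] at this
  have e : ‖(2 / 3 : ℂ)‖ = 2 / 3 := by simp
  rw [e]; linarith [norm_nonneg (arctan (exp τ) - exp τ)]

lemma norm_Thp_sub_exp_le {τ : ℂ} (h : τ ∈ St (7 / 10)) :
    ‖Thp τ - 2 / 3 * exp τ‖ ≤ Real.exp τ.re ^ 3 := by
  have h3 := one_le_norm_one_add (re_exp_sq_nonneg h)
  have h4 : (1 + exp τ ^ 2) ≠ 0 := by rw [← norm_pos_iff]; linarith
  have e : Thp τ - 2 / 3 * exp τ = -(2 / 3) * (exp τ ^ 3 / (1 + exp τ ^ 2)) := by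
    have hc := cosh_ne_zero (St7_subset h)
    have he := exp_ne_zero τ
    have : Thp τ = 2 / 3 * (exp τ / (1 + exp τ ^ 2)) := by
      rw [one_add_exp_sq]; unfold Thp; field_simp
    rw [this]; field_simp; ring
  rw [e, norm_mul, norm_div, norm_pow, norm_exp, norm_neg]
  have e2 : ‖(2 / 3 : ℂ)‖ = 2 / 3 := by simp
  have h5 := div_le_self (a := Real.exp τ.re ^ 3) (by positivity) h3
  have h6 : 0 ≤ Real.exp τ.re ^ 3 / ‖1 + exp τ ^ 2‖ := by positivity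
  rw [e2]; linarith

lemma norm_Th_le_om {τ : ℂ} (h : τ ∈ St (7 / 10)) : ‖Th τ‖ ≤ 3 * om τ.re := by
  rcases le_total τ.re 0 with h0 | h0
  · rw [om_of_nonpos h0]; linarith [norm_Th_le_exp h, Real.exp_pos τ.re]
  · rw [om_of_nonneg h0]
    have h1 := norm_Th_le_exp (neg_mem_St h)
    have h2 : Real.exp (-τ).re ≤ 1 := by rw [Real.exp_le_one_iff]; simpa using h0
    have h3 : Th τ = Real.pi / 3 - Th (-τ) := by rw [Th_neg (St7_subset h)]; ring
    have h4 : ‖(Real.pi / 3 : ℂ)‖ ≤ 2 := by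
      rw [norm_div, Complex.norm_real, Real.norm_of_nonneg Real.pi_pos.le]
      simp; linarith [Real.pi_lt_four]
    rw [h3]
    linarith [norm_sub_le (Real.pi / 3 : ℂ) (Th (-τ))]

/-- the cubic remainder of `Th` is Lipschitz with a small constant on the left -/
lemma norm_rho_sub_le {x y : ℂ} (hx : x ∈ St (7 / 10)) (hy : y ∈ St (7 / 10))
    (h : ‖y - x‖ ≤ 1 / 2) :
    ‖(Th y - 2 / 3 * exp y) - (Th x - 2 / 3 * exp x)‖ ≤ 8 * Real.exp x.re ^ 3 * ‖y - x‖ := by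
  refine mvt (f := fun τ => Th τ - 2 / 3 * exp τ) (f' := fun τ => Thp τ - 2 / 3 * exp τ)
    ((convex_St (7 / 10)).inter (convex_closedBall x (1 / 2)))
    (fun u hu => (hasDerivAt_Th (St7_subset hu.1)).sub ((Complex.hasDerivAt_exp u).const_mul _))
    (fun u hu => ?_)
    ⟨hx, mem_closedBall_self (by norm_num)⟩ ⟨hy, mem_closedBall_iff_norm.2 h⟩
  refine (norm_Thp_sub_exp_le hu.1).trans ?_
  have h1 : Real.exp u.re ≤ 2 * Real.exp x.re := by
    have h2 := (abs_re_sub_le u x).trans (mem_closedBall_iff_norm.1 hu.2)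
    have h3 : Real.exp u.re = Real.exp (u.re - x.re) * Real.exp x.re := by
      rw [← Real.exp_add]; ring_nf
    rw [h3]
    gcongr
    exact exp_le_two ((le_abs_self _).trans h2)
  calc Real.exp u.re ^ 3 ≤ (2 * Real.exp x.re) ^ 3 := by gcongr
    _ = _ := by ring

end Pool.Agent.MP_be9872_an

end

-- part MP_be9872_an.Defs2
section

set_option autoImplicit false

namespace Pool.Agent.MP_be9872_an

/-- coordinate contracting the strip -/
noncomputable def phi (τ : ℂ) : ℂ := τ - Complex.log (1 + Complex.exp τ)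

/-- smooth step located at `log ν`, flat at the left end -/
noncomputable def Eb (ν : ℝ) (τ : ℂ) : ℂ := Complex.exp (-((ν : ℂ) ^ 2 * Complex.exp (-2 * τ)))

/-- model cut-off functions -/
noncomputable def be (k : ℕ) (l ν : ℝ) (τ : ℂ) : ℂ :=
  ((ν : ℂ) * Complex.exp (-τ)) ^ k * (Eb ν τ - Eb ν (τ - l))

/-- actual cut-off functions, flat at both ends -/
noncomputable def bb (k : ℕ) (l ν : ℝ) (τ : ℂ) : ℂ :=
  be k l ν (τ - cst l) * Complex.exp (-Complex.exp τ)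

/-- envelope of the cut-off functions -/
noncomputable def env (k : ℕ) (l ν x : ℝ) : ℝ :=
  l * w (x - Real.log ν) * om (Real.log ν - x) ^ (k + 1)

end Pool.Agent.MP_be9872_an

end

-- part MP_be9872_an.Defs3
section

set_option autoImplicit false
open scoped ContDiff

namespace Pool.Agent.MP_be9872_an

/-- angle of the normal at the reflection point (reduced) -/
noncomputable def psi (x y : ℂ) : ℂ := (Th x + Th y) / 2

/-- angle of reflection -/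
noncomputable def del (η x y : ℂ) : ℂ := Real.pi / 3 + η * (Th y - Th x) / 2

/-- unperturbed generating function -/
noncomputable def S0 (η μ x y : ℂ) : ℂ :=
  2 * (1 + μ * Complex.cos (6 * psi x y)) * Complex.sin (del η x y)

/-- its value at the two fixed points -/
noncomputable def Sst (μ : ℂ) : ℂ := 2 * (1 + μ) * (s0 : ℝ)

/-- perturbation of the generating function -/
noncomputable def SU (η : ℂ) (U : ℂ → ℂ) (x y : ℂ) : ℂ :=
  2 * U (mid x y) * Complex.sin (del η x y)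

/-- perturbation of its first partial derivative -/
noncomputable def gU (η : ℂ) (U : ℂ → ℂ) (x y : ℂ) : ℂ :=
  deriv U (mid x y) * (3 / Complex.sin (3 * psi x y)) * Complex.sin (del η x y)
    - η * U (mid x y) * Complex.cos (del η x y)

noncomputable def IU (η : ℂ) (U : ℂ → ℂ) (x y : ℂ) : ℂ := -Thp x * gU η U x y

noncomputable def JU (η : ℂ) (U : ℂ → ℂ) (x y : ℂ) : ℂ := Thp y * gU (-η) U y x

/-- admissible perturbations of the support function -/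
structure Pot (ρ κ : ℝ) (U : ℂ → ℂ) : Prop where
  diff : DifferentiableOn ℂ U (Dom ρ (1 / 50))
  bd : ∀ τ ∈ Dom ρ (1 / 50), ‖U τ‖ ≤ κ * w τ.re ^ 4

/-- weighted ball of holomorphic functions on the strip -/
structure Bal (ρ r : ℝ) (W : ℂ → ℂ) : Prop where
  diff : DifferentiableOn ℂ W (St ρ)
  bd : ∀ τ ∈ St ρ, ‖W τ‖ ≤ r * w τ.re

/-- the pair `x`, `x + l + W` is close to the pair `τ`, `τ + l` -/
structure Adm (l ρ : ℝ) (τ x W : ℂ) : Prop where
  mem : τ ∈ St ρ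
  hx : ‖x - τ‖ ≤ 12 * l * om τ.re
  hW : ‖W‖ ≤ 2 * l ^ 2 * w τ.re

noncomputable def Vv (l : ℝ) (W : ℂ → ℂ) (τ : ℂ) : ℂ := sumL l W (τ - l)

noncomputable def Tt (l : ℝ) (W : ℂ → ℂ) (τ : ℂ) : ℂ := τ + Vv l W τ

noncomputable def mm (τ : ℂ) : ℂ := (s0 : ℝ) / 2 * Thp τ ^ 2

noncomputable def gam : ℝ := 1 / (12 * s0)

noncomputable def Dd (η : ℂ) (l : ℝ) (x W : ℂ) : ℂ :=
  I0 η (mu l) x (x + l + W) - I0 η (mu l) x (x + l)

noncomputable def Qr (η : ℂ) (l : ℝ) (x W : ℂ) : ℂ :=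
  J0 η (mu l) x (x + l + W) - J0 η (mu l) (x + W) (x + l + W) - Dd η l x W

noncomputable def Nn (η : ℂ) (l : ℝ) (τ x W : ℂ) : ℂ := Dd η l x W + mm τ * W

/-- step function -/
noncomputable def Es (τ : ℂ) : ℂ := 1 / (1 + Complex.exp (-3 * τ))

noncomputable def beta (l : ℝ) (τ : ℂ) : ℂ := Es τ - Es (τ - l)

/-- pointwise form of the second-order remainder -/
noncomputable def ff (η : ℂ) (l : ℝ) (U : ℂ → ℂ) (τ x₀ W₀ x₁ W₁ : ℂ) : ℂ :=
  (E0 η l x₁ - (F0 η l τ - F0 η l (τ - l))) + Qr η l x₀ W₀ +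
    (JU η U x₀ (x₀ + l + W₀) - IU η U x₁ (x₁ + l + W₁))

noncomputable def f2 (η : ℂ) (l : ℝ) (U W : ℂ → ℂ) (τ : ℂ) : ℂ :=
  ff η l U τ (Tt l W (τ - l)) (W (τ - l)) (Tt l W τ) (W τ)

/-- inverse of the difference operator, up to the step -/
noncomputable def Tinv (l : ℝ) (f : ℂ → ℂ) (τ : ℂ) : ℂ := sumL l f τ - Es τ * sumZ l f τ

noncomputable def Phi (η : ℂ) (l : ℝ) (U W : ℂ → ℂ) (τ : ℂ) : ℂ :=
  (Nn η l τ (Tt l W τ) (W τ) - F0 η l τ - Tinv l (f2 η l U W) τ) / mm τ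

/-- the obstruction -/
noncomputable def muW (η : ℂ) (l : ℝ) (U W : ℂ → ℂ) : ℂ → ℂ := sumZ l (f2 η l U W)

/-- solution of the reduced equation -/
structure Sol (η : ℂ) (l ρ : ℝ) (U W : ℂ → ℂ) : Prop where
  bal : Bal ρ (l ^ 2) W
  re : IsRe W
  fix : ∀ τ ∈ St ρ, W τ = Phi η l U W τ

/-- Euler-Lagrange residual -/
noncomputable def EL (η : ℂ) (l : ℝ) (U W : ℂ → ℂ) (τ : ℂ) : ℂ :=
  (J0 η (mu l) (Tt l W (τ - l)) (Tt l W τ) + JU η U (Tt l W (τ - l)) (Tt l W τ)) -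
    (I0 η (mu l) (Tt l W τ) (Tt l W (τ + l)) + IU η U (Tt l W τ) (Tt l W (τ + l)))

/-- splitting potential -/
noncomputable def Mel (η : ℂ) (l : ℝ) (U W : ℂ → ℂ) : ℂ → ℂ :=
  sumZ l (fun x => S0 η (mu l) (Tt l W x) (Tt l W (x + l)) + SU η U (Tt l W x) (Tt l W (x + l))
    - Sst (mu l))

/-- its first variation -/
noncomputable def Pp (η : ℂ) (l : ℝ) (W u : ℂ → ℂ) : ℂ → ℂ :=
  sumZ l (fun x => SU η u (Tt l W x) (Tt l W (x + l)))

/-- control functions -/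
noncomputable def ctrl (k : ℕ) (l ν : ℝ) (Y : ℂ → ℂ) (τ : ℂ) : ℂ :=
  bb k l ν τ * Y (phi τ - cst l)

/-- slope of the caustic at the fixed point, divided by `3` -/
noncomputable def sig (l : ℝ) : ℂ := -(s0 : ℝ) * (1 - 35 * mu l) * Complex.sinh l / 6

/-- remainder of the support function of the caustic -/
noncomputable def rr (η : ℂ) (l : ℝ) (U : ℂ → ℂ) (x y : ℂ) : ℂ :=
  -η * (g0 η (mu l) (Th x) (Th y - Th x) + gU η U x y) - (1 + mu l) / 2 - η * sig l / Complex.cosh x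

/-- the statement to be proved -/
def Goal : Prop :=
    ∃ γ : ℝ → ℂ, ContDiff ℝ ∞ γ ∧ Function.Periodic γ 1 ∧ Set.InjOn γ (Set.Ico 0 1) ∧
      (∀ t : ℝ, deriv γ t ≠ 0) ∧
      (∀ t : ℝ, 0 < (starRingEnd ℂ (deriv γ t) * deriv (deriv γ) t).im) ∧
      ∃ K₁ K₂ : Set ℂ, K₁ ≠ K₂ ∧
        (∀ K ∈ ({K₁, K₂} : Set (Set ℂ)),
          IsCompact K ∧ Convex ℝ K ∧ (interior K).Nonempty ∧
          K ⊆ interior (convexHull ℝ (Set.range γ)) ∧
          ∀ t : ℝ, ∀ u : ℂ, u ≠ 0 →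
            ((∃ s : ℝ, γ t + (s : ℂ) * u ∈ K) ∧
              ((∀ w ∈ K, 0 ≤ (starRingEnd ℂ u * (w - γ t)).im) ∨
               (∀ w ∈ K, (starRingEnd ℂ u * (w - γ t)).im ≤ 0))) →
            ((∃ s : ℝ, γ t + (s : ℂ) * ((deriv γ t) ^ 2 * starRingEnd ℂ u) ∈ K) ∧
              ((∀ w ∈ K, 0 ≤ (starRingEnd ℂ ((deriv γ t) ^ 2 * starRingEnd ℂ u) * (w - γ t)).im) ∨
               (∀ w ∈ K, (starRingEnd ℂ ((deriv γ t) ^ 2 * starRingEnd ℂ u) * (w - γ t)).im ≤ 0)))) ∧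
        ¬ (frontier K₁ ⊆ interior K₂) ∧ ¬ (frontier K₂ ⊆ interior K₁)

end Pool.Agent.MP_be9872_an

end

-- part MP_be9872_an.Jet
section

set_option autoImplicit false
open Filter Topology Asymptotics

namespace Pool.Agent.MP_be9872_an

/-- third-order jet at the origin -/
def jet_Jet (f : ℂ → ℂ) (c0 c1 c2 c3 : ℂ) : Prop :=
  ∃ r : ℂ → ℂ, ContinuousAt r 0 ∧ r 0 = c3 ∧
    ∀ᶠ s in 𝓝 (0 : ℂ), f s = c0 + c1 * s + c2 * s ^ 2 + r s * s ^ 3

lemma jet_Jet.congr {f : ℂ → ℂ} {c0 c1 c2 c3 d0 d1 d2 d3 : ℂ} (h : jet_Jet f c0 c1 c2 c3)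
    (h0 : c0 = d0) (h1 : c1 = d1) (h2 : c2 = d2) (h3 : c3 = d3) : jet_Jet f d0 d1 d2 d3 := by
  subst h0 h1 h2 h3; exact h

lemma jet_poly (c0 c1 c2 c3 : ℂ) :
    jet_Jet (fun s => c0 + c1 * s + c2 * s ^ 2 + c3 * s ^ 3) c0 c1 c2 c3 :=
  ⟨fun _ => c3, continuousAt_const, rfl, Eventually.of_forall fun _ => rfl⟩

lemma jet_const (c : ℂ) : jet_Jet (fun _ => c) c 0 0 0 := by simpa using jet_poly c 0 0 0

lemma jet_Jet.add {f g : ℂ → ℂ} {c0 c1 c2 c3 d0 d1 d2 d3 : ℂ} (h : jet_Jet f c0 c1 c2 c3)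
    (h' : jet_Jet g d0 d1 d2 d3) :
    jet_Jet (fun s => f s + g s) (c0 + d0) (c1 + d1) (c2 + d2) (c3 + d3) := by
  obtain ⟨r, a1, rfl, a3⟩ := h
  obtain ⟨r', b1, rfl, b3⟩ := h'
  refine ⟨fun s => r s + r' s, a1.add b1, rfl, ?_⟩
  filter_upwards [a3, b3] with s h1 h2
  rw [h1, h2]; ring

lemma jet_Jet.mul {f g : ℂ → ℂ} {c0 c1 c2 c3 d0 d1 d2 d3 : ℂ} (h : jet_Jet f c0 c1 c2 c3)
    (h' : jet_Jet g d0 d1 d2 d3) :
    jet_Jet (fun s => f s * g s) (c0 * d0) (c0 * d1 + c1 * d0) (c0 * d2 + c1 * d1 + c2 * d0)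
      (c0 * d3 + c1 * d2 + c2 * d1 + c3 * d0) := by
  obtain ⟨r, a1, rfl, a3⟩ := h
  obtain ⟨r', b1, rfl, b3⟩ := h'
  refine ⟨fun s => c0 * r' s + c1 * d2 + c2 * d1 + r s * d0 + s * (c1 * r' s + c2 * d2 + r s * d1
    + s * (c2 * r' s + r s * d2 + s * (r s * r' s))), by fun_prop, by simp, ?_⟩
  filter_upwards [a3, b3] with s h1 h2
  rw [h1, h2]; ring

lemma jet_Jet.sub {f g : ℂ → ℂ} {c0 c1 c2 c3 d0 d1 d2 d3 : ℂ} (h : jet_Jet f c0 c1 c2 c3)
    (h' : jet_Jet g d0 d1 d2 d3) :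
    jet_Jet (fun s => f s - g s) (c0 - d0) (c1 - d1) (c2 - d2) (c3 - d3) := by
  obtain ⟨r, a1, rfl, a3⟩ := h
  obtain ⟨r', b1, rfl, b3⟩ := h'
  refine ⟨fun s => r s - r' s, a1.sub b1, rfl, ?_⟩
  filter_upwards [a3, b3] with s h1 h2
  rw [h1, h2]; ring

lemma jet_Jet.lin {f : ℂ → ℂ} {c0 c1 c2 c3 : ℂ} (h : jet_Jet f c0 c1 c2 c3) (a b : ℂ) :
    jet_Jet (fun s => a + b * f s) (a + b * c0) (b * c1) (b * c2) (b * c3) :=
  ((jet_const a).add ((jet_const b).mul h)).congr rfl (by ring) (by ring) (by ring)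

lemma jet_Jet.comp {g f : ℂ → ℂ} {g0 g1 g2 g3 c0 c1 c2 c3 : ℂ}
    (hg : jet_Jet (fun u => g (c0 + u)) g0 g1 g2 g3) (h : jet_Jet f c0 c1 c2 c3) :
    jet_Jet (fun s => g (f s)) g0 (g1 * c1) (g1 * c2 + g2 * c1 ^ 2)
      (g1 * c3 + 2 * g2 * c1 * c2 + g3 * c1 ^ 3) := by
  obtain ⟨R, a1, rfl, a3⟩ := hg
  obtain ⟨r, b1, rfl, b3⟩ := h
  have hc : ContinuousAt (fun s => c1 * s + c2 * s ^ 2 + r s * s ^ 3) 0 := by fun_prop
  have ht : Tendsto (fun s => c1 * s + c2 * s ^ 2 + r s * s ^ 3) (𝓝 0) (𝓝 0) := by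
    simpa using hc.tendsto
  have hR : ContinuousAt (fun s => R (c1 * s + c2 * s ^ 2 + r s * s ^ 3)) 0 :=
    ContinuousAt.comp_of_eq a1 hc (by simp)
  refine ⟨fun s => g1 * r s + g2 * (2 * c1 * c2 + s * (c2 ^ 2 + 2 * c1 * r s + s * (2 * c2 * r s
    + s * r s ^ 2))) + R (c1 * s + c2 * s ^ 2 + r s * s ^ 3) * (c1 + c2 * s + r s * s ^ 2) ^ 3,
    ContinuousAt.add (by fun_prop) (hR.mul (by fun_prop)), by simp; ring, ?_⟩
  filter_upwards [ht.eventually a3, b3] with s h1 h2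
  rw [h2, add_assoc, add_assoc, ← add_assoc (c1 * s), h1]; ring

lemma jet_of_analytic {f : ℂ → ℂ} (hf : AnalyticAt ℂ f 0) :
    jet_Jet f (f 0) (deriv f 0) (deriv (deriv f) 0 / 2) (deriv (deriv (deriv f)) 0 / 6) := by
  obtain ⟨F, h1, h2⟩ := hf.exists_eventuallyEq_sum_add_pow_mul 4
  refine ⟨fun s => deriv (deriv (deriv f)) 0 / 6 + s * F s,
    continuousAt_const.add (continuousAt_id.mul h1.continuousAt), by simp, ?_⟩
  filter_upwards [h2] with s hs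
  rw [hs]
  simp [Finset.sum_range_succ, iteratedDeriv_succ, Nat.factorial]
  ring

lemma jet_sin (c : ℂ) : jet_Jet (fun u => Complex.sin (c + u)) (Complex.sin c) (Complex.cos c)
    (-Complex.sin c / 2) (-Complex.cos c / 6) := by
  refine (jet_of_analytic (f := fun u => Complex.sin (c + u)) (by fun_prop)).congr ?_ ?_ ?_ ?_ <;>
    simp [deriv_comp_const_add (fun u => Complex.sin u), funext (deriv_comp_const_add _ c)]

lemma jet_cos (c : ℂ) : jet_Jet (fun u => Complex.cos (c + u)) (Complex.cos c) (-Complex.sin c)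
    (-Complex.cos c / 2) (Complex.sin c / 6) := by
  refine (jet_of_analytic (f := fun u => Complex.cos (c + u)) (by fun_prop)).congr ?_ ?_ ?_ ?_ <;>
    simp [deriv_comp_const_add (fun u => Complex.cos u), funext (deriv_comp_const_add _ c)]

lemma jet_Jet.sin {f : ℂ → ℂ} {c0 c1 c2 c3 : ℂ} (h : jet_Jet f c0 c1 c2 c3) :
    jet_Jet (fun s => Complex.sin (f s)) (Complex.sin c0) (Complex.cos c0 * c1)
      (Complex.cos c0 * c2 + -Complex.sin c0 / 2 * c1 ^ 2)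
      (Complex.cos c0 * c3 + 2 * (-Complex.sin c0 / 2) * c1 * c2 + -Complex.cos c0 / 6 * c1 ^ 3) :=
  jet_Jet.comp (g := Complex.sin) (jet_sin c0) h

lemma jet_Jet.cos {f : ℂ → ℂ} {c0 c1 c2 c3 : ℂ} (h : jet_Jet f c0 c1 c2 c3) :
    jet_Jet (fun s => Complex.cos (f s)) (Complex.cos c0) (-Complex.sin c0 * c1)
      (-Complex.sin c0 * c2 + -Complex.cos c0 / 2 * c1 ^ 2)
      (-Complex.sin c0 * c3 + 2 * (-Complex.cos c0 / 2) * c1 * c2 + Complex.sin c0 / 6 * c1 ^ 3) :=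
  jet_Jet.comp (g := Complex.cos) (jet_cos c0) h

lemma jet_Jet.congr_fun {f g : ℂ → ℂ} {c0 c1 c2 c3 : ℂ} (h : jet_Jet f c0 c1 c2 c3)
    (hg : ∀ s, f s = g s) : jet_Jet g c0 c1 c2 c3 := by
  rwa [show g = f from funext fun s => (hg s).symm]

lemma jet_id : jet_Jet (fun s => s) 0 1 0 0 := by simpa using jet_poly 0 1 0 0

lemma jet_cosh : jet_Jet Complex.cosh 1 0 (1 / 2) 0 := by
  refine (((jet_id.lin 0 Complex.I).cos).congr_fun fun s => ?_).congr (by simp) (by simp) ?_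
    (by simp)
  · rw [zero_add, mul_comm, Complex.cos_mul_I]
  · simp; norm_num

lemma jet_mu : jet_Jet mu 0 0 (1 / 144) 0 := by
  have h1 := jet_of_analytic (f := fun u : ℂ => (37 + 35 * 1 + u)⁻¹)
    (AnalyticAt.inv (by fun_prop) (by norm_num))
  have h2 := jet_Jet.comp (g := fun u : ℂ => u⁻¹) h1 (jet_cosh.lin 37 35)
  refine (((jet_cosh.sub (jet_const 1)).mul h2).congr_fun fun s => ?_).congr (by simp) (by simp)
    (by norm_num) (by simp)
  rw [mu, div_eq_mul_inv]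

lemma jet_g0 (η θ : ℂ) {a : ℂ → ℂ} {a1 a2 a3 : ℂ} (h : jet_Jet a 0 a1 a2 a3) :
    jet_Jet (fun s => g0 η (mu s) θ (a s)) (-η / 2) (s0 * η ^ 2 * a1 / 2)
      (-Complex.sin (6 * θ) * s0 / 24 + s0 * η ^ 2 * a2 / 2 + η ^ 3 * a1 ^ 2 / 16
        - η * Complex.cos (6 * θ) / 288)
      (-(3 * a1 * Complex.cos (6 * θ) * s0 + Complex.sin (6 * θ) * η * a1 / 4) / 24
        + s0 * η ^ 2 * a3 / 2 + η ^ 3 * a1 * a2 / 8 - s0 * η ^ 4 * a1 ^ 3 / 48
        + s0 * η ^ 2 * a1 * Complex.cos (6 * θ) / 288 + η * a1 * Complex.sin (6 * θ) / 96) := by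
  have e1 : Complex.sin (Real.pi / 3) = s0 := by
    rw [s0, ← Real.sin_pi_div_three]; push_cast; rfl
  have e2 : Complex.cos (Real.pi / 3) = 1 / 2 := by
    have := congrArg (fun x : ℝ => (x : ℂ)) Real.cos_pi_div_three
    push_cast at this
    exact this
  have h1 := h.lin (6 * θ) 3
  have h2 := h.lin (Real.pi / 3) (η / 2)
  have h3 := (((jet_mu.lin 0 (-6)).mul h1.sin).mul h2.sin).sub
    ((((jet_mu.mul h1.cos).lin 1 1).lin 0 η).mul h2.cos)
  simp only [mul_zero, add_zero, zero_add, e1, e2] at h3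
  refine (h3.congr_fun fun s => ?_).congr (by ring) (by ring) (by ring) (by ring)
  rw [g0, show 6 * (θ + a s / 2) = 6 * θ + 3 * a s by ring,
    show η * a s / 2 = η / 2 * a s by ring, one_mul]

lemma jet_isLittleO {f : ℂ → ℂ} (h : jet_Jet f 0 0 0 0) :
    f =o[𝓝 0] (fun s : ℂ => ‖s‖ ^ 3) := by
  obtain ⟨r, a1, a2, a3⟩ := h
  have h1 : r =o[𝓝 0] (fun _ => (1 : ℝ)) := by
    rw [isLittleO_one_iff]
    simpa [a2] using a1.tendsto
  have h2 : (fun s : ℂ => s ^ 3) =O[𝓝 0] (fun s : ℂ => ‖s‖ ^ 3) :=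
    IsBigO.of_bound' (Eventually.of_forall fun s => by simp)
  refine (h1.mul_isBigO h2).congr' ?_ (by simp)
  filter_upwards [a3] with s hs
  simp [hs]

/-- third-order expansion of the residual in the step, at a fixed point of the strip -/
theorem E0_jet (η : ℂ) (hη : η = 1 ∨ η = -1) (x : ℂ) (hx : x ∈ St 1) :
    (fun s : ℂ => E0 η s x - (F0 η s x - F0 η s (x - s))) =o[𝓝 0] (fun s : ℂ => ‖s‖ ^ 3) := by
  have hx' : x ∈ St (3 / 2) := St_mono (by norm_num) hx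
  have hn : St (3 / 2) ∈ 𝓝 x := (isOpen_St _).mem_nhds hx'
  have a1 : AnalyticAt ℂ Th x :=
    DifferentiableOn.analyticAt (fun u hu => (diffAt_Th hu).differentiableWithinAt) hn
  have a2 : AnalyticAt ℂ Thp x :=
    DifferentiableOn.analyticAt (fun u hu => (diffAt_Thp hu).differentiableWithinAt) hn
  have a3 : deriv Th =ᶠ[𝓝 x] Thp := by
    filter_upwards [hn] with u hu using (hasDerivAt_Th hu).deriv
  obtain ⟨c, b1⟩ : ∃ c, jet_Jet (fun u => Th (x + u)) (Th x) (Thp x)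
      (-(Complex.sinh x / Complex.cosh x) * Thp x / 2) c := by
    refine ⟨_, (jet_of_analytic (f := fun u => Th (x + u))
      (AnalyticAt.comp_of_eq (g := Th) (f := fun u => x + u) a1 (by fun_prop) (by simp))).congr
      (by simp) ?_ ?_ rfl⟩
    · rw [deriv_comp_const_add, add_zero, (hasDerivAt_Th hx').deriv]
    · rw [funext (deriv_comp_const_add _ x), deriv_comp_const_add, add_zero, a3.deriv_eq,
        (hasDerivAt_Thp hx').deriv]
  obtain ⟨d2, d3, b2⟩ : ∃ d2 d3, jet_Jet (fun u => Thp (x + u)) (Thp x)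
      (-(Complex.sinh x / Complex.cosh x) * Thp x) d2 d3 := by
    refine ⟨_, _, (jet_of_analytic (f := fun u => Thp (x + u))
      (AnalyticAt.comp_of_eq (g := Thp) (f := fun u => x + u) a2 (by fun_prop) (by simp))).congr
      (by simp) ?_ rfl rfl⟩
    rw [deriv_comp_const_add, add_zero, (hasDerivAt_Thp hx').deriv]
  have hneg : jet_Jet (fun s => x - s) x (-1) 0 0 :=
    ((jet_const x).sub jet_id).congr (by simp) (by simp) (by simp) (by simp)
  have b3 := jet_Jet.comp (g := Th) b1 hneg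
  have b4 := jet_Jet.comp (g := Thp) b2 hneg
  have b5 := jet_g0 η (Th x) ((b1.sub (jet_const (Th x))).congr (sub_self _) rfl rfl rfl)
  have b6 := jet_g0 (-η) (Th x) ((b3.sub (jet_const (Th x))).congr (sub_self _) rfl rfl rfl)
  have b7 := ((b6.add b5).lin 0 (Thp x)).sub (((jet_id.mul jet_id).lin 0 (η / 24)).mul
    ((jet_const (Thp x ^ 3)).sub ((b4.mul b4).mul b4)))
  have e1 : Complex.sin (6 * Th x) = 6 * (-(Complex.sinh x / Complex.cosh x) * Thp x) := by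
    rw [show 6 * Th x = 2 * (3 * Th x) by ring, Complex.sin_two_mul, sin_three_Th hx',
      cos_three_Th hx', Thp_eq]
    ring
  have e2 : Complex.cos (6 * Th x) = 1 - 18 * Thp x ^ 2 := by
    rw [show 6 * Th x = 2 * (3 * Th x) by ring, Complex.cos_two_mul, Complex.cos_sq',
      sin_three_Th hx', Thp_eq]
    ring
  rw [e1, e2] at b7
  refine jet_isLittleO ((b7.congr_fun fun s => ?_).congr ?_ ?_ ?_ ?_)
  · simp only [E0, F0, J0, I0]; ring
  all_goals rcases hη with rfl | rfl <;> ring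

end Pool.Agent.MP_be9872_an

end

-- part MP_be9872_an.Mid
section

set_option autoImplicit false
open Complex

namespace Pool.Agent.MP_be9872_an

lemma mid_sin_sub {e : ℂ} (h : ‖e‖ ≤ 1) : ‖sin e - e‖ ≤ ‖e‖ ^ 3 := by
  have h1 := Complex.sin_bound h
  have h2 : sin e - e = (sin e - (e - e ^ 3 / 6)) - e ^ 3 / 6 := by ring
  have h3 : ‖e ^ 3 / 6‖ = ‖e‖ ^ 3 / 6 := by simp
  have h4 : ‖e‖ ^ 5 ≤ ‖e‖ ^ 3 := pow_le_pow_of_le_one (norm_nonneg _) h (by norm_num)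
  have h5 : 0 ≤ ‖e‖ ^ 3 := by positivity
  rw [h2]
  linarith [norm_sub_le (sin e - (e - e ^ 3 / 6)) (e ^ 3 / 6)]

lemma mid_cos_sub {e : ℂ} (h : ‖e‖ ≤ 1) : ‖cos e - 1‖ ≤ ‖e‖ ^ 2 := by
  have h1 := Complex.cos_bound h
  have h2 : cos e - 1 = (cos e - (1 - e ^ 2 / 2)) - e ^ 2 / 2 := by ring
  have h3 : ‖e ^ 2 / 2‖ = ‖e‖ ^ 2 / 2 := by simp
  have h4 : ‖e‖ ^ 4 ≤ ‖e‖ ^ 2 := pow_le_pow_of_le_one (norm_nonneg _) h (by norm_num)
  have h5 : 0 ≤ ‖e‖ ^ 2 := by positivity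
  rw [h2]
  linarith [norm_sub_le (cos e - (1 - e ^ 2 / 2)) (e ^ 2 / 2)]

lemma mid_sin_le {e : ℂ} (h : ‖e‖ ≤ 1) : ‖sin e‖ ≤ 2 * ‖e‖ := by
  have h1 := mid_sin_sub h
  have h2 : ‖e‖ ^ 3 ≤ ‖e‖ ^ 1 := pow_le_pow_of_le_one (norm_nonneg _) h (by norm_num)
  have h3 : sin e = (sin e - e) + e := by ring
  rw [pow_one] at h2
  rw [h3]
  linarith [norm_add_le (sin e - e) e]

lemma mid_log_lip {a b : ℂ} (ha : ‖a - 1‖ ≤ 1 / 2) (hb : ‖b - 1‖ ≤ 1 / 2) :
    ‖log a - log b‖ ≤ 2 * ‖a - b‖ := by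
  have key : ∀ u ∈ Metric.closedBall (1 : ℂ) (1 / 2), 1 / 2 ≤ u.re := by
    intro u hu
    have h1 := abs_re_sub_le u 1
    have h2 := mem_closedBall_iff_norm.1 hu
    have h3 := neg_abs_le (u.re - (1 : ℂ).re)
    simp only [one_re] at h1 h3
    linarith
  refine mvt (f := log) (f' := fun u => u⁻¹) (convex_closedBall 1 (1 / 2))
    (fun u hu => Complex.hasDerivAt_log (Or.inl (by linarith [key u hu]))) (fun u hu => ?_)
    (mem_closedBall_iff_norm.2 hb) (mem_closedBall_iff_norm.2 ha)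
  have h1 := (key u hu).trans (re_le_norm u)
  rw [norm_inv, inv_le_comm₀ (by linarith) (by norm_num)]
  linarith

lemma mid_w_mul_exp (x : ℝ) : w x * Real.exp x = om x ^ 2 := by
  rcases le_total x 0 with h | h
  · rw [w_of_nonpos h, om_of_nonpos h]; ring
  · rw [w_of_nonneg h, om_of_nonneg h, ← Real.exp_add]; simp

lemma mid_num_est {l : ℝ} {x y : ℂ} (h0 : 0 < l) (h1 : l ≤ 1 / 100) (hx : x ∈ St (7 / 10))
    (hy : y ∈ St (7 / 10)) (hs : ‖y - x‖ ≤ 2 * l) (hsl : ‖y - x - l‖ ≤ l) {e : ℂ}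
    (he : e = 3 / 4 * (Th y - Th x)) (hen : ‖e‖ ≤ 3 * w x.re * l) :
    ‖(cos e + sin e / exp x) - ((1 + Real.exp l) / 2 : ℝ) * (cos e - exp x * sin e)‖ ≤
      2 * ‖y - x - l‖ + 26 * (l * om x.re ^ 2) := by
  have hw1 := w_le_one x.re
  have hw0 := w_pos x.re
  have hwo := w_le_om x.re
  have hwe := w_le_exp x.re
  have hom1 := om_le_one x.re
  have hom0 := om_pos x.re
  have hr0 := Real.exp_pos x.re
  have hz : ‖exp x‖ = Real.exp x.re := norm_exp x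
  have hz0 := exp_ne_zero x
  have he1 : ‖e‖ ≤ 1 := by nlinarith
  have hel := exp_le_one_add_two_mul h0.le (by linarith)
  have hel1 : 1 ≤ Real.exp l := Real.one_le_exp h0.le
  have hey : exp y = exp x * exp (y - x) := by rw [← Complex.exp_add]; ring_nf
  have id1 : (cos e + sin e / exp x) - ((1 + Real.exp l) / 2 : ℝ) * (cos e - exp x * sin e) =
      (cos e - 1) * (((1 - Real.exp l) / 2 : ℝ) : ℂ) + (sin e - e) / exp x +
      (e / exp x - (exp (y - x) - 1) / 2) + (exp (y - x) - exp l) / 2 +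
      ((1 + Real.exp l) / 2 : ℝ) * (exp x * sin e) := by
    push_cast; field_simp; ring
  have hw2 : w x.re ^ 2 ≤ om x.re ^ 2 := by gcongr
  have b1 : ‖(cos e - 1) * (((1 - Real.exp l) / 2 : ℝ) : ℂ)‖ ≤ l * om x.re ^ 2 := by
    rw [norm_mul, Complex.norm_real, Real.norm_eq_abs]
    have a1 : |(1 - Real.exp l) / 2| ≤ l := by rw [abs_le]; constructor <;> linarith
    have a2 : ‖cos e - 1‖ ≤ om x.re ^ 2 := by
      refine (mid_cos_sub he1).trans ?_
      have : ‖e‖ ≤ om x.re := by nlinarith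
      gcongr
    calc _ ≤ om x.re ^ 2 * l := by gcongr
      _ = _ := by ring
  have b2 : ‖(sin e - e) / exp x‖ ≤ l * om x.re ^ 2 := by
    rw [norm_div, hz, div_le_iff₀ hr0]
    refine (mid_sin_sub he1).trans ?_
    have a1 : ‖e‖ ^ 3 ≤ (3 * w x.re * l) ^ 3 := by gcongr
    refine a1.trans ?_
    have a2 : (3 * w x.re * l) ^ 3 = (27 * l ^ 2) * (l * w x.re ^ 2 * w x.re) := by ring
    have a3 : 27 * l ^ 2 ≤ 1 := by nlinarith
    rw [a2]
    calc _ ≤ 1 * (l * om x.re ^ 2 * Real.exp x.re) := by gcongr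
      _ = _ := by ring
  have hs1 : ‖y - x‖ ≤ 1 := by linarith
  have b3 : ‖e / exp x - (exp (y - x) - 1) / 2‖ ≤ 12 * (l * om x.re ^ 2) := by
    rcases le_total x.re 0 with h | h
    · have a1 := norm_rho_sub_le hx hy (by linarith)
      have a2 : e / exp x - (exp (y - x) - 1) / 2 =
          3 / 4 * ((Th y - 2 / 3 * exp y) - (Th x - 2 / 3 * exp x)) / exp x := by
        rw [he, hey]; field_simp; ring
      have a3 : ‖(3 / 4 : ℂ)‖ = 3 / 4 := by simp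
      rw [a2, norm_div, norm_mul, a3, hz, div_le_iff₀ hr0, om_of_nonpos h]
      have a4 : 8 * Real.exp x.re ^ 3 * ‖y - x‖ ≤ 8 * Real.exp x.re ^ 3 * (2 * l) := by gcongr
      nlinarith
    · rw [om_of_nonneg h]
      have a1 : ‖e / exp x‖ ≤ 3 * l := by
        rw [norm_div, hz, div_le_iff₀ hr0]; nlinarith
      have a2 : ‖(exp (y - x) - 1) / 2‖ ≤ 2 * l := by
        have := Complex.norm_exp_sub_one_le hs1
        rw [norm_div, Complex.norm_two]; linarith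
      linarith [norm_sub_le (e / exp x) ((exp (y - x) - 1) / 2)]
  have b4 : ‖(exp (y - x) - exp l) / 2‖ ≤ 2 * ‖y - x - l‖ := by
    have a1 : exp (y - x) - exp l = exp l * (exp (y - x - l) - 1) := by
      rw [mul_sub, ← Complex.exp_add]; ring_nf
    have a2 := Complex.norm_exp_sub_one_le (x := y - x - l) (by linarith)
    have a3 : ‖exp (l : ℂ)‖ ≤ 2 := by rw [norm_exp, ofReal_re]; linarith
    rw [a1, norm_div, norm_mul, Complex.norm_two]
    have a4 : ‖exp (l : ℂ)‖ * ‖exp (y - x - l) - 1‖ ≤ 2 * (2 * ‖y - x - l‖) := by gcongr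
    linarith
  have b5 : ‖((1 + Real.exp l) / 2 : ℝ) * (exp x * sin e)‖ ≤ 12 * (l * om x.re ^ 2) := by
    rw [norm_mul, norm_mul, Complex.norm_real, hz, Real.norm_of_nonneg (by positivity),
      ← mid_w_mul_exp]
    have a1 : ‖sin e‖ ≤ 2 * (3 * w x.re * l) := (mid_sin_le he1).trans (by linarith)
    calc _ ≤ 2 * (Real.exp x.re * (2 * (3 * w x.re * l))) := by gcongr; linarith
      _ = _ := by ring
  rw [id1]
  refine (norm_add_le _ _).trans ?_
  refine (add_le_add_left (norm_add_le _ _) _).trans ?_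
  have c1 := norm_add₃_le (a := (cos e - 1) * (((1 - Real.exp l) / 2 : ℝ) : ℂ))
    (b := (sin e - e) / exp x) (c := e / exp x - (exp (y - x) - 1) / 2)
  linarith

theorem mid_est : ∃ C : ℝ, 0 < C ∧ ∀ (l : ℝ) (x y : ℂ), 0 < l → l ≤ 1 / 100 →
    x ∈ St (1 / 2) → ‖y - x - l‖ ≤ l →
      HasDerivAt Lam (3 / sin (3 * ((Th x + Th y) / 2))) ((Th x + Th y) / 2) ∧
      w x.re / 2 ≤ ‖sin (3 * ((Th x + Th y) / 2))‖ ∧
      ‖mid x y - x - cst l‖ ≤ C * (‖y - x - l‖ + l * om x.re ^ 2) := by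
  refine ⟨60, by norm_num, fun l x y h0 h1 hx hsl => ?_⟩
  have hs : ‖y - x‖ ≤ 2 * l := by
    have a1 : y - x = (y - x - l) + l := by ring
    have a2 : ‖(l : ℂ)‖ = l := by rw [Complex.norm_real, Real.norm_of_nonneg h0.le]
    rw [a1]; linarith [norm_add_le (y - x - l) (l : ℂ)]
  have hx7 : x ∈ St (7 / 10) := St_mono (by norm_num) hx
  have hy7 : y ∈ St (7 / 10) := St_mono (by linarith) (mem_St_of_norm_sub hx hs)
  have hx3 := St7_subset hx7
  obtain ⟨e, he⟩ : ∃ e : ℂ, e = 3 / 4 * (Th y - Th x) := ⟨_, rfl⟩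
  have hw1 := w_le_one x.re
  have hw0 := w_pos x.re
  have hom1 := om_le_one x.re
  have hom0 := om_pos x.re
  have hr0 := Real.exp_pos x.re
  have hz : ‖exp x‖ = Real.exp x.re := norm_exp x
  have hz0 := exp_ne_zero x
  have hen : ‖e‖ ≤ 3 * w x.re * l := by
    have a1 := norm_Th_sub_le hx7 hy7 (by linarith)
    have a3 : ‖(3 / 4 : ℂ)‖ = 3 / 4 := by simp
    rw [he, norm_mul, a3]
    have a4 : 2 * w x.re * ‖y - x‖ ≤ 2 * w x.re * (2 * l) := by gcongr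
    linarith
  have he3 : ‖e‖ ≤ 3 / 100 := by nlinarith
  have he1 : ‖e‖ ≤ 1 := by linarith
  have hnum := mid_num_est h0 h1 hx7 hy7 hs hsl he hen
  have hom2 : om x.re ^ 2 ≤ 1 := by nlinarith
  have hlo : l * om x.re ^ 2 ≤ l := by nlinarith
  obtain ⟨D, hD⟩ : ∃ D : ℂ, D = cos e - exp x * sin e := ⟨_, rfl⟩
  obtain ⟨N, hN⟩ : ∃ N : ℂ, N = cos e + sin e / exp x := ⟨_, rfl⟩
  obtain ⟨T, hT⟩ : ∃ T : ℝ, T = (1 + Real.exp l) / 2 := ⟨_, rfl⟩
  rw [← hD, ← hN, ← hT] at hnum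
  have hDn : 9 / 10 ≤ ‖D‖ := by
    have a1 : ‖cos e - 1‖ ≤ 1 / 100 := (mid_cos_sub he1).trans (by nlinarith [norm_nonneg e])
    have a2 : ‖exp x * sin e‖ ≤ 6 * (l * om x.re ^ 2) := by
      rw [norm_mul, hz, ← mid_w_mul_exp]
      have a1 : ‖sin e‖ ≤ 2 * (3 * w x.re * l) := (mid_sin_le he1).trans (by linarith)
      calc _ ≤ Real.exp x.re * (2 * (3 * w x.re * l)) := by gcongr
        _ = _ := by ring
    have a3 : (1 : ℂ) = D - (cos e - 1) + exp x * sin e := by rw [hD]; ring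
    have a4 : ‖D - (cos e - 1) + exp x * sin e‖ ≤ ‖D‖ + ‖cos e - 1‖ + ‖exp x * sin e‖ :=
      (norm_add_le _ _).trans (add_le_add_left (norm_sub_le _ _) _)
    rw [← a3, norm_one] at a4
    linarith
  have hD0 : D ≠ 0 := by rw [← norm_pos_iff]; linarith
  have hel := exp_le_one_add_two_mul h0.le (by linarith)
  have hel1 : 1 ≤ Real.exp l := Real.one_le_exp h0.le
  have hqT : ‖N / D - T‖ ≤ 10 / 9 * (2 * ‖y - x - l‖ + 26 * (l * om x.re ^ 2)) := by
    have a1 : N / D - T = (N - T * D) / D := by field_simp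
    rw [a1, norm_div, div_le_iff₀ (by linarith)]
    have a2 : 0 ≤ 2 * ‖y - x - l‖ + 26 * (l * om x.re ^ 2) := by positivity
    nlinarith
  have hT1 : ‖(T : ℂ) - 1‖ ≤ l := by
    have : (T : ℂ) - 1 = ((T - 1 : ℝ) : ℂ) := by push_cast; ring
    rw [this, Complex.norm_real, Real.norm_eq_abs, abs_le]
    constructor <;> linarith
  have hq1 : ‖N / D - 1‖ ≤ 1 / 2 := by
    have a1 : N / D - 1 = (N / D - T) + (T - 1) := by ring
    rw [a1]; linarith [norm_add_le (N / D - T) ((T : ℂ) - 1)]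
  have hq0 : N / D ≠ 0 := by
    intro h; rw [h] at hq1; norm_num at hq1
  have hlq : ‖log (N / D)‖ ≤ 1 := by
    have := mid_log_lip (a := N / D) (b := 1) hq1 (by simp)
    rw [log_one, sub_zero] at this; linarith
  have harg : 3 * ((Th x + Th y) / 2) / 2 = 3 * Th x / 2 + e := by rw [he]; ring
  have hcA := cos_Th_ne hx3
  have hcos : cos (3 * ((Th x + Th y) / 2) / 2) = cos (3 * Th x / 2) * D := by
    rw [harg, Complex.cos_add, sin_Th_half hx3, hD]; ring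
  have hsin : sin (3 * ((Th x + Th y) / 2) / 2) = cos (3 * Th x / 2) * (exp x * N) := by
    rw [harg, Complex.sin_add, sin_Th_half hx3, hN]; field_simp
  have htan : tan (3 * ((Th x + Th y) / 2) / 2) = exp (x + log (N / D)) := by
    rw [Complex.tan_eq_sin_div_cos, hsin, hcos, Complex.exp_add, exp_log hq0]; field_simp
  have hmem : x + log (N / D) ∈ St (3 / 2) := by
    have := mem_St_of_norm_sub (x := x + log (N / D)) hx (by simpa using hlq)
    exact St_mono (by norm_num) this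
  have hcos0 : cos (3 * ((Th x + Th y) / 2) / 2) ≠ 0 := by rw [hcos]; exact mul_ne_zero hcA hD0
  have htan0 : tan (3 * ((Th x + Th y) / 2) / 2) ≠ 0 := by rw [htan]; exact exp_ne_zero _
  refine ⟨?_, ?_, ?_⟩
  · have a1 : HasDerivAt (fun u : ℂ => 3 * u / 2) (3 / 2) ((Th x + Th y) / 2) := by
      simpa using ((hasDerivAt_id ((Th x + Th y) / 2)).const_mul 3).div_const 2
    have a2 := ((Complex.hasDerivAt_tan hcos0).comp ((Th x + Th y) / 2) a1).clog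
      (by show tan _ ∈ _; rw [htan]; exact Or.inl (exp_re_pos hmem))
    have a3 : 3 / sin (3 * ((Th x + Th y) / 2)) =
        1 / cos (3 * ((Th x + Th y) / 2) / 2) ^ 2 * (3 / 2) / tan (3 * ((Th x + Th y) / 2) / 2) := by
      have b1 := Complex.sin_two_mul (3 * ((Th x + Th y) / 2) / 2)
      rw [show 2 * (3 * ((Th x + Th y) / 2) / 2) = 3 * ((Th x + Th y) / 2) by ring] at b1
      rw [Complex.tan_eq_sin_div_cos] at htan0 ⊢
      have b2 : sin (3 * ((Th x + Th y) / 2) / 2) ≠ 0 := fun h => htan0 (by rw [h, zero_div])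
      rw [b1]
      generalize sin (3 * ((Th x + Th y) / 2) / 2) = S at *
      generalize cos (3 * ((Th x + Th y) / 2) / 2) = C at *
      field_simp
    rw [a3]
    exact a2
  · have a1 : 3 * ((Th x + Th y) / 2) = 3 * Th x + 2 * e := by rw [he]; ring
    have a2 : ‖2 * e‖ = 2 * ‖e‖ := by simp
    have a3 : ‖2 * e‖ ≤ 1 := by linarith
    have a4 : ‖cos (2 * e) - 1‖ ≤ 1 / 100 :=
      (mid_cos_sub a3).trans (by rw [a2]; nlinarith [norm_nonneg e])
    have a5 : 99 / 100 ≤ ‖cos (2 * e)‖ := by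
      have := norm_sub_norm_le (1 : ℂ) (cos (2 * e))
      rw [norm_one, norm_sub_rev] at this; linarith
    have a6 : ‖sin (2 * e)‖ ≤ 12 * w x.re * l := (mid_sin_le a3).trans (by linarith)
    have a7 := norm_inv_cosh_ge hx3
    have a8 := norm_tanh_le hx7
    rw [a1, Complex.sin_add, sin_three_Th hx3, cos_three_Th hx3]
    have a9 := norm_sub_norm_le (1 / cosh x * cos (2 * e)) (sinh x / cosh x * sin (2 * e))
    rw [norm_mul, norm_mul] at a9
    have b1 : w x.re * (99 / 100) ≤ ‖1 / cosh x‖ * ‖cos (2 * e)‖ := by gcongr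
    have b2 : ‖sinh x / cosh x‖ * ‖sin (2 * e)‖ ≤ 3 * (12 * w x.re * l) := by gcongr
    have b3 : 1 / cosh x * cos (2 * e) + -(sinh x / cosh x) * sin (2 * e) =
      1 / cosh x * cos (2 * e) - sinh x / cosh x * sin (2 * e) := by ring
    rw [b3]
    nlinarith
  · have a1 : mid x y = x + log (N / D) := by
      unfold mid Lam
      have hpi := Real.pi_gt_three
      have := abs_lt.1 (mem_St.1 hmem)
      rw [htan, log_exp (by linarith [this.1]) (by linarith [this.2])]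
    have a2 : (cst l : ℂ) = log T := by
      unfold cst; rw [← hT, Complex.ofReal_log (by linarith)]
    have a3 := mid_log_lip (a := N / D) (b := T) hq1 (by linarith)
    rw [a1, a2, show x + log (N / D) - x - log T = log (N / D) - log T by ring]
    have a4 : 0 ≤ l * om x.re ^ 2 := by positivity
    linarith [norm_nonneg (y - x - l)]

theorem Lam_ofReal (ψ : ℝ) (h0 : 0 < ψ) (h1 : ψ < Real.pi / 3) :
    Lam ψ = (tauC (Real.cos (3 * ψ)) : ℝ) := by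
  have a0 : 0 < 3 * ψ / 2 := by linarith
  have a1 : 3 * ψ / 2 < Real.pi / 2 := by linarith
  have ht := Real.tan_pos_of_pos_of_lt_pi_div_two a0 a1
  have hc : 0 < Real.cos (3 * ψ / 2) := Real.cos_pos_of_mem_Ioo ⟨by linarith, a1⟩
  have e1 : Lam ψ = (Real.log (Real.tan (3 * ψ / 2)) : ℝ) := by
    unfold Lam
    rw [Complex.ofReal_log ht.le, Complex.ofReal_tan]; push_cast; rfl
  have e2 : (1 - Real.cos (3 * ψ)) / (1 + Real.cos (3 * ψ)) = Real.tan (3 * ψ / 2) ^ 2 := by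
    have b1 := Real.cos_two_mul (3 * ψ / 2)
    rw [show 2 * (3 * ψ / 2) = 3 * ψ by ring] at b1
    have b2 := Real.sin_sq_add_cos_sq (3 * ψ / 2)
    rw [b1, Real.tan_eq_sin_div_cos, div_pow, div_eq_div_iff (by nlinarith) (by positivity)]
    linear_combination (-2 * Real.cos (3 * ψ / 2) ^ 2) * b2
  rw [e1]
  unfold tauC
  rw [e2, Real.log_pow]; congr 1; push_cast; ring

theorem thR_mem (x : ℝ) : 0 < thR x ∧ thR x < Real.pi / 3 := by
  unfold thR
  have h1 := Real.arctan_lt_pi_div_two (Real.exp x)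
  have h2 : 0 < Real.arctan (Real.exp x) := Real.arctan_pos.2 (Real.exp_pos x)
  constructor <;> linarith

theorem im_mid (x y : ℝ) : (mid x y).im = 0 := by
  have h1 := thR_mem x
  have h2 := thR_mem y
  have := Lam_ofReal ((thR x + thR y) / 2) (by linarith [h1.1, h2.1]) (by linarith [h1.2, h2.2])
  unfold mid
  rw [Th_ofReal, Th_ofReal]
  push_cast at this
  rw [this, ofReal_im]

theorem cst_bounds {l : ℝ} (h0 : 0 < l) : 0 ≤ cst l ∧ cst l ≤ l := by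
  have h1 : 1 ≤ Real.exp l := Real.one_le_exp h0.le
  unfold cst
  refine ⟨Real.log_nonneg (by linarith), ?_⟩
  rw [Real.log_le_iff_le_exp (by linarith)]; linarith

lemma mid_hasDerivAt_log {τ : ℂ} (h : τ ∈ St (3 / 2)) :
    HasDerivAt (fun u => log (1 + exp u)) (exp τ / (1 + exp τ)) τ :=
  ((Complex.hasDerivAt_exp τ).const_add 1).clog
    (Or.inl (by simp only [add_re, one_re]; linarith [exp_re_pos h]))

lemma mid_hasDerivAt_phi {τ : ℂ} (h : τ ∈ St (3 / 2)) :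
    HasDerivAt phi (1 / (1 + exp τ)) τ := by
  have h1 := (hasDerivAt_id τ).sub (mid_hasDerivAt_log h)
  have h2 : (1 + exp τ) ≠ 0 := by
    rw [← norm_pos_iff]; linarith [one_le_norm_one_add (exp_re_pos h).le]
  have e : 1 / (1 + exp τ) = 1 - exp τ / (1 + exp τ) := by field_simp; ring
  rw [e]; exact h1

theorem phi_diffAt {τ : ℂ} (h : τ ∈ St (3 / 2)) : DifferentiableAt ℂ phi τ :=
  (mid_hasDerivAt_phi h).differentiableAt

theorem isRe_phi : IsRe phi := by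
  intro x
  unfold phi
  have e : (1 : ℂ) + exp x = ((1 + Real.exp x : ℝ) : ℂ) := by push_cast; rfl
  rw [e, ← Complex.ofReal_log (by positivity), ← Complex.ofReal_sub, ofReal_im]

theorem phi_mem {ρ : ℝ} (h0 : 1 / 16 ≤ ρ) (h1 : ρ ≤ 1 / 4) {τ : ℂ} (h : τ ∈ Dom ρ (1 / 50)) :
    phi τ ∈ St ρ := by
  have hom1 := om_le_one τ.re
  have hom0 := om_pos τ.re
  have hτ : τ ∈ St (7 / 10) := St_mono (by linarith) (Dom_subset_St (by norm_num) h)
  have key : ‖phi τ - phi (τ.re : ℂ)‖ ≤ (1 - om τ.re / 3) * ‖τ - (τ.re : ℂ)‖ := by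
    refine mvt (f' := fun u => 1 / (1 + exp u))
      ((convex_St (7 / 10)).inter (convex_halfSpace_re_ge τ.re))
      (fun u hu => mid_hasDerivAt_phi (St7_subset hu.1)) (fun u hu => ?_)
      ⟨ofReal_mem_St (by norm_num) _, by simp⟩ ⟨hτ, by simp⟩
    have a1 := cos_ge_of_abs_le (le_of_lt hu.1)
    have a2 : om τ.re ≤ Real.exp u.re := (om_le_exp _).trans (Real.exp_le_exp.2 hu.2)
    have a3 := re_le_norm (1 + exp u)
    rw [add_re, one_re, exp_re] at a3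
    have a4 : 1 + 3 / 4 * om τ.re ≤ ‖1 + exp u‖ := by nlinarith
    rw [norm_div, norm_one, div_le_iff₀ (by linarith)]
    nlinarith
  have e1 : ‖τ - (τ.re : ℂ)‖ = |τ.im| := by
    have : τ - (τ.re : ℂ) = τ.im * I := by
      apply Complex.ext <;> simp
    rw [this]; simp
  have e2 := abs_im_sub_le (phi τ) (phi (τ.re : ℂ))
  rw [isRe_phi, sub_zero] at e2
  rw [e1] at key
  rw [mem_Dom] at h
  rw [mem_St]
  have a1 : (1 - om τ.re / 3) * |τ.im| < (1 - om τ.re / 3) * (ρ + 1 / 50 * om τ.re) :=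
    mul_lt_mul_of_pos_left h (by linarith)
  nlinarith

theorem norm_phi_sub {τ : ℂ} (h : τ ∈ St (3 / 2)) : ‖phi τ - τ‖ ≤ Real.exp τ.re := by
  have key : ‖log (1 + exp τ) - log (1 + 0)‖ ≤ 1 * ‖exp τ - 0‖ := by
    refine mvt (f := fun u => log (1 + u)) (f' := fun u => 1 / (1 + u))
      (convex_halfSpace_re_ge 0) (fun u hu => ?_) (fun u hu => ?_) (by simp) (exp_re_pos h).le
    · have hu' : 0 ≤ u.re := hu
      exact ((hasDerivAt_id u).const_add 1).clog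
        (Or.inl (by simp only [id, add_re, one_re]; linarith))
    · rw [norm_div, norm_one]
      exact div_le_one_of_le₀ (one_le_norm_one_add hu) (norm_nonneg _)
  unfold phi
  rw [sub_sub_cancel_left, norm_neg]
  simpa [norm_exp] using key

theorem norm_phi_sub_sub {τ a b : ℂ} (ha : a ∈ St (3 / 2)) (hb : b ∈ St (3 / 2))
    (ha' : ‖a - τ‖ ≤ 1 / 2) (hb' : ‖b - τ‖ ≤ 1 / 2) :
    ‖(phi a - a) - (phi b - b)‖ ≤ 2 * Real.exp τ.re * ‖a - b‖ := by
  have key : ‖log (1 + exp a) - log (1 + exp b)‖ ≤ 2 * Real.exp τ.re * ‖a - b‖ := by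
    refine mvt (f := fun u => log (1 + exp u)) (f' := fun u => exp u / (1 + exp u))
      ((convex_St (3 / 2)).inter (convex_closedBall τ (1 / 2)))
      (fun u hu => mid_hasDerivAt_log hu.1) (fun u hu => ?_)
      ⟨hb, mem_closedBall_iff_norm.2 hb'⟩ ⟨ha, mem_closedBall_iff_norm.2 ha'⟩
    rw [norm_div]
    refine (div_le_self (norm_nonneg _) (one_le_norm_one_add (exp_re_pos hu.1).le)).trans ?_
    have h2 := (abs_re_sub_le u τ).trans (mem_closedBall_iff_norm.1 hu.2)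
    have h3 : Real.exp u.re = Real.exp (u.re - τ.re) * Real.exp τ.re := by
      rw [← Real.exp_add]; ring_nf
    rw [norm_exp, h3]
    gcongr
    exact exp_le_two ((le_abs_self _).trans h2)
  have e : (phi a - a) - (phi b - b) = -(log (1 + exp a) - log (1 + exp b)) := by
    unfold phi; ring
  rw [e, norm_neg]; exact key

end Pool.Agent.MP_be9872_an

end

-- part MP_be9872_an.Orb
section

set_option autoImplicit false
open Complex

namespace Pool.Agent.MP_be9872_an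

lemma om_mono {x y : ℝ} (h : x ≤ y) : om x ≤ om y := by
  unfold om; rw [Real.exp_le_exp]; exact min_le_min_right _ h

lemma s0_pos : 0 < s0 := by unfold s0; positivity
lemma s0_sq : s0 ^ 2 = 3 / 4 := by
  unfold s0; rw [div_pow, Real.sq_sqrt (by norm_num)]; norm_num
lemma s0_ge : 4 / 5 ≤ s0 := by nlinarith [s0_pos, s0_sq]
lemma s0_le : s0 ≤ 9 / 10 := by nlinarith [s0_pos, s0_sq]
lemma gam_pos : 0 < gam := by unfold gam; have := s0_pos; positivity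
lemma gam_mul : s0 * gam = 1 / 12 := by unfold gam; have := s0_pos; field_simp
lemma gam_le : gam ≤ 1 / 9 := by nlinarith [gam_mul, s0_ge, gam_pos]

lemma Pot.mono {ρ ρ' κ κ' : ℝ} {U : ℂ → ℂ} (h : Pot ρ κ U) (hρ : ρ' ≤ ρ) (hκ : κ ≤ κ') :
    Pot ρ' κ' U :=
  ⟨h.diff.mono (Dom_mono hρ le_rfl), fun τ hτ => (h.bd τ (Dom_mono hρ le_rfl hτ)).trans
    (mul_le_mul_of_nonneg_right hκ (pow_nonneg (w_nonneg _) _))⟩

lemma Pot.add {ρ κ κ' : ℝ} {U U' : ℂ → ℂ} (h : Pot ρ κ U) (h' : Pot ρ κ' U') :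
    Pot ρ (κ + κ') (fun a => U a + U' a) :=
  ⟨h.diff.add h'.diff, fun τ hτ => (norm_add_le _ _).trans (by
    have := h.bd τ hτ; have := h'.bd τ hτ; linarith)⟩

lemma Pot.nonneg {ρ κ : ℝ} {U : ℂ → ℂ} (h : Pot ρ κ U) (hρ : 0 < ρ) : 0 ≤ κ := by
  have h1 := h.bd 0 (St_subset_Dom (by norm_num) (by simpa using ofReal_mem_St hρ 0))
  have h2 : 0 < w (0 : ℂ).re ^ 4 := pow_pos (w_pos _) _
  by_contra hc
  have := mul_neg_of_neg_of_pos (not_le.1 hc) h2
  linarith [norm_nonneg (U 0)]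

lemma pot_zero (ρ : ℝ) : Pot ρ 0 (fun _ => 0) :=
  ⟨differentiableOn_const _, fun _ _ => by simp⟩

lemma Bal.mono {ρ ρ' r r' : ℝ} {W : ℂ → ℂ} (h : Bal ρ r W) (hρ : ρ' ≤ ρ) (hr : r ≤ r') :
    Bal ρ' r' W :=
  ⟨h.diff.mono (St_mono hρ), fun τ hτ => (h.bd τ (St_mono hρ hτ)).trans
    (mul_le_mul_of_nonneg_right hr (w_nonneg _))⟩

lemma Sol.mono {η : ℂ} {l ρ ρ' : ℝ} {U W : ℂ → ℂ} (h : Sol η l ρ U W) (hρ : ρ' ≤ ρ) :
    Sol η l ρ' U W :=
  ⟨h.bal.mono hρ le_rfl, h.re, fun τ hτ => h.fix τ (St_mono hρ hτ)⟩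

lemma IsRe.add {f g : ℂ → ℂ} (hf : IsRe f) (hg : IsRe g) : IsRe (fun a => f a + g a) :=
  fun x => by simp [hf x, hg x]

lemma IsRe.sub {f g : ℂ → ℂ} (hf : IsRe f) (hg : IsRe g) : IsRe (fun a => f a - g a) :=
  fun x => by simp [hf x, hg x]

lemma IsRe.of_im {f : ℂ → ℂ} (hf : IsRe f) {z : ℂ} (hz : z.im = 0) : (f z).im = 0 := by
  have : z = (z.re : ℝ) := Complex.ext (by simp) (by simp [hz])
  rw [this]; exact hf _

lemma IsRe.Vv {W : ℂ → ℂ} (h : IsRe W) (l : ℝ) : IsRe (Vv l W) := fun x => by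
  unfold Pool.Agent.MP_be9872_an.Vv
  exact (h.sumL l).of_im (by simp)

lemma IsRe.Tt {W : ℂ → ℂ} (h : IsRe W) (l : ℝ) : IsRe (Tt l W) := fun x => by
  unfold Pool.Agent.MP_be9872_an.Tt
  simp [h.Vv l x]

section
variable {l ρ r : ℝ} (hl : 0 < l) (hl1 : l ≤ 1 / 10) {W : ℂ → ℂ}
include hl hl1

lemma norm_Vv_le (hb : ∀ τ ∈ St ρ, ‖W τ‖ ≤ r * w τ.re) {τ : ℂ} (hτ : τ ∈ St ρ) :
    ‖Vv l W τ‖ ≤ 6 * r / l * om τ.re := by
  have h := lineBd_of_St0 hb (sub_real_mem_St hτ l)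
  have h0 := h.nonneg
  refine (h.left hl hl1).2.trans (mul_le_mul_of_nonneg_left (om_mono ?_) (by positivity))
  simp [hl.le]

lemma Vv_step (hb : ∀ τ ∈ St ρ, ‖W τ‖ ≤ r * w τ.re) {τ : ℂ} (hτ : τ ∈ St ρ) :
    Vv l W (τ + l) = Vv l W τ + W τ := by
  unfold Vv
  rw [add_sub_cancel_right, (lineBd_of_St0 hb hτ).sumL_step hl hl1, add_comm]

lemma Tt_step (hb : ∀ τ ∈ St ρ, ‖W τ‖ ≤ r * w τ.re) {τ : ℂ} (hτ : τ ∈ St ρ) :
    Tt l W (τ + l) = Tt l W τ + l + W τ := by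
  unfold Tt
  rw [Vv_step hl hl1 hb hτ]; ring

lemma Tt_step' (hb : ∀ τ ∈ St ρ, ‖W τ‖ ≤ r * w τ.re) {τ : ℂ} (hτ : τ ∈ St ρ) :
    Tt l W (τ - l) + l + W (τ - l) = Tt l W τ := by
  rw [← Tt_step hl hl1 hb (sub_real_mem_St hτ l), sub_add_cancel]

lemma Bal.diff_Vv (h : Bal ρ r W) : DifferentiableOn ℂ (Vv l W) (St ρ) := by
  have h1 := diffOn_sumL (L := 0) hl hl1 h.diff (by simpa using h.bd)
  exact h1.comp (differentiableOn_id.sub_const _) (fun τ hτ => sub_real_mem_St hτ l)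

lemma Bal.diff_Tt (h : Bal ρ r W) : DifferentiableOn ℂ (Tt l W) (St ρ) :=
  differentiableOn_id.add (h.diff_Vv hl hl1)

lemma adm_Tt (hb : ∀ τ ∈ St ρ, ‖W τ‖ ≤ 2 * l ^ 2 * w τ.re) {τ : ℂ} (hτ : τ ∈ St ρ) :
    Adm l ρ τ (Tt l W τ) (W τ) := by
  refine ⟨hτ, ?_, hb τ hτ⟩
  have h1 := norm_Vv_le hl hl1 hb hτ
  unfold Tt
  rw [add_sub_cancel_left]
  refine h1.trans (le_of_eq ?_)
  field_simp; ring

lemma Bal.adm (h : Bal ρ (l ^ 2) W) {τ : ℂ} (hτ : τ ∈ St ρ) : Adm l ρ τ (Tt l W τ) (W τ) :=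
  adm_Tt hl hl1 (h.mono le_rfl (by nlinarith)).bd hτ

lemma Vv_line {W' : ℂ → ℂ} {r' : ℝ} (hb : ∀ τ ∈ St ρ, ‖W τ‖ ≤ r * w τ.re)
    (hb' : ∀ τ ∈ St ρ, ‖W' τ‖ ≤ r' * w τ.re) (ζ : ℂ) {τ : ℂ} (hτ : τ ∈ St ρ) :
    Vv l (fun a => W a + ζ * W' a) τ = Vv l W τ + ζ * Vv l W' τ := by
  unfold Vv
  have h1 := lineBd_of_St0 hb (sub_real_mem_St hτ l)
  have h2 : LineBd (fun a => ζ * W' a) (τ - l) (‖ζ‖ * r') 0 :=
    lineBd_of_St0 (ρ := ρ) (fun a ha => by
      rw [norm_mul, mul_assoc]; exact mul_le_mul_of_nonneg_left (hb' a ha) (norm_nonneg _))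
      (sub_real_mem_St hτ l)
  rw [h1.sumL_add hl hl1 h2, sumL_mul_left]

lemma Tt_line {W' : ℂ → ℂ} {r' : ℝ} (hb : ∀ τ ∈ St ρ, ‖W τ‖ ≤ r * w τ.re)
    (hb' : ∀ τ ∈ St ρ, ‖W' τ‖ ≤ r' * w τ.re) (ζ : ℂ) {τ : ℂ} (hτ : τ ∈ St ρ) :
    Tt l (fun a => W a + ζ * W' a) τ = Tt l W τ + ζ * Vv l W' τ := by
  unfold Tt
  rw [Vv_line hl hl1 hb hb' ζ hτ]; ring

lemma Vv_sub {W' : ℂ → ℂ} {r' : ℝ} (hb : ∀ τ ∈ St ρ, ‖W τ‖ ≤ r * w τ.re)
    (hb' : ∀ τ ∈ St ρ, ‖W' τ‖ ≤ r' * w τ.re) {τ : ℂ} (hτ : τ ∈ St ρ) :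
    Vv l (fun a => W' a - W a) τ = Vv l W' τ - Vv l W τ := by
  unfold Vv
  exact (lineBd_of_St0 hb' (sub_real_mem_St hτ l)).sumL_sub hl hl1
    (lineBd_of_St0 hb (sub_real_mem_St hτ l))

end

lemma Vv_congr {l ρ : ℝ} {W W' : ℂ → ℂ} (h : ∀ τ ∈ St ρ, W τ = W' τ) {τ : ℂ} (hτ : τ ∈ St ρ) :
    Vv l W τ = Vv l W' τ := sumL_congr_St h (sub_real_mem_St hτ l)

lemma Tt_congr {l ρ : ℝ} {W W' : ℂ → ℂ} (h : ∀ τ ∈ St ρ, W τ = W' τ) {τ : ℂ} (hτ : τ ∈ St ρ) :
    Tt l W τ = Tt l W' τ := by unfold Tt; rw [Vv_congr h hτ]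

end Pool.Agent.MP_be9872_an

end

-- part MP_be9872_an.LocG
section

set_option autoImplicit false
open Complex

namespace Pool.Agent.MP_be9872_an

lemma locg_cosh_sub {s : ℂ} (hs : ‖s‖ ≤ 1 / 5) : ‖cosh s - 1‖ ≤ 3 / 5 * ‖s‖ ^ 2 := by
  have hn : ‖s * I‖ = ‖s‖ := by simp
  have h1 := Complex.cos_bound (x := s * I) (by rw [hn]; linarith)
  rw [hn, Complex.cos_mul_I] at h1
  have e : cosh s - 1 = (cosh s - (1 - (s * I) ^ 2 / 2)) - (s * I) ^ 2 / 2 := by ring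
  have h2 : ‖(s * I) ^ 2 / 2‖ = ‖s‖ ^ 2 / 2 := by
    rw [norm_div, norm_pow, hn]; simp
  have h3 := norm_sub_le (cosh s - (1 - (s * I) ^ 2 / 2)) ((s * I) ^ 2 / 2)
  rw [← e, h2] at h3
  have h4 : ‖s‖ ^ 2 ≤ 1 := by nlinarith [norm_nonneg s]
  have h5 : ‖s‖ ^ 4 ≤ ‖s‖ ^ 2 := by nlinarith [sq_nonneg ‖s‖]
  nlinarith [sq_nonneg ‖s‖]

lemma locg_den_ge {s : ℂ} (hs : ‖s‖ ≤ 1 / 5) : 70 ≤ ‖37 + 35 * cosh s‖ := by
  have h1 := locg_cosh_sub hs
  have h2 : ‖s‖ ^ 2 ≤ 1 / 25 := by nlinarith [norm_nonneg s]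
  have e : (72 : ℂ) = (37 + 35 * cosh s) - 35 * (cosh s - 1) := by ring
  have h3 := norm_sub_le (37 + 35 * cosh s) (35 * (cosh s - 1))
  rw [← e, norm_mul] at h3
  simp only [Complex.norm_ofNat] at h3
  linarith

theorem mu_den_ne {s : ℂ} (hs : ‖s‖ ≤ 1 / 5) : 37 + 35 * cosh s ≠ 0 := by
  rw [← norm_pos_iff]; linarith [locg_den_ge hs]

theorem norm_mu_le {s : ℂ} (hs : ‖s‖ ≤ 1 / 5) : ‖mu s‖ ≤ ‖s‖ ^ 2 / 100 := by
  have h1 := locg_cosh_sub hs
  have h2 := locg_den_ge hs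
  unfold mu
  rw [norm_div, div_le_iff₀ (by linarith)]
  nlinarith [sq_nonneg ‖s‖]

theorem mu_id {s : ℂ} (hs : ‖s‖ ≤ 1 / 5) : (1 - 35 * mu s) * (cosh s - 1) = 72 * mu s := by
  have h := mu_den_ne hs
  unfold mu
  field_simp
  ring

theorem g0_symm (η μ θ a : ℂ) : g0 η μ (Real.pi / 3 - θ) (-a) = -g0 (-η) μ θ a := by
  unfold g0
  have e1 : 6 * ((Real.pi : ℂ) / 3 - θ + -a / 2) = 2 * Real.pi - 6 * (θ + a / 2) := by ring
  have e2 : (Real.pi : ℂ) / 3 + η * -a / 2 = Real.pi / 3 + -η * a / 2 := by ring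
  rw [e1, e2, Complex.sin_two_pi_sub, Complex.cos_two_pi_sub]
  ring

/-- Taylor bounds for an entire function on a fixed disc -/
lemma locg_taylor {f : ℂ → ℂ} (hf : Differentiable ℂ f) {c f' : ℂ} (hc : HasDerivAt f f' c) :
    ∃ K : ℝ, 0 < K ∧ ∀ u : ℂ, ‖u‖ ≤ 24 → ‖f (c + u)‖ ≤ K ∧ ‖f (c + u) - f c‖ ≤ K * ‖u‖ ∧
      ‖f (c + u) - f c - f' * u‖ ≤ K * ‖u‖ ^ 2 := by
  obtain ⟨B, hB⟩ := (isCompact_closedBall c 25).exists_bound_of_continuousOn
    hf.continuous.continuousOn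
  have hB0 : 0 ≤ B := (norm_nonneg _).trans (hB c (Metric.mem_closedBall_self (by norm_num)))
  refine ⟨B + 1, by linarith, fun u hu => ?_⟩
  have hz : c + u ∈ Metric.ball c 25 := by
    rw [mem_ball_iff_norm, add_sub_cancel_left]; linarith
  have hb : ∀ v ∈ Metric.ball c 25, ‖f v‖ ≤ B := fun v hv => hB v (Metric.ball_subset_closedBall hv)
  have h1 := schwarz1 hf.differentiableOn hb hz
  have h2 := schwarz2 hf.differentiableOn hb hc hz
  rw [add_sub_cancel_left] at h1 h2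
  refine ⟨by linarith [hb _ hz], h1.trans ?_, h2.trans ?_⟩
  · gcongr; linarith
  · nlinarith [sq_nonneg ‖u‖, mul_nonneg hB0 (sq_nonneg ‖u‖)]

lemma locg_sin_pi3 : sin ((Real.pi : ℂ) / 3) = (s0 : ℝ) := by
  have : ((Real.pi : ℂ) / 3) = ((Real.pi / 3 : ℝ) : ℂ) := by push_cast; ring
  rw [this, ← Complex.ofReal_sin, Real.sin_pi_div_three]; rfl

lemma locg_cos_pi3 : cos ((Real.pi : ℂ) / 3) = 1 / 2 := by
  have : ((Real.pi : ℂ) / 3) = ((Real.pi / 3 : ℝ) : ℂ) := by push_cast; ring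
  rw [this, ← Complex.ofReal_cos, Real.cos_pi_div_three]; push_cast; ring

/-- first-order expansion of `g0` at the fixed point -/
theorem g0_near : ∃ C : ℝ, 0 < C ∧ ∀ η μ θ a : ℂ, (η = 1 ∨ η = -1) → ‖μ‖ ≤ 1 → ‖θ‖ ≤ 3 →
    ‖a‖ ≤ 1 →
      ‖g0 η μ θ a + η * (1 + μ) / 2 - (s0 : ℝ) * (-36 * μ * θ + (1 - 35 * μ) * a / 2)‖ ≤
        C * (‖μ‖ * (‖θ‖ + ‖a‖) ^ 2 + ‖a‖ ^ 2) := by
  obtain ⟨K1, p1, h1⟩ := locg_taylor Complex.differentiable_sin (Complex.hasDerivAt_sin 0)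
  obtain ⟨K2, p2, h2⟩ := locg_taylor Complex.differentiable_cos (Complex.hasDerivAt_cos 0)
  obtain ⟨K3, p3, h3⟩ := locg_taylor Complex.differentiable_sin
    (Complex.hasDerivAt_sin ((Real.pi : ℂ) / 3))
  obtain ⟨K4, p4, h4⟩ := locg_taylor Complex.differentiable_cos
    (Complex.hasDerivAt_cos ((Real.pi : ℂ) / 3))
  refine ⟨216 * K1 * K3 + 36 * K3 + 36 * K2 * K4 + K4, by positivity, ?_⟩
  intro η μ θ a hη hμ hθ ha
  have hη1 : ‖η‖ = 1 := by rcases hη with rfl | rfl <;> simp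
  have hη2 : η * η = 1 := by rcases hη with rfl | rfl <;> simp
  set p : ℝ := ‖θ‖ + ‖a‖ with hp
  have hp0 : 0 ≤ p := by positivity
  have hap : ‖a‖ ≤ p := by linarith [norm_nonneg θ]
  set z : ℂ := 6 * (θ + a / 2) with hz
  set v : ℂ := η * a / 2 with hv
  have hz1 : ‖z‖ ≤ 6 * p := by
    rw [hz, norm_mul]
    have := norm_add_le θ (a / 2)
    rw [norm_div] at this
    simp only [Complex.norm_ofNat] at this ⊢
    linarith [norm_nonneg a]
  have hv1 : ‖v‖ = ‖a‖ / 2 := by rw [hv, norm_div, norm_mul, hη1]; simp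
  obtain ⟨-, -, a1⟩ := h1 z (by linarith)
  obtain ⟨-, -, a2⟩ := h2 z (by linarith)
  obtain ⟨a3, a4, -⟩ := h3 v (by linarith)
  obtain ⟨a5, -, a6⟩ := h4 v (by linarith)
  simp only [zero_add, Complex.sin_zero, Complex.cos_zero, sub_zero, one_mul, neg_zero,
    zero_mul] at a1 a2
  rw [locg_sin_pi3] at a4 a6
  rw [locg_cos_pi3] at a6
  have e : g0 η μ θ a + η * (1 + μ) / 2 - (s0 : ℝ) * (-36 * μ * θ + (1 - 35 * μ) * a / 2) =
      -(6 * μ * ((sin z - z) * sin (Real.pi / 3 + v))) - 6 * μ * (z * (sin (Real.pi / 3 + v) - (s0 : ℝ)))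
        - η * (μ * ((cos z - 1) * cos (Real.pi / 3 + v)))
        - η * ((1 + μ) * (cos (Real.pi / 3 + v) - 1 / 2 - -((s0 : ℝ) : ℂ) * v)) := by
    unfold g0
    rw [← hz, ← hv]
    have : (s0 : ℝ) * (-36 * μ * θ + (1 - 35 * μ) * a / 2) =
        -6 * μ * z * (s0 : ℝ) + η * (1 + μ) * (s0 : ℝ) * v := by
      rw [hz, hv]; linear_combination (-(1 + μ) * (s0 : ℝ) * a / 2) * hη2
    rw [this]; ring
  have hz2 : ‖z‖ ^ 2 ≤ 36 * p ^ 2 := by nlinarith [norm_nonneg z]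
  have b1 : ‖6 * μ * ((sin z - z) * sin (Real.pi / 3 + v))‖ ≤ 216 * K1 * K3 * (‖μ‖ * p ^ 2) := by
    rw [norm_mul, norm_mul, norm_mul, Complex.norm_ofNat]
    calc 6 * ‖μ‖ * (‖sin z - z‖ * ‖sin (Real.pi / 3 + v)‖)
        ≤ 6 * ‖μ‖ * ((K1 * (36 * p ^ 2)) * K3) := by
          gcongr; exact a1.trans (by gcongr)
      _ = _ := by ring
  have b2 : ‖6 * μ * (z * (sin (Real.pi / 3 + v) - (s0 : ℝ)))‖ ≤ 36 * K3 * (‖μ‖ * p ^ 2) := by
    rw [norm_mul, norm_mul, norm_mul, Complex.norm_ofNat]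
    calc 6 * ‖μ‖ * (‖z‖ * ‖sin (Real.pi / 3 + v) - (s0 : ℝ)‖)
        ≤ 6 * ‖μ‖ * ((6 * p) * (K3 * p)) := by
          gcongr; exact a4.trans (by gcongr; linarith [norm_nonneg a])
      _ = _ := by ring
  have b3 : ‖η * (μ * ((cos z - 1) * cos (Real.pi / 3 + v)))‖ ≤ 36 * K2 * K4 * (‖μ‖ * p ^ 2) := by
    rw [norm_mul, norm_mul, norm_mul, hη1, one_mul]
    calc ‖μ‖ * (‖cos z - 1‖ * ‖cos (Real.pi / 3 + v)‖)
        ≤ ‖μ‖ * ((K2 * (36 * p ^ 2)) * K4) := by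
          gcongr; exact a2.trans (by gcongr)
      _ = _ := by ring
  have b4 : ‖η * ((1 + μ) * (cos (Real.pi / 3 + v) - 1 / 2 - -((s0 : ℝ) : ℂ) * v))‖ ≤
      K4 * ‖a‖ ^ 2 := by
    rw [norm_mul, norm_mul, hη1, one_mul]
    have : ‖1 + μ‖ ≤ 2 := by
      have := norm_add_le 1 μ
      rw [norm_one] at this; linarith
    calc ‖1 + μ‖ * ‖cos (Real.pi / 3 + v) - 1 / 2 - -((s0 : ℝ) : ℂ) * v‖
        ≤ 2 * (K4 * ‖v‖ ^ 2) := by gcongr
      _ ≤ _ := by rw [hv1]; nlinarith [mul_nonneg p4.le (sq_nonneg ‖a‖)]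
  rw [e]
  have t1 := norm_sub_le
    (-(6 * μ * ((sin z - z) * sin (Real.pi / 3 + v))) - 6 * μ * (z * (sin (Real.pi / 3 + v) - (s0 : ℝ)))
        - η * (μ * ((cos z - 1) * cos (Real.pi / 3 + v))))
    (η * ((1 + μ) * (cos (Real.pi / 3 + v) - 1 / 2 - -((s0 : ℝ) : ℂ) * v)))
  have t2 := norm_sub_le
    (-(6 * μ * ((sin z - z) * sin (Real.pi / 3 + v))) - 6 * μ * (z * (sin (Real.pi / 3 + v) - (s0 : ℝ))))
    (η * (μ * ((cos z - 1) * cos (Real.pi / 3 + v))))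
  have t3 := norm_sub_le (-(6 * μ * ((sin z - z) * sin (Real.pi / 3 + v))))
    (6 * μ * (z * (sin (Real.pi / 3 + v) - (s0 : ℝ))))
  rw [norm_neg] at t3
  have q1 : 0 ≤ ‖μ‖ * p ^ 2 := by positivity
  have q2 : 0 ≤ (216 * K1 * K3 + 36 * K3 + 36 * K2 * K4) * ‖a‖ ^ 2 := by positivity
  have q3 : 0 ≤ K4 * (‖μ‖ * p ^ 2) := by positivity
  nlinarith

lemma locg_E0_eq (η s x : ℂ) : E0 η s x =
    Thp x * (g0 (-η) (mu s) (Th x) (Th (x - s) - Th x) + g0 η (mu s) (Th x) (Th (x + s) - Th x)) := by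
  unfold E0 J0 I0; ring

lemma locg_mem {s x : ℂ} (hs : ‖s‖ ≤ 1 / 5) (hx : x ∈ St (1 / 2)) :
    x ∈ St (7 / 10) ∧ x + s ∈ St (7 / 10) ∧ x - s ∈ St (7 / 10) := by
  refine ⟨St_mono (by norm_num) hx, ?_, ?_⟩
  · have := mem_St_of_norm_sub (x := x + s) (δ := 1 / 5) hx (by simpa using hs)
    exact St_mono (by norm_num) this
  · have := mem_St_of_norm_sub (x := x - s) (δ := 1 / 5) hx (by simpa using hs)
    exact St_mono (by norm_num) this

lemma locg_E0_neg (η : ℂ) {s x : ℂ} (hs : ‖s‖ ≤ 1 / 5) (hx : x ∈ St (1 / 2)) :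
    E0 η s (-x) = -E0 η s x := by
  obtain ⟨m0, m1, m2⟩ := locg_mem hs hx
  rw [locg_E0_eq, locg_E0_eq, Thp_neg]
  have e1 : Th (-x - s) - Th (-x) = -(Th (x + s) - Th x) := by
    rw [show -x - s = -(x + s) by ring, Th_neg (St7_subset m1), Th_neg (St7_subset m0)]; ring
  have e2 : Th (-x + s) - Th (-x) = -(Th (x - s) - Th x) := by
    rw [show -x + s = -(x - s) by ring, Th_neg (St7_subset m2), Th_neg (St7_subset m0)]; ring
  rw [e1, e2, Th_neg (St7_subset m0), g0_symm, g0_symm, neg_neg]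
  ring

lemma locg_E0_left : ∃ C : ℝ, 0 < C ∧ ∀ η s x : ℂ, (η = 1 ∨ η = -1) → ‖s‖ ≤ 1 / 5 →
    x ∈ St (1 / 2) → x.re ≤ 0 → ‖E0 η s x‖ ≤ C * w x.re ^ 3 := by
  obtain ⟨C, hC, h⟩ := g0_near
  refine ⟨10 * C + 200, by positivity, fun η s x hη hs hx hx0 => ?_⟩
  obtain ⟨m0, m1, m2⟩ := locg_mem hs hx
  have hw := w_of_nonpos hx0
  set W := w x.re with hW
  have W0 : 0 < W := w_pos _
  have W1 : W ≤ 1 := w_le_one _
  have hμ : ‖mu s‖ ≤ 1 := by
    have := norm_mu_le hs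
    nlinarith [norm_nonneg s]
  have hθ : ‖Th x‖ ≤ W := by rw [hw]; exact norm_Th_le_exp m0
  have n1 : ‖x + s - x‖ ≤ 1 / 5 := by simpa using hs
  have n2 : ‖x - s - x‖ ≤ 1 / 5 := by simpa using hs
  have ha1 : ‖Th (x + s) - Th x‖ ≤ W := by
    have := norm_Th_sub_le m0 m1 (by linarith)
    nlinarith
  have ha2 : ‖Th (x - s) - Th x‖ ≤ W := by
    have := norm_Th_sub_le m0 m2 (by linarith)
    nlinarith
  have r0 : ‖Th x - 2 / 3 * exp x‖ ≤ W ^ 3 := by rw [hw]; exact norm_Th_sub_exp_le m0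
  have W3 : 0 ≤ W ^ 3 := by positivity
  have r1 : ‖(Th (x + s) - 2 / 3 * exp (x + s)) - (Th x - 2 / 3 * exp x)‖ ≤ 2 * W ^ 3 := by
    have := norm_rho_sub_le m0 m1 (by linarith)
    rw [← hw] at this
    nlinarith
  have r2 : ‖(Th (x - s) - 2 / 3 * exp (x - s)) - (Th x - 2 / 3 * exp x)‖ ≤ 2 * W ^ 3 := by
    have := norm_rho_sub_le m0 m2 (by linarith)
    rw [← hw] at this
    nlinarith
  have hη' : -η = 1 ∨ -η = -1 := by rcases hη with rfl | rfl <;> simp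
  have g1 := h η (mu s) (Th x) (Th (x + s) - Th x) hη hμ (by linarith) (by linarith)
  have g2 := h (-η) (mu s) (Th x) (Th (x - s) - Th x) hη' hμ (by linarith) (by linarith)
  have bd : ∀ a : ℂ, ‖a‖ ≤ W → C * (‖mu s‖ * (‖Th x‖ + ‖a‖) ^ 2 + ‖a‖ ^ 2) ≤ C * (5 * W ^ 2) := by
    intro a ha
    gcongr
    calc ‖mu s‖ * (‖Th x‖ + ‖a‖) ^ 2 + ‖a‖ ^ 2 ≤ 1 * (W + W) ^ 2 + W ^ 2 := by gcongr
      _ = _ := by ring
  replace g1 := g1.trans (bd _ ha1)
  replace g2 := g2.trans (bd _ ha2)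
  have hid := mu_id hs
  have hc : exp (x + s) + exp (x - s) = 2 * exp x * cosh s := by
    rw [sub_eq_add_neg, Complex.exp_add, Complex.exp_add]; unfold Complex.cosh; ring
  set A1 := g0 η (mu s) (Th x) (Th (x + s) - Th x) + η * (1 + mu s) / 2 -
    (s0 : ℝ) * (-36 * mu s * Th x + (1 - 35 * mu s) * (Th (x + s) - Th x) / 2) with hA1
  set A2 := g0 (-η) (mu s) (Th x) (Th (x - s) - Th x) + -η * (1 + mu s) / 2 -
    (s0 : ℝ) * (-36 * mu s * Th x + (1 - 35 * mu s) * (Th (x - s) - Th x) / 2) with hA2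
  set R0 := Th x - 2 / 3 * exp x with hR0
  set R1 := (Th (x + s) - 2 / 3 * exp (x + s)) - R0 with hR1
  set R2 := (Th (x - s) - 2 / 3 * exp (x - s)) - R0 with hR2
  have e : g0 (-η) (mu s) (Th x) (Th (x - s) - Th x) + g0 η (mu s) (Th x) (Th (x + s) - Th x) =
      A1 + A2 + (s0 : ℝ) * (-72 * (mu s * R0) + (1 - 35 * mu s) * (R1 + R2) / 2) := by
    rw [hA1, hA2, hR1, hR2, hR0]
    linear_combination ((s0 : ℝ) : ℂ) * (2 / 3 * exp x) * hid +
      ((s0 : ℝ) : ℂ) * ((1 - 35 * mu s) / 3) * hc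
  have k1 : ‖-72 * (mu s * R0)‖ ≤ 72 * W ^ 3 := by
    rw [norm_mul, norm_mul, norm_neg, Complex.norm_ofNat]
    calc 72 * (‖mu s‖ * ‖R0‖) ≤ 72 * (1 * W ^ 3) := by gcongr
      _ = _ := by ring
  have k2 : ‖(1 - 35 * mu s) * (R1 + R2) / 2‖ ≤ 72 * W ^ 3 := by
    rw [norm_div, norm_mul, Complex.norm_ofNat]
    have i1 : ‖1 - 35 * mu s‖ ≤ 36 := by
      have := norm_sub_le 1 (35 * mu s)
      rw [norm_one, norm_mul, Complex.norm_ofNat] at this; linarith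
    have i2 : ‖R1 + R2‖ ≤ 4 * W ^ 3 := by linarith [norm_add_le R1 R2]
    calc ‖1 - 35 * mu s‖ * ‖R1 + R2‖ / 2 ≤ 36 * (4 * W ^ 3) / 2 := by gcongr
      _ = _ := by ring
  have k3 : ‖((s0 : ℝ) : ℂ) * (-72 * (mu s * R0) + (1 - 35 * mu s) * (R1 + R2) / 2)‖ ≤
      200 * W ^ 2 := by
    rw [norm_mul, Complex.norm_real, Real.norm_of_nonneg s0_pos.le]
    have i1 := norm_add_le (-72 * (mu s * R0)) ((1 - 35 * mu s) * (R1 + R2) / 2)
    have i2 : W ^ 3 ≤ W ^ 2 := pow_le_pow_of_le_one W0.le W1 (by norm_num)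
    calc s0 * ‖-72 * (mu s * R0) + (1 - 35 * mu s) * (R1 + R2) / 2‖ ≤ 1 * (144 * W ^ 2) := by
          gcongr
          · linarith [s0_le]
          · linarith
      _ ≤ _ := by nlinarith [sq_nonneg W]
  have k4 : ‖A1 + A2 + (s0 : ℝ) * (-72 * (mu s * R0) + (1 - 35 * mu s) * (R1 + R2) / 2)‖ ≤
      (10 * C + 200) * W ^ 2 := by
    have i1 := norm_add_le (A1 + A2)
      ((s0 : ℝ) * (-72 * (mu s * R0) + (1 - 35 * mu s) * (R1 + R2) / 2))
    have i2 := norm_add_le A1 A2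
    linarith
  rw [locg_E0_eq, e, norm_mul]
  calc _ ≤ W * ((10 * C + 200) * W ^ 2) := by gcongr; exact norm_Thp_le m0
    _ = _ := by ring

lemma locg_E0_bd : ∃ C : ℝ, 0 < C ∧ ∀ η s x : ℂ, (η = 1 ∨ η = -1) → ‖s‖ ≤ 1 / 5 →
    x ∈ St (1 / 2) → ‖E0 η s x - (F0 η s x - F0 η s (x - s))‖ ≤ C * w x.re ^ 3 := by
  obtain ⟨C, hC, h⟩ := locg_E0_left
  refine ⟨C + 9, by positivity, fun η s x hη hs hx => ?_⟩
  obtain ⟨m0, -, m2⟩ := locg_mem hs hx
  have hη1 : ‖η‖ = 1 := by rcases hη with rfl | rfl <;> simp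
  have h1 : ‖E0 η s x‖ ≤ C * w x.re ^ 3 := by
    rcases le_total x.re 0 with h0 | h0
    · exact h η s x hη hs hx h0
    · have := h η s (-x) hη hs (neg_mem_St hx) (by simpa using h0)
      rwa [locg_E0_neg η hs hx, norm_neg, neg_re, w_neg] at this
  have h2 : ∀ y : ℂ, ∀ b : ℝ, ‖Thp y‖ ≤ b → ‖F0 η s y‖ ≤ b ^ 3 := by
    intro y b hb
    have hb0 : 0 ≤ b := (norm_nonneg _).trans hb
    unfold F0
    rw [norm_div, norm_mul, norm_mul, hη1, norm_pow, norm_pow, Complex.norm_ofNat]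
    calc 1 * ‖s‖ ^ 2 * ‖Thp y‖ ^ 3 / 24 ≤ 1 * 1 ^ 2 * b ^ 3 / 24 := by gcongr; linarith
      _ ≤ _ := by nlinarith [pow_nonneg hb0 3]
  have h3 := h2 x _ (norm_Thp_le m0)
  have h4 := h2 (x - s) (2 * w x.re) ((norm_Thp_le m2).trans
    (w_re_le_two_mul (by rw [sub_sub_cancel_left, norm_neg]; linarith)))
  have h5 := norm_sub_le (E0 η s x) (F0 η s x - F0 η s (x - s))
  have h6 := norm_sub_le (F0 η s x) (F0 η s (x - s))
  nlinarith

/-- the residual of the unperturbed equation on the profile -/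
theorem E0_est : ∃ C : ℝ, 0 < C ∧ ∀ (η : ℂ) (l : ℝ) (x : ℂ), (η = 1 ∨ η = -1) → 0 < l →
    l ≤ 1 / 10 → x ∈ St (1 / 2) →
      ‖E0 η l x - (F0 η l x - F0 η l (x - l))‖ ≤ C * l ^ 4 * w x.re ^ 3 := by
  obtain ⟨C, hC, h⟩ := locg_E0_bd
  refine ⟨625 * C, by positivity, fun η l x hη hl hl1 hx => ?_⟩
  have hd : DifferentiableOn ℂ (fun s : ℂ => E0 η s x - (F0 η s x - F0 η s (x - s)))
      (Metric.ball 0 (1 / 5)) := by
    intro s hs
    have hs' : ‖s‖ ≤ 1 / 5 := by simpa using (mem_ball_zero_iff.1 hs).le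
    obtain ⟨-, m1, m2⟩ := locg_mem hs' hx
    apply DifferentiableAt.differentiableWithinAt
    have d1 : DifferentiableAt ℂ mu s := by
      unfold mu
      exact DifferentiableAt.div (by fun_prop) (by fun_prop) (mu_den_ne hs')
    have d2 : DifferentiableAt ℂ (fun s : ℂ => Th (x + s)) s :=
      (diffAt_Th (St7_subset m1)).comp s (f := fun s : ℂ => x + s) (by fun_prop)
    have d3 : DifferentiableAt ℂ (fun s : ℂ => Th (x - s)) s :=
      (diffAt_Th (St7_subset m2)).comp s (f := fun s : ℂ => x - s) (by fun_prop)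
    have d4 : DifferentiableAt ℂ (fun s : ℂ => Thp (x - s)) s :=
      (diffAt_Thp (St7_subset m2)).comp s (f := fun s : ℂ => x - s) (by fun_prop)
    simp only [locg_E0_eq, F0, g0]
    fun_prop
  have hz : (l : ℂ) ∈ Metric.ball (0 : ℂ) (1 / 5) := by
    rw [mem_ball_zero_iff, Complex.norm_real, Real.norm_of_nonneg hl.le]; linarith
  have := schwarzN 3 hd (fun s hs => h η s x hη (by simpa using (mem_ball_zero_iff.1 hs).le) hx)
    (by simp [locg_E0_eq, F0, g0, mu])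
    (by simpa using E0_jet η hη x (St_mono (by norm_num) hx)) hz
  refine this.trans (le_of_eq ?_)
  rw [sub_zero, Complex.norm_real, Real.norm_of_nonneg hl.le]
  ring

end Pool.Agent.MP_be9872_an

end
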