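import Pool.Agent.MP_be9872_an.Mg.LS
import Pool.Agent.MP_be9872_an.Ext
import Pool.Agent.MP_be9872_an.Defs
import Pool.Agent.MP_be9872_an.Mg.LocG

-- part MP_be9872_an.Br
section

set_option autoImplicit false
open Complex

namespace Pool.Agent.MP_be9872_an

lemma br_diffAt_g0 {η μ z : ℂ} {A B : ℂ → ℂ} (hA : DifferentiableAt ℂ A z)
    (hB : DifferentiableAt ℂ B z) : DifferentiableAt ℂ (fun z => g0 η μ (A z) (B z)) z := by
  unfold g0
  fun_prop

theorem branch_main : ∃ C : ℝ, 0 < C ∧ ∀ (η : ℂ) (l : ℝ) (U W : ℂ → ℂ), (η = 1 ∨ η = -1) →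
    0 < l → C * l ≤ 1 → Pot (1 / 16) (l ^ 4) U → IsRe U → Bal (1 / 16) (l ^ 2) W → IsRe W →
      Branch (1 / 32) (C * l) (Tt l W) (fun τ => rr η l U (Tt l W τ) (Tt l W (τ + l))) := by
  obtain ⟨C1, hC1, h1⟩ := adm_mid
  obtain ⟨C2, hC2, h2⟩ := rr0_est
  obtain ⟨C3, hC3, h3⟩ := locU_est
  obtain ⟨C4, hC4, h4⟩ := ff_est
  refine ⟨1000 + C1 + 4 * C2 + C3 + C4, by positivity, ?_⟩
  intro η l U W hη hl hCl hU hUre hW hWre
  have e1 : 0 < C1 * l := by positivity
  have e2 : 0 < C2 * l := by positivity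
  have e3 : 0 < C3 * l := by positivity
  have e4 : 0 < C4 * l := by positivity
  have hl0 : l ≤ 1 / 1000 := by nlinarith
  have hl1 : l ≤ 1 / 10 := by linarith
  have hC1l : C1 * l ≤ 1 := by nlinarith
  have hC3l : C3 * l ≤ 1 := by nlinarith
  have hC4l : C4 * l ≤ 1 := by nlinarith
  have hsub : St (1 / 32) ⊆ St (1 / 16) := St_mono (by norm_num)
  have hρ : (1 / 16 : ℝ) ≤ 1 / 4 := by norm_num
  have hη1 : ‖η‖ = 1 := by rcases hη with h | h <;> simp [h]
  have hdT := hW.diff_Tt hl hl1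
  have hdV := hW.diff_Vv hl hl1
  have hstep : ∀ τ ∈ St (1 / 16), Tt l W (τ + l) = Tt l W τ + l + W τ :=
    fun τ hτ => Tt_step hl hl1 hW.bd hτ
  have hhalf : St (1 / 2) ⊆ St (3 / 2) := St_mono (by norm_num)
  refine ⟨hdT.mono hsub, hWre.Tt l, ?_, ?_, ?_, ?_, ?_⟩
  · intro τ hτ
    have hV : DifferentiableAt ℂ (Vv l W) τ := diffAt_of_St hdV (hsub hτ)
    have hd : HasDerivAt (Tt l W) (1 + deriv (Vv l W) τ) τ := (hasDerivAt_id τ).add hV.hasDerivAt
    rw [hd.deriv, add_sub_cancel_left]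
    have hb : ∀ u ∈ St (1 / 16), ‖Vv l W u‖ ≤ 6 * l := by
      intro u hu
      have h5 := norm_Vv_le hl hl1 hW.bd hu
      have h6 : 6 * l ^ 2 / l = 6 * l := by field_simp
      rw [h6] at h5
      have := om_le_one u.re
      nlinarith
    have h7 := deriv_le_of_St (δ := 1 / 32) (by norm_num) hdV hb (τ := τ)
      (by rwa [show (1 / 16 - 1 / 32 : ℝ) = 1 / 32 by norm_num])
    refine h7.trans ?_
    rw [div_le_iff₀ (by norm_num)]
    linarith
  · intro τ hτ
    have := (h1 l _ τ _ _ hl hC1l hρ (hW.adm hl hl1 (hsub hτ))).2.1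
    linarith
  · intro τ hτ
    have hτ' := hsub hτ
    have ha := hW.adm hl hl1 hτ'
    obtain ⟨-, -, -, hx, hy, -⟩ := h1 l _ τ _ _ hl hC1l hρ ha
    have hX : DifferentiableAt ℂ (Tt l W) τ := diffAt_of_St hdT hτ'
    have hY : DifferentiableAt ℂ (fun z => Tt l W (z + l)) τ :=
      (diffAt_of_St hdT (add_real_mem_St hτ' l)).comp τ (differentiableAt_id.add_const _)
    have hy' : Tt l W (τ + l) ∈ St (1 / 2) := by rw [hstep τ hτ']; exact hy
    have hg := ((h3 η l _ _ U τ _ _ hη hl hC3l hρ hU ha).2.2.2.2.2 (Tt l W)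
      (fun z => Tt l W (z + l)) τ _ _ hX.hasDerivAt hY.hasDerivAt rfl (hstep τ hτ')).2.1
    have hA : DifferentiableAt ℂ (fun z => Th (Tt l W z)) τ := (diffAt_Th (hhalf hx)).comp τ hX
    have hB : DifferentiableAt ℂ (fun z => Th (Tt l W (z + l))) τ :=
      DifferentiableAt.comp (g := Th) (f := fun z => Tt l W (z + l)) τ (diffAt_Th (hhalf hy')) hY
    have hg0 := br_diffAt_g0 (η := η) (μ := mu l) hA (hB.sub hA)
    have hc : DifferentiableAt ℂ (fun z => η * sig l / cosh (Tt l W z)) τ :=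
      (differentiableAt_const _).div hX.ccosh (cosh_ne_zero (hhalf hx))
    refine DifferentiableAt.differentiableWithinAt ?_
    unfold rr
    exact (((hg0.add hg).const_mul (-η)).sub_const _).sub hc
  · intro t
    have hτ : (t : ℂ) ∈ St (1 / 16) := ofReal_mem_St (by norm_num) t
    have hτl := sub_real_mem_St hτ l
    have ha := hW.adm hl hl1 hτ
    have ha0 := hW.adm hl hl1 hτl
    have him : ((t : ℂ) - l).im = 0 := by simp
    have := (h4 η l _ U t _ _ _ _ hη hl hC4l hρ hU ha0 ha).2.2.2 hUre (by simp)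
      ((hWre.Tt l).of_im him) (hWre.of_im him) (hWre.Tt l t) (hWre t)
    show (rr η l U (Tt l W t) (Tt l W (t + l))).im = 0
    rw [hstep _ hτ]
    exact this.2.2.1
  · intro τ hτ
    have hτ' := hsub hτ
    have ha := hW.adm hl hl1 hτ'
    obtain ⟨-, hd, -, hx, -⟩ := h1 l _ τ _ _ hl hC1l hρ ha
    have hw1 : w (Tt l W τ).re ≤ 2 * w τ.re := w_re_le_two_mul (by linarith)
    have hw2 : w τ.re ≤ 2 * w (Tt l W τ).re :=
      w_re_le_two_mul (by rw [norm_sub_rev]; linarith)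
    have hWb : ‖W τ‖ ≤ 4 * l ^ 2 * w (Tt l W τ).re := by
      have := ha.hW
      have h8 : 0 ≤ l ^ 2 := sq_nonneg l
      nlinarith
    have hr := h2 η l _ _ hη hl (by linarith) hx hWb
    have hg := (h3 η l _ _ U τ _ _ hη hl hC3l hρ hU ha).1
    show ‖rr η l U (Tt l W τ) (Tt l W (τ + l))‖ ≤ _
    rw [hstep τ hτ']
    have e : rr η l U (Tt l W τ) (Tt l W τ + l + W τ) =
        (-η * g0 η (mu l) (Th (Tt l W τ)) (Th (Tt l W τ + l + W τ) - Th (Tt l W τ)) -
          (1 + mu l) / 2 - η * sig l / cosh (Tt l W τ)) -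
          η * gU η U (Tt l W τ) (Tt l W τ + l + W τ) := by
      unfold rr; ring
    rw [e]
    refine (norm_sub_le _ _).trans ?_
    rw [norm_mul η, hη1, one_mul]
    have hw0 := w_nonneg τ.re
    have hw3 : w (Tt l W τ).re ^ 2 ≤ 4 * w τ.re ^ 2 := by
      have := w_nonneg (Tt l W τ).re
      nlinarith
    have h9 : C2 * l * w (Tt l W τ).re ^ 2 ≤ C2 * l * (4 * w τ.re ^ 2) :=
      mul_le_mul_of_nonneg_left hw3 e2.le
    have h10 : l ^ 4 ≤ l := by
      have : l ^ 4 ≤ l ^ 1 := pow_le_pow_of_le_one hl.le (by linarith) (by norm_num)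
      simpa using this
    have h11 : C3 * l ^ 4 * w τ.re ^ 2 ≤ C3 * l * w τ.re ^ 2 :=
      mul_le_mul_of_nonneg_right (mul_le_mul_of_nonneg_left h10 hC3.le) (sq_nonneg _)
    have h12 : 0 ≤ (1000 * l + C1 * l + C4 * l) * w τ.re ^ 2 := by positivity
    nlinarith

end Pool.Agent.MP_be9872_an

end

-- part MP_be9872_an.Geo
section

set_option autoImplicit false
open scoped ContDiff

namespace Pool.Agent.MP_be9872_an

/-- `h` is a support function close to the circle of radius `1/2` whose support lines are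
exchanged by the reflection in the curve with support function `H`. -/
structure IsCaustic (H h : ℝ → ℝ) : Prop where
  diff : Differentiable ℝ h
  per : Function.Periodic h (2 * Real.pi)
  b0 : ∀ x, |h x - 1 / 2| ≤ 1 / 100
  b1 : ∀ x, |deriv h x| ≤ 1 / 100
  b2 : ∀ x y, |deriv h x - deriv h y| ≤ 1 / 100 * |x - y|
  refl : ∀ ψ, ∃ δ, Real.pi / 4 ≤ δ ∧ δ ≤ 5 * Real.pi / 12 ∧
    h (ψ - δ) = H ψ * Real.cos δ - deriv H ψ * Real.sin δ ∧
    h (ψ + δ) = H ψ * Real.cos δ + deriv H ψ * Real.sin δ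

/-- unit vector with angle `θ` -/
noncomputable def geo_e (θ : ℝ) : ℂ := ⟨Real.cos θ, Real.sin θ⟩

/-- pairing with the unit vector of angle `θ` -/
noncomputable def geo_ip (y : ℂ) (θ : ℝ) : ℝ := y.re * Real.cos θ + y.im * Real.sin θ

/-- touching point of the support line with normal angle `θ` -/
noncomputable def geo_pt (f : ℝ → ℝ) (θ : ℝ) : ℂ :=
  ⟨f θ * Real.cos θ - deriv f θ * Real.sin θ, f θ * Real.sin θ + deriv f θ * Real.cos θ⟩

/-- the convex body with support function `h` -/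
def geo_K (h : ℝ → ℝ) : Set ℂ := {y | ∀ θ, geo_ip y θ ≤ h θ}

lemma geo_ip_pt (f : ℝ → ℝ) (x φ : ℝ) :
    geo_ip (geo_pt f x) φ = f x * Real.cos (φ - x) + deriv f x * Real.sin (φ - x) := by
  simp only [geo_ip, geo_pt, Real.cos_sub, Real.sin_sub]
  ring

lemma geo_ip_pt_self (f : ℝ → ℝ) (x : ℝ) : geo_ip (geo_pt f x) x = f x := by
  rw [geo_ip_pt]; simp

lemma geo_taylor (f : ℝ → ℝ) (hf : Differentiable ℝ f)
    (b2 : ∀ x y, |deriv f x - deriv f y| ≤ 1 / 100 * |x - y|) (x s : ℝ) :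
    |f (x + s) - f x - deriv f x * s| ≤ 1 / 100 * s ^ 2 := by
  have hd : ∀ t ∈ Set.Icc (-|s|) |s|, HasDerivWithinAt (fun t => f (x + t) - deriv f x * t)
      (deriv f (x + t) - deriv f x) (Set.Icc (-|s|) |s|) t := by
    intro t _
    have h1 : HasDerivAt (fun t => f (x + t)) (deriv f (x + t)) t := by
      simpa using ((hf (x + t)).hasDerivAt).comp_const_add x t
    have h2 : HasDerivAt (fun t => deriv f x * t) (deriv f x) t := by
      simpa using (hasDerivAt_id t).const_mul (deriv f x)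
    exact (h1.sub h2).hasDerivWithinAt
  have hb : ∀ t ∈ Set.Icc (-|s|) |s|, ‖deriv f (x + t) - deriv f x‖ ≤ 1 / 100 * |s| := by
    intro t ht
    have := b2 (x + t) x
    have h3 : |t| ≤ |s| := abs_le.2 ⟨ht.1, ht.2⟩
    rw [Real.norm_eq_abs]
    have h4 : x + t - x = t := by ring
    rw [h4] at this
    linarith
  have := (convex_Icc (-|s|) |s|).norm_image_sub_le_of_norm_hasDerivWithin_le hd hb
    (x := 0) (y := s) ⟨by simp, by simp⟩ ⟨neg_abs_le s, le_abs_self s⟩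
  simp only [add_zero, mul_zero, sub_zero, Real.norm_eq_abs] at this
  have h5 : f (x + s) - deriv f x * s - f x = f (x + s) - f x - deriv f x * s := by ring
  rw [h5] at this
  have h6 : |s| * |s| = s ^ 2 := by rw [← sq, sq_abs]
  nlinarith

lemma geo_key0 (f : ℝ → ℝ) (hf : Differentiable ℝ f) (b0 : ∀ x, 49 / 100 ≤ f x)
    (b1 : ∀ x, |deriv f x| ≤ 1 / 100)
    (b2 : ∀ x y, |deriv f x - deriv f y| ≤ 1 / 100 * |x - y|) (x s : ℝ) (hs : |s| ≤ Real.pi) :
    1 / 20 * s ^ 2 ≤ f (x + s) - f x * Real.cos s - deriv f x * Real.sin s := by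
  have h1 := geo_taylor f hf b2 x s
  have h2 := Real.cos_le_one_sub_mul_cos_sq hs
  have h3 := Real.abs_sub_sin_le s
  have hpi : Real.pi < 3.15 := Real.pi_lt_d2
  have hpi0 := Real.pi_pos
  have h4 : 1 / 5 ≤ 2 / Real.pi ^ 2 := by
    rw [div_le_div_iff₀ (by norm_num) (by positivity)]
    nlinarith
  have h5 : 1 / 5 * s ^ 2 ≤ 1 - Real.cos s := by nlinarith [sq_nonneg s]
  have h6 : |s - Real.sin s| ≤ s ^ 2 := by
    have : |s| ^ 3 = |s| * s ^ 2 := by rw [← sq_abs s]; ring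
    rw [this] at h3
    nlinarith [sq_nonneg s, abs_nonneg s]
  have h7 : |deriv f x * (s - Real.sin s)| ≤ 1 / 100 * s ^ 2 := by
    rw [abs_mul]
    exact mul_le_mul (b1 x) h6 (abs_nonneg _) (by norm_num)
  have h8 := (abs_le.1 h1).1
  have h9 := (abs_le.1 h7).1
  have h10 : 49 / 100 * (1 / 5 * s ^ 2) ≤ f x * (1 - Real.cos s) :=
    mul_le_mul (b0 x) h5 (by positivity) (by linarith [b0 x])
  nlinarith [sq_nonneg s]

/-- reduction of an angle to `(-π, π]` -/
lemma geo_red (s : ℝ) : ∃ (s0 : ℝ) (k : ℤ), |s0| ≤ Real.pi ∧ s = s0 + k * (2 * Real.pi) := by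
  have hp : 0 < 2 * Real.pi := by positivity
  refine ⟨toIocMod hp (-Real.pi) s, toIocDiv hp (-Real.pi) s, ?_, ?_⟩
  · have := toIocMod_mem_Ioc hp (-Real.pi) s
    rw [abs_le]
    constructor
    · exact this.1.le
    · have h2 := this.2
      linarith
  · have := toIocMod_add_toIocDiv_zsmul hp (-Real.pi) s
    rw [zsmul_eq_mul] at this
    exact this.symm

lemma geo_key (f : ℝ → ℝ) (hf : Differentiable ℝ f) (hp : Function.Periodic f (2 * Real.pi))
    (b0 : ∀ x, 49 / 100 ≤ f x) (b1 : ∀ x, |deriv f x| ≤ 1 / 100)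
    (b2 : ∀ x y, |deriv f x - deriv f y| ≤ 1 / 100 * |x - y|) (x φ : ℝ) :
    1 / 10 * (1 - Real.cos (φ - x)) ≤ f φ - geo_ip (geo_pt f x) φ := by
  obtain ⟨s0, k, hs0, hk⟩ := geo_red (φ - x)
  have h1 := geo_key0 f hf b0 b1 b2 x s0 hs0
  have h2 : f φ = f (x + s0) := by
    have : φ = x + s0 + k * (2 * Real.pi) := by linarith
    rw [this]
    exact (hp.int_mul k) (x + s0)
  rw [geo_ip_pt, hk, Real.cos_add_int_mul_two_pi, Real.sin_add_int_mul_two_pi, h2]
  have h3 := Real.one_sub_sq_div_two_le_cos (x := s0)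
  linarith

lemma geo_ip_le_norm (y : ℂ) (θ : ℝ) : geo_ip y θ ≤ ‖y‖ := by
  have h1 : ‖y‖ ^ 2 = y.re ^ 2 + y.im ^ 2 := by
    rw [Complex.sq_norm, Complex.normSq_apply]; ring
  have h2 := Real.sin_sq_add_cos_sq θ
  apply le_of_sq_le_sq (b := ‖y‖) _ (norm_nonneg y)
  rw [h1, geo_ip]
  nlinarith [sq_nonneg (y.re * Real.sin θ - y.im * Real.cos θ)]

lemma geo_ip_arg (y : ℂ) : geo_ip y (Complex.arg y) = ‖y‖ := by
  have h1 := Complex.norm_mul_cos_arg y
  have h2 := Complex.norm_mul_sin_arg y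
  have h3 := Real.sin_sq_add_cos_sq (Complex.arg y)
  rw [geo_ip]
  calc y.re * Real.cos y.arg + y.im * Real.sin y.arg
      = ‖y‖ * Real.cos y.arg * Real.cos y.arg + ‖y‖ * Real.sin y.arg * Real.sin y.arg := by
        rw [h1, h2]
    _ = ‖y‖ * (Real.sin y.arg ^ 2 + Real.cos y.arg ^ 2) := by ring
    _ = ‖y‖ := by rw [h3, mul_one]

lemma geo_cont_ip (θ : ℝ) : Continuous fun y : ℂ => geo_ip y θ := by
  unfold geo_ip; fun_prop

lemma geo_K_closed (h : ℝ → ℝ) : IsClosed (geo_K h) := by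
  have : geo_K h = ⋂ θ, {y : ℂ | geo_ip y θ ≤ h θ} := by
    ext y; simp [geo_K]
  rw [this]
  exact isClosed_iInter fun θ => isClosed_le (geo_cont_ip θ) continuous_const

lemma geo_K_convex (h : ℝ → ℝ) : Convex ℝ (geo_K h) := by
  intro x hx y hy a b ha hb hab θ
  have h1 := hx θ
  have h2 := hy θ
  simp only [geo_ip, Complex.add_re, Complex.add_im, Complex.smul_re, Complex.smul_im,
    smul_eq_mul] at *
  have h3 := mul_le_mul_of_nonneg_left h1 ha
  have h4 := mul_le_mul_of_nonneg_left h2 hb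
  have h5 : a * h θ + b * h θ = h θ := by rw [← add_mul, hab, one_mul]
  nlinarith

lemma geo_K_norm {H h : ℝ → ℝ} (hc : IsCaustic H h) {y : ℂ} (hy : y ∈ geo_K h) :
    ‖y‖ ≤ 51 / 100 := by
  have h1 := hy (Complex.arg y)
  rw [geo_ip_arg] at h1
  have := (abs_le.1 (hc.b0 (Complex.arg y))).2
  linarith

lemma geo_lb {H h : ℝ → ℝ} (hc : IsCaustic H h) (x : ℝ) : 49 / 100 ≤ h x := by
  have := (abs_le.1 (hc.b0 x)).1
  linarith

lemma geo_K_compact {H h : ℝ → ℝ} (hc : IsCaustic H h) : IsCompact (geo_K h) := by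
  refine (isCompact_closedBall (0 : ℂ) (51 / 100)).of_isClosed_subset (geo_K_closed h) ?_
  intro y hy
  simpa using geo_K_norm hc hy

lemma geo_K_interior {H h : ℝ → ℝ} (hc : IsCaustic H h) : (interior (geo_K h)).Nonempty := by
  refine ⟨0, ?_⟩
  rw [mem_interior]
  refine ⟨Metric.ball 0 (2 / 5), ?_, Metric.isOpen_ball, by simp⟩
  intro y hy θ
  have h1 : ‖y‖ < 2 / 5 := by simpa using hy
  have h2 := geo_ip_le_norm y θ
  have h3 := geo_lb hc θ
  linarith

lemma geo_pt_mem {H h : ℝ → ℝ} (hc : IsCaustic H h) (x : ℝ) : geo_pt h x ∈ geo_K h := by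
  intro φ
  have h1 := geo_key h hc.diff hc.per (geo_lb hc) hc.b1 hc.b2 x φ
  have h2 := Real.cos_le_one (φ - x)
  linarith

lemma geo_not_interior (h : ℝ → ℝ) (y : ℂ) (θ : ℝ) (hy : h θ ≤ geo_ip y θ) :
    y ∉ interior (geo_K h) := by
  intro hin
  rw [mem_interior_iff_mem_nhds, Metric.mem_nhds_iff] at hin
  obtain ⟨ε, hε, hsub⟩ := hin
  have hn : ‖geo_e θ‖ = 1 := by
    have h1 : ‖geo_e θ‖ ^ 2 = 1 := by
      rw [Complex.sq_norm, Complex.normSq_apply]
      simp only [geo_e]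
      have := Real.sin_sq_add_cos_sq θ
      nlinarith
    have := norm_nonneg (geo_e θ)
    nlinarith
  have hmem : y + ((ε / 2 : ℝ) : ℂ) * geo_e θ ∈ Metric.ball y ε := by
    rw [Metric.mem_ball, dist_eq_norm, add_sub_cancel_left, norm_mul, hn, Complex.norm_real,
      Real.norm_eq_abs, abs_of_pos (by positivity)]
    linarith
  have h2 := hsub hmem θ
  have h3 := Real.sin_sq_add_cos_sq θ
  simp only [geo_ip, geo_e, Complex.add_re, Complex.add_im, Complex.mul_re, Complex.mul_im,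
    Complex.ofReal_re, Complex.ofReal_im] at h2 hy
  nlinarith

/-- a support line through `P` with direction `u` has a normal angle -/
lemma geo_supp_angle {H h : ℝ → ℝ} (hc : IsCaustic H h) (P u : ℂ) (hu : u ≠ 0)
    (h1 : ∃ s : ℝ, P + (s : ℂ) * u ∈ geo_K h)
    (h2 : (∀ w ∈ geo_K h, 0 ≤ (starRingEnd ℂ u * (w - P)).im) ∨
      (∀ w ∈ geo_K h, (starRingEnd ℂ u * (w - P)).im ≤ 0)) :
    ∃ θ c : ℝ, c ≠ 0 ∧ u.re = -(c * Real.sin θ) ∧ u.im = c * Real.cos θ ∧ geo_ip P θ = h θ := by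
  obtain ⟨s, hs⟩ := h1
  have hn : 0 < ‖u‖ := norm_pos_iff.2 hu
  have e1 := Complex.norm_mul_cos_arg u
  have e2 := Complex.norm_mul_sin_arg u
  have main : ∀ θ c : ℝ, c ≠ 0 → u.re = -(c * Real.sin θ) → u.im = c * Real.cos θ →
      (∀ w ∈ geo_K h, 0 ≤ c * (starRingEnd ℂ u * (w - P)).im) → geo_ip P θ = h θ := by
    intro θ c hc0 hre him hside
    have a1 := hside _ (geo_pt_mem hc θ)
    have a2 := hs θ
    have a3 := geo_ip_pt_self h θ
    have hc2 : 0 < c ^ 2 := by positivity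
    simp only [geo_ip, Complex.add_re, Complex.add_im, Complex.mul_re, Complex.mul_im,
      Complex.ofReal_re, Complex.ofReal_im, Complex.conj_re, Complex.conj_im, Complex.sub_re,
      Complex.sub_im, hre, him] at a1 a2 a3 ⊢
    apply le_antisymm
    · nlinarith
    · have a4 : 0 ≤ c ^ 2 * (P.re * Real.cos θ + P.im * Real.sin θ - h θ) := by
        rw [← a3]; nlinarith
      have := nonneg_of_mul_nonneg_right a4
      by_contra hlt
      push Not at hlt
      nlinarith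
  rcases h2 with h2 | h2
  · refine ⟨u.arg - Real.pi / 2, ‖u‖, hn.ne', ?_, ?_, ?_⟩
    · rw [Real.sin_sub_pi_div_two]; linarith
    · rw [Real.cos_sub_pi_div_two]; linarith
    · apply main _ ‖u‖ hn.ne'
      · rw [Real.sin_sub_pi_div_two]; linarith
      · rw [Real.cos_sub_pi_div_two]; linarith
      · intro w hw
        exact mul_nonneg hn.le (h2 w hw)
  · refine ⟨u.arg + Real.pi / 2, -‖u‖, by linarith, ?_, ?_, ?_⟩
    · rw [Real.sin_add_pi_div_two]; linarith
    · rw [Real.cos_add_pi_div_two]; linarith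
    · apply main _ (-‖u‖) (by linarith)
      · rw [Real.sin_add_pi_div_two]; linarith
      · rw [Real.cos_add_pi_div_two]; linarith
      · intro w hw
        exact mul_nonneg_of_nonpos_of_nonpos (by linarith) (h2 w hw)

/-- a line through `P` with normal angle `θ` at the right height is a support line -/
lemma geo_angle_supp {H h : ℝ → ℝ} (hc : IsCaustic H h) (P u : ℂ) (θ c : ℝ) (hc0 : c ≠ 0)
    (hre : u.re = -(c * Real.sin θ)) (him : u.im = c * Real.cos θ) (hP : geo_ip P θ = h θ) :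
    (∃ s : ℝ, P + (s : ℂ) * u ∈ geo_K h) ∧
    ((∀ w ∈ geo_K h, 0 ≤ (starRingEnd ℂ u * (w - P)).im) ∨
      (∀ w ∈ geo_K h, (starRingEnd ℂ u * (w - P)).im ≤ 0)) := by
  have key : ∀ w : ℂ, (starRingEnd ℂ u * (w - P)).im = c * (h θ - geo_ip w θ) := by
    intro w
    rw [← hP]
    simp only [geo_ip, Complex.mul_im, Complex.conj_re, Complex.conj_im, Complex.sub_re,
      Complex.sub_im, hre, him]
    ring
  constructor
  · set y := geo_pt h θ with hy
    have a3 : geo_ip y θ = h θ := geo_ip_pt_self h θ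
    refine ⟨(-(y.re - P.re) * Real.sin θ + (y.im - P.im) * Real.cos θ) / c, ?_⟩
    have h3 := Real.sin_sq_add_cos_sq θ
    have h4 : (y.re - P.re) * Real.cos θ + (y.im - P.im) * Real.sin θ = 0 := by
      simp only [geo_ip] at a3 hP
      linarith
    have : P + (((-(y.re - P.re) * Real.sin θ + (y.im - P.im) * Real.cos θ) / c : ℝ) : ℂ) * u
        = y := by
      apply Complex.ext
      · simp only [Complex.add_re, Complex.mul_re, Complex.ofReal_re, Complex.ofReal_im, hre, him]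
        field_simp
        linear_combination (P.re - y.re) * (-1) * h3 - Real.cos θ * h4
      · simp only [Complex.add_im, Complex.mul_im, Complex.ofReal_re, Complex.ofReal_im, hre, him]
        field_simp
        linear_combination (y.im - P.im) * h3 - Real.sin θ * h4
    rw [this]
    exact geo_pt_mem hc θ
  · rcases lt_or_gt_of_ne hc0 with hneg | hpos
    · right
      intro w hw
      rw [key]
      exact mul_nonpos_of_nonpos_of_nonneg hneg.le (sub_nonneg.2 (hw θ))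
    · left
      intro w hw
      rw [key]
      exact mul_nonneg hpos.le (sub_nonneg.2 (hw θ))

/-- uniqueness of the positive root -/
lemma geo_root (A B : ℝ) (g : ℝ → ℝ) (hg : Differentiable ℝ g) (hA : |A - 1| ≤ 1 / 100)
    (hB : |B| ≤ 1 / 100) (b0 : ∀ x, |g x - 1 / 2| ≤ 1 / 100) (b1 : ∀ x, |deriv g x| ≤ 1 / 100)
    (s δ : ℝ) (hs0 : 0 ≤ s) (hs1 : s ≤ Real.pi) (hδ0 : Real.pi / 4 ≤ δ)
    (hδ1 : δ ≤ 5 * Real.pi / 12)
    (e1 : g s = A * Real.cos s + B * Real.sin s) (e2 : g δ = A * Real.cos δ + B * Real.sin δ) :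
    s = δ := by
  have hpi : Real.pi < 3.15 := Real.pi_lt_d2
  have hpi' : 3.14 < Real.pi := Real.pi_gt_d2
  obtain ⟨hA1, hA2⟩ := abs_le.1 hA
  obtain ⟨hB1, hB2⟩ := abs_le.1 hB
  have hsin1 := Real.sin_le_one s
  have hsin0 : 0 ≤ Real.sin s := Real.sin_nonneg_of_nonneg_of_le_pi hs0 hs1
  obtain ⟨g1, g2⟩ := abs_le.1 (b0 s)
  have hlow : 1 / 2 ≤ s := by
    by_contra hlt
    push Not at hlt
    have c1 := Real.one_sub_sq_div_two_le_cos (x := s)
    have c2 : 7 / 8 ≤ Real.cos s := by nlinarith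
    nlinarith
  have hup : s ≤ Real.pi / 2 := by
    by_contra hlt
    push Not at hlt
    have c1 : Real.cos s ≤ 0 := Real.cos_nonpos_of_pi_div_two_le_of_le hlt.le (by linarith)
    nlinarith
  have hanti : StrictAntiOn (fun x => A * Real.cos x + B * Real.sin x - g x)
      (Set.Icc (1 / 2) (Real.pi / 2)) := by
    apply strictAntiOn_of_deriv_neg (convex_Icc _ _)
    · have := hg.continuous
      fun_prop
    · intro x hx
      rw [interior_Icc] at hx
      have hd : HasDerivAt (fun x => A * Real.cos x + B * Real.sin x - g x)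
          (A * -Real.sin x + B * Real.cos x - deriv g x) x :=
        (((Real.hasDerivAt_cos x).const_mul A).add ((Real.hasDerivAt_sin x).const_mul B)).sub
          (hg x).hasDerivAt
      rw [hd.deriv]
      have s1 := Real.mul_le_sin (x := x) (by linarith [hx.1]) hx.2.le
      have s2 : 3 / 5 ≤ 2 / Real.pi := by
        rw [div_le_div_iff₀ (by norm_num) (by positivity)]; linarith
      have s3 : 3 / 10 ≤ Real.sin x := by nlinarith [hx.1]
      have s4 := (abs_le.1 (b1 x)).1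
      have s5 := Real.cos_le_one x
      have s6 := Real.neg_one_le_cos x
      nlinarith
  apply hanti.injOn ⟨hlow, hup⟩ ⟨by linarith, by linarith⟩
  simp only
  linarith

lemma geo_reflect {H h : ℝ → ℝ} (hc : IsCaustic H h) (hH0 : ∀ x, |H x - 1| ≤ 1 / 100)
    (hH1 : ∀ x, |deriv H x| ≤ 1 / 100) (ψ θ : ℝ) (hθ : geo_ip (geo_pt H ψ) θ = h θ) :
    geo_ip (geo_pt H ψ) (2 * ψ - θ) = h (2 * ψ - θ) := by
  obtain ⟨δ, hδ0, hδ1, e1, e2⟩ := hc.refl ψ
  obtain ⟨s, k, hs, hk⟩ := geo_red (θ - ψ)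
  rw [geo_ip_pt] at hθ ⊢
  have t1 : θ = ψ + s + k * (2 * Real.pi) := by linarith
  have t2 : 2 * ψ - θ = ψ - s + ((-k : ℤ) : ℝ) * (2 * Real.pi) := by push_cast; linarith
  have t3 : 2 * ψ - θ - ψ = -s + ((-k : ℤ) : ℝ) * (2 * Real.pi) := by push_cast; linarith
  have u1 : h θ = h (ψ + s) := by rw [t1]; exact (hc.per.int_mul k) _
  have u2 : h (2 * ψ - θ) = h (ψ - s) := by rw [t2]; exact (hc.per.int_mul (-k)) _
  rw [hk, Real.cos_add_int_mul_two_pi, Real.sin_add_int_mul_two_pi, u1] at hθ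
  rw [t3, Real.cos_add_int_mul_two_pi, Real.sin_add_int_mul_two_pi, u2, Real.cos_neg,
    Real.sin_neg]
  obtain ⟨hs1, hs2⟩ := abs_le.1 hs
  rcases le_total 0 s with h0 | h0
  · have : s = δ := by
      apply geo_root (H ψ) (deriv H ψ) (fun x => h (ψ + x)) (hc.diff.comp (by fun_prop))
        (hH0 ψ) (hH1 ψ) (fun x => hc.b0 _) _ s δ h0 hs2 hδ0 hδ1 hθ.symm e2
      intro x
      rw [deriv_comp_const_add]
      exact hc.b1 _
    rw [this, e1]; ring
  · have : -s = δ := by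
      apply geo_root (H ψ) (-deriv H ψ) (fun x => h (ψ - x)) (hc.diff.comp (by fun_prop))
        (hH0 ψ) (by rw [abs_neg]; exact hH1 ψ) (fun x => hc.b0 _) _ (-s) δ (by linarith)
        (by linarith) hδ0 hδ1
      · simp only [sub_neg_eq_add, Real.cos_neg, Real.sin_neg]
        linarith
      · linarith
      · intro x
        rw [deriv_comp_const_sub, abs_neg]
        exact hc.b1 _
    have h5 : s = -δ := by linarith
    rw [h5, sub_neg_eq_add, e2, Real.cos_neg, Real.sin_neg]; ring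

lemma geo_hull (H : ℝ → ℝ) (hH0 : ∀ x, |H x - 1| ≤ 1 / 100)
    (hH1 : ∀ x, |deriv H x| ≤ 1 / 100) (S : Set ℂ) (hS : ∀ x, geo_pt H x ∈ S) :
    Metric.ball (0 : ℂ) (3 / 5) ⊆ convexHull ℝ S := by
  intro y hy
  have hy' : ‖y‖ < 3 / 5 := by simpa using hy
  set T : Set ℂ := {geo_pt H 0, geo_pt H (Real.pi / 2), geo_pt H Real.pi,
    geo_pt H (-(Real.pi / 2))} with hT
  have hTS : T ⊆ S := by
    intro z hz
    simp only [hT, Set.mem_insert_iff, Set.mem_singleton_iff] at hz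
    rcases hz with rfl | rfl | rfl | rfl <;> exact hS _
  apply convexHull_mono hTS
  by_contra hn
  have hfin : T.Finite := by simp [hT]
  obtain ⟨f, u, h1, h2⟩ := geometric_hahn_banach_point_closed (convex_convexHull ℝ T)
    (hfin.isCompact_convexHull ℝ).isClosed hn
  have hf : ∀ z : ℂ, f z = z.re * f 1 + z.im * f Complex.I := by
    intro z
    conv_lhs => rw [← Complex.re_add_im z]
    have e1 : (z.re : ℂ) = z.re • (1 : ℂ) := by simp
    have e2 : (z.im : ℂ) * Complex.I = z.im • Complex.I := by simp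
    rw [map_add, e1, e2, map_smul, map_smul, smul_eq_mul, smul_eq_mul]
  set a := f 1
  set b := f Complex.I
  have m0 := h2 _ (subset_convexHull ℝ T (show geo_pt H 0 ∈ T by simp [hT]))
  have m1 := h2 _ (subset_convexHull ℝ T (show geo_pt H (Real.pi / 2) ∈ T by simp [hT]))
  have m2 := h2 _ (subset_convexHull ℝ T (show geo_pt H Real.pi ∈ T by simp [hT]))
  have m3 := h2 _ (subset_convexHull ℝ T (show geo_pt H (-(Real.pi / 2)) ∈ T by simp [hT]))
  rw [hf] at h1 m0 m1 m2 m3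
  simp only [geo_pt, Real.cos_zero, Real.sin_zero, Real.cos_pi_div_two, Real.sin_pi_div_two,
    Real.cos_pi, Real.sin_pi, Real.cos_neg, Real.sin_neg] at m0 m1 m2 m3
  have hn2 : ‖y‖ ^ 2 = y.re ^ 2 + y.im ^ 2 := by
    rw [Complex.sq_norm, Complex.normSq_apply]; ring
  have hsum : |y.re| + |y.im| ≤ 9 / 10 := by
    have q1 := sq_abs y.re
    have q2 := sq_abs y.im
    have q3 := norm_nonneg y
    have q4 : y.re ^ 2 + y.im ^ 2 < 9 / 25 := by nlinarith
    nlinarith [sq_nonneg (|y.re| - |y.im|), abs_nonneg y.re, abs_nonneg y.im]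
  have lowy : ∀ m : ℝ, |a| ≤ m → |b| ≤ m → -(9 / 10 * m) ≤ y.re * a + y.im * b := by
    intro m ha hb
    have r1 : |y.re * a| ≤ |y.re| * m := by
      rw [abs_mul]; exact mul_le_mul_of_nonneg_left ha (abs_nonneg _)
    have r2 : |y.im * b| ≤ |y.im| * m := by
      rw [abs_mul]; exact mul_le_mul_of_nonneg_left hb (abs_nonneg _)
    have r3 := (abs_le.1 r1).1
    have r4 := (abs_le.1 r2).1
    have r5 : 0 ≤ m := (abs_nonneg a).trans ha
    nlinarith
  have up : ∀ (m c x : ℝ), |c| ≤ m → -(H x * m) + deriv H x * c ≤ -(9 / 10 * m) := by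
    intro m c x hc
    have r1 : |deriv H x * c| ≤ 1 / 100 * m := by
      rw [abs_mul]; exact mul_le_mul (hH1 x) hc (abs_nonneg _) (by norm_num)
    have r2 := (abs_le.1 r1).2
    have r3 := (abs_le.1 (hH0 x)).1
    have r5 : 0 ≤ m := (abs_nonneg c).trans hc
    nlinarith
  rcases le_total |a| |b| with hab | hab
  · have l1 := lowy |b| hab le_rfl
    rcases le_total 0 b with hb | hb
    · have := up |b| a (-(Real.pi / 2)) hab
      rw [abs_of_nonneg hb] at this l1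
      nlinarith
    · have := up |b| (-a) (Real.pi / 2) (by rwa [abs_neg])
      rw [abs_of_nonpos hb] at this l1
      nlinarith
  · have l1 := lowy |a| le_rfl hab
    rcases le_total 0 a with ha | ha
    · have := up |a| (-b) Real.pi (by rwa [abs_neg])
      rw [abs_of_nonneg ha] at this l1
      nlinarith
    · have := up |a| b 0 hab
      rw [abs_of_nonpos ha] at this l1
      nlinarith

lemma geo_e_eq (θ : ℝ) : geo_e θ = (Real.cos θ : ℂ) + (Real.sin θ : ℂ) * Complex.I := by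
  apply Complex.ext <;> simp [geo_e, -Complex.ofReal_cos, -Complex.ofReal_sin]

lemma geo_pt_eq (f : ℝ → ℝ) (θ : ℝ) :
    geo_pt f θ = geo_e θ * ((f θ : ℂ) + ((deriv f θ : ℝ) : ℂ) * Complex.I) := by
  apply Complex.ext <;> simp [geo_e, geo_pt] <;> ring

lemma geo_e_deriv (θ : ℝ) : HasDerivAt geo_e (Complex.I * geo_e θ) θ := by
  have h : geo_e = fun θ : ℝ => (Real.cos θ : ℂ) + (Real.sin θ : ℂ) * Complex.I :=
    funext geo_e_eq
  rw [h]
  have h1 := ((Real.hasDerivAt_cos θ).ofReal_comp).add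
    (((Real.hasDerivAt_sin θ).ofReal_comp).mul_const Complex.I)
  have h2 : Complex.I * ((Real.cos θ : ℂ) + (Real.sin θ : ℂ) * Complex.I)
      = ((-Real.sin θ : ℝ) : ℂ) + (Real.cos θ : ℂ) * Complex.I := by
    apply Complex.ext <;> simp
  simp only
  rw [h2]
  exact h1

lemma geo_pt_deriv (H : ℝ → ℝ) (h1 : Differentiable ℝ H) (h2 : Differentiable ℝ (deriv H))
    (θ : ℝ) : HasDerivAt (geo_pt H)
      (Complex.I * geo_e θ * ((H θ + deriv (deriv H) θ : ℝ) : ℂ)) θ := by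
  have h : geo_pt H = fun θ : ℝ => geo_e θ * ((H θ : ℂ) + ((deriv H θ : ℝ) : ℂ) * Complex.I) :=
    funext (geo_pt_eq H)
  rw [h]
  have h3 := (geo_e_deriv θ).mul (((h1 θ).hasDerivAt.ofReal_comp).add
    (((h2 θ).hasDerivAt.ofReal_comp).mul_const Complex.I))
  have h4 : Complex.I * geo_e θ * ((H θ + deriv (deriv H) θ : ℝ) : ℂ)
      = Complex.I * geo_e θ * ((H θ : ℂ) + ((deriv H θ : ℝ) : ℂ) * Complex.I)
        + geo_e θ * (((deriv H θ : ℝ) : ℂ) + ((deriv (deriv H) θ : ℝ) : ℂ) * Complex.I) := by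
    push_cast
    linear_combination (-(geo_e θ * ((deriv H θ : ℝ) : ℂ))) * Complex.I_mul_I
  rw [h4]
  exact h3

theorem geo_main (H h₁ h₂ : ℝ → ℝ) (hH : ContDiff ℝ ∞ H)
    (hHp : Function.Periodic H (2 * Real.pi))
    (hH0 : ∀ x, |H x - 1| ≤ 1 / 100) (hH1 : ∀ x, |deriv H x| ≤ 1 / 100)
    (hH2 : ∀ x, |deriv (deriv H) x| ≤ 1 / 100)
    (h1 : IsCaustic H h₁) (h2 : IsCaustic H h₂) (hne : h₁ ≠ h₂) (hmeet : ∃ θ, h₁ θ = h₂ θ) :
    ∃ γ : ℝ → ℂ, ContDiff ℝ ∞ γ ∧ Function.Periodic γ 1 ∧ Set.InjOn γ (Set.Ico 0 1) ∧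
      (∀ t : ℝ, deriv γ t ≠ 0) ∧
      (∀ t : ℝ, 0 < (starRingEnd ℂ (deriv γ t) * deriv (deriv γ) t).im) ∧
      ∃ K₁ K₂ : Set ℂ, K₁ ≠ K₂ ∧
        (∀ K ∈ ({K₁, K₂} : Set (Set ℂ)),
          IsCompact K ∧ Convex ℝ K ∧ (interior K).Nonempty ∧
          K ⊆ interior (convexHull ℝ (Set.range γ)) ∧
          ∀ t : ℝ, ∀ u : ℂ, u ≠ 0 →
            ((∃ s : ℝ, γ t + (s : ℂ) * u ∈ K) ∧
              ((∀ w ∈ K, 0 ≤ (starRingEnd ℂ u * (w - γ t)).im) ∨
               (∀ w ∈ K, (starRingEnd ℂ u * (w - γ t)).im ≤ 0))) →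
            ((∃ s : ℝ, γ t + (s : ℂ) * ((deriv γ t) ^ 2 * starRingEnd ℂ u) ∈ K) ∧
              ((∀ w ∈ K, 0 ≤ (starRingEnd ℂ ((deriv γ t) ^ 2 * starRingEnd ℂ u) * (w - γ t)).im) ∨
               (∀ w ∈ K, (starRingEnd ℂ ((deriv γ t) ^ 2 * starRingEnd ℂ u) * (w - γ t)).im ≤ 0)))) ∧
        ¬ (frontier K₁ ⊆ interior K₂) ∧ ¬ (frontier K₂ ⊆ interior K₁) := by
  have hpi := Real.pi_pos
  obtain ⟨d0, c1⟩ := contDiff_infty_iff_deriv.1 hH
  obtain ⟨d1, c2⟩ := contDiff_infty_iff_deriv.1 c1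
  obtain ⟨d2, -⟩ := contDiff_infty_iff_deriv.1 c2
  have hdp : Function.Periodic (deriv H) (2 * Real.pi) := by
    intro x
    have : (fun y => H (y + 2 * Real.pi)) = H := funext hHp
    rw [← deriv_comp_add_const, this]
  have hlip : ∀ x y, |deriv H x - deriv H y| ≤ 1 / 100 * |x - y| := by
    intro x y
    have := (convex_univ (𝕜 := ℝ) (E := ℝ)).norm_image_sub_le_of_norm_deriv_le
      (f := deriv H) (C := 1 / 100) (fun z _ => d1 z) (fun z _ => hH2 z) (Set.mem_univ y)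
      (Set.mem_univ x)
    simpa [Real.norm_eq_abs] using this
  have hlb : ∀ x, 49 / 100 ≤ H x := by
    intro x
    have := (abs_le.1 (hH0 x)).1
    linarith
  set ρ : ℝ → ℝ := fun x => H x + deriv (deriv H) x with hρ
  have hρpos : ∀ x, 0 < ρ x := by
    intro x
    have := (abs_le.1 (hH0 x)).1
    have := (abs_le.1 (hH2 x)).1
    simp only [hρ]
    linarith
  have hρd : Differentiable ℝ ρ := d0.add d2
  set γ : ℝ → ℂ := fun t => geo_pt H (2 * Real.pi * t) with hγ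
  have hlin : ∀ t : ℝ, HasDerivAt (fun t : ℝ => 2 * Real.pi * t) (2 * Real.pi) t := by
    intro t
    simpa using (hasDerivAt_id t).const_mul (2 * Real.pi)
  have hγ1 : ∀ t, HasDerivAt γ ((2 * Real.pi) •
      (Complex.I * geo_e (2 * Real.pi * t) * ((ρ (2 * Real.pi * t) : ℝ) : ℂ))) t := by
    intro t
    exact (geo_pt_deriv H d0 d1 (2 * Real.pi * t)).scomp t (hlin t)
  have hγd : deriv γ = fun t => (2 * Real.pi) •
      (Complex.I * geo_e (2 * Real.pi * t) * ((ρ (2 * Real.pi * t) : ℝ) : ℂ)) :=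
    funext fun t => (hγ1 t).deriv
  have hγ2 : ∀ t, HasDerivAt (deriv γ) ((2 * Real.pi) • ((2 * Real.pi) •
      (Complex.I * (Complex.I * geo_e (2 * Real.pi * t)) * ((ρ (2 * Real.pi * t) : ℝ) : ℂ)
        + Complex.I * geo_e (2 * Real.pi * t) * ((deriv ρ (2 * Real.pi * t) : ℝ) : ℂ)))) t := by
    intro t
    rw [hγd]
    have a1 := ((geo_e_deriv (2 * Real.pi * t)).const_mul Complex.I).mul
      ((hρd (2 * Real.pi * t)).hasDerivAt.ofReal_comp)
    exact (a1.scomp t (hlin t)).const_smul (2 * Real.pi)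
  have hre1 : ∀ t, (deriv γ t).re
      = -(2 * Real.pi * ρ (2 * Real.pi * t) * Real.sin (2 * Real.pi * t)) := by
    intro t
    rw [hγd]
    simp [geo_e]
    ring
  have him1 : ∀ t, (deriv γ t).im
      = 2 * Real.pi * ρ (2 * Real.pi * t) * Real.cos (2 * Real.pi * t) := by
    intro t
    rw [hγd]
    simp [geo_e]
    ring
  refine ⟨γ, ?_, ?_, ?_, ?_, ?_, geo_K h₁, geo_K h₂, ?_, ?_, ?_, ?_⟩
  · have e : γ = fun t => ((Real.cos (2 * Real.pi * t) : ℝ) + (Real.sin (2 * Real.pi * t) : ℝ)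
        * Complex.I) * ((H (2 * Real.pi * t) : ℂ)
          + ((deriv H (2 * Real.pi * t) : ℝ) : ℂ) * Complex.I) := by
      funext t
      simp only [hγ]
      rw [geo_pt_eq, geo_e_eq]
    rw [e]
    have l : ContDiff ℝ ∞ (fun t : ℝ => 2 * Real.pi * t) := contDiff_const.mul contDiff_id
    have o : ContDiff ℝ ∞ (fun x : ℝ => (x : ℂ)) := Complex.ofRealCLM.contDiff
    exact ((o.comp (Real.contDiff_cos.comp l)).add
      ((o.comp (Real.contDiff_sin.comp l)).mul contDiff_const)).mul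
      ((o.comp (hH.comp l)).add ((o.comp (c1.comp l)).mul contDiff_const))
  · intro t
    simp only [hγ, geo_pt, mul_add, mul_one]
    rw [hHp, hdp, Real.cos_add_two_pi, Real.sin_add_two_pi]
  · intro t ht t' ht' htt
    have a1 := geo_key H d0 hHp hlb hH1 hlip (2 * Real.pi * t) (2 * Real.pi * t')
    have a2 : geo_pt H (2 * Real.pi * t) = geo_pt H (2 * Real.pi * t') := htt
    rw [a2, geo_ip_pt_self] at a1
    have a3 := Real.cos_le_one (2 * Real.pi * t' - 2 * Real.pi * t)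
    have a4 : Real.cos (2 * Real.pi * t' - 2 * Real.pi * t) = 1 := by linarith
    rw [Real.cos_eq_one_iff_of_lt_of_lt (by nlinarith [ht.1, ht.2, ht'.1, ht'.2])
      (by nlinarith [ht.1, ht.2, ht'.1, ht'.2])] at a4
    have a5 : 2 * Real.pi * (t - t') = 0 := by linarith
    rcases mul_eq_zero.1 a5 with a6 | a6
    · exfalso; linarith
    · linarith
  · intro t h0
    have a1 := hre1 t
    have a2 := him1 t
    rw [h0] at a1 a2
    simp only [Complex.zero_re, Complex.zero_im] at a1 a2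
    have a3 := Real.sin_sq_add_cos_sq (2 * Real.pi * t)
    have a4 : 0 < 2 * Real.pi * ρ (2 * Real.pi * t) := mul_pos (by positivity) (hρpos _)
    have a5 : Real.sin (2 * Real.pi * t) = 0 := by
      have : 2 * Real.pi * ρ (2 * Real.pi * t) * Real.sin (2 * Real.pi * t) = 0 := by linarith
      exact (mul_eq_zero.1 this).resolve_left a4.ne'
    have a6 : Real.cos (2 * Real.pi * t) = 0 :=
      (mul_eq_zero.1 a2.symm).resolve_left a4.ne'
    rw [a5, a6] at a3
    norm_num at a3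
  · intro t
    have a3 := Real.sin_sq_add_cos_sq (2 * Real.pi * t)
    have a4 : (starRingEnd ℂ (deriv γ t) * deriv (deriv γ) t).im
        = (2 * Real.pi) ^ 3 * ρ (2 * Real.pi * t) ^ 2 := by
      rw [(hγ2 t).deriv, Complex.mul_im, Complex.conj_re, Complex.conj_im, hre1, him1]
      simp [geo_e]
      linear_combination (2 * Real.pi) ^ 3 * ρ (2 * Real.pi * t) ^ 2 * a3
    rw [a4]
    have := hρpos (2 * Real.pi * t)
    positivity
  · intro hK
    apply hne
    funext θ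
    apply le_antisymm
    · have := geo_pt_mem h1 θ
      rw [hK] at this
      have := this θ
      rwa [geo_ip_pt_self] at this
    · have := geo_pt_mem h2 θ
      rw [← hK] at this
      have := this θ
      rwa [geo_ip_pt_self] at this
  · have main : ∀ h : ℝ → ℝ, IsCaustic H h →
        IsCompact (geo_K h) ∧ Convex ℝ (geo_K h) ∧ (interior (geo_K h)).Nonempty ∧
          geo_K h ⊆ interior (convexHull ℝ (Set.range γ)) ∧
          ∀ t : ℝ, ∀ u : ℂ, u ≠ 0 →
            ((∃ s : ℝ, γ t + (s : ℂ) * u ∈ geo_K h) ∧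
              ((∀ w ∈ geo_K h, 0 ≤ (starRingEnd ℂ u * (w - γ t)).im) ∨
               (∀ w ∈ geo_K h, (starRingEnd ℂ u * (w - γ t)).im ≤ 0))) →
            ((∃ s : ℝ, γ t + (s : ℂ) * ((deriv γ t) ^ 2 * starRingEnd ℂ u) ∈ geo_K h) ∧
              ((∀ w ∈ geo_K h,
                0 ≤ (starRingEnd ℂ ((deriv γ t) ^ 2 * starRingEnd ℂ u) * (w - γ t)).im) ∨
               (∀ w ∈ geo_K h,
                (starRingEnd ℂ ((deriv γ t) ^ 2 * starRingEnd ℂ u) * (w - γ t)).im ≤ 0))) := by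
      intro h hc
      refine ⟨geo_K_compact hc, geo_K_convex h, geo_K_interior hc, ?_, ?_⟩
      · have hb := geo_hull H hH0 hH1 (Set.range γ) (fun x => ⟨x / (2 * Real.pi), by
          simp only [hγ]
          congr 1
          field_simp⟩)
        intro y hy
        apply interior_maximal hb Metric.isOpen_ball
        have := geo_K_norm hc hy
        simp only [Metric.mem_ball, dist_zero_right]
        linarith
      · rintro t u hu ⟨a1, a2⟩
        obtain ⟨θ, c, hc0, hre, him, hP⟩ := geo_supp_angle hc (γ t) u hu a1 a2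
        have hP' := geo_reflect hc hH0 hH1 (2 * Real.pi * t) θ hP
        have a4 : 0 < 2 * Real.pi * ρ (2 * Real.pi * t) := mul_pos (by positivity) (hρpos _)
        have a3 := Real.sin_sq_add_cos_sq (2 * Real.pi * t)
        apply geo_angle_supp hc (γ t) _ (2 * (2 * Real.pi * t) - θ)
          ((2 * Real.pi * ρ (2 * Real.pi * t)) ^ 2 * c) (mul_ne_zero (by positivity) hc0) _ _ hP'
        · rw [sq (deriv γ t)]
          simp only [Complex.mul_re, Complex.mul_im, Complex.conj_re, Complex.conj_im, hre1, him1,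
            hre, him, Real.sin_sub, Real.sin_two_mul, Real.cos_two_mul]
          linear_combination
            (-((2 * Real.pi * ρ (2 * Real.pi * t)) ^ 2 * c * Real.sin θ)) * a3
        · rw [sq (deriv γ t)]
          simp only [Complex.mul_re, Complex.mul_im, Complex.conj_re, Complex.conj_im, hre1, him1,
            hre, him, Real.cos_sub, Real.sin_two_mul, Real.cos_two_mul]
          linear_combination
            (-((2 * Real.pi * ρ (2 * Real.pi * t)) ^ 2 * c * Real.cos θ)) * a3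
    intro K hK
    simp only [Set.mem_insert_iff, Set.mem_singleton_iff] at hK
    rcases hK with rfl | rfl
    · exact main h₁ h1
    · exact main h₂ h2
  · obtain ⟨θ, hθ⟩ := hmeet
    intro hsub
    refine geo_not_interior h₂ (geo_pt h₁ θ) θ (by rw [geo_ip_pt_self, hθ]) (hsub ⟨?_, ?_⟩)
    · exact subset_closure (geo_pt_mem h1 θ)
    · exact geo_not_interior h₁ _ θ (by rw [geo_ip_pt_self])
  · obtain ⟨θ, hθ⟩ := hmeet
    intro hsub
    refine geo_not_interior h₁ (geo_pt h₂ θ) θ (by rw [geo_ip_pt_self, hθ]) (hsub ⟨?_, ?_⟩)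
    · exact subset_closure (geo_pt_mem h2 θ)
    · exact geo_not_interior h₂ _ θ (by rw [geo_ip_pt_self])

end Pool.Agent.MP_be9872_an

end

-- part MP_be9872_an.Flat
section

set_option autoImplicit false
open scoped ContDiff

namespace Pool.Agent.MP_be9872_an

/-- the operator `d/dc` read in the coordinate `τ` -/
noncomputable def flat_D (F : ℂ → ℂ) : ℂ → ℂ := fun t => -(Complex.cosh t) ^ 2 * deriv F t

theorem flat_isOpen_St (ρ : ℝ) : IsOpen (St ρ) := by
  unfold St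
  exact isOpen_lt (by fun_prop) continuous_const

theorem flat_St_mono {ρ ρ' : ℝ} (h : ρ ≤ ρ') : St ρ ⊆ St ρ' := fun _ hτ => lt_of_lt_of_le hτ h

theorem flat_ofReal_mem {ρ : ℝ} (hρ : 0 < ρ) (x : ℝ) : (x : ℂ) ∈ St ρ := by
  simp [St, hρ]

theorem flat_w_pos (x : ℝ) : 0 < w x := Real.exp_pos _

theorem flat_w_le_one (x : ℝ) : w x ≤ 1 := by
  unfold w
  rw [Real.exp_le_one_iff]
  simp

theorem flat_w_shift (x y r : ℝ) (h : |y - x| ≤ r) : w y ≤ Real.exp r * w x := by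
  unfold w
  rw [← Real.exp_add, Real.exp_le_exp]
  have h1 : |x| ≤ |y| + |y - x| := by
    have := abs_sub_abs_le_abs_sub x y
    rw [abs_sub_comm] at this
    linarith
  linarith

theorem flat_K_nonneg {ρ : ℝ} (hρ : 0 < ρ) {F : ℂ → ℂ} {K : ℝ} {j : ℕ}
    (hb : ∀ τ ∈ St ρ, ‖F τ‖ ≤ K * w τ.re ^ j) : 0 ≤ K := by
  have h := hb ((0 : ℝ) : ℂ) (flat_ofReal_mem hρ 0)
  have h2 : w ((0 : ℝ) : ℂ).re = 1 := by simp [w]
  rw [h2, one_pow, mul_one] at h
  exact le_trans (norm_nonneg _) h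

theorem flat_deriv_bound {ρ : ℝ} (hρ : 0 < ρ) {F : ℂ → ℂ} (hF : DifferentiableOn ℂ F (St ρ))
    {K : ℝ} {j : ℕ} (hb : ∀ τ ∈ St ρ, ‖F τ‖ ≤ K * w τ.re ^ j) :
    ∀ τ ∈ St (ρ / 2), ‖deriv F τ‖ ≤ K * (Real.exp (ρ / 2) ^ j / (ρ / 2)) * w τ.re ^ j := by
  intro τ hτ
  have hK := flat_K_nonneg hρ hb
  have hsub : Metric.closedBall τ (ρ / 2) ⊆ St ρ := by
    intro z hz
    have h1 : |(z - τ).im| ≤ ρ / 2 :=
      le_trans (Complex.abs_im_le_norm _) (by simpa [dist_eq_norm] using hz)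
    have h2 : |τ.im| < ρ / 2 := hτ
    have h3 : z.im = (z - τ).im + τ.im := by simp
    show |z.im| < ρ
    rw [h3]
    have := abs_add_le (z - τ).im τ.im
    linarith
  have hd : DiffContOnCl ℂ F (Metric.ball τ (ρ / 2)) := hF.diffContOnCl_ball hsub
  have hC : ∀ z ∈ Metric.sphere τ (ρ / 2), ‖F z‖ ≤ K * (Real.exp (ρ / 2) * w τ.re) ^ j := by
    intro z hz
    have hz' : z ∈ Metric.closedBall τ (ρ / 2) := Metric.sphere_subset_closedBall hz
    refine le_trans (hb z (hsub hz')) ?_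
    apply mul_le_mul_of_nonneg_left _ hK
    apply pow_le_pow_left₀ (flat_w_pos _).le
    apply flat_w_shift
    have h1 : |(z - τ).re| ≤ ρ / 2 :=
      le_trans (Complex.abs_re_le_norm _) (by simpa [dist_eq_norm] using hz')
    simpa using h1
  have h := Complex.norm_deriv_le_of_forall_mem_sphere_norm_le (half_pos hρ) hd hC
  refine le_trans h (le_of_eq ?_)
  rw [mul_pow]
  ring

theorem flat_cosh_bound (τ : ℂ) : ‖Complex.cosh τ‖ * w τ.re ≤ 1 := by
  have h1 : ‖Complex.cosh τ‖ ≤ Real.exp |τ.re| := by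
    have h2 : ‖Complex.exp τ‖ ≤ Real.exp |τ.re| := by
      rw [Complex.norm_exp]
      exact Real.exp_le_exp.2 (le_abs_self _)
    have h3 : ‖Complex.exp (-τ)‖ ≤ Real.exp |τ.re| := by
      rw [Complex.norm_exp]
      exact Real.exp_le_exp.2 (by simpa using neg_le_abs τ.re)
    have h4 : Complex.cosh τ = (Complex.exp τ + Complex.exp (-τ)) / 2 := rfl
    rw [h4, norm_div]
    have h5 := norm_add_le (Complex.exp τ) (Complex.exp (-τ))
    have h6 : ‖(2 : ℂ)‖ = 2 := by simp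
    rw [h6]
    linarith
  have h7 : Real.exp |τ.re| * w τ.re = 1 := by
    unfold w
    rw [← Real.exp_add]
    simp
  calc ‖Complex.cosh τ‖ * w τ.re ≤ Real.exp |τ.re| * w τ.re :=
        mul_le_mul_of_nonneg_right h1 (flat_w_pos _).le
    _ = 1 := h7

theorem flat_D_diff {ρ : ℝ} (hρ : 0 < ρ) {F : ℂ → ℂ} (hF : DifferentiableOn ℂ F (St ρ)) :
    DifferentiableOn ℂ (flat_D F) (St (ρ / 2)) := by
  have h1 : DifferentiableOn ℂ (deriv F) (St ρ) := hF.deriv (flat_isOpen_St ρ)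
  have h2 : DifferentiableOn ℂ (deriv F) (St (ρ / 2)) := h1.mono (flat_St_mono (by linarith))
  have h3 : Differentiable ℂ (fun t : ℂ => -(Complex.cosh t) ^ 2) :=
    (Complex.differentiable_cosh.pow 2).neg
  exact h3.differentiableOn.mul h2

theorem flat_D_bound {ρ : ℝ} (hρ : 0 < ρ) {F : ℂ → ℂ} (hF : DifferentiableOn ℂ F (St ρ))
    {K : ℝ} {j : ℕ} (hb : ∀ τ ∈ St ρ, ‖F τ‖ ≤ K * w τ.re ^ (j + 2)) :
    ∀ τ ∈ St (ρ / 2),
      ‖flat_D F τ‖ ≤ K * (Real.exp (ρ / 2) ^ (j + 2) / (ρ / 2)) * w τ.re ^ j := by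
  intro τ hτ
  have hK := flat_K_nonneg hρ hb
  have h1 := flat_deriv_bound hρ hF hb τ hτ
  have h2 := flat_cosh_bound τ
  have hw := flat_w_pos τ.re
  have h3 : (‖Complex.cosh τ‖ * w τ.re) ^ 2 ≤ 1 := pow_le_one₀ (by positivity) h2
  have h4 : ‖flat_D F τ‖ = ‖Complex.cosh τ‖ ^ 2 * ‖deriv F τ‖ := by
    simp [flat_D]
  have hA : 0 ≤ K * (Real.exp (ρ / 2) ^ (j + 2) / (ρ / 2)) * w τ.re ^ j := by positivity
  rw [h4]
  calc ‖Complex.cosh τ‖ ^ 2 * ‖deriv F τ‖
      ≤ ‖Complex.cosh τ‖ ^ 2 * (K * (Real.exp (ρ / 2) ^ (j + 2) / (ρ / 2)) * w τ.re ^ (j + 2)) :=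
        mul_le_mul_of_nonneg_left h1 (by positivity)
    _ = (‖Complex.cosh τ‖ * w τ.re) ^ 2 *
          (K * (Real.exp (ρ / 2) ^ (j + 2) / (ρ / 2)) * w τ.re ^ j) := by ring
    _ ≤ 1 * (K * (Real.exp (ρ / 2) ^ (j + 2) / (ρ / 2)) * w τ.re ^ j) :=
        mul_le_mul_of_nonneg_right h3 hA
    _ = _ := one_mul _

theorem flat_tau_hasDeriv {c : ℝ} (hc : |c| < 1) : HasDerivAt tauC (-1 / (1 - c ^ 2)) c := by
  obtain ⟨h1, h2⟩ := abs_lt.1 hc
  have ha : 0 < 1 - c := by linarith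
  have hb : 0 < 1 + c := by linarith
  have h3 : HasDerivAt (fun x : ℝ => (1 - x) / (1 + x))
      (((0 - 1) * (1 + c) - (1 - c) * (0 + 1)) / (1 + c) ^ 2) c :=
    ((hasDerivAt_const c (1 : ℝ)).sub (hasDerivAt_id c)).div
      ((hasDerivAt_const c (1 : ℝ)).add (hasDerivAt_id c)) hb.ne'
  have h4 := (h3.log (div_pos ha hb).ne').const_mul (1 / 2 : ℝ)
  have h5 : (1 - c ^ 2) = (1 - c) * (1 + c) := by ring
  have h6 : -1 / (1 - c ^ 2) = 1 / 2 * (((0 - 1) * (1 + c) - (1 - c) * (0 + 1)) / (1 + c) ^ 2 /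
      ((1 - c) / (1 + c))) := by
    rw [h5]
    field_simp
    ring
  rw [h6]
  exact h4

theorem flat_exp_two_tau {c : ℝ} (hc : |c| < 1) :
    Real.exp (tauC c) ^ 2 = (1 - c) / (1 + c) := by
  obtain ⟨h1, h2⟩ := abs_lt.1 hc
  have ha : 0 < 1 - c := by linarith
  have hb : 0 < 1 + c := by linarith
  rw [← Real.exp_nat_mul]
  have : ((2 : ℕ) : ℝ) * tauC c = Real.log ((1 - c) / (1 + c)) := by
    unfold tauC
    push_cast
    ring
  rw [this, Real.exp_log (div_pos ha hb)]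

theorem flat_cosh_tau {c : ℝ} (hc : |c| < 1) : Real.cosh (tauC c) ^ 2 = 1 / (1 - c ^ 2) := by
  obtain ⟨h1, h2⟩ := abs_lt.1 hc
  have ha : 0 < 1 - c := by linarith
  have hb : 0 < 1 + c := by linarith
  have h := flat_exp_two_tau hc
  have he := Real.exp_pos (tauC c)
  have h5 : (1 - c ^ 2) = (1 - c) * (1 + c) := by ring
  have h3 : Real.cosh (tauC c) ^ 2 =
      (Real.exp (tauC c) ^ 2 + 2 + (Real.exp (tauC c) ^ 2)⁻¹) / 4 := by
    rw [Real.cosh_eq, Real.exp_neg]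
    field_simp
    ring
  rw [h3, h, h5]
  field_simp
  ring

theorem flat_w_tau {c : ℝ} (hc : |c| < 1) : w (tauC c) ^ 2 ≤ 1 - |c| := by
  obtain ⟨h1, h2⟩ := abs_lt.1 hc
  have ha : 0 < 1 - c := by linarith
  have hb : 0 < 1 + c := by linarith
  have h := flat_exp_two_tau hc
  have he := Real.exp_pos (tauC c)
  have hw := flat_w_pos (tauC c)
  rcases le_total 0 c with h0 | h0
  · have h3 : w (tauC c) ≤ Real.exp (tauC c) := Real.exp_le_exp.2 (neg_abs_le _)
    have h4 : w (tauC c) ^ 2 ≤ (1 - c) / (1 + c) := by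
      rw [← h]
      exact pow_le_pow_left₀ hw.le h3 2
    rw [abs_of_nonneg h0]
    refine le_trans h4 ?_
    rw [div_le_iff₀ hb]
    nlinarith
  · have h3 : w (tauC c) ≤ (Real.exp (tauC c))⁻¹ := by
      rw [← Real.exp_neg]
      exact Real.exp_le_exp.2 (neg_le_neg (le_abs_self _))
    have h4 : w (tauC c) ^ 2 ≤ (1 + c) / (1 - c) := by
      have h5 : (1 + c) / (1 - c) = (Real.exp (tauC c))⁻¹ ^ 2 := by
        rw [inv_pow, h, inv_div]
      rw [h5]
      exact pow_le_pow_left₀ hw.le h3 2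
    rw [abs_of_nonpos h0]
    refine le_trans h4 ?_
    rw [div_le_iff₀ ha]
    nlinarith

theorem flat_ext_D {F : ℂ → ℂ} {c : ℝ} (hc : |c| < 1) :
    flatExt (flat_D F) c = -(deriv F (tauC c : ℝ)).re / (1 - c ^ 2) := by
  unfold flatExt flat_D
  rw [if_pos hc]
  have h1 : -(Complex.cosh ((tauC c : ℝ) : ℂ)) ^ 2 = ((-(1 / (1 - c ^ 2)) : ℝ) : ℂ) := by
    rw [← flat_cosh_tau hc]
    push_cast
    rfl
  simp only [h1, Complex.re_ofReal_mul]
  ring

theorem flat_abs_le {ρ : ℝ} (hρ : 0 < ρ) {F : ℂ → ℂ} {K : ℝ} {j : ℕ}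
    (hb : ∀ τ ∈ St ρ, ‖F τ‖ ≤ K * w τ.re ^ j) (c : ℝ) (hc : |c| < 1) :
    |flatExt F c| ≤ K * w (tauC c) ^ j := by
  unfold flatExt
  rw [if_pos hc]
  have h := hb ((tauC c : ℝ) : ℂ) (flat_ofReal_mem hρ _)
  rw [Complex.ofReal_re] at h
  exact le_trans (Complex.abs_re_le_norm _) h

theorem flat_abs_le_const {ρ : ℝ} (hρ : 0 < ρ) {F : ℂ → ℂ} {K : ℝ} {j : ℕ}
    (hb : ∀ τ ∈ St ρ, ‖F τ‖ ≤ K * w τ.re ^ j) (c : ℝ) : |flatExt F c| ≤ K := by
  have hK := flat_K_nonneg hρ hb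
  by_cases hc : |c| < 1
  · refine le_trans (flat_abs_le hρ hb c hc) ?_
    have h1 : w (tauC c) ^ j ≤ 1 := pow_le_one₀ (flat_w_pos _).le (flat_w_le_one _)
    calc K * w (tauC c) ^ j ≤ K * 1 := mul_le_mul_of_nonneg_left h1 hK
      _ = K := mul_one K
  · unfold flatExt
    rw [if_neg hc, abs_zero]
    exact hK

theorem flat_hasDeriv {ρ : ℝ} (hρ : 0 < ρ) {F : ℂ → ℂ} (hF : DifferentiableOn ℂ F (St ρ))
    {K : ℝ} (hb : ∀ τ ∈ St ρ, ‖F τ‖ ≤ K * w τ.re ^ 4) (c : ℝ) :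
    HasDerivAt (flatExt F) (flatExt (flat_D F) c) c := by
  have hK := flat_K_nonneg hρ hb
  rcases lt_trichotomy |c| 1 with hc | hc | hc
  · rw [flat_ext_D hc]
    have h1 : HasDerivAt F (deriv F (tauC c : ℝ)) ((tauC c : ℝ) : ℂ) :=
      (hF.differentiableAt ((flat_isOpen_St ρ).mem_nhds (flat_ofReal_mem hρ _))).hasDerivAt
    have h2 : HasDerivAt (fun x : ℝ => (F x).re) (deriv F (tauC c : ℝ)).re (tauC c) :=
      h1.real_of_complex
    have h3 := h2.comp c (flat_tau_hasDeriv hc)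
    have h4 : -(deriv F (tauC c : ℝ)).re / (1 - c ^ 2) =
        (deriv F (tauC c : ℝ)).re * (-1 / (1 - c ^ 2)) := by ring
    rw [h4]
    refine h3.congr_of_eventuallyEq ?_
    have h5 : ∀ᶠ x in nhds c, |x| < 1 :=
      (isOpen_lt continuous_abs continuous_const).mem_nhds hc
    filter_upwards [h5] with x hx
    simp [flatExt, hx]
  · have h0 : ¬ |c| < 1 := by rw [hc]; exact lt_irrefl _
    have h1 : flatExt (flat_D F) c = 0 := by simp [flatExt, h0]
    have h2 : flatExt F c = 0 := by simp [flatExt, h0]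
    rw [h1, hasDerivAt_iff_isLittleO]
    have h3 : ∀ x : ℝ, |flatExt F x| ≤ K * |x - c| ^ 2 := by
      intro x
      by_cases hx : |x| < 1
      · refine le_trans (flat_abs_le hρ hb x hx) (mul_le_mul_of_nonneg_left ?_ hK)
        have h4 := flat_w_tau hx
        have h5 : 1 - |x| ≤ |x - c| := by
          have := abs_sub_abs_le_abs_sub c x
          rw [abs_sub_comm, hc] at this
          exact this
        have h6 : w (tauC x) ^ 4 = (w (tauC x) ^ 2) ^ 2 := by ring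
        rw [h6]
        exact pow_le_pow_left₀ (by positivity) (le_trans h4 h5) 2
      · have : flatExt F x = 0 := by simp [flatExt, hx]
        rw [this, abs_zero]
        positivity
    have h7 : (fun x : ℝ => flatExt F x - flatExt F c - (x - c) • (0 : ℝ)) =O[nhds c]
        fun x : ℝ => ‖x - c‖ ^ 2 := by
      refine Asymptotics.IsBigO.of_bound K (Filter.Eventually.of_forall fun x => ?_)
      simpa [h2] using h3 x
    exact h7.trans_isLittleO (Asymptotics.isLittleO_pow_sub_sub c (by norm_num))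
  · have h0 : ¬ |c| < 1 := not_lt.2 hc.le
    have h1 : flatExt (flat_D F) c = 0 := by simp [flatExt, h0]
    rw [h1]
    refine (hasDerivAt_const c (0 : ℝ)).congr_of_eventuallyEq ?_
    have h5 : ∀ᶠ x in nhds c, 1 < |x| :=
      (isOpen_lt continuous_const continuous_abs).mem_nhds hc
    filter_upwards [h5] with x hx
    simp [flatExt, not_lt.2 hx.le]

theorem flat_deriv_eq {ρ : ℝ} (hρ : 0 < ρ) {F : ℂ → ℂ} (hF : DifferentiableOn ℂ F (St ρ))
    {K : ℝ} (hb : ∀ τ ∈ St ρ, ‖F τ‖ ≤ K * w τ.re ^ 4) :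
    deriv (flatExt F) = flatExt (flat_D F) :=
  funext fun c => (flat_hasDeriv hρ hF hb c).deriv

theorem flat_D_flat {ρ : ℝ} (hρ : 0 < ρ) {F : ℂ → ℂ} (hF : DifferentiableOn ℂ F (St ρ))
    (hflat : ∀ j : ℕ, ∃ C : ℝ, ∀ τ ∈ St ρ, ‖F τ‖ ≤ C * w τ.re ^ j) :
    ∀ j : ℕ, ∃ C : ℝ, ∀ τ ∈ St (ρ / 2), ‖flat_D F τ‖ ≤ C * w τ.re ^ j := by
  intro j
  obtain ⟨K, hK⟩ := hflat (j + 2)
  exact ⟨_, flat_D_bound hρ hF hK⟩

theorem flat_contDiff (n : ℕ) : ∀ (ρ : ℝ), 0 < ρ → ∀ F : ℂ → ℂ, DifferentiableOn ℂ F (St ρ) →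
    (∀ j : ℕ, ∃ C : ℝ, ∀ τ ∈ St ρ, ‖F τ‖ ≤ C * w τ.re ^ j) → ContDiff ℝ n (flatExt F) := by
  induction n with
  | zero =>
    intro ρ hρ F hF hflat
    obtain ⟨K, hK⟩ := hflat 4
    have h : Differentiable ℝ (flatExt F) := fun c => (flat_hasDeriv hρ hF hK c).differentiableAt
    simpa using h.continuous
  | succ n ih =>
    intro ρ hρ F hF hflat
    obtain ⟨K, hK⟩ := hflat 4
    have h : Differentiable ℝ (flatExt F) := fun c => (flat_hasDeriv hρ hF hK c).differentiableAt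
    have h2 : ((n + 1 : ℕ) : WithTop ℕ∞) = (n : WithTop ℕ∞) + 1 := by push_cast; rfl
    rw [h2, contDiff_succ_iff_deriv]
    refine ⟨h, by simp, ?_⟩
    rw [flat_deriv_eq hρ hF hK]
    exact ih (ρ / 2) (half_pos hρ) _ (flat_D_diff hρ hF) (flat_D_flat hρ hF hflat)

theorem flat_smooth (ρ : ℝ) (hρ : 0 < ρ) (F : ℂ → ℂ) (hF : DifferentiableOn ℂ F (St ρ))
    (hflat : ∀ j : ℕ, ∃ C : ℝ, ∀ τ ∈ St ρ, ‖F τ‖ ≤ C * w τ.re ^ j) :
    ContDiff ℝ ∞ (flatExt F) ∧
      (∀ c : ℝ, |c| < 1 →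
        deriv (flatExt F) c = -(deriv F (tauC c : ℝ)).re / (1 - c ^ 2)) ∧
      (∀ c : ℝ, 1 ≤ |c| → deriv (flatExt F) c = 0) := by
  obtain ⟨K, hK⟩ := hflat 4
  refine ⟨contDiff_infty.2 fun n => flat_contDiff n ρ hρ F hF hflat, fun c hc => ?_,
    fun c hc => ?_⟩
  · rw [flat_deriv_eq hρ hF hK, flat_ext_D hc]
  · rw [flat_deriv_eq hρ hF hK]
    simp [flatExt, not_lt.2 hc]

theorem flat_bounds (ρ : ℝ) (hρ : 0 < ρ) :
    ∃ C : ℝ, 0 < C ∧ ∀ (F : ℂ → ℂ) (κ : ℝ), DifferentiableOn ℂ F (St ρ) →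
      (∀ j : ℕ, ∃ C' : ℝ, ∀ τ ∈ St ρ, ‖F τ‖ ≤ C' * w τ.re ^ j) →
      (∀ τ ∈ St ρ, ‖F τ‖ ≤ κ * w τ.re ^ 4) →
      ∀ c : ℝ, |flatExt F c| ≤ C * κ ∧ |deriv (flatExt F) c| ≤ C * κ ∧
        |deriv (deriv (flatExt F)) c| ≤ C * κ := by
  obtain ⟨A, hA⟩ : ∃ A : ℝ, A = Real.exp (ρ / 2) ^ (2 + 2) / (ρ / 2) := ⟨_, rfl⟩
  obtain ⟨B, hB⟩ : ∃ B : ℝ, B = Real.exp (ρ / 2 / 2) ^ (0 + 2) / (ρ / 2 / 2) := ⟨_, rfl⟩
  have hA0 : 0 < A := by rw [hA]; positivity
  have hB0 : 0 < B := by rw [hB]; positivity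
  have hAB : 0 < A * B := mul_pos hA0 hB0
  refine ⟨1 + A + A * B, by positivity, fun F κ hF hflat hb c => ?_⟩
  have hκ := flat_K_nonneg hρ hb
  have hρ2 := half_pos hρ
  have hD := flat_D_diff hρ hF
  have hb1 : ∀ τ ∈ St (ρ / 2), ‖flat_D F τ‖ ≤ κ * A * w τ.re ^ (0 + 2) := by
    rw [hA]
    exact flat_D_bound (j := 2) hρ hF hb
  have hb2 : ∀ τ ∈ St (ρ / 2 / 2), ‖flat_D (flat_D F) τ‖ ≤ κ * A * B * w τ.re ^ 0 := by
    rw [hB]
    exact flat_D_bound hρ2 hD hb1
  obtain ⟨K, hK⟩ := flat_D_flat hρ hF hflat 4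
  have h0 := flat_abs_le_const hρ hb c
  have h1 := flat_abs_le_const hρ2 hb1 c
  have h2 := flat_abs_le_const (half_pos hρ2) hb2 c
  have p1 : 0 ≤ A * κ := mul_nonneg hA0.le hκ
  have p2 : 0 ≤ A * B * κ := mul_nonneg hAB.le hκ
  rw [flat_deriv_eq hρ hF hb, flat_deriv_eq hρ2 hD hK]
  refine ⟨?_, ?_, ?_⟩ <;> nlinarith

end Pool.Agent.MP_be9872_an

end

-- part MP_be9872_an.Fin
section

set_option autoImplicit false
open Complex
open scoped ContDiff

namespace Pool.Agent.MP_be9872_an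

/-- real form of `mu` -/
noncomputable def fin_m (l : ℝ) : ℝ := (Real.cosh l - 1) / (37 + 35 * Real.cosh l)

/-- real form of `sig` -/
noncomputable def fin_s (l : ℝ) : ℝ := -s0 * (1 - 35 * fin_m l) * Real.sinh l / 6

lemma fin_mu_eq (l : ℝ) : mu l = (fin_m l : ℝ) := by
  unfold mu fin_m
  push_cast
  rfl

lemma fin_sig_eq (l : ℝ) : sig l = (fin_s l : ℝ) := by
  unfold sig fin_s
  rw [fin_mu_eq]
  push_cast
  rfl

lemma fin_m_bounds {l : ℝ} (h0 : 0 < l) (h1 : l ≤ 1) :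
    0 ≤ fin_m l ∧ fin_m l ≤ l / 36 ∧ 35 * fin_m l < 1 := by
  have c1 : 1 ≤ Real.cosh l := Real.one_le_cosh l
  have e1 : Real.exp l ≤ 1 + 2 * l := exp_le_one_add_two_mul h0.le h1
  have e2 : Real.exp (-l) ≤ 1 := by rw [Real.exp_le_one_iff]; linarith
  have c2 : Real.cosh l ≤ 1 + l := by rw [Real.cosh_eq]; linarith
  have hd : 0 < 37 + 35 * Real.cosh l := by linarith
  unfold fin_m
  refine ⟨div_nonneg (by linarith) hd.le, ?_, ?_⟩
  · rw [div_le_iff₀ hd]; nlinarith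
  · rw [← mul_div_assoc, div_lt_one hd]; linarith

lemma fin_s_bounds {l : ℝ} (h0 : 0 < l) (h1 : l ≤ 1) : fin_s l < 0 ∧ |fin_s l| ≤ l := by
  obtain ⟨m0, -, m2⟩ := fin_m_bounds h0 h1
  have e1 : Real.exp l ≤ 1 + 2 * l := exp_le_one_add_two_mul h0.le h1
  have e2 : -l + 1 ≤ Real.exp (-l) := Real.add_one_le_exp (-l)
  have s1 : 0 < Real.sinh l := Real.sinh_pos_iff.2 h0
  have s2 : Real.sinh l ≤ 2 * l := by rw [Real.sinh_eq]; linarith
  have p1 : 0 < s0 * (1 - 35 * fin_m l) := mul_pos s0_pos (by linarith)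
  have p2 : s0 * (1 - 35 * fin_m l) ≤ 1 := by nlinarith [s0_le, s0_pos]
  have p3 : 0 < s0 * (1 - 35 * fin_m l) * Real.sinh l := mul_pos p1 s1
  have p4 : s0 * (1 - 35 * fin_m l) * Real.sinh l ≤ 2 * l := by nlinarith
  have e : fin_s l = -(s0 * (1 - 35 * fin_m l) * Real.sinh l) / 6 := by unfold fin_s; ring
  refine ⟨by rw [e]; linarith, ?_⟩
  rw [e, abs_le]
  constructor <;> linarith

/-- support function of the table -/
noncomputable def fin_H (m : ℝ) (f : ℝ → ℝ) (ψ : ℝ) : ℝ :=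
  1 + m * Real.cos (6 * ψ) + f (-Real.cos (3 * ψ))

lemma fin_inner (ψ : ℝ) :
    HasDerivAt (fun ψ : ℝ => -Real.cos (3 * ψ)) (3 * Real.sin (3 * ψ)) ψ := by
  have h := (((hasDerivAt_id ψ).const_mul (3 : ℝ)).cos).neg
  have e : -(-Real.sin (3 * id ψ) * (3 * 1)) = 3 * Real.sin (3 * ψ) := by simp; ring
  rw [e] at h
  exact h

lemma fin_cos (k ψ : ℝ) :
    HasDerivAt (fun ψ : ℝ => Real.cos (k * ψ)) (-(k * Real.sin (k * ψ))) ψ := by
  have h := ((hasDerivAt_id ψ).const_mul k).cos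
  have e : -Real.sin (k * id ψ) * (k * 1) = -(k * Real.sin (k * ψ)) := by simp; ring
  rw [e] at h
  exact h

lemma fin_sin (k ψ : ℝ) :
    HasDerivAt (fun ψ : ℝ => Real.sin (k * ψ)) (k * Real.cos (k * ψ)) ψ := by
  have h := ((hasDerivAt_id ψ).const_mul k).sin
  have e : Real.cos (k * id ψ) * (k * 1) = k * Real.cos (k * ψ) := by simp; ring
  rw [e] at h
  exact h

lemma fin_H_hasDeriv (m : ℝ) {f : ℝ → ℝ} (hf : Differentiable ℝ f) (ψ : ℝ) :
    HasDerivAt (fin_H m f)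
      (-(6 * m * Real.sin (6 * ψ)) + deriv f (-Real.cos (3 * ψ)) * (3 * Real.sin (3 * ψ))) ψ := by
  have h1 := ((fin_cos 6 ψ).const_mul m).const_add 1
  have h2 := (hf (-Real.cos (3 * ψ))).hasDerivAt.comp ψ (fin_inner ψ)
  have h3 := h1.add h2
  have e : m * -(6 * Real.sin (6 * ψ)) = -(6 * m * Real.sin (6 * ψ)) := by ring
  rw [e] at h3
  exact h3

lemma fin_H_deriv (m : ℝ) {f : ℝ → ℝ} (hf : Differentiable ℝ f) :
    deriv (fin_H m f) = fun ψ =>
      -(6 * m * Real.sin (6 * ψ)) + deriv f (-Real.cos (3 * ψ)) * (3 * Real.sin (3 * ψ)) :=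
  funext fun ψ => (fin_H_hasDeriv m hf ψ).deriv

lemma fin_H_deriv2 (m : ℝ) {f : ℝ → ℝ} (hf : Differentiable ℝ f)
    (hf' : Differentiable ℝ (deriv f)) (ψ : ℝ) :
    deriv (deriv (fin_H m f)) ψ = -(36 * m * Real.cos (6 * ψ)) +
      (deriv (deriv f) (-Real.cos (3 * ψ)) * (3 * Real.sin (3 * ψ)) * (3 * Real.sin (3 * ψ)) +
        deriv f (-Real.cos (3 * ψ)) * (3 * (3 * Real.cos (3 * ψ)))) := by
  rw [fin_H_deriv m hf]
  have h1 := ((fin_sin 6 ψ).const_mul (6 * m)).neg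
  have h2 := (hf' (-Real.cos (3 * ψ))).hasDerivAt.comp ψ (fin_inner ψ)
  have h3 := h2.mul ((fin_sin 3 ψ).const_mul 3)
  have h4 := h1.add h3
  have e : -(6 * m * (6 * Real.cos (6 * ψ))) = -(36 * m * Real.cos (6 * ψ)) := by ring
  rw [e] at h4
  exact h4.deriv

lemma fin_H_smooth (m : ℝ) {f : ℝ → ℝ} (hf : ContDiff ℝ ∞ f) : ContDiff ℝ ∞ (fin_H m f) := by
  unfold fin_H
  have h1 : ContDiff ℝ ∞ (fun ψ : ℝ => -Real.cos (3 * ψ)) := by fun_prop
  have h2 : ContDiff ℝ ∞ (fun ψ : ℝ => 1 + m * Real.cos (6 * ψ)) := by fun_prop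
  exact h2.add (hf.comp h1)

lemma fin_H_per (m : ℝ) (f : ℝ → ℝ) : Function.Periodic (fin_H m f) (2 * Real.pi / 3) := by
  intro ψ
  unfold fin_H
  have e1 : 6 * (ψ + 2 * Real.pi / 3) = 6 * ψ + 2 * Real.pi + 2 * Real.pi := by ring
  have e2 : 3 * (ψ + 2 * Real.pi / 3) = 3 * ψ + 2 * Real.pi := by ring
  rw [e1, e2, Real.cos_add_two_pi, Real.cos_add_two_pi, Real.cos_add_two_pi]

lemma fin_H_even (m : ℝ) (f : ℝ → ℝ) (ψ : ℝ) : fin_H m f (-ψ) = fin_H m f ψ := by
  unfold fin_H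
  rw [mul_neg, mul_neg, Real.cos_neg, Real.cos_neg]

lemma fin_per_deriv {F : ℝ → ℝ} {c : ℝ} (h : Function.Periodic F c) :
    Function.Periodic (deriv F) c := by
  intro x
  have e : (fun y => F (y + c)) = F := funext h
  rw [← deriv_comp_add_const, e]

lemma fin_per_three {F : ℝ → ℝ} (h : Function.Periodic F (2 * Real.pi / 3)) :
    Function.Periodic F (2 * Real.pi) := by
  have h3 := h.nat_mul 3
  have e : ((3 : ℕ) : ℝ) * (2 * Real.pi / 3) = 2 * Real.pi := by push_cast; ring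
  rwa [e] at h3

lemma fin_abs_mul_le {a b A : ℝ} (ha : |a| ≤ A) (hb : |b| ≤ 1) : |a * b| ≤ A := by
  rw [abs_mul]
  calc |a| * |b| ≤ A * 1 := mul_le_mul ha hb (abs_nonneg _) ((abs_nonneg _).trans ha)
    _ = A := mul_one A

lemma fin_H_bounds {m K : ℝ} {f : ℝ → ℝ} (hf : ContDiff ℝ ∞ f) (hm : |m| ≤ 1 / 10000)
    (hK : K ≤ 1 / 4000)
    (hb : ∀ c, |f c| ≤ K ∧ |deriv f c| ≤ K ∧ |deriv (deriv f) c| ≤ K) (x : ℝ) :
    |fin_H m f x - 1| ≤ 1 / 100 ∧ |deriv (fin_H m f) x| ≤ 1 / 100 ∧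
      |deriv (deriv (fin_H m f)) x| ≤ 1 / 100 := by
  have d1 : Differentiable ℝ f := hf.differentiable (by simp)
  have d2 : Differentiable ℝ (deriv f) := (hf.iterate_deriv 1).differentiable (by simp)
  obtain ⟨b0, b1, b2⟩ := hb (-Real.cos (3 * x))
  have a1 := abs_le.1 (fin_abs_mul_le hm (Real.abs_cos_le_one (6 * x)))
  have a2 := abs_le.1 (fin_abs_mul_le hm (Real.abs_sin_le_one (6 * x)))
  have a3 := abs_le.1 (fin_abs_mul_le b1 (Real.abs_sin_le_one (3 * x)))
  have a4 := abs_le.1 (fin_abs_mul_le b1 (Real.abs_cos_le_one (3 * x)))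
  have a5 := abs_le.1 (fin_abs_mul_le (fin_abs_mul_le b2 (Real.abs_sin_le_one (3 * x)))
    (Real.abs_sin_le_one (3 * x)))
  have a0 := abs_le.1 b0
  refine ⟨?_, ?_, ?_⟩
  · unfold fin_H
    rw [abs_le]
    constructor <;> linarith [a0.1, a0.2, a1.1, a1.2]
  · rw [fin_H_deriv m d1, abs_le]
    constructor <;> linarith [a2.1, a2.2, a3.1, a3.2]
  · rw [fin_H_deriv2 m d1 d2, abs_le]
    constructor <;> linarith [a1.1, a1.2, a4.1, a4.2, a5.1, a5.2]

/-- the mirror image of a caustic of a symmetric table -/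
lemma fin_mirror {H h : ℝ → ℝ} (hH : ∀ x, H (-x) = H x) (hc : IsCaustic H h) :
    IsCaustic H (fun θ => h (-θ)) := by
  have hd : ∀ x, deriv (fun θ => h (-θ)) x = -deriv h (-x) := fun x => deriv_comp_neg h x
  have hH' : ∀ x, deriv H (-x) = -deriv H x := by
    intro x
    have e : (fun θ => H (-θ)) = H := funext hH
    have := deriv_comp_neg H x
    rw [e] at this
    linarith
  refine ⟨hc.diff.comp differentiable_neg, fun x => ?_, fun x => hc.b0 _, fun x => ?_,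
    fun x y => ?_, fun ψ => ?_⟩
  · have := hc.per.sub_eq (-x)
    show h (-(x + 2 * Real.pi)) = h (-x)
    rw [← this]
    congr 1
    ring
  · rw [hd, abs_neg]
    exact hc.b1 _
  · rw [hd, hd]
    have h1 := hc.b2 (-y) (-x)
    have e1 : -deriv h (-x) - -deriv h (-y) = deriv h (-y) - deriv h (-x) := by ring
    have e2 : -y - -x = x - y := by ring
    rw [e2] at h1
    rw [e1]
    exact h1
  · obtain ⟨δ, d1, d2, e1, e2⟩ := hc.refl (-ψ)
    refine ⟨δ, d1, d2, ?_, ?_⟩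
    · have e : -(ψ - δ) = -ψ + δ := by ring
      show h (-(ψ - δ)) = _
      rw [e, e2, hH, hH']
      ring
    · have e : -(ψ + δ) = -ψ - δ := by ring
      show h (-(ψ + δ)) = _
      rw [e, e1, hH, hH']
      ring

/-- support function of the first caustic -/
noncomputable def fin_h (m s : ℝ) (R : ℝ → ℝ) (θ : ℝ) : ℝ :=
  (1 + m) / 2 + s * Real.sin (3 * θ) + R θ

lemma fin_h_hasDeriv (m s : ℝ) {R : ℝ → ℝ} (hR : Differentiable ℝ R) (θ : ℝ) :
    HasDerivAt (fin_h m s R) (s * (3 * Real.cos (3 * θ)) + deriv R θ) θ :=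
  (((fin_sin 3 θ).const_mul s).const_add ((1 + m) / 2)).add (hR θ).hasDerivAt

lemma fin_h_per (m s : ℝ) {R : ℝ → ℝ} (hR : Function.Periodic R (2 * Real.pi / 3)) :
    Function.Periodic (fin_h m s R) (2 * Real.pi / 3) := by
  intro θ
  unfold fin_h
  have e2 : 3 * (θ + 2 * Real.pi / 3) = 3 * θ + 2 * Real.pi := by ring
  rw [e2, Real.sin_add_two_pi, hR]

lemma fin_thR_atBot : Filter.Tendsto thR Filter.atBot (nhds 0) := by
  have h1 : Filter.Tendsto (fun x => Real.arctan (Real.exp x)) Filter.atBot (nhds (Real.arctan 0)) :=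
    (Real.continuous_arctan.tendsto 0).comp Real.tendsto_exp_atBot
  have h2 := h1.const_mul (2 / 3 : ℝ)
  rw [Real.arctan_zero, mul_zero] at h2
  exact h2

lemma fin_thR_atTop : Filter.Tendsto thR Filter.atTop (nhds (Real.pi / 3)) := by
  have h1 : Filter.Tendsto (fun x => Real.arctan (Real.exp x)) Filter.atTop (nhds (Real.pi / 2)) :=
    (Real.tendsto_arctan_atTop.mono_right nhdsWithin_le_nhds).comp Real.tendsto_exp_atTop
  have h2 := h1.const_mul (2 / 3 : ℝ)
  have e : (2 / 3 : ℝ) * (Real.pi / 2) = Real.pi / 3 := by ring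
  rw [e] at h2
  exact h2

lemma fin_thR_cont : Continuous thR := by
  unfold thR
  exact continuous_const.mul (Real.continuous_arctan.comp Real.continuous_exp)

lemma fin_ivt {g : ℝ → ℝ} (hg : Continuous g) (hb : ∀ t, |g t - t| ≤ 1 / 10) (l p : ℝ)
    (h0 : 0 < p) (h1 : p < Real.pi / 3) : ∃ t, (thR (g t) + thR (g (t + l))) / 2 = p := by
  have g1 : Filter.Tendsto g Filter.atBot Filter.atBot :=
    Filter.tendsto_atBot_mono (fun t => by
        have := (abs_le.1 (hb t)).2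
        show g t ≤ id t + 1 / 10
        simp only [id]
        linarith)
      (Filter.tendsto_atBot_add_const_right _ (1 / 10) Filter.tendsto_id)
  have g2 : Filter.Tendsto g Filter.atTop Filter.atTop :=
    Filter.tendsto_atTop_mono (fun t => by
        have := (abs_le.1 (hb t)).1
        show id t + -(1 / 10) ≤ g t
        simp only [id]
        linarith)
      (Filter.tendsto_atTop_add_const_right _ (-(1 / 10)) Filter.tendsto_id)
  have s1 : Filter.Tendsto (fun t : ℝ => t + l) Filter.atBot Filter.atBot :=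
    Filter.tendsto_atBot_add_const_right _ l Filter.tendsto_id
  have s2 : Filter.Tendsto (fun t : ℝ => t + l) Filter.atTop Filter.atTop :=
    Filter.tendsto_atTop_add_const_right _ l Filter.tendsto_id
  have t1 := ((fin_thR_atBot.comp g1).add ((fin_thR_atBot.comp g1).comp s1)).div_const 2
  have t2 := ((fin_thR_atTop.comp g2).add ((fin_thR_atTop.comp g2).comp s2)).div_const 2
  have hc : Continuous (fun t => (thR (g t) + thR (g (t + l))) / 2) :=
    ((fin_thR_cont.comp hg).add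
      (fin_thR_cont.comp (hg.comp (continuous_id.add continuous_const)))).div_const 2
  have key := isPreconnected_univ.intermediate_value_Ioo (l₁ := Filter.atBot) (l₂ := Filter.atTop)
    (by simp) (by simp) hc.continuousOn t1 t2
  obtain ⟨t, -, ht⟩ := key (show p ∈ Set.Ioo ((0 + 0) / 2) ((Real.pi / 3 + Real.pi / 3) / 2) from
    ⟨by linarith, by linarith⟩)
  exact ⟨t, ht⟩

/-- value of the table support function in the strip coordinate -/
noncomputable def fin_A (m : ℝ) (U : ℂ → ℂ) (p : ℝ) : ℝ :=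
  1 + m * Real.cos (6 * p) + (U (tauC (Real.cos (3 * p)) : ℝ)).re

/-- value of its derivative -/
noncomputable def fin_B (m : ℝ) (U : ℂ → ℂ) (p : ℝ) : ℝ :=
  -(6 * m * Real.sin (6 * p)) +
    (deriv U (tauC (Real.cos (3 * p)) : ℝ)).re * (3 / Real.sin (3 * p))

lemma fin_G (e m : ℝ) (he : e * e = 1) (U : ℂ → ℂ) (a b p δ : ℝ) (hp : (thR a + thR b) / 2 = p)
    (hδ : δ = Real.pi / 3 + e * (thR b - thR a) / 2) :
    (-(e : ℂ) * (g0 e m (Th a) (Th b - Th a) + gU e U a b)).re =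
      fin_A m U p * Real.cos δ - e * fin_B m U p * Real.sin δ := by
  have ha := thR_mem a
  have hb := thR_mem b
  have hL := Lam_ofReal p (by linarith [ha.1, hb.1]) (by linarith [ha.2, hb.2])
  have e1 : psi a b = (p : ℝ) := by
    unfold psi
    rw [Th_ofReal, Th_ofReal, ← hp]
    push_cast
    rfl
  have e2 : del e a b = (δ : ℝ) := by
    unfold del
    rw [Th_ofReal, Th_ofReal, hδ]
    push_cast
    rfl
  have e3 : mid a b = (tauC (Real.cos (3 * p)) : ℝ) := by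
    rw [← hL, ← e1]
    rfl
  have e4 : Th a + (Th b - Th a) / 2 = (p : ℝ) := by
    rw [← e1]
    unfold psi
    ring
  have e5 : (Real.pi : ℂ) / 3 + e * (Th b - Th a) / 2 = (δ : ℝ) := by
    rw [← e2]
    rfl
  have e6 : g0 e m (Th a) (Th b - Th a) = ((-6 * m * Real.sin (6 * p) * Real.sin δ -
      e * (1 + m * Real.cos (6 * p)) * Real.cos δ : ℝ) : ℂ) := by
    unfold g0
    rw [e4, e5]
    push_cast
    rfl
  have e7 : gU e U a b =
      ((3 / Real.sin (3 * p) * Real.sin δ : ℝ) : ℂ) * deriv U (tauC (Real.cos (3 * p)) : ℝ) -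
        ((e * Real.cos δ : ℝ) : ℂ) * U (tauC (Real.cos (3 * p)) : ℝ) := by
    unfold gU
    rw [e1, e2, e3]
    push_cast
    ring
  rw [e6, e7, ← ofReal_neg, re_ofReal_mul, add_re, sub_re, re_ofReal_mul, re_ofReal_mul, ofReal_re]
  unfold fin_A fin_B
  linear_combination
    ((1 + m * Real.cos (6 * p) + (U (tauC (Real.cos (3 * p)) : ℝ)).re) * Real.cos δ) * he

lemma fin_HA (e m : ℝ) (he : e = 1 ∨ e = -1) {U : ℂ → ℂ} (hd : Differentiable ℝ (flatExt U))
    (hf : ∀ c : ℝ, |c| < 1 → deriv (flatExt U) c = -(deriv U (tauC c : ℝ)).re / (1 - c ^ 2))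
    {p : ℝ} (h0 : 0 < p) (h1 : p < Real.pi / 3) :
    fin_H m (flatExt U) (Real.pi / 3 + e * p) = fin_A m U p ∧
      deriv (fin_H m (flatExt U)) (Real.pi / 3 + e * p) = e * fin_B m U p := by
  have hs : 0 < Real.sin (3 * p) := Real.sin_pos_of_pos_of_lt_pi (by linarith) (by linarith)
  have hsq : 1 - Real.cos (3 * p) ^ 2 = Real.sin (3 * p) ^ 2 := by
    linarith [Real.sin_sq_add_cos_sq (3 * p)]
  have hc : |Real.cos (3 * p)| < 1 := by
    rw [← sq_lt_one_iff_abs_lt_one]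
    nlinarith
  have e1 : 6 * (Real.pi / 3 + e * p) = e * (6 * p) + 2 * Real.pi := by ring
  have e2 : 3 * (Real.pi / 3 + e * p) = e * (3 * p) + Real.pi := by ring
  have c : ∀ x, Real.cos (e * x) = Real.cos x := by
    intro x
    rcases he with rfl | rfl <;> simp
  have s : ∀ x, Real.sin (e * x) = e * Real.sin x := by
    intro x
    rcases he with rfl | rfl <;> simp
  constructor
  · unfold fin_H fin_A flatExt
    rw [e1, e2, Real.cos_add_two_pi, Real.cos_add_pi, neg_neg, c, c, if_pos hc]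
  · rw [fin_H_deriv m hd]
    show -(6 * m * Real.sin (6 * (Real.pi / 3 + e * p))) +
      deriv (flatExt U) (-Real.cos (3 * (Real.pi / 3 + e * p))) *
        (3 * Real.sin (3 * (Real.pi / 3 + e * p))) = _
    rw [e1, e2, Real.sin_add_two_pi, Real.cos_add_pi, Real.sin_add_pi, neg_neg, c, s, s, hf _ hc,
      hsq]
    unfold fin_B
    field_simp

lemma fin_val (e l : ℝ) (he : e = 1 ∨ e = -1) (U : ℂ → ℂ) (R : ℝ → ℝ) (a b : ℝ)
    (hR : R (e * thR a) = (rr e l U a b).re) :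
    fin_h (fin_m l) (fin_s l) R (e * thR a) =
      (-(e : ℂ) * (g0 e (fin_m l) (Th a) (Th b - Th a) + gU e U a b)).re := by
  have s : ∀ x, Real.sin (3 * (e * x)) = e * Real.sin (3 * x) := by
    intro x
    rcases he with rfl | rfl <;> simp
  have h1 : Real.sin (3 * thR a) = 1 / Real.cosh a := by
    have h := sin_three_Th (ofReal_mem_St (by norm_num : (0 : ℝ) < 3 / 2) a)
    rw [Th_ofReal] at h
    exact_mod_cast h
  have h2 : (1 + mu l) / 2 = (((1 + fin_m l) / 2 : ℝ) : ℂ) := by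
    rw [fin_mu_eq]
    push_cast
    rfl
  have h3 : (e : ℂ) * sig l / cosh a = ((e * fin_s l / Real.cosh a : ℝ) : ℂ) := by
    rw [fin_sig_eq]
    push_cast
    rfl
  unfold fin_h
  rw [hR, s, h1]
  unfold rr
  rw [h2, h3, sub_re, sub_re, ofReal_re, ofReal_re, fin_mu_eq]
  ring

lemma fin_branch (e l κ : ℝ) (he : e = 1 ∨ e = -1) (hl0 : 0 < l) (hl : l ≤ 1 / 20)
    {U T r : ℂ → ℂ} {R : ℝ → ℝ}
    (hd : Differentiable ℝ (flatExt U))
    (hf : ∀ c : ℝ, |c| < 1 → deriv (flatExt U) c = -(deriv U (tauC c : ℝ)).re / (1 - c ^ 2))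
    (hB : Branch (1 / 32) κ T r) (hper : Function.Periodic R (2 * Real.pi / 3))
    (hR : ∀ x : ℝ, R (e * thR (T x).re) = (rr e l U (T x) (T (x + l))).re)
    (hEL : ∀ t : ℝ, J0 e (mu l) (T (t - l)) (T t) + JU e U (T (t - l)) (T t) =
      I0 e (mu l) (T t) (T (t + l)) + IU e U (T t) (T (t + l)))
    {p : ℝ} (h0 : 0 < p) (h1 : p < Real.pi / 3) :
    ∃ δ, Real.pi / 4 ≤ δ ∧ δ ≤ 5 * Real.pi / 12 ∧
      fin_h (fin_m l) (fin_s l) R (Real.pi / 3 + e * p - δ) =
        fin_H (fin_m l) (flatExt U) (Real.pi / 3 + e * p) * Real.cos δ -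
          deriv (fin_H (fin_m l) (flatExt U)) (Real.pi / 3 + e * p) * Real.sin δ ∧
      fin_h (fin_m l) (fin_s l) R (Real.pi / 3 + e * p + δ) =
        fin_H (fin_m l) (flatExt U) (Real.pi / 3 + e * p) * Real.cos δ +
          deriv (fin_H (fin_m l) (flatExt U)) (Real.pi / 3 + e * p) * Real.sin δ := by
  have hee : e * e = 1 := by rcases he with rfl | rfl <;> norm_num
  obtain ⟨g, hg⟩ : ∃ g : ℝ → ℝ, g = fun x : ℝ => (T x).re := ⟨_, rfl⟩
  have hT : ∀ x : ℝ, T x = (g x : ℝ) := by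
    intro x
    apply Complex.ext
    · rw [hg, ofReal_re]
    · rw [ofReal_im]
      exact hB.reT x
  have hgc : Continuous g := by
    rw [hg, continuous_iff_continuousAt]
    intro x
    have h := (diffAt_of_St hB.dT (ofReal_mem_St (by norm_num) x)).continuousAt
    exact continuous_re.continuousAt.comp (h.comp (f := fun x : ℝ => (x : ℂ))
      continuous_ofReal.continuousAt)
  have hgb : ∀ t, |g t - t| ≤ 1 / 10 := by
    intro t
    have h := hB.bT t (ofReal_mem_St (by norm_num) t)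
    rw [hT, ← ofReal_sub, norm_real, Real.norm_eq_abs] at h
    exact h
  obtain ⟨t, ht⟩ := fin_ivt hgc hgb l p h0 h1
  have hT1 : T (t + l) = (g (t + l) : ℝ) := by rw [← hT, ofReal_add]
  have hT2 : T (((t + l : ℝ) : ℂ) + l) = (g (t + l + l) : ℝ) := by rw [← hT, ofReal_add (t + l) l]
  have hT0 : T (((t + l : ℝ) : ℂ) - l) = (g t : ℝ) := by
    rw [← hT]
    congr 1
    push_cast
    ring
  have r1 := hR t
  rw [hT1, hT t, ofReal_re] at r1
  have r2 := hR (t + l)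
  rw [hT2, hT (t + l), ofReal_re] at r2
  have el := hEL (t + l)
  rw [hT0, hT2, hT (t + l), fin_mu_eq] at el
  obtain ⟨a, ha⟩ : ∃ a, a = g t := ⟨_, rfl⟩
  obtain ⟨b, hb⟩ : ∃ b, b = g (t + l) := ⟨_, rfl⟩
  obtain ⟨c, hc⟩ : ∃ c, c = g (t + l + l) := ⟨_, rfl⟩
  have hab : |b - a| ≤ 1 / 4 := by
    have u1 := abs_le.1 (hgb t)
    have u2 := abs_le.1 (hgb (t + l))
    rw [ha, hb, abs_le]
    constructor <;> linarith [u1.1, u1.2, u2.1, u2.2]
  rw [← ha, ← hb] at r1 ht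
  rw [← hb, ← hc] at r2
  rw [← ha, ← hb, ← hc] at el
  have hth : |thR b - thR a| ≤ 1 / 2 := by
    have n : ‖(b : ℂ) - a‖ = |b - a| := by rw [← ofReal_sub, norm_real, Real.norm_eq_abs]
    have h := norm_Th_sub_le (x := a) (y := b) (ofReal_mem_St (by norm_num) a)
      (ofReal_mem_St (by norm_num) b) (by rw [n]; linarith)
    rw [Th_ofReal, Th_ofReal, ← ofReal_sub, norm_real, Real.norm_eq_abs, n, ofReal_re] at h
    have := w_le_one a
    have := w_nonneg a
    have := abs_nonneg (b - a)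
    nlinarith
  have heth : |e * (thR b - thR a)| ≤ 1 / 2 := by
    rcases he with rfl | rfl
    · rwa [one_mul]
    · rwa [neg_one_mul, abs_neg]
  have hpi := Real.pi_gt_three
  obtain ⟨v1, v2⟩ := fin_HA e (fin_m l) he hd hf h0 h1
  have ne : Thp b ≠ 0 := Thp_ne_zero (ofReal_mem_St (by norm_num) b)
  have el2 : g0 (-e) (fin_m l) (Th b) (Th a - Th b) + gU (-e) U b a =
      -(g0 e (fin_m l) (Th b) (Th c - Th b) + gU e U b c) := by
    apply mul_left_cancel₀ ne
    unfold J0 JU I0 IU at el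
    linear_combination el
  refine ⟨Real.pi / 3 + e * (thR b - thR a) / 2, by linarith [(abs_le.1 heth).1],
    by linarith [(abs_le.1 heth).2], ?_, ?_⟩
  · have e1 : Real.pi / 3 + e * p - (Real.pi / 3 + e * (thR b - thR a) / 2) = e * thR a := by
      rw [← ht]
      ring
    rw [e1, fin_val e l he U R a b r1, fin_G e (fin_m l) hee U a b p _ ht rfl, v1, v2]
  · have e1 : Real.pi / 3 + e * p + (Real.pi / 3 + e * (thR b - thR a) / 2) =
        e * thR b + 2 * Real.pi / 3 := by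
      rw [← ht]
      ring
    have k := fin_G (-e) (fin_m l) (by linarith) U b a p (Real.pi / 3 + e * (thR b - thR a) / 2)
      (by linarith) (by ring)
    rw [ofReal_neg, el2] at k
    have e2 : -(e : ℂ) * (g0 e (fin_m l) (Th b) (Th c - Th b) + gU e U b c) =
        - -(e : ℂ) * -(g0 e (fin_m l) (Th b) (Th c - Th b) + gU e U b c) := by ring
    rw [e1, fin_h_per _ _ hper, fin_val e l he U R b c r2, e2, k, v1, v2]
    ring

theorem final_geo : ∃ ε : ℝ, 0 < ε ∧ ∀ (l κ : ℝ) (U T₁ T₂ : ℂ → ℂ), 0 < l → l ≤ ε → κ ≤ ε →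
    DifferentiableOn ℂ U (St (1 / 32)) → IsRe U →
    (∀ j : ℕ, ∃ D : ℝ, ∀ τ ∈ St (1 / 32), ‖U τ‖ ≤ D * w τ.re ^ j) →
    (∀ τ ∈ St (1 / 32), ‖U τ‖ ≤ κ * w τ.re ^ 4) →
    Branch (1 / 32) κ T₁ (fun τ => rr 1 l U (T₁ τ) (T₁ (τ + l))) →
    Branch (1 / 32) κ T₂ (fun τ => rr (-1) l U (T₂ τ) (T₂ (τ + l))) →
    (∀ t : ℝ, J0 1 (mu l) (T₁ (t - l)) (T₁ t) + JU 1 U (T₁ (t - l)) (T₁ t) =
      I0 1 (mu l) (T₁ t) (T₁ (t + l)) + IU 1 U (T₁ t) (T₁ (t + l))) →
    (∀ t : ℝ, J0 (-1) (mu l) (T₂ (t - l)) (T₂ t) + JU (-1) U (T₂ (t - l)) (T₂ t) =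
      I0 (-1) (mu l) (T₂ t) (T₂ (t + l)) + IU (-1) U (T₂ t) (T₂ (t + l))) →
    Goal := by
  obtain ⟨C, hC, hfb⟩ := flat_bounds (1 / 32) (by norm_num)
  obtain ⟨C', hC', hext⟩ := ext_main (1 / 32) (by norm_num) (by norm_num)
  refine ⟨1 / (4000 * (C + C' + 1)), by positivity,
    fun l κ U T₁ T₂ hl0 hl hκ hU _ hflat hb B₁ B₂ E₁ E₂ => ?_⟩
  have hκ0 : 0 ≤ κ := flat_K_nonneg (by norm_num) hb
  rw [le_div_iff₀ (by positivity)] at hl hκ
  have hl1 : l ≤ 1 / 4000 := by nlinarith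
  have hk1 : C * κ ≤ 1 / 4000 := by nlinarith
  have hk2 : C' * κ ≤ 1 / 4000 := by nlinarith
  obtain ⟨sm, hf, -⟩ := flat_smooth (1 / 32) (by norm_num) U hU hflat
  have hd : Differentiable ℝ (flatExt U) := sm.differentiable (by simp)
  obtain ⟨m0, m1, -⟩ := fin_m_bounds hl0 (by linarith)
  obtain ⟨s1, s2⟩ := fin_s_bounds hl0 (by linarith)
  have hm : |fin_m l| ≤ 1 / 10000 := by
    rw [abs_of_nonneg m0]
    linarith
  have HB := fin_H_bounds sm hm hk1 (hfb U κ hU hflat hb)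
  obtain ⟨R, Rd, Rp, R0, R1, R2, Rz, Rt, Rd0, V₁, V₂⟩ := hext κ _ _ _ _ B₁ B₂
  have hder : ∀ θ, deriv (fin_h (fin_m l) (fin_s l) R) θ =
      fin_s l * (3 * Real.cos (3 * θ)) + deriv R θ :=
    fun θ => (fin_h_hasDeriv _ _ Rd θ).deriv
  have hp := fin_h_per (fin_m l) (fin_s l) Rp
  have Hp := fin_H_per (fin_m l) (flatExt U)
  have Hp' := fin_per_deriv Hp
  have hpi := Real.pi_gt_three
  have flat1 : ∀ c : ℝ, |c| = 1 → flatExt U c = 0 := by
    intro c hc
    unfold flatExt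
    rw [if_neg (by rw [hc]; exact lt_irrefl 1)]
  have base : ∀ x : ℝ, -(Real.pi / 3) < x → x ≤ Real.pi / 3 →
      ∃ δ, Real.pi / 4 ≤ δ ∧ δ ≤ 5 * Real.pi / 12 ∧
      fin_h (fin_m l) (fin_s l) R (Real.pi / 3 + x - δ) =
        fin_H (fin_m l) (flatExt U) (Real.pi / 3 + x) * Real.cos δ -
          deriv (fin_H (fin_m l) (flatExt U)) (Real.pi / 3 + x) * Real.sin δ ∧
      fin_h (fin_m l) (fin_s l) R (Real.pi / 3 + x + δ) =
        fin_H (fin_m l) (flatExt U) (Real.pi / 3 + x) * Real.cos δ +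
          deriv (fin_H (fin_m l) (flatExt U)) (Real.pi / 3 + x) * Real.sin δ := by
    intro x x1 x2
    rcases lt_trichotomy x 0 with hx | hx | hx
    · have h := fin_branch (-1) l κ (Or.inr rfl) hl0 (by linarith) hd hf B₂ Rp
        (fun x => by rw [neg_one_mul, V₂]; push_cast; rfl)
        (fun t => by push_cast; exact E₂ t) (p := -x) (by linarith) (by linarith)
      rwa [neg_one_mul, neg_neg] at h
    · have v0 : fin_h (fin_m l) (fin_s l) R 0 = (1 + fin_m l) / 2 := by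
        unfold fin_h
        rw [Rz]
        simp
      have e1 : 6 * (Real.pi / 3) = 2 * Real.pi := by ring
      have e2 : 3 * (Real.pi / 3) = Real.pi := by ring
      have v1 : fin_H (fin_m l) (flatExt U) (Real.pi / 3) = 1 + fin_m l := by
        unfold fin_H
        rw [e1, e2, Real.cos_two_pi, Real.cos_pi, flat1 _ (by simp)]
        ring
      have v2 : deriv (fin_H (fin_m l) (flatExt U)) (Real.pi / 3) = 0 := by
        rw [(fin_H_hasDeriv _ hd _).deriv, e1, e2, Real.sin_two_pi, Real.sin_pi]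
        ring
      refine ⟨Real.pi / 3, by linarith, by linarith, ?_, ?_⟩
      · rw [hx, add_zero, sub_self, v0, v1, v2, Real.cos_pi_div_three]
        ring
      · have e3 : Real.pi / 3 + Real.pi / 3 = 0 + 2 * Real.pi / 3 := by ring
        rw [hx, add_zero, e3, hp, v0, v1, v2, Real.cos_pi_div_three]
        ring
    · rcases lt_or_eq_of_le x2 with hx2 | hx2
      · have h := fin_branch 1 l κ (Or.inl rfl) hl0 (by linarith) hd hf B₁ Rp
          (fun x => by rw [one_mul, V₁]; push_cast; rfl)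
          (fun t => by push_cast; exact E₁ t) (p := x) hx hx2
        rwa [one_mul] at h
      · have e2 : 3 * (Real.pi / 3) = Real.pi := by ring
        have v0 : fin_h (fin_m l) (fin_s l) R (Real.pi / 3) = (1 + fin_m l) / 2 := by
          unfold fin_h
          rw [Rt, e2, Real.sin_pi]
          ring
        have e3 : Real.pi / 3 + Real.pi / 3 = 0 + 2 * Real.pi / 3 := by ring
        have v1 : fin_H (fin_m l) (flatExt U) (Real.pi / 3 + Real.pi / 3) = 1 + fin_m l := by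
          rw [e3, Hp]
          unfold fin_H
          rw [mul_zero, mul_zero, Real.cos_zero, flat1 _ (by simp)]
          ring
        have v2 : deriv (fin_H (fin_m l) (flatExt U)) (Real.pi / 3 + Real.pi / 3) = 0 := by
          rw [e3, Hp', (fin_H_hasDeriv _ hd _).deriv]
          simp
        refine ⟨Real.pi / 3, by linarith, by linarith, ?_, ?_⟩
        · rw [hx2, add_sub_cancel_right, v0, v1, v2, Real.cos_pi_div_three]
          ring
        · have e4 : Real.pi / 3 + Real.pi / 3 + Real.pi / 3 = Real.pi / 3 + 2 * Real.pi / 3 := by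
            ring
          rw [hx2, e4, hp, v0, v1, v2, Real.cos_pi_div_three]
          ring
  have c1 : IsCaustic (fin_H (fin_m l) (flatExt U)) (fin_h (fin_m l) (fin_s l) R) := by
    refine ⟨fun θ => (fin_h_hasDeriv _ _ Rd θ).differentiableAt, fin_per_three hp, fun x => ?_,
      fun x => ?_, fun x y => ?_, fun ψ => ?_⟩
    · have a1 := abs_le.1 (fin_abs_mul_le s2 (Real.abs_sin_le_one (3 * x)))
      have a2 := abs_le.1 (R0 x)
      unfold fin_h
      rw [abs_le]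
      constructor <;> linarith [a1.1, a1.2, a2.1, a2.2]
    · have a1 := abs_le.1 (fin_abs_mul_le s2 (Real.abs_cos_le_one (3 * x)))
      have a2 := abs_le.1 (R1 x)
      rw [hder, abs_le]
      constructor <;> linarith [a1.1, a1.2, a2.1, a2.2]
    · have a1 : |Real.cos (3 * x) - Real.cos (3 * y)| ≤ 3 * |x - y| := by
        have h := Real.abs_cos_sub_cos_le (3 * x) (3 * y)
        rw [← mul_sub, abs_mul, abs_of_pos (by norm_num : (0 : ℝ) < 3)] at h
        exact h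
      have a2 := R2 x y
      have a3 : |fin_s l * (Real.cos (3 * x) - Real.cos (3 * y))| ≤ l * (3 * |x - y|) := by
        rw [abs_mul]
        exact mul_le_mul s2 a1 (abs_nonneg _) hl0.le
      have a4 := abs_nonneg (x - y)
      have a5 : C' * κ * |x - y| ≤ 1 / 4000 * |x - y| := mul_le_mul_of_nonneg_right hk2 a4
      have a6 : l * |x - y| ≤ 1 / 4000 * |x - y| := mul_le_mul_of_nonneg_right hl1 a4
      have b2 := abs_le.1 a2
      have b3 := abs_le.1 a3
      rw [hder, hder, abs_le]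
      constructor <;> linarith [b2.1, b2.2, b3.1, b3.2]
    · have hc : (0 : ℝ) < 2 * Real.pi / 3 := by linarith
      have hmem := toIocMod_mem_Ioc hc 0 ψ
      have hz := toIocMod_add_toIocDiv_zsmul hc 0 ψ
      obtain ⟨y, hy⟩ : ∃ y, y = toIocMod hc 0 ψ := ⟨_, rfl⟩
      obtain ⟨k, hk⟩ : ∃ k, k = toIocDiv hc 0 ψ := ⟨_, rfl⟩
      rw [← hy] at hmem
      rw [← hy, ← hk] at hz
      obtain ⟨δ, d1, d2, q1, q2⟩ := base (y - Real.pi / 3) (by linarith [hmem.1])
        (by linarith [hmem.2])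
      have e0 : Real.pi / 3 + (y - Real.pi / 3) = y := by ring
      rw [e0] at q1 q2
      refine ⟨δ, d1, d2, ?_, ?_⟩
      · have e1 : ψ - δ = y - δ + k • (2 * Real.pi / 3) := by rw [← hz]; ring
        rw [e1, hp.zsmul k, q1, ← hz, Hp.zsmul k, Hp'.zsmul k]
      · have e1 : ψ + δ = y + δ + k • (2 * Real.pi / 3) := by rw [← hz]; ring
        rw [e1, hp.zsmul k, q2, ← hz, Hp.zsmul k, Hp'.zsmul k]
  have c2 := fin_mirror (fin_H_even (fin_m l) (flatExt U)) c1
  refine geo_main _ _ _ (fin_H_smooth _ sm) (fin_per_three Hp) (fun x => (HB x).1)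
    (fun x => (HB x).2.1) (fun x => (HB x).2.2) c1 c2 (fun h => ?_) ⟨0, by rw [neg_zero]⟩
  have h1 := deriv_comp_neg (fin_h (fin_m l) (fin_s l) R) 0
  rw [← h, neg_zero, hder, Rd0, mul_zero, Real.cos_zero] at h1
  linarith

end Pool.Agent.MP_be9872_an

end
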