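import Pool.Agent.MP_be9872_an.Mg.Iter
import Pool.Agent.MP_be9872_an.Mg.Fin

-- part MP_be9872_an.HedgeData
section

/-! The support functions of the table and of its two mirror-symmetric caustics. -/

set_option autoImplicit false
open Complex
open scoped ContDiff

namespace Pool.Agent.MP_be9872_an

/-- A smooth support function close to the unit circle with two different caustics that are
mirror images of each other. -/
def HgData : Prop :=
  ∃ H h : ℝ → ℝ, ContDiff ℝ ∞ H ∧ Function.Periodic H (2 * Real.pi) ∧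
    (∀ x, |H x - 1| ≤ 1 / 100) ∧ (∀ x, |deriv H x| ≤ 1 / 100) ∧
    (∀ x, |deriv (deriv H) x| ≤ 1 / 100) ∧ IsCaustic H h ∧ IsCaustic H (fun θ => h (-θ)) ∧
    h ≠ fun θ => h (-θ)

theorem hg_final : ∃ ε : ℝ, 0 < ε ∧ ∀ (l κ : ℝ) (U T₁ T₂ : ℂ → ℂ), 0 < l → l ≤ ε → κ ≤ ε →
    DifferentiableOn ℂ U (St (1 / 32)) → IsRe U →
    (∀ j : ℕ, ∃ D : ℝ, ∀ τ ∈ St (1 / 32), ‖U τ‖ ≤ D * w τ.re ^ j) →
    (∀ τ ∈ St (1 / 32), ‖U τ‖ ≤ κ * w τ.re ^ 4) →
    Branch (1 / 32) κ T₁ (fun τ => rr 1 l U (T₁ τ) (T₁ (τ + l))) →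
    Branch (1 / 32) κ T₂ (fun τ => rr (-1) l U (T₂ τ) (T₂ (τ + l))) →
    (∀ t : ℝ, J0 1 (mu l) (T₁ (t - l)) (T₁ t) + JU 1 U (T₁ (t - l)) (T₁ t) =
      I0 1 (mu l) (T₁ t) (T₁ (t + l)) + IU 1 U (T₁ t) (T₁ (t + l))) →
    (∀ t : ℝ, J0 (-1) (mu l) (T₂ (t - l)) (T₂ t) + JU (-1) U (T₂ (t - l)) (T₂ t) =
      I0 (-1) (mu l) (T₂ t) (T₂ (t + l)) + IU (-1) U (T₂ t) (T₂ (t + l))) →
    HgData := by
  obtain ⟨C, hC, hfb⟩ := flat_bounds (1 / 32) (by norm_num)
  obtain ⟨C', hC', hext⟩ := ext_main (1 / 32) (by norm_num) (by norm_num)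
  refine ⟨1 / (4000 * (C + C' + 1)), by positivity,
    fun l κ U T₁ T₂ hl0 hl hκ hU _ hflat hb B₁ B₂ E₁ E₂ => ?_⟩
  have hκ0 : 0 ≤ κ := flat_K_nonneg (by norm_num) hb
  rw [le_div_iff₀ (by positivity)] at hl hκ
  have hl1 : l ≤ 1 / 4000 := by nlinarith
  have hk1 : C * κ ≤ 1 / 4000 := by nlinarith
  have hk2 : C' * κ ≤ 1 / 4000 := by nlinarith
  obtain ⟨sm, hf, -⟩ := flat_smooth (1 / 32) (by norm_num) U hU hflat
  have hd : Differentiable ℝ (flatExt U) := sm.differentiable (by simp)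
  obtain ⟨m0, m1, -⟩ := fin_m_bounds hl0 (by linarith)
  obtain ⟨s1, s2⟩ := fin_s_bounds hl0 (by linarith)
  have hm : |fin_m l| ≤ 1 / 10000 := by
    rw [abs_of_nonneg m0]
    linarith
  have HB := fin_H_bounds sm hm hk1 (hfb U κ hU hflat hb)
  obtain ⟨R, Rd, Rp, R0, R1, R2, Rz, Rt, Rd0, V₁, V₂⟩ := hext κ _ _ _ _ B₁ B₂
  have hder : ∀ θ, deriv (fin_h (fin_m l) (fin_s l) R) θ =
      fin_s l * (3 * Real.cos (3 * θ)) + deriv R θ :=
    fun θ => (fin_h_hasDeriv _ _ Rd θ).deriv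
  have hp := fin_h_per (fin_m l) (fin_s l) Rp
  have Hp := fin_H_per (fin_m l) (flatExt U)
  have Hp' := fin_per_deriv Hp
  have hpi := Real.pi_gt_three
  have flat1 : ∀ c : ℝ, |c| = 1 → flatExt U c = 0 := by
    intro c hc
    unfold flatExt
    rw [if_neg (by rw [hc]; exact lt_irrefl 1)]
  have base : ∀ x : ℝ, -(Real.pi / 3) < x → x ≤ Real.pi / 3 →
      ∃ δ, Real.pi / 4 ≤ δ ∧ δ ≤ 5 * Real.pi / 12 ∧
      fin_h (fin_m l) (fin_s l) R (Real.pi / 3 + x - δ) =
        fin_H (fin_m l) (flatExt U) (Real.pi / 3 + x) * Real.cos δ -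
          deriv (fin_H (fin_m l) (flatExt U)) (Real.pi / 3 + x) * Real.sin δ ∧
      fin_h (fin_m l) (fin_s l) R (Real.pi / 3 + x + δ) =
        fin_H (fin_m l) (flatExt U) (Real.pi / 3 + x) * Real.cos δ +
          deriv (fin_H (fin_m l) (flatExt U)) (Real.pi / 3 + x) * Real.sin δ := by
    intro x x1 x2
    rcases lt_trichotomy x 0 with hx | hx | hx
    · have h := fin_branch (-1) l κ (Or.inr rfl) hl0 (by linarith) hd hf B₂ Rp
        (fun x => by rw [neg_one_mul, V₂]; push_cast; rfl)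
        (fun t => by push_cast; exact E₂ t) (p := -x) (by linarith) (by linarith)
      rwa [neg_one_mul, neg_neg] at h
    · have v0 : fin_h (fin_m l) (fin_s l) R 0 = (1 + fin_m l) / 2 := by
        unfold fin_h
        rw [Rz]
        simp
      have e1 : 6 * (Real.pi / 3) = 2 * Real.pi := by ring
      have e2 : 3 * (Real.pi / 3) = Real.pi := by ring
      have v1 : fin_H (fin_m l) (flatExt U) (Real.pi / 3) = 1 + fin_m l := by
        unfold fin_H
        rw [e1, e2, Real.cos_two_pi, Real.cos_pi, flat1 _ (by simp)]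
        ring
      have v2 : deriv (fin_H (fin_m l) (flatExt U)) (Real.pi / 3) = 0 := by
        rw [(fin_H_hasDeriv _ hd _).deriv, e1, e2, Real.sin_two_pi, Real.sin_pi]
        ring
      refine ⟨Real.pi / 3, by linarith, by linarith, ?_, ?_⟩
      · rw [hx, add_zero, sub_self, v0, v1, v2, Real.cos_pi_div_three]
        ring
      · have e3 : Real.pi / 3 + Real.pi / 3 = 0 + 2 * Real.pi / 3 := by ring
        rw [hx, add_zero, e3, hp, v0, v1, v2, Real.cos_pi_div_three]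
        ring
    · rcases lt_or_eq_of_le x2 with hx2 | hx2
      · have h := fin_branch 1 l κ (Or.inl rfl) hl0 (by linarith) hd hf B₁ Rp
          (fun x => by rw [one_mul, V₁]; push_cast; rfl)
          (fun t => by push_cast; exact E₁ t) (p := x) hx hx2
        rwa [one_mul] at h
      · have e2 : 3 * (Real.pi / 3) = Real.pi := by ring
        have v0 : fin_h (fin_m l) (fin_s l) R (Real.pi / 3) = (1 + fin_m l) / 2 := by
          unfold fin_h
          rw [Rt, e2, Real.sin_pi]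
          ring
        have e3 : Real.pi / 3 + Real.pi / 3 = 0 + 2 * Real.pi / 3 := by ring
        have v1 : fin_H (fin_m l) (flatExt U) (Real.pi / 3 + Real.pi / 3) = 1 + fin_m l := by
          rw [e3, Hp]
          unfold fin_H
          rw [mul_zero, mul_zero, Real.cos_zero, flat1 _ (by simp)]
          ring
        have v2 : deriv (fin_H (fin_m l) (flatExt U)) (Real.pi / 3 + Real.pi / 3) = 0 := by
          rw [e3, Hp', (fin_H_hasDeriv _ hd _).deriv]
          simp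
        refine ⟨Real.pi / 3, by linarith, by linarith, ?_, ?_⟩
        · rw [hx2, add_sub_cancel_right, v0, v1, v2, Real.cos_pi_div_three]
          ring
        · have e4 : Real.pi / 3 + Real.pi / 3 + Real.pi / 3 = Real.pi / 3 + 2 * Real.pi / 3 := by
            ring
          rw [hx2, e4, hp, v0, v1, v2, Real.cos_pi_div_three]
          ring
  have c1 : IsCaustic (fin_H (fin_m l) (flatExt U)) (fin_h (fin_m l) (fin_s l) R) := by
    refine ⟨fun θ => (fin_h_hasDeriv _ _ Rd θ).differentiableAt, fin_per_three hp, fun x => ?_,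
      fun x => ?_, fun x y => ?_, fun ψ => ?_⟩
    · have a1 := abs_le.1 (fin_abs_mul_le s2 (Real.abs_sin_le_one (3 * x)))
      have a2 := abs_le.1 (R0 x)
      unfold fin_h
      rw [abs_le]
      constructor <;> linarith [a1.1, a1.2, a2.1, a2.2]
    · have a1 := abs_le.1 (fin_abs_mul_le s2 (Real.abs_cos_le_one (3 * x)))
      have a2 := abs_le.1 (R1 x)
      rw [hder, abs_le]
      constructor <;> linarith [a1.1, a1.2, a2.1, a2.2]
    · have a1 : |Real.cos (3 * x) - Real.cos (3 * y)| ≤ 3 * |x - y| := by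
        have h := Real.abs_cos_sub_cos_le (3 * x) (3 * y)
        rw [← mul_sub, abs_mul, abs_of_pos (by norm_num : (0 : ℝ) < 3)] at h
        exact h
      have a2 := R2 x y
      have a3 : |fin_s l * (Real.cos (3 * x) - Real.cos (3 * y))| ≤ l * (3 * |x - y|) := by
        rw [abs_mul]
        exact mul_le_mul s2 a1 (abs_nonneg _) hl0.le
      have a4 := abs_nonneg (x - y)
      have a5 : C' * κ * |x - y| ≤ 1 / 4000 * |x - y| := mul_le_mul_of_nonneg_right hk2 a4
      have a6 : l * |x - y| ≤ 1 / 4000 * |x - y| := mul_le_mul_of_nonneg_right hl1 a4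
      have b2 := abs_le.1 a2
      have b3 := abs_le.1 a3
      rw [hder, hder, abs_le]
      constructor <;> linarith [b2.1, b2.2, b3.1, b3.2]
    · have hc : (0 : ℝ) < 2 * Real.pi / 3 := by linarith
      have hmem := toIocMod_mem_Ioc hc 0 ψ
      have hz := toIocMod_add_toIocDiv_zsmul hc 0 ψ
      obtain ⟨y, hy⟩ : ∃ y, y = toIocMod hc 0 ψ := ⟨_, rfl⟩
      obtain ⟨k, hk⟩ : ∃ k, k = toIocDiv hc 0 ψ := ⟨_, rfl⟩
      rw [← hy] at hmem
      rw [← hy, ← hk] at hz
      obtain ⟨δ, d1, d2, q1, q2⟩ := base (y - Real.pi / 3) (by linarith [hmem.1])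
        (by linarith [hmem.2])
      have e0 : Real.pi / 3 + (y - Real.pi / 3) = y := by ring
      rw [e0] at q1 q2
      refine ⟨δ, d1, d2, ?_, ?_⟩
      · have e1 : ψ - δ = y - δ + k • (2 * Real.pi / 3) := by rw [← hz]; ring
        rw [e1, hp.zsmul k, q1, ← hz, Hp.zsmul k, Hp'.zsmul k]
      · have e1 : ψ + δ = y + δ + k • (2 * Real.pi / 3) := by rw [← hz]; ring
        rw [e1, hp.zsmul k, q2, ← hz, Hp.zsmul k, Hp'.zsmul k]
  have c2 := fin_mirror (fin_H_even (fin_m l) (flatExt U)) c1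
  refine ⟨_, _, fin_H_smooth _ sm, fin_per_three Hp, fun x => (HB x).1, fun x => (HB x).2.1,
    fun x => (HB x).2.2, c1, c2, fun h => ?_⟩
  have h1 := deriv_comp_neg (fin_h (fin_m l) (fin_s l) R) 0
  rw [← h, neg_zero, hder, Rd0, mul_zero, Real.cos_zero] at h1
  linarith

theorem hg_data : HgData := by
  obtain ⟨C₁, hC₁, h₁⟩ := iter_main
  obtain ⟨C₂, hC₂, h₂⟩ := branch_main
  obtain ⟨ε, hε, h₃⟩ := hg_final
  set l : ℝ := min (1 / (C₁ + C₂ + 1)) (ε / (C₂ + 1)) with hl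
  have hl0 : 0 < l := lt_min (by positivity) (by positivity)
  have ha : l * (C₁ + C₂ + 1) ≤ 1 := by
    rw [← le_div_iff₀ (by positivity)]; exact min_le_left _ _
  have hb : l * (C₂ + 1) ≤ ε := by
    rw [← le_div_iff₀ (by positivity)]; exact min_le_right _ _
  have hc1 : C₁ * l ≤ 1 := by nlinarith
  have hc2 : C₂ * l ≤ 1 := by nlinarith
  have hl1 : l ≤ 1 := by nlinarith
  obtain ⟨U, W₁, W₂, hU, hre, hflat, s1, s2, hEL⟩ := h₁ l hl0 hc1
  have b1 := h₂ 1 l U W₁ (Or.inl rfl) hl0 hc2 hU hre s1.bal s1.re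
  have b2 := h₂ (-1) l U W₂ (Or.inr rfl) hl0 hc2 hU hre s2.bal s2.re
  have hsub : St (1 / 32) ⊆ Dom (1 / 16) (1 / 50) :=
    (St_mono (by norm_num)).trans (St_subset_Dom (by norm_num))
  have hl4 : l ^ 4 ≤ l := by
    have := pow_le_pow_of_le_one hl0.le hl1 (show 1 ≤ 4 by norm_num)
    simpa using this
  have mono : ∀ {T r : ℂ → ℂ}, Branch (1 / 32) (C₂ * l) T r → Branch (1 / 32) ((C₂ + 1) * l) T r :=
    fun h => ⟨h.dT, h.reT, h.dT1, h.bT, h.dr, h.rer, fun τ hτ => (h.br τ hτ).trans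
      (mul_le_mul_of_nonneg_right (by nlinarith) (pow_nonneg (w_nonneg _) _))⟩
  refine h₃ l ((C₂ + 1) * l) U (Tt l W₁) (Tt l W₂) hl0 (by nlinarith) (by nlinarith)
    (hU.diff.mono hsub) hre (fun j => ?_) (fun τ hτ => ?_) (mono b1) (mono b2) (fun t => ?_)
    (fun t => ?_)
  · obtain ⟨D, hD⟩ := hflat j
    exact ⟨D, fun τ hτ => hD τ (St_mono (by norm_num) hτ)⟩
  · exact (hU.bd τ (hsub hτ)).trans
      (mul_le_mul_of_nonneg_right (by nlinarith) (pow_nonneg (w_nonneg _) _))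
  · exact sub_eq_zero.1 (hEL t (ofReal_mem_St (by norm_num) t)).1
  · exact sub_eq_zero.1 (hEL t (ofReal_mem_St (by norm_num) t)).2

end Pool.Agent.MP_be9872_an

end

-- part MP_be9872_an.HedgeGeo
section

/-! Bodies given by support functions: boundary, strict convexity, unique tangent lines, and the
reflection law for chords. -/

set_option autoImplicit false
open scoped ContDiff

namespace Pool.Agent.MP_be9872_an

/-- support functions close to a positive constant -/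
structure HgNice (f : ℝ → ℝ) : Prop where
  diff : Differentiable ℝ f
  per : Function.Periodic f (2 * Real.pi)
  b0 : ∀ x, 49 / 100 ≤ f x
  b1 : ∀ x, |deriv f x| ≤ 1 / 100
  b2 : ∀ x y, |deriv f x - deriv f y| ≤ 1 / 100 * |x - y|

lemma IsCaustic.nice {H h : ℝ → ℝ} (hc : IsCaustic H h) : HgNice h :=
  ⟨hc.diff, hc.per, geo_lb hc, hc.b1, hc.b2⟩

lemma hg_inner (n y : ℂ) : inner ℝ n y = ‖n‖ * geo_ip y n.arg := by
  rw [Complex.inner, geo_ip, mul_add, ← mul_assoc, ← mul_assoc, mul_comm _ y.re, mul_comm _ y.im,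
    mul_assoc, mul_assoc, Complex.norm_mul_cos_arg, Complex.norm_mul_sin_arg]
  simp

lemma hg_inner_e (θ : ℝ) (y : ℂ) : inner ℝ (geo_e θ) y = geo_ip y θ := by
  simp [Complex.inner, geo_ip, geo_e]

lemma hg_norm_e (θ : ℝ) : ‖geo_e θ‖ = 1 := by
  rw [geo_e_eq, Complex.ofReal_cos, Complex.ofReal_sin, Complex.norm_cos_add_sin_mul_I]

namespace HgNice

variable {f : ℝ → ℝ} (hf : HgNice f)
include hf

lemma key (x φ : ℝ) : 1 / 10 * (1 - Real.cos (φ - x)) ≤ f φ - geo_ip (geo_pt f x) φ :=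
  geo_key f hf.diff hf.per hf.b0 hf.b1 hf.b2 x φ

lemma mem (x : ℝ) : geo_pt f x ∈ geo_K f := fun φ => by
  linarith [hf.key x φ, Real.cos_le_one (φ - x)]

lemma ball_sub : Metric.ball (0 : ℂ) (2 / 5) ⊆ interior (geo_K f) :=
  interior_maximal (fun y hy θ => by
    have h1 : ‖y‖ < 2 / 5 := by simpa using hy
    linarith [geo_ip_le_norm y θ, hf.b0 θ]) Metric.isOpen_ball

lemma touch {y : ℂ} (hy : y ∈ geo_K f) {θ : ℝ} (h : geo_ip y θ = f θ) : y = geo_pt f θ := by
  have hmax : IsLocalMax (fun φ => y.re * Real.cos φ + y.im * Real.sin φ - f φ) θ :=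
    Filter.Eventually.of_forall fun φ => by
      have := hy φ
      simp only [geo_ip] at this h ⊢
      linarith
  have hd := hmax.hasDerivAt_eq_zero ((((Real.hasDerivAt_cos θ).const_mul y.re).add
    ((Real.hasDerivAt_sin θ).const_mul y.im)).sub (hf.diff θ).hasDerivAt)
  have h3 := Real.sin_sq_add_cos_sq θ
  simp only [geo_ip] at h
  apply Complex.ext <;> simp only [geo_pt]
  · linear_combination Real.cos θ * h - Real.sin θ * hd - y.re * h3
  · linear_combination Real.sin θ * h + Real.cos θ * hd - y.im * h3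

lemma exists_angle {y : ℂ} (hy : y ∈ geo_K f) (hn : y ∉ interior (geo_K f)) :
    ∃ θ, geo_ip y θ = f θ := by
  have hc : Continuous fun θ => f θ - geo_ip y θ :=
    hf.diff.continuous.sub (by unfold geo_ip; fun_prop)
  obtain ⟨θ, -, hmin⟩ := (isCompact_Icc (a := -Real.pi) (b := Real.pi)).exists_isMinOn
    ⟨0, by simp [Real.pi_pos.le]⟩ hc.continuousOn
  refine ⟨θ, le_antisymm (hy θ) (not_lt.1 fun hlt => hn ?_)⟩
  suffices h : Metric.ball y (f θ - geo_ip y θ) ⊆ geo_K f from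
    interior_maximal h Metric.isOpen_ball (Metric.mem_ball_self (by linarith))
  intro z hz φ
  obtain ⟨s, k, hs, rfl⟩ := geo_red φ
  have h1 : f θ - geo_ip y θ ≤ f s - geo_ip y s := hmin (abs_le.1 hs)
  have h2 := geo_ip_le_norm (z - y) s
  rw [Metric.mem_ball, dist_eq_norm] at hz
  rw [hf.per.int_mul k s]
  simp only [geo_ip, Real.cos_add_int_mul_two_pi, Real.sin_add_int_mul_two_pi, Complex.sub_re,
    Complex.sub_im] at h1 h2 hz ⊢
  linarith

lemma frontier_eq : frontier (geo_K f) = Set.range (geo_pt f) := by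
  rw [(geo_K_closed f).frontier_eq]
  ext y
  constructor
  · rintro ⟨h1, h2⟩
    obtain ⟨θ, hθ⟩ := hf.exists_angle h1 h2
    exact ⟨θ, (hf.touch h1 hθ).symm⟩
  · rintro ⟨θ, rfl⟩
    exact ⟨hf.mem θ, geo_not_interior f _ θ (geo_ip_pt_self f θ).ge⟩

lemma strict : StrictConvex ℝ (geo_K f) := by
  intro x hx y hy hxy a b ha hb hab
  by_contra hn
  obtain ⟨θ, hθ⟩ := hf.exists_angle (geo_K_convex f hx hy ha.le hb.le hab) hn
  have h1 := hx θ
  have h2 := hy θ
  have h3 : a * (f θ - geo_ip x θ) + b * (f θ - geo_ip y θ) = 0 := by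
    simp only [geo_ip, Complex.add_re, Complex.add_im, Complex.smul_re, Complex.smul_im,
      smul_eq_mul] at hθ ⊢
    linear_combination f θ * hab - hθ
  have h4 := mul_nonneg ha.le (sub_nonneg.2 h1)
  have h5 := mul_nonneg hb.le (sub_nonneg.2 h2)
  have h6 : f θ - geo_ip x θ = 0 := (mul_eq_zero.1 (by linarith)).resolve_left ha.ne'
  have h7 : f θ - geo_ip y θ = 0 := (mul_eq_zero.1 (by linarith)).resolve_left hb.ne'
  exact hxy ((hf.touch hx (θ := θ) (by linarith)).trans (hf.touch hy (by linarith)).symm)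

lemma unique_normal {x : ℂ} (hx : x ∈ frontier (geo_K f)) :
    ∃! n : ℂ, ‖n‖ = 1 ∧ ∀ y ∈ geo_K f, inner ℝ n y ≤ inner ℝ n x := by
  rw [hf.frontier_eq] at hx
  obtain ⟨θ, rfl⟩ := hx
  refine ⟨geo_e θ, ⟨hg_norm_e θ, fun y hy => ?_⟩, ?_⟩
  · rw [hg_inner_e, hg_inner_e, geo_ip_pt_self]
    exact hy θ
  · rintro n ⟨h1, h2⟩
    have h3 := h2 _ (hf.mem n.arg)
    rw [hg_inner, hg_inner, h1, one_mul, one_mul, geo_ip_pt_self] at h3
    have h4 : Real.cos (n.arg - θ) = 1 := by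
      linarith [hf.key θ n.arg, Real.cos_le_one (n.arg - θ)]
    obtain ⟨k, hk⟩ := (Real.cos_eq_one_iff _).1 h4
    have h5 : n.arg = θ + k * (2 * Real.pi) := by linarith
    have e1 := Complex.norm_mul_cos_arg n
    have e2 := Complex.norm_mul_sin_arg n
    rw [h1, one_mul, h5] at e1 e2
    rw [Real.cos_add_int_mul_two_pi] at e1
    rw [Real.sin_add_int_mul_two_pi] at e2
    exact Complex.ext e1.symm e2.symm

end HgNice

lemma hg_cross {h : ℝ → ℝ} (hne : h ≠ fun θ => h (-θ)) :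
    ∃ θ, h (-θ) < h θ := by
  by_contra hcon
  push Not at hcon
  exact hne (funext fun θ => le_antisymm (hcon θ) (by simpa using hcon (-θ)))

theorem hg_geo (H h₁ h₂ : ℝ → ℝ) (hH : ContDiff ℝ ∞ H)
    (hHp : Function.Periodic H (2 * Real.pi))
    (hH0 : ∀ x, |H x - 1| ≤ 1 / 100) (hH1 : ∀ x, |deriv H x| ≤ 1 / 100)
    (hH2 : ∀ x, |deriv (deriv H) x| ≤ 1 / 100)
    (h1 : IsCaustic H h₁) (h2 : IsCaustic H h₂) (h12 : ∃ θ, h₂ θ < h₁ θ)
    (h21 : ∃ θ, h₁ θ < h₂ θ) :
    ∃ (γ : ℝ → ℂ) (Ω K₁ K₂ : Set ℂ),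
      ContDiff ℝ ∞ γ ∧ Function.Periodic γ 1 ∧ Set.InjOn γ (Set.Ico 0 1) ∧
      (∀ t, 0 < (deriv γ t).re * (deriv (deriv γ) t).im -
        (deriv γ t).im * (deriv (deriv γ) t).re) ∧
      IsOpen Ω ∧ Bornology.IsBounded Ω ∧ Convex ℝ Ω ∧ StrictConvex ℝ (closure Ω) ∧
      frontier Ω = Set.range γ ∧
      (∀ K, K = K₁ ∨ K = K₂ →
        IsCompact K ∧ StrictConvex ℝ K ∧ (interior K).Nonempty ∧ K ⊆ Ω ∧
        (∀ x ∈ frontier K, ∃! n : ℂ, ‖n‖ = 1 ∧ ∀ y ∈ K, inner ℝ n y ≤ inner ℝ n x) ∧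
        ∀ (P R : ℂ) (t : ℝ), P ∈ Set.range γ → R ∈ Set.range γ → P ≠ γ t → R ≠ γ t →
          ‖R - γ t‖⁻¹ • (R - γ t) =
            (ℝ ∙ deriv γ t).reflection (‖γ t - P‖⁻¹ • (γ t - P)) →
          (∃ n : ℂ, n ≠ 0 ∧ ∃ x ∈ K, inner ℝ n P = inner ℝ n x ∧
            inner ℝ n (γ t) = inner ℝ n x ∧ ∀ y ∈ K, inner ℝ n y ≤ inner ℝ n x) →
          ∃ n : ℂ, n ≠ 0 ∧ ∃ x ∈ K, inner ℝ n (γ t) = inner ℝ n x ∧
            inner ℝ n R = inner ℝ n x ∧ ∀ y ∈ K, inner ℝ n y ≤ inner ℝ n x) ∧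
      (interior K₁ ∩ interior K₂).Nonempty ∧
      ¬frontier K₁ ⊆ K₂ ∧ ¬frontier K₂ ⊆ K₁ := by
  have hpi := Real.pi_pos
  obtain ⟨d0, c1⟩ := contDiff_infty_iff_deriv.1 hH
  obtain ⟨d1, c2⟩ := contDiff_infty_iff_deriv.1 c1
  obtain ⟨d2, -⟩ := contDiff_infty_iff_deriv.1 c2
  have hdp : Function.Periodic (deriv H) (2 * Real.pi) := by
    intro x
    have : (fun y => H (y + 2 * Real.pi)) = H := funext hHp
    rw [← deriv_comp_add_const, this]
  have hlip : ∀ x y, |deriv H x - deriv H y| ≤ 1 / 100 * |x - y| := by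
    intro x y
    have := (convex_univ (𝕜 := ℝ) (E := ℝ)).norm_image_sub_le_of_norm_deriv_le
      (f := deriv H) (C := 1 / 100) (fun z _ => d1 z) (fun z _ => hH2 z) (Set.mem_univ y)
      (Set.mem_univ x)
    simpa [Real.norm_eq_abs] using this
  have hlb : ∀ x, 49 / 100 ≤ H x := by
    intro x
    have := (abs_le.1 (hH0 x)).1
    linarith
  set ρ : ℝ → ℝ := fun x => H x + deriv (deriv H) x with hρ
  have hρpos : ∀ x, 0 < ρ x := by
    intro x
    have := (abs_le.1 (hH0 x)).1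
    have := (abs_le.1 (hH2 x)).1
    simp only [hρ]
    linarith
  have hρd : Differentiable ℝ ρ := d0.add d2
  set γ : ℝ → ℂ := fun t => geo_pt H (2 * Real.pi * t) with hγ
  have hlin : ∀ t : ℝ, HasDerivAt (fun t : ℝ => 2 * Real.pi * t) (2 * Real.pi) t := by
    intro t
    simpa using (hasDerivAt_id t).const_mul (2 * Real.pi)
  have hγ1 : ∀ t, HasDerivAt γ ((2 * Real.pi) •
      (Complex.I * geo_e (2 * Real.pi * t) * ((ρ (2 * Real.pi * t) : ℝ) : ℂ))) t := by
    intro t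
    exact (geo_pt_deriv H d0 d1 (2 * Real.pi * t)).scomp t (hlin t)
  have hγd : deriv γ = fun t => (2 * Real.pi) •
      (Complex.I * geo_e (2 * Real.pi * t) * ((ρ (2 * Real.pi * t) : ℝ) : ℂ)) :=
    funext fun t => (hγ1 t).deriv
  have hγ2 : ∀ t, HasDerivAt (deriv γ) ((2 * Real.pi) • ((2 * Real.pi) •
      (Complex.I * (Complex.I * geo_e (2 * Real.pi * t)) * ((ρ (2 * Real.pi * t) : ℝ) : ℂ)
        + Complex.I * geo_e (2 * Real.pi * t) * ((deriv ρ (2 * Real.pi * t) : ℝ) : ℂ)))) t := by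
    intro t
    rw [hγd]
    have a1 := ((geo_e_deriv (2 * Real.pi * t)).const_mul Complex.I).mul
      ((hρd (2 * Real.pi * t)).hasDerivAt.ofReal_comp)
    exact (a1.scomp t (hlin t)).const_smul (2 * Real.pi)
  have hre1 : ∀ t, (deriv γ t).re
      = -(2 * Real.pi * ρ (2 * Real.pi * t) * Real.sin (2 * Real.pi * t)) := by
    intro t
    rw [hγd]
    simp [geo_e]
    ring
  have him1 : ∀ t, (deriv γ t).im
      = 2 * Real.pi * ρ (2 * Real.pi * t) * Real.cos (2 * Real.pi * t) := by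
    intro t
    rw [hγd]
    simp [geo_e]
    ring
  have nH : HgNice H := ⟨d0, hHp, hlb, hH1, hlip⟩
  have hcl : closure (interior (geo_K H)) = geo_K H := by
    rw [(geo_K_convex H).closure_interior_eq_closure_of_nonempty_interior
      ⟨0, nH.ball_sub (by simp)⟩, (geo_K_closed H).closure_eq]
  have cross : ∀ f g : ℝ → ℝ, HgNice f → (∃ θ, g θ < f θ) → ¬frontier (geo_K f) ⊆ geo_K g := by
    rintro f g hf ⟨θ, hθ⟩ hsub
    have := hsub (hf.frontier_eq ▸ ⟨θ, rfl⟩ : geo_pt f θ ∈ frontier (geo_K f)) θ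
    rw [geo_ip_pt_self] at this
    linarith
  refine ⟨γ, interior (geo_K H), geo_K h₁, geo_K h₂, ?_, ?_, ?_, ?_, isOpen_interior, ?_,
    (geo_K_convex H).interior, by rw [hcl]; exact nH.strict, ?_, ?_,
    ⟨0, h1.nice.ball_sub (by simp), h2.nice.ball_sub (by simp)⟩, cross _ _ h1.nice h12,
    cross _ _ h2.nice h21⟩
  · have e : γ = fun t => ((Real.cos (2 * Real.pi * t) : ℝ) + (Real.sin (2 * Real.pi * t) : ℝ)
        * Complex.I) * ((H (2 * Real.pi * t) : ℂ)
          + ((deriv H (2 * Real.pi * t) : ℝ) : ℂ) * Complex.I) := by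
      funext t
      simp only [hγ]
      rw [geo_pt_eq, geo_e_eq]
    rw [e]
    have l : ContDiff ℝ ∞ (fun t : ℝ => 2 * Real.pi * t) := contDiff_const.mul contDiff_id
    have o : ContDiff ℝ ∞ (fun x : ℝ => (x : ℂ)) := Complex.ofRealCLM.contDiff
    exact ((o.comp (Real.contDiff_cos.comp l)).add
      ((o.comp (Real.contDiff_sin.comp l)).mul contDiff_const)).mul
      ((o.comp (hH.comp l)).add ((o.comp (c1.comp l)).mul contDiff_const))
  · intro t
    simp only [hγ, geo_pt, mul_add, mul_one]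
    rw [hHp, hdp, Real.cos_add_two_pi, Real.sin_add_two_pi]
  · intro t ht t' ht' htt
    have a1 := geo_key H d0 hHp hlb hH1 hlip (2 * Real.pi * t) (2 * Real.pi * t')
    have a2 : geo_pt H (2 * Real.pi * t) = geo_pt H (2 * Real.pi * t') := htt
    rw [a2, geo_ip_pt_self] at a1
    have a3 := Real.cos_le_one (2 * Real.pi * t' - 2 * Real.pi * t)
    have a4 : Real.cos (2 * Real.pi * t' - 2 * Real.pi * t) = 1 := by linarith
    rw [Real.cos_eq_one_iff_of_lt_of_lt (by nlinarith [ht.1, ht.2, ht'.1, ht'.2])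
      (by nlinarith [ht.1, ht.2, ht'.1, ht'.2])] at a4
    have a5 : 2 * Real.pi * (t - t') = 0 := by linarith
    rcases mul_eq_zero.1 a5 with a6 | a6
    · exfalso; linarith
    · linarith
  · intro t
    have a3 := Real.sin_sq_add_cos_sq (2 * Real.pi * t)
    have a4 : (deriv γ t).re * (deriv (deriv γ) t).im - (deriv γ t).im * (deriv (deriv γ) t).re
        = (2 * Real.pi) ^ 3 * ρ (2 * Real.pi * t) ^ 2 := by
      rw [(hγ2 t).deriv, hre1, him1]
      simp [geo_e]
      linear_combination (2 * Real.pi) ^ 3 * ρ (2 * Real.pi * t) ^ 2 * a3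
    rw [a4]
    have := hρpos (2 * Real.pi * t)
    positivity
  · refine (Metric.isBounded_closedBall (x := (0 : ℂ)) (r := 2)).subset fun y hy => ?_
    have := interior_subset hy (Complex.arg y)
    rw [geo_ip_arg] at this
    rw [mem_closedBall_zero_iff]
    linarith [(abs_le.1 (hH0 y.arg)).2]
  · rw [frontier, hcl, interior_interior, ← (geo_K_closed H).frontier_eq, nH.frontier_eq]
    ext y
    constructor
    · rintro ⟨x, rfl⟩
      refine ⟨x / (2 * Real.pi), ?_⟩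
      simp only [hγ]
      congr 1
      field_simp
    · rintro ⟨t, rfl⟩
      exact ⟨_, rfl⟩
  · intro K hK
    obtain ⟨h, hc, rfl⟩ : ∃ h, IsCaustic H h ∧ K = geo_K h := by
      rcases hK with rfl | rfl
      · exact ⟨_, h1, rfl⟩
      · exact ⟨_, h2, rfl⟩
    refine ⟨geo_K_compact hc, hc.nice.strict, geo_K_interior hc, fun y hy => ?_,
      fun x hx => hc.nice.unique_normal hx, ?_⟩
    · refine interior_maximal (t := Metric.ball 0 (3 / 5)) (fun z hz θ => ?_) Metric.isOpen_ball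
        (by rw [mem_ball_zero_iff]; linarith [geo_K_norm hc hy])
      rw [mem_ball_zero_iff] at hz
      linarith [geo_ip_le_norm z θ, (abs_le.1 (hH0 θ)).1]
    · rintro P R t - - hP hR hlaw ⟨n, hn, x, hx, e1, e2, e3⟩
      have hn0 : 0 < ‖n‖ := norm_pos_iff.2 hn
      simp only [hg_inner n] at e1 e2 e3
      have f0 : geo_ip x n.arg = h n.arg := le_antisymm (hx _) (by
        have := le_of_mul_le_mul_left (e3 _ (geo_pt_mem hc n.arg)) hn0
        rwa [geo_ip_pt_self] at this)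
      have f1 := (mul_left_cancel₀ hn0.ne' e1).trans f0
      have f2 := (mul_left_cancel₀ hn0.ne' e2).trans f0
      have f3 : geo_ip (γ t) (2 * (2 * Real.pi * t) - n.arg) = h (2 * (2 * Real.pi * t) - n.arg) :=
        geo_reflect hc hH0 hH1 _ _ f2
      have g1 : 0 < ‖R - γ t‖⁻¹ := inv_pos.2 (norm_pos_iff.2 (sub_ne_zero.2 hR))
      have g2 : geo_ip (‖γ t - P‖⁻¹ • (γ t - P)) n.arg = 0 := by
        simp only [geo_ip, Complex.smul_re, Complex.smul_im, Complex.sub_re, Complex.sub_im,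
          smul_eq_mul] at f1 f2 ⊢
        linear_combination ‖γ t - P‖⁻¹ * (f2 - f1)
      have a4 : 0 < 2 * Real.pi * ρ (2 * Real.pi * t) := mul_pos (by positivity) (hρpos _)
      have a3 := Real.sin_sq_add_cos_sq (2 * Real.pi * t)
      have g3 : ‖deriv γ t‖ ^ 2 = (2 * Real.pi * ρ (2 * Real.pi * t)) ^ 2 := by
        rw [Complex.sq_norm, Complex.normSq_apply, hre1, him1]
        linear_combination (2 * Real.pi * ρ (2 * Real.pi * t)) ^ 2 * a3
      have g4 : geo_ip (‖R - γ t‖⁻¹ • (R - γ t)) (2 * (2 * Real.pi * t) - n.arg) = 0 := by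
        rw [hlaw, Submodule.reflection_singleton_apply]
        generalize ‖γ t - P‖⁻¹ • (γ t - P) = v at g2
        simp only [RCLike.ofReal_real_eq_id, id, g3, Complex.inner, geo_ip, two_smul,
          Complex.sub_re, Complex.sub_im, Complex.add_re, Complex.add_im, Complex.smul_re,
          Complex.smul_im, smul_eq_mul, Complex.mul_re, Complex.conj_re, Complex.conj_im, hre1,
          him1, Real.cos_sub, Real.sin_sub, Real.sin_two_mul, Real.cos_two_mul] at g2 ⊢
        generalize 2 * Real.pi * ρ (2 * Real.pi * t) = r at a4 ⊢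
        generalize Real.cos (2 * Real.pi * t) = c at a3 ⊢
        generalize Real.sin (2 * Real.pi * t) = s at a3 ⊢
        field_simp
        linear_combination (-((2 * c ^ 2 - 1) ^ 2 + (2 * s * c) ^ 2)) * g2 +
          2 * v.re * ((2 * c ^ 2 - 1) * Real.cos n.arg + 2 * s * c * Real.sin n.arg) * a3
      refine ⟨geo_e (2 * (2 * Real.pi * t) - n.arg), norm_pos_iff.1 (by rw [hg_norm_e]; norm_num),
        geo_pt h (2 * (2 * Real.pi * t) - n.arg), geo_pt_mem hc _, ?_, ?_, fun y hy => ?_⟩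
      · rw [hg_inner_e, hg_inner_e, geo_ip_pt_self, f3]
      · rw [hg_inner_e, hg_inner_e, geo_ip_pt_self, ← f3]
        simp only [geo_ip, Complex.smul_re, Complex.smul_im, Complex.sub_re, Complex.sub_im,
          smul_eq_mul] at g4 ⊢
        refine mul_left_cancel₀ g1.ne' ?_
        linear_combination g4
      · rw [hg_inner_e, hg_inner_e, geo_ip_pt_self]
        exact hy _

end Pool.Agent.MP_be9872_an

end
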