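import Pool.Agent.MP_be9872_an.Mg.LS
import Pool.Agent.MP_be9872_an.Mg.LocG
import Pool.Agent.MP_be9872_an.Per

-- part MP_be9872_an.Mel
section

set_option autoImplicit false
open Complex

namespace Pool.Agent.MP_be9872_an

/-- summand of the splitting potential -/
noncomputable def melG (η : ℂ) (l : ℝ) (U W : ℂ → ℂ) (x : ℂ) : ℂ :=
  S0 η (mu l) (Tt l W x) (Tt l W (x + l)) + SU η U (Tt l W x) (Tt l W (x + l)) - Sst (mu l)

noncomputable def melI (η : ℂ) (l : ℝ) (U W : ℂ → ℂ) (x : ℂ) : ℂ :=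
  I0 η (mu l) (Tt l W x) (Tt l W (x + l)) + IU η U (Tt l W x) (Tt l W (x + l))

noncomputable def melJ (η : ℂ) (l : ℝ) (U W : ℂ → ℂ) (x : ℂ) : ℂ :=
  J0 η (mu l) (Tt l W x) (Tt l W (x + l)) + JU η U (Tt l W x) (Tt l W (x + l))

lemma mel_eq (η : ℂ) (l : ℝ) (U W : ℂ → ℂ) : Mel η l U W = sumZ l (melG η l U W) := rfl

lemma mel_EL (η : ℂ) (l : ℝ) (U W : ℂ → ℂ) (x : ℂ) :
    EL η l U W x = melJ η l U W (x - l) - melI η l U W x := by
  unfold EL melJ melI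
  rw [sub_add_cancel]

/-- pointwise facts at an admissible pair -/
lemma mel_pt : ∃ K : ℝ, 1000 ≤ K ∧ ∀ (η : ℂ) (l ρ κ : ℝ) (U : ℂ → ℂ) (τ x y W : ℂ),
    (η = 1 ∨ η = -1) → 0 < l → K * l ≤ 1 → ρ ≤ 1 / 4 → κ ≤ 1 → Pot ρ κ U → Adm l ρ τ x W →
    y = x + l + W →
      ‖S0 η (mu l) x y - Sst (mu l)‖ ≤ K * w τ.re ∧
      ‖SU η U x y‖ ≤ K * κ * w τ.re ∧
      ‖I0 η (mu l) x y + IU η U x y‖ ≤ K * w τ.re ∧
      ‖J0 η (mu l) x y + JU η U x y‖ ≤ K * w τ.re ∧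
      ∀ (X Y : ℂ → ℂ) (z X' Y' : ℂ), HasDerivAt X X' z → HasDerivAt Y Y' z → X z = x → Y z = y →
        HasDerivAt (fun z => S0 η (mu l) (X z) (Y z))
          (-I0 η (mu l) x y * X' + J0 η (mu l) x y * Y') z ∧
        HasDerivAt (fun z => SU η U (X z) (Y z)) (-IU η U x y * X' + JU η U x y * Y') z := by
  obtain ⟨C0, hC0, h0⟩ := loc0_est
  obtain ⟨CU, hCU, hU⟩ := locU_est
  obtain ⟨CM, hCM, hM⟩ := adm_mid
  refine ⟨1000 + C0 + CU + CM, by linarith, ?_⟩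
  intro η l ρ κ U τ x y W hη hl hK hρ hκ hP hA hy
  have k0 : C0 * l ≤ 1 := by nlinarith
  have kU : CU * l ≤ 1 := by nlinarith
  have kM : CM * l ≤ 1 := by nlinarith
  obtain ⟨-, -, a3, a4, a5, -⟩ := h0 η l ρ τ x W hη hl k0 hρ hA
  obtain ⟨-, b2, b3, b4, -, b6⟩ := hU η l ρ κ U τ x W hη hl kU hρ hP hA
  obtain ⟨-, -, -, m4, m5, -⟩ := hM l ρ τ x W hl kM hρ hA
  subst hy
  have hw := w_pos τ.re
  have hρ0 : 0 < ρ := lt_of_le_of_lt (abs_nonneg _) hA.mem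
  have hκ0 : 0 ≤ κ := hP.nonneg hρ0
  have w3 : w τ.re ^ 3 ≤ w τ.re := by simpa using w_pow_le (x := τ.re) (m := 1) (n := 3) (by norm_num)
  have w4 : w τ.re ^ 4 ≤ w τ.re := by simpa using w_pow_le (x := τ.re) (m := 1) (n := 4) (by norm_num)
  have e3 : CU * κ * w τ.re ^ 3 ≤ CU * w τ.re := by
    calc CU * κ * w τ.re ^ 3 ≤ CU * 1 * w τ.re := by gcongr
      _ = _ := by ring
  have e4 : CU * κ * w τ.re ^ 4 ≤ (1000 + C0 + CU + CM) * κ * w τ.re := by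
    gcongr; linarith
  have f0 : 0 ≤ (1000 + CM) * w τ.re := by positivity
  have f1 : 0 ≤ CU * w τ.re := by positivity
  refine ⟨by nlinarith, b4.trans e4, ?_, ?_, ?_⟩
  · refine (norm_add_le _ _).trans ?_
    nlinarith
  · refine (norm_add_le _ _).trans ?_
    nlinarith
  · intro X Y z X' Y' hX hY hx hy
    refine ⟨?_, (b6 X Y z X' Y' hX hY hx hy).1⟩
    have h1 := hasDerivAt_S0 (η := η) (μ := mu l) hX hY
      (by rw [hx]; exact St_mono (by norm_num) m4) (by rw [hy]; exact St_mono (by norm_num) m5)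
    rwa [hx, hy] at h1

/-- summation by parts against the reduced equation -/
lemma mel_parts {η : ℂ} {l ρ K M : ℝ} {U W T : ℂ → ℂ} (hl : 0 < l) (hl1 : l ≤ 1 / 10)
    (hI : ∀ x ∈ St ρ, ‖melI η l U W x‖ ≤ K * w x.re)
    (hJ : ∀ x ∈ St ρ, ‖melJ η l U W x‖ ≤ K * w x.re)
    (hE : ∀ x ∈ St ρ, EL η l U W x = beta l x * muW η l U W x)
    (hp : ∀ x ∈ St ρ, muW η l U W (x + l) = muW η l U W x)
    (hT : ∀ x ∈ St ρ, ‖T x‖ ≤ M) {τ : ℂ} (hτ : τ ∈ St ρ) :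
    LineBd (fun x => -melI η l U W x * T x + melJ η l U W x * T (x + l)) τ (2 * K * M) 0 ∧
    sumZ l (fun x => -melI η l U W x * T x + melJ η l U W x * T (x + l)) τ =
      muW η l U W τ * sumZ l (fun x => beta l x * T x) τ := by
  have hM : 0 ≤ M := (norm_nonneg _).trans (hT τ hτ)
  have hK : 0 ≤ K := (lineBd_of_St0 hI hτ).nonneg
  have bB : ∀ x ∈ St ρ, ‖melI η l U W x * T x‖ ≤ K * M * w x.re := fun x hx => by
    rw [norm_mul]
    calc _ ≤ K * w x.re * M := by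
          have := w_nonneg x.re
          gcongr
          · exact hI x hx
          · exact hT x hx
      _ = _ := by ring
  have bA' : ∀ x ∈ St ρ, ‖melJ η l U W x * T (x + l)‖ ≤ K * M * w x.re := fun x hx => by
    rw [norm_mul]
    calc _ ≤ K * w x.re * M := by
          have := w_nonneg x.re
          gcongr
          · exact hJ x hx
          · exact hT _ (add_real_mem_St hx l)
      _ = _ := by ring
  have bA : ∀ x ∈ St ρ, ‖melJ η l U W (x - l) * T x‖ ≤ 2 * K * M * w x.re := fun x hx => by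
    have h1 := bA' _ (sub_real_mem_St hx l)
    rw [sub_add_cancel] at h1
    have h2 : w (x - l).re ≤ 2 * w x.re := w_re_le_two_mul (by
      rw [sub_sub_cancel_left, norm_neg, Complex.norm_real, Real.norm_eq_abs, abs_of_pos hl]
      linarith)
    calc _ ≤ K * M * w (x - l).re := h1
      _ ≤ K * M * (2 * w x.re) := by gcongr
      _ = _ := by ring
  have lB := lineBd_of_St0 bB hτ
  have lA := lineBd_of_St0 bA hτ
  have lA' := lineBd_of_St0 bA' hτ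
  refine ⟨lineBd_of_St0 (ρ := ρ) (fun x hx => ?_) hτ, ?_⟩
  · refine (norm_add_le _ _).trans ?_
    rw [neg_mul, norm_neg]
    linarith [bB x hx, bA' x hx]
  have e1 : (fun x => -melI η l U W x * T x + melJ η l U W x * T (x + l)) =
      fun x => melJ η l U W x * T (x + l) - melI η l U W x * T x := by
    funext x; ring
  have e2 : sumZ l (fun x => melJ η l U W x * T (x + l)) τ =
      sumZ l (fun x => melJ η l U W (x - l) * T x) τ := by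
    rw [← lA.sumZ_shift hl hl1, ← sumZ_comp_shift]
    simp only [add_sub_cancel_right]
  rw [e1, lA'.sumZ_sub hl hl1 lB, e2, ← lA.sumZ_sub hl hl1 lB, ← sumZ_per_mul hp hτ]
  refine sumZ_congr_St (ρ := ρ) (fun x hx => ?_) hτ
  rw [← sub_mul, ← mel_EL, hE x hx]
  ring

lemma mel_beta {l ρ M : ℝ} {T : ℂ → ℂ} (hl : 0 < l) (hl1 : l ≤ 1 / 10) (hρ : ρ ≤ 1 / 4)
    (hT : ∀ x ∈ St ρ, ‖T x‖ ≤ M) {τ : ℂ} (hτ : τ ∈ St ρ) :
    LineBd (fun x => beta l x * T x) τ (100 * l * M) 0 ∧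
      ‖sumZ l (fun x => beta l x * T x) τ‖ ≤ 1100 * M := by
  have hM : 0 ≤ M := (norm_nonneg _).trans (hT τ hτ)
  have h1 : LineBd (fun x => beta l x * T x) τ (100 * l * M) 0 :=
    lineBd_of_St0 (ρ := ρ) (fun x hx => by
      have h2 := norm_beta_le hl hl1 (St_mono hρ hx)
      have w3 : w x.re ^ 3 ≤ w x.re := by
        simpa using w_pow_le (x := x.re) (m := 1) (n := 3) (by norm_num)
      have h3 : ‖beta l x‖ ≤ 100 * l * w x.re := h2.trans (by gcongr)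
      rw [norm_mul]
      calc _ ≤ 100 * l * w x.re * M := by
            have := w_nonneg x.re
            gcongr
            exact hT x hx
        _ = _ := by ring) hτ
  refine ⟨h1, (h1.norm_sumZ hl hl1).trans (le_of_eq ?_)⟩
  field_simp
  ring

theorem mel_main : ∃ C : ℝ, 0 < C ∧ ∀ (η : ℂ) (l ρ : ℝ) (U W : ℂ → ℂ), (η = 1 ∨ η = -1) →
    0 < l → C * l ≤ 1 → 0 < ρ → ρ ≤ 1 / 4 → Pot ρ (l ^ 4) U → IsRe U → Sol η l ρ U W →
      DifferentiableOn ℂ (Mel η l U W) (St ρ) ∧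
      (∀ τ ∈ St ρ, Mel η l U W (τ + l) = Mel η l U W τ) ∧ IsRe (Mel η l U W) ∧
      (∀ τ ∈ St ρ, ‖Mel η l U W τ‖ ≤ C / l) ∧
      (∀ b : ℝ, C * b ≤ 1 → (∀ τ ∈ St ρ, ‖deriv (Vv l W) τ‖ ≤ b) →
        ∀ τ ∈ St ρ, ‖muW η l U W τ‖ ≤ 2 * ‖deriv (Mel η l U W) τ‖) ∧
      (∀ (κ : ℝ) (u W' : ℂ → ℂ), 0 < κ → C * κ ≤ l ^ 3 → Pot ρ κ u →
        Pot ρ (l ^ 4) (fun a => U a + u a) → Sol η l ρ (fun a => U a + u a) W' →
        ∀ τ ∈ St ρ, ‖Mel η l (fun a => U a + u a) W' τ - Mel η l U W τ - Pp η l W u τ‖ ≤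
          C * κ ^ 2 / l ^ 7 + C * κ / l ^ 2 * ‖muW η l U W τ‖) := by
  obtain ⟨K, hK, hpt⟩ := mel_pt
  obtain ⟨CF, hCF, hF⟩ := ff_est
  obtain ⟨CL, hCL, hL⟩ := ls_main
  obtain ⟨C1, hC1, hC1'⟩ : ∃ C1 : ℝ, 1 ≤ C1 ∧ CL ≤ C1 := ⟨CL + 1, by linarith, by linarith⟩
  have hK0 : 0 < K := by linarith
  have hq : 0 ≤ 132 * K * C1 ^ 2 := by positivity
  obtain ⟨C, c1, c2, c3, c4⟩ : ∃ C : ℝ, 22 * K ≤ C ∧ CF ≤ C ∧ 6600 * C1 ≤ C ∧
      132 * K * C1 ^ 2 ≤ C :=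
    ⟨22 * K + CF + 6600 * C1 + 132 * K * C1 ^ 2, by linarith, by linarith, by linarith,
      by linarith⟩
  refine ⟨C, by linarith, ?_⟩
  intro η l ρ U W hη hl hCl hρ0 hρ hP hUre hS
  have kK : K * l ≤ 1 := by nlinarith
  have kF : CF * l ≤ 1 := by nlinarith
  have kL : CL * l ≤ 1 := by nlinarith
  have hl3 : l ≤ 1 / 1000 := by nlinarith
  have hl1 : l ≤ 1 / 10 := by linarith
  have hl4 : l ^ 4 ≤ 1 := pow_le_one₀ hl.le (by linarith)
  obtain ⟨hE, hper, -, hvar⟩ := (hL η l ρ hη hl kL hρ0 hρ).2 U W hP hS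
  -- pointwise facts along an orbit
  have pt : ∀ (U W : ℂ → ℂ) (κ : ℝ), κ ≤ 1 → Pot ρ κ U →
      (∀ τ ∈ St ρ, ‖W τ‖ ≤ 2 * l ^ 2 * w τ.re) → ∀ x ∈ St ρ, _ :=
    fun U W κ hκ hP hb x hx => hpt η l ρ κ U x (Tt l W x) (Tt l W (x + l)) (W x) hη hl kK hρ hκ hP
      (adm_Tt hl hl1 hb hx) (Tt_step hl hl1 hb hx)
  have two : ∀ {W : ℂ → ℂ}, Bal ρ (l ^ 2) W → ∀ τ ∈ St ρ, ‖W τ‖ ≤ 2 * l ^ 2 * w τ.re :=
    fun h => (h.mono le_rfl (by nlinarith)).bd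
  have hW2 := two hS.bal
  have bG : ∀ (U W : ℂ → ℂ), Pot ρ (l ^ 4) U → Bal ρ (l ^ 2) W →
      ∀ x ∈ St ρ, ‖melG η l U W x‖ ≤ 2 * K * w x.re := by
    intro U W hP hB x hx
    obtain ⟨h1, h2, -⟩ := pt U W _ hl4 hP (two hB) x hx
    have e : melG η l U W x = (S0 η (mu l) (Tt l W x) (Tt l W (x + l)) - Sst (mu l)) +
        SU η U (Tt l W x) (Tt l W (x + l)) := by unfold melG; ring
    have h3 : K * l ^ 4 * w x.re ≤ K * 1 * w x.re := by
      have := w_nonneg x.re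
      gcongr
    rw [e]
    refine (norm_add_le _ _).trans ?_
    linarith
  have bI : ∀ x ∈ St ρ, ‖melI η l U W x‖ ≤ K * w x.re := fun x hx =>
    (pt U W _ hl4 hP hW2 x hx).2.2.1
  have bJ : ∀ x ∈ St ρ, ‖melJ η l U W x‖ ≤ K * w x.re := fun x hx =>
    (pt U W _ hl4 hP hW2 x hx).2.2.2.1
  have dV : ∀ x ∈ St ρ, HasDerivAt (Tt l W) (1 + deriv (Vv l W) x) x := fun x hx =>
    (hasDerivAt_id x).add (diffAt_of_St (hS.bal.diff_Vv hl hl1) hx).hasDerivAt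
  have dG : ∀ x ∈ St ρ, HasDerivAt (melG η l U W)
      (-melI η l U W x * (1 + deriv (Vv l W) x) +
        melJ η l U W x * (1 + deriv (Vv l W) (x + l))) x := by
    intro x hx
    have h1 := dV x hx
    have h2 : HasDerivAt (fun z => Tt l W (z + l)) (1 + deriv (Vv l W) (x + l)) x :=
      (dV _ (add_real_mem_St hx l)).comp_add_const x l
    obtain ⟨h3, h4⟩ := (pt U W _ hl4 hP hW2 x hx).2.2.2.2 _ _ x _ _ h1 h2 rfl rfl
    have h5 := (h3.add h4).sub_const (Sst (mu l))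
    refine h5.congr_deriv ?_
    unfold melI melJ
    ring
  have diffG : DifferentiableOn ℂ (melG η l U W) (St ρ) := fun x hx =>
    (dG x hx).differentiableAt.differentiableWithinAt
  have bG0 : ∀ x ∈ St ρ, ‖melG η l U W x‖ ≤ 2 * K * w (x.re - 0) := by
    simpa using bG U W hP hS.bal
  refine ⟨diffOn_sumZ hl hl1 diffG bG0, fun τ hτ => (lineBd_of_St bG0 hτ).sumZ_shift hl hl1,
    ?_, fun τ hτ => ?_, ?_, ?_⟩
  · refine IsRe.sumZ (f := melG η l U W) (fun x => ?_) l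
    have hx : (x : ℂ) ∈ St ρ := ofReal_mem_St hρ0 x
    have hx' := sub_real_mem_St hx l
    have i1 : ((x : ℂ) - l).im = 0 := by simp
    have h := (hF η l ρ U x _ _ _ _ hη hl kF hρ hP (hS.bal.adm hl hl1 hx')
      (hS.bal.adm hl hl1 hx)).2.2.2 hUre (by simp) ((hS.re.Tt l).of_im i1) (hS.re.of_im i1)
      (hS.re.Tt l x) (hS.re x)
    unfold melG
    rw [Tt_step hl hl1 hW2 hx]
    exact h.2.2.2
  · refine ((lineBd_of_St bG0 hτ).norm_sumZ hl hl1).trans ?_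
    gcongr
    linarith
  · intro b hb hV τ hτ
    have hb0 : 0 ≤ b := (norm_nonneg _).trans (hV τ hτ)
    have hb1 : 2200 * b ≤ 1 := by nlinarith
    have hT : ∀ x ∈ St ρ, ‖1 + deriv (Vv l W) x‖ ≤ 2 := fun x hx => by
      refine (norm_add_le _ _).trans ?_
      rw [norm_one]
      linarith [hV x hx]
    have e1 : deriv (Mel η l U W) τ = muW η l U W τ *
        sumZ l (fun x => beta l x * (1 + deriv (Vv l W) x)) τ := by
      rw [mel_eq, deriv_sumZ hl hl1 diffG bG0 hτ,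
        ← (mel_parts (T := fun x => 1 + deriv (Vv l W) x) hl hl1 bI bJ hE hper hT hτ).2]
      exact sumZ_congr_St (fun x hx => (dG x hx).deriv) hτ
    have l1 := (mel_beta (T := fun _ => 1) (M := 1) hl hl1 hρ (fun _ _ => by simp) hτ).1
    obtain ⟨l2, l3⟩ := mel_beta hl hl1 hρ hV hτ
    have e2 : sumZ l (fun x => beta l x * (1 + deriv (Vv l W) x)) τ =
        1 + sumZ l (fun x => beta l x * deriv (Vv l W) x) τ := by
      have e3 : sumZ l (fun x => beta l x * 1) τ = 1 := by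
        simp only [mul_one]
        exact sumZ_beta hl hl1 (St_mono hρ hτ)
      have e4 := l1.sumZ_add hl hl1 l2
      rw [e3] at e4
      rw [← e4]
      simp only [mul_add]
    rw [e1, e2, norm_mul]
    have h4 : 1 / 2 ≤ ‖1 + sumZ l (fun x => beta l x * deriv (Vv l W) x) τ‖ := by
      have h5 := norm_sub_le (1 + sumZ l (fun x => beta l x * deriv (Vv l W) x) τ)
        (sumZ l (fun x => beta l x * deriv (Vv l W) x) τ)
      rw [add_sub_cancel_right, norm_one] at h5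
      linarith
    nlinarith [norm_nonneg (muW η l U W τ)]
  · intro κ u W' hκ hCκ hu hP' hS' τ hτ
    have hu' : Pot ρ κ (fun a => (fun a => U a + u a) a - U a) := by
      have e : (fun a => (fun a => U a + u a) a - U a) = u := by funext a; simp
      rw [e]; exact hu
    have hl3' : l ^ 3 ≤ 1 := pow_le_one₀ hl.le (by linarith)
    have hκ1 : κ ≤ 1 := by nlinarith
    have bD : ∀ x ∈ St ρ, ‖W' x - W x‖ ≤ C1 * κ / l * w x.re := fun x hx => by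
      refine (hvar _ W' κ hP' hu' hS' x hx).1.trans ?_
      have := w_nonneg x.re
      gcongr
    have bV : ∀ x ∈ St ρ, ‖Vv l (fun a => W' a - W a) x‖ ≤ 6 * C1 * κ / l ^ 2 := fun x hx => by
      refine (norm_Vv_le hl hl1 bD hx).trans ?_
      calc _ ≤ 6 * (C1 * κ / l) / l * 1 := by
            gcongr; exact om_le_one _
        _ = _ := by field_simp
    obtain ⟨R, hR⟩ : ∃ R : ℝ, R = l ^ 3 / (C1 * κ) := ⟨_, rfl⟩
    have hCκ0 : 0 < C1 * κ := by positivity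
    have hR1 : 1 < R := by
      rw [hR, lt_div_iff₀ hCκ0]
      nlinarith
    have hRκ : R * κ ≤ 1 := by
      have e : R * κ = l ^ 3 / C1 := by rw [hR]; field_simp
      rw [e, div_le_one (by linarith)]
      linarith
    have hRl : R * (C1 * κ / l) = l ^ 2 := by rw [hR]; field_simp
    -- the error term
    have err : ∀ x ∈ St ρ, ‖melG η l (fun a => U a + u a) W' x - melG η l U W x -
        SU η u (Tt l W x) (Tt l W (x + l)) -
        (-melI η l U W x * Vv l (fun a => W' a - W a) x +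
          melJ η l U W x * Vv l (fun a => W' a - W a) (x + l))‖ ≤
        12 * K * C1 ^ 2 * κ ^ 2 / l ^ 6 * w x.re := by
      intro x hx
      have hx' := add_real_mem_St hx l
      have hw := w_nonneg x.re
      obtain ⟨X, hX⟩ : ∃ X : ℂ → ℂ, X = fun z => Tt l W x + z * Vv l (fun a => W' a - W a) x :=
        ⟨_, rfl⟩
      obtain ⟨Y, hY⟩ : ∃ Y : ℂ → ℂ,
          Y = fun z => Tt l W (x + l) + z * Vv l (fun a => W' a - W a) (x + l) := ⟨_, rfl⟩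
      have dX : ∀ z, HasDerivAt X (Vv l (fun a => W' a - W a) x) z := fun z => by
        rw [hX]
        simpa using ((hasDerivAt_id z).mul_const (Vv l (fun a => W' a - W a) x)).const_add
          (Tt l W x)
      have dY : ∀ z, HasDerivAt Y (Vv l (fun a => W' a - W a) (x + l)) z := fun z => by
        rw [hY]
        simpa using ((hasDerivAt_id z).mul_const (Vv l (fun a => W' a - W a) (x + l))).const_add
          (Tt l W (x + l))
      have bz : ∀ z ∈ Metric.ball (0 : ℂ) R, ∀ t ∈ St ρ,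
          ‖W t + z * (W' t - W t)‖ ≤ 2 * l ^ 2 * w t.re := by
        intro z hz t ht
        have h1 : ‖z‖ ≤ R := le_of_lt (by simpa using hz)
        have h2 := hS.bal.bd t ht
        have h3 : ‖z * (W' t - W t)‖ ≤ R * (C1 * κ / l * w t.re) := by
          rw [norm_mul]
          exact mul_le_mul h1 (bD t ht) (norm_nonneg _) (by linarith)
        rw [← mul_assoc, hRl] at h3
        refine (norm_add_le _ _).trans ?_
        linarith
      have eX : ∀ z, X z = Tt l (fun a => W a + z * (W' a - W a)) x := fun z => by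
        rw [hX]; exact (Tt_line hl hl1 hS.bal.bd bD z hx).symm
      have eY : ∀ z, Y z = Tt l (fun a => W a + z * (W' a - W a)) (x + l) := fun z => by
        rw [hY]; exact (Tt_line hl hl1 hS.bal.bd bD z hx').symm
      have dF : ∀ z ∈ Metric.ball (0 : ℂ) R, HasDerivAt
          (fun z => S0 η (mu l) (X z) (Y z) + SU η U (X z) (Y z) + z * SU η u (X z) (Y z)
            - Sst (mu l))
          (-(I0 η (mu l) (X z) (Y z) + IU η U (X z) (Y z)) * Vv l (fun a => W' a - W a) x +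
            (J0 η (mu l) (X z) (Y z) + JU η U (X z) (Y z)) * Vv l (fun a => W' a - W a) (x + l) +
            (SU η u (X z) (Y z) + z * (-IU η u (X z) (Y z) * Vv l (fun a => W' a - W a) x +
              JU η u (X z) (Y z) * Vv l (fun a => W' a - W a) (x + l)))) z := by
        intro z hz
        obtain ⟨h3, h4⟩ := (pt U _ _ hl4 hP (bz z hz) x hx).2.2.2.2 X Y z _ _ (dX z) (dY z)
          (eX z) (eY z)
        obtain ⟨-, h5⟩ := (pt u _ _ hκ1 hu (bz z hz) x hx).2.2.2.2 X Y z _ _ (dX z) (dY z)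
          (eX z) (eY z)
        rw [← eX, ← eY] at h3 h4 h5
        have h6 := ((h3.add h4).add ((hasDerivAt_id z).mul h5)).sub_const (Sst (mu l))
        refine h6.congr_deriv ?_
        simp only [id]
        ring
      have bF : ∀ z ∈ Metric.ball (0 : ℂ) R,
          ‖S0 η (mu l) (X z) (Y z) + SU η U (X z) (Y z) + z * SU η u (X z) (Y z) - Sst (mu l)‖ ≤
            3 * K * w x.re := by
        intro z hz
        have h1 : ‖z‖ ≤ R := le_of_lt (by simpa using hz)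
        obtain ⟨h3, h4, -⟩ := pt U _ _ hl4 hP (bz z hz) x hx
        obtain ⟨-, h5, -⟩ := pt u _ _ hκ1 hu (bz z hz) x hx
        rw [← eX, ← eY] at h3 h4 h5
        have h6 : ‖z * SU η u (X z) (Y z)‖ ≤ K * w x.re := by
          rw [norm_mul]
          calc _ ≤ R * (K * κ * w x.re) := mul_le_mul h1 h5 (norm_nonneg _) (by linarith)
            _ = (R * κ) * (K * w x.re) := by ring
            _ ≤ 1 * (K * w x.re) := by gcongr
            _ = _ := one_mul _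
        have h7 : K * l ^ 4 * w x.re ≤ K * 1 * w x.re := by gcongr
        have e : S0 η (mu l) (X z) (Y z) + SU η U (X z) (Y z) + z * SU η u (X z) (Y z) -
            Sst (mu l) = (S0 η (mu l) (X z) (Y z) - Sst (mu l)) + SU η U (X z) (Y z) +
              z * SU η u (X z) (Y z) := by ring
        rw [e]
        refine norm_add₃_le.trans ?_
        linarith
      have h0m : (0 : ℂ) ∈ Metric.ball (0 : ℂ) R := Metric.mem_ball_self (by linarith)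
      have h1m : (1 : ℂ) ∈ Metric.ball (0 : ℂ) R := by simpa using hR1
      have key := schwarz2 (fun z hz => (dF z hz).differentiableAt.differentiableWithinAt) bF
        (dF 0 h0m) h1m
      have X0 : X 0 = Tt l W x := by rw [hX]; simp
      have Y0 : Y 0 = Tt l W (x + l) := by rw [hY]; simp
      have X1 : X 1 = Tt l W' x := by rw [eX]; congr 1; funext a; ring
      have Y1 : Y 1 = Tt l W' (x + l) := by rw [eY]; congr 1; funext a; ring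
      simp only [X0, Y0, X1, Y1, sub_zero, norm_one] at key
      refine le_trans (le_of_eq ?_) (key.trans (le_of_eq ?_))
      · congr 1
        unfold melG melI melJ
        have e : SU η (fun a => U a + u a) (Tt l W' x) (Tt l W' (x + l)) =
            SU η U (Tt l W' x) (Tt l W' (x + l)) + SU η u (Tt l W' x) (Tt l W' (x + l)) := by
          unfold SU; ring
        rw [e]; ring
      · rw [hR]; field_simp; ring
    have lE := lineBd_of_St0 err hτ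
    have lG' := lineBd_of_St0 (bG _ W' hP' hS'.bal) hτ
    have lG := lineBd_of_St0 (bG U W hP hS.bal) hτ
    have bP : ∀ x ∈ St ρ, ‖SU η u (Tt l W x) (Tt l W (x + l))‖ ≤ K * κ * w x.re := fun x hx =>
      (pt u W _ hκ1 hu hW2 x hx).2.1
    have lP := lineBd_of_St0 bP hτ
    obtain ⟨lD, eD⟩ := mel_parts hl hl1 bI bJ hE hper bV hτ
    have l1 : LineBd (fun x => melG η l (fun a => U a + u a) W' x - melG η l U W x) τ
        (2 * K + 2 * K) 0 := fun a => (norm_sub_le _ _).trans (by linarith [lG' a, lG a])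
    have l2 : LineBd (fun x => melG η l (fun a => U a + u a) W' x - melG η l U W x -
        SU η u (Tt l W x) (Tt l W (x + l))) τ (2 * K + 2 * K + K * κ) 0 :=
      fun a => (norm_sub_le _ _).trans (by linarith [l1 a, lP a])
    have n1 := lE.norm_sumZ hl hl1
    rw [l2.sumZ_sub hl hl1 lD, l1.sumZ_sub hl hl1 lP, lG'.sumZ_sub hl hl1 lG, eD] at n1
    have n2 := (mel_beta hl hl1 hρ bV hτ).2
    have e : Mel η l (fun a => U a + u a) W' τ - Mel η l U W τ - Pp η l W u τ =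
        (sumZ l (melG η l (fun a => U a + u a) W') τ - sumZ l (melG η l U W) τ -
          sumZ l (fun x => SU η u (Tt l W x) (Tt l W (x + l))) τ -
          muW η l U W τ * sumZ l (fun x => beta l x * Vv l (fun a => W' a - W a) x) τ) +
          muW η l U W τ * sumZ l (fun x => beta l x * Vv l (fun a => W' a - W a) x) τ := by
      rw [sub_add_cancel]; rfl
    rw [e]
    refine (norm_add_le _ _).trans (add_le_add (n1.trans ?_) ?_)
    · calc 11 * (12 * K * C1 ^ 2 * κ ^ 2 / l ^ 6) / l = 132 * K * C1 ^ 2 * κ ^ 2 / l ^ 7 := by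
            field_simp; norm_num
        _ ≤ _ := by gcongr
    · rw [norm_mul, mul_comm]
      refine mul_le_mul_of_nonneg_right (n2.trans ?_) (norm_nonneg _)
      calc 1100 * (6 * C1 * κ / l ^ 2) = 6600 * C1 * κ / l ^ 2 := by ring
        _ ≤ _ := by gcongr

end Pool.Agent.MP_be9872_an

end

-- part MP_be9872_an.Env
section

set_option autoImplicit false
open Complex Filter Topology Metric

namespace Pool.Agent.MP_be9872_an

lemma env_differentiable_Eb (ν : ℝ) : Differentiable ℂ (Eb ν) := by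
  unfold Eb; fun_prop

lemma env_differentiable_be (k : ℕ) (l ν : ℝ) : Differentiable ℂ (be k l ν) := by
  unfold be Eb; fun_prop

theorem differentiable_bb (k : ℕ) (l ν : ℝ) : Differentiable ℂ (bb k l ν) := by
  unfold bb be Eb; fun_prop

theorem isRe_bb (k : ℕ) (l ν : ℝ) : IsRe (bb k l ν) := by
  intro x
  have : bb k l ν x = (((ν * Real.exp (-(x - cst l))) ^ k *
      (Real.exp (-(ν ^ 2 * Real.exp (-2 * (x - cst l)))) -
        Real.exp (-(ν ^ 2 * Real.exp (-2 * (x - cst l - l))))) *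
      Real.exp (-Real.exp x) : ℝ) : ℂ) := by
    unfold bb be Eb; push_cast; rfl
  rw [this, ofReal_im]

theorem be_one_mul (l ν : ℝ) (τ : ℂ) : be 1 l ν τ * exp τ = ν * be 0 l ν τ := by
  unfold be
  have h : exp (-τ) * exp τ = 1 := by rw [← exp_add]; simp
  rw [pow_one, pow_zero, one_mul]
  linear_combination (ν * (Eb ν τ - Eb ν (τ - l))) * h

theorem env_le (k : ℕ) {l ν : ℝ} (hl : 0 ≤ l) (hν : 0 < ν) (x : ℝ) (j : ℕ) (hj : j ≤ k + 1) :
    env k l ν x * Real.exp x ^ j ≤ l * ν ^ j * w (x - Real.log ν) := by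
  unfold env
  have h1 : om (Real.log ν - x) ^ (k + 1) ≤ om (Real.log ν - x) ^ j :=
    pow_le_pow_of_le_one (om_nonneg _) (om_le_one _) hj
  have h2 : om (Real.log ν - x) ^ j ≤ Real.exp (Real.log ν - x) ^ j :=
    pow_le_pow_left₀ (om_nonneg _) (om_le_exp _) j
  have h3 : Real.exp (Real.log ν - x) ^ j * Real.exp x ^ j = ν ^ j := by
    rw [← mul_pow, ← Real.exp_add, sub_add_cancel, Real.exp_log hν]
  have hw := w_nonneg (x - Real.log ν)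
  have he : 0 ≤ Real.exp x ^ j := by positivity
  calc l * w (x - Real.log ν) * om (Real.log ν - x) ^ (k + 1) * Real.exp x ^ j
      ≤ l * w (x - Real.log ν) * Real.exp (Real.log ν - x) ^ j * Real.exp x ^ j := by
        gcongr
        exact h1.trans h2
    _ = l * ν ^ j * w (x - Real.log ν) := by rw [← h3]; ring

lemma env_cst {l : ℝ} (hl : 0 ≤ l) : 0 ≤ cst l ∧ cst l ≤ l := by
  have h1 : 1 ≤ Real.exp l := Real.one_le_exp hl
  unfold cst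
  constructor
  · exact Real.log_nonneg (by linarith)
  · rw [Real.log_le_iff_le_exp (by linarith)]; linarith

lemma env_pow_exp (M : ℕ) : ∃ C : ℝ, 0 < C ∧ ∀ m ≤ M, ∀ r : ℝ, 0 ≤ r →
    r ^ m * Real.exp (-(r ^ 2 / 50)) ≤ C := by
  refine ⟨1 + 50 ^ M * (M.factorial : ℝ), by positivity, fun m hm r hr => ?_⟩
  have hE : Real.exp (-(r ^ 2 / 50)) ≤ 1 := by
    rw [Real.exp_le_one_iff]; have : 0 ≤ r ^ 2 / 50 := by positivity
    linarith
  have hE0 := Real.exp_pos (-(r ^ 2 / 50))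
  have hp : (0 : ℝ) ≤ 50 ^ M * (M.factorial : ℝ) := by positivity
  rcases le_total r 1 with h | h
  · have : r ^ m ≤ 1 := pow_le_one₀ hr h
    have h2 : r ^ m * Real.exp (-(r ^ 2 / 50)) ≤ 1 := mul_le_one₀ this hE0.le hE
    linarith
  · have h1 : r ^ m ≤ r ^ (2 * M) := pow_le_pow_right₀ h (by omega)
    have h2 := Real.pow_div_factorial_le_exp (r ^ 2 / 50) (by positivity) M
    have hf : (0 : ℝ) < M.factorial := by positivity
    rw [div_le_iff₀ hf, div_pow, div_le_iff₀ (by positivity), ← pow_mul] at h2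
    have h3 : Real.exp (r ^ 2 / 50) * Real.exp (-(r ^ 2 / 50)) = 1 := by
      rw [← Real.exp_add]; simp
    calc r ^ m * Real.exp (-(r ^ 2 / 50))
        ≤ (Real.exp (r ^ 2 / 50) * (M.factorial : ℝ) * 50 ^ M) * Real.exp (-(r ^ 2 / 50)) :=
          mul_le_mul_of_nonneg_right (h1.trans h2) hE0.le
      _ = 50 ^ M * (M.factorial : ℝ) := by linear_combination (50 ^ M * (M.factorial : ℝ)) * h3
      _ ≤ _ := by linarith

lemma env_pow_exp' (j : ℕ) {s : ℝ} (hs : 0 ≤ s) :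
    s ^ j * Real.exp (-(s / 2)) ≤ 2 ^ j * (j.factorial : ℝ) := by
  have h2 := Real.pow_div_factorial_le_exp (s / 2) (by positivity) j
  have hf : (0 : ℝ) < j.factorial := by positivity
  rw [div_le_iff₀ hf, div_pow, div_le_iff₀ (by positivity)] at h2
  have h3 : Real.exp (s / 2) * Real.exp (-(s / 2)) = 1 := by
    rw [← Real.exp_add]; simp
  calc s ^ j * Real.exp (-(s / 2))
      ≤ (Real.exp (s / 2) * (j.factorial : ℝ) * 2 ^ j) * Real.exp (-(s / 2)) :=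
        mul_le_mul_of_nonneg_right h2 (Real.exp_pos _).le
    _ = 2 ^ j * (j.factorial : ℝ) := by linear_combination (2 ^ j * (j.factorial : ℝ)) * h3

lemma env_norm_zeta {ν : ℝ} (u : ℂ) :
    ‖(ν : ℂ) ^ 2 * exp (-2 * u)‖ = (ν * Real.exp (-u.re)) ^ 2 := by
  rw [norm_mul, norm_pow, norm_exp, mul_pow, ← Real.exp_nat_mul, norm_real, Real.norm_eq_abs,
    sq_abs]
  congr 2
  simp

lemma env_re_zeta {ν : ℝ} {u : ℂ} (hu : u ∈ St (7 / 10)) :
    (ν * Real.exp (-u.re)) ^ 2 / 50 ≤ ((ν : ℂ) ^ 2 * exp (-2 * u)).re := by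
  have h1 : ((ν : ℂ) ^ 2 * exp (-2 * u)).re =
      (ν * Real.exp (-u.re)) ^ 2 * Real.cos (-2 * u.im) := by
    rw [← ofReal_pow, re_ofReal_mul, exp_re, mul_pow, ← Real.exp_nat_mul]
    have e1 : (-2 * u).re = ((2 : ℕ) : ℝ) * -u.re := by simp
    have e2 : (-2 * u).im = -2 * u.im := by simp
    rw [e1, e2]; ring
  rw [h1]
  have h2 := Real.one_sub_sq_div_two_le_cos (x := -2 * u.im)
  have h3 : |u.im| < 7 / 10 := hu
  have h4 : u.im ^ 2 ≤ (7 / 10) ^ 2 := by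
    rw [← sq_abs]; exact pow_le_pow_left₀ (abs_nonneg _) h3.le 2
  have h5 : 1 / 50 ≤ Real.cos (-2 * u.im) := by nlinarith
  have h6 : 0 ≤ (ν * Real.exp (-u.re)) ^ 2 := sq_nonneg _
  nlinarith

lemma env_norm_Eb {ν : ℝ} {u : ℂ} (hu : u ∈ St (7 / 10)) :
    ‖Eb ν u‖ ≤ Real.exp (-((ν * Real.exp (-u.re)) ^ 2 / 50)) := by
  unfold Eb
  rw [norm_exp, Real.exp_le_exp, neg_re]
  linarith [env_re_zeta (ν := ν) hu]

lemma env_hasDerivAt_Eb (ν : ℝ) (u : ℂ) :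
    HasDerivAt (Eb ν) (2 * ((ν : ℂ) ^ 2 * exp (-2 * u)) * Eb ν u) u := by
  have h1 : HasDerivAt (fun u : ℂ => -2 * u) (-2) u := by
    simpa using (hasDerivAt_id u).const_mul (-2 : ℂ)
  have h2 : HasDerivAt (Eb ν) (Eb ν u * -((ν : ℂ) ^ 2 * (exp (-2 * u) * -2))) u :=
    ((h1.cexp.const_mul ((ν : ℂ) ^ 2)).neg).cexp
  refine h2.congr_deriv ?_
  ring

lemma env_Eb_sub {l ν : ℝ} (hl : 0 < l) (hl1 : l ≤ 1 / 10) (hν : 0 < ν) {τ : ℂ}
    (hτ : τ ∈ St (7 / 10)) :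
    ‖Eb ν τ - Eb ν (τ - l)‖ ≤ 3 * l * ((ν * Real.exp (-τ.re)) ^ 2 *
      Real.exp (-((ν * Real.exp (-τ.re)) ^ 2 / 50))) := by
  set r := ν * Real.exp (-τ.re) with hr
  have hr0 : 0 < r := by positivity
  let s : Set ℂ := St (7 / 10) ∩ ({u : ℂ | τ.re - l ≤ u.re} ∩ {u : ℂ | u.re ≤ τ.re})
  have hs : Convex ℝ s :=
    (convex_St _).inter ((convex_halfSpace_re_ge _).inter (convex_halfSpace_re_le _))
  have hb : ∀ u ∈ s, ‖2 * ((ν : ℂ) ^ 2 * exp (-2 * u)) * Eb ν u‖ ≤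
      3 * (r ^ 2 * Real.exp (-(r ^ 2 / 50))) := by
    rintro u ⟨hu, hu1, hu2⟩
    simp only [Set.mem_ofPred_eq] at hu1 hu2
    rw [norm_mul, norm_mul, env_norm_zeta]
    have e1 : r ≤ ν * Real.exp (-u.re) := by
      rw [hr]; gcongr
    have e2 : ν * Real.exp (-u.re) ≤ r * Real.exp l := by
      rw [hr, mul_assoc, ← Real.exp_add]; gcongr; linarith
    have e3 : Real.exp l ≤ 6 / 5 := by
      have := exp_le_one_add_two_mul hl.le (by linarith); linarith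
    have e4 : ν * Real.exp (-u.re) ≤ r * (6 / 5) := e2.trans (by gcongr)
    have e5 : (ν * Real.exp (-u.re)) ^ 2 ≤ 3 / 2 * r ^ 2 := by
      have : (ν * Real.exp (-u.re)) ^ 2 ≤ (r * (6 / 5)) ^ 2 :=
        pow_le_pow_left₀ (by positivity) e4 2
      nlinarith [sq_nonneg r]
    have e6 : ‖Eb ν u‖ ≤ Real.exp (-(r ^ 2 / 50)) := by
      refine (env_norm_Eb hu).trans ?_
      rw [Real.exp_le_exp]
      have : r ^ 2 ≤ (ν * Real.exp (-u.re)) ^ 2 := pow_le_pow_left₀ hr0.le e1 2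
      linarith
    have e7 : ‖(2 : ℂ)‖ = 2 := by simp
    rw [e7]
    calc 2 * (ν * Real.exp (-u.re)) ^ 2 * ‖Eb ν u‖
        ≤ 2 * (3 / 2 * r ^ 2) * Real.exp (-(r ^ 2 / 50)) := by gcongr
      _ = _ := by ring
  have hx : τ - l ∈ s := ⟨sub_real_mem_St hτ l, by simp, by simp; linarith⟩
  have hy : τ ∈ s := ⟨hτ, by simp; linarith, by simp⟩
  have := mvt hs (fun u _ => env_hasDerivAt_Eb ν u) hb hx hy
  rw [sub_sub_cancel, norm_real, Real.norm_eq_abs, abs_of_pos hl] at this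
  linarith

lemma env_be_le (k : ℕ) {l ν : ℝ} (hl : 0 < l) (hl1 : l ≤ 1 / 10) (hν : 0 < ν) {τ : ℂ}
    (hτ : τ ∈ St (7 / 10)) :
    ‖be k l ν τ‖ ≤ 3 * l * ((ν * Real.exp (-τ.re)) ^ (k + 2) *
      Real.exp (-((ν * Real.exp (-τ.re)) ^ 2 / 50))) := by
  unfold be
  rw [norm_mul, norm_pow, norm_mul, norm_exp, norm_real, Real.norm_eq_abs, abs_of_pos hν, neg_re]
  have h := env_Eb_sub hl hl1 hν hτ
  have h0 : 0 ≤ (ν * Real.exp (-τ.re)) ^ k := by positivity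
  refine (mul_le_mul_of_nonneg_left h h0).trans (le_of_eq ?_)
  ring

lemma env_nonneg (k : ℕ) {l : ℝ} (hl : 0 ≤ l) (ν x : ℝ) : 0 ≤ env k l ν x := by
  unfold env
  have := w_nonneg (x - Real.log ν)
  have := om_nonneg (Real.log ν - x)
  positivity

lemma env_be_env : ∃ C : ℝ, 0 < C ∧ ∀ (k : ℕ) (l ν : ℝ) (τ : ℂ), k ≤ 1 → 0 < l → l ≤ 1 / 10 →
    0 < ν → τ ∈ St (7 / 10) → ‖be k l ν τ‖ ≤ C * env k l ν τ.re := by
  obtain ⟨C, hC, h⟩ := env_pow_exp 4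
  refine ⟨3 * C, by positivity, fun k l ν τ hk hl hl1 hν hτ => ?_⟩
  refine (env_be_le k hl hl1 hν hτ).trans ?_
  have hr : ν * Real.exp (-τ.re) = Real.exp (Real.log ν - τ.re) := by
    rw [sub_eq_add_neg, Real.exp_add, Real.exp_log hν]
  set r := ν * Real.exp (-τ.re) with hr'
  have hr0 : 0 < r := by positivity
  unfold env
  rcases le_total (Real.log ν - τ.re) 0 with hx | hx
  · rw [om_of_nonpos hx, w_of_nonneg (by linarith), neg_sub, ← hr]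
    have h1 := h 0 (by norm_num) r hr0.le
    rw [pow_zero, one_mul] at h1
    calc 3 * l * (r ^ (k + 2) * Real.exp (-(r ^ 2 / 50))) ≤ 3 * l * (r ^ (k + 2) * C) := by
          gcongr
      _ = _ := by ring
  · rw [om_of_nonneg hx, w_of_nonpos (by linarith), one_pow, mul_one]
    have h1 := h (k + 3) (by omega) r hr0.le
    have h2 : r * Real.exp (τ.re - Real.log ν) = 1 := by
      rw [hr, ← Real.exp_add]; simp
    have h3 := Real.exp_pos (τ.re - Real.log ν)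
    calc 3 * l * (r ^ (k + 2) * Real.exp (-(r ^ 2 / 50)))
        = 3 * l * Real.exp (τ.re - Real.log ν) * (r ^ (k + 3) * Real.exp (-(r ^ 2 / 50))) := by
          linear_combination
            (-(3 * l * (r ^ (k + 2) * Real.exp (-(r ^ 2 / 50))))) * h2
      _ ≤ 3 * l * Real.exp (τ.re - Real.log ν) * C := by gcongr
      _ = _ := by ring

lemma env_move {k : ℕ} (hk : k ≤ 1) {l : ℝ} (hl : 0 ≤ l) (ν : ℝ) {x y : ℝ}
    (h : |y - x| ≤ 1 / 2) : env k l ν y ≤ 8 * env k l ν x := by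
  unfold env
  have h1 : w (y - Real.log ν) ≤ 2 * w (x - Real.log ν) :=
    w_le_two_mul (by rwa [sub_sub_sub_cancel_right])
  have h2 : om (Real.log ν - y) ≤ 2 * om (Real.log ν - x) :=
    om_le_two_mul (by rwa [sub_sub_sub_cancel_left, abs_sub_comm])
  have h3 : om (Real.log ν - y) ^ (k + 1) ≤ 4 * om (Real.log ν - x) ^ (k + 1) := by
    refine (pow_le_pow_left₀ (om_nonneg _) h2 _).trans ?_
    rw [mul_pow]
    have : (2 : ℝ) ^ (k + 1) ≤ 2 ^ 2 := pow_le_pow_right₀ (by norm_num) (by omega)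
    have h0 : 0 ≤ om (Real.log ν - x) ^ (k + 1) := pow_nonneg (om_nonneg _) _
    nlinarith
  have hw := w_nonneg (x - Real.log ν)
  have h0 : 0 ≤ om (Real.log ν - y) ^ (k + 1) := pow_nonneg (om_nonneg _) _
  calc l * w (y - Real.log ν) * om (Real.log ν - y) ^ (k + 1)
      ≤ l * (2 * w (x - Real.log ν)) * (4 * om (Real.log ν - x) ^ (k + 1)) := by gcongr
    _ = _ := by ring

theorem sumZ_be {l ν : ℝ} (hl : 0 < l) (hl1 : l ≤ 1 / 10) (hν : 0 < ν) {τ : ℂ}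
    (hτ : τ ∈ St (1 / 2)) : sumZ l (be 0 l ν) τ = 1 := by
  obtain ⟨C, hC, h⟩ := env_be_env
  have hτ' : τ ∈ St (7 / 10) := St_mono (by norm_num) hτ
  have hb : LineBd (be 0 l ν) τ (C * l) (Real.log ν) := by
    refine lineBd_of_St (fun u hu => ?_) hτ'
    refine (h 0 l ν u (by norm_num) hl hl1 hν hu).trans ?_
    have := env_le 0 hl.le hν u.re 0 (by norm_num)
    simp only [pow_zero, mul_one] at this
    rw [mul_assoc]
    exact mul_le_mul_of_nonneg_left this hC.le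
  have he : be 0 l ν = fun x => Eb ν x - Eb ν (x - l) := by
    ext x; unfold be; simp
  have hL := (hb.left hl hl1).1
  have hR := (hb.right hl hl1).1
  rw [he] at hL hR
  have hn : Tendsto (fun n : ℕ => (n : ℝ) * l) atTop atTop :=
    tendsto_natCast_atTop_atTop.atTop_mul_const hl
  have ha : Tendsto (fun n : ℕ => Eb ν (τ - (n * l : ℝ))) atTop (𝓝 0) := by
    rw [tendsto_zero_iff_norm_tendsto_zero]
    refine squeeze_zero (fun _ => norm_nonneg _)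
      (fun n => env_norm_Eb (sub_real_mem_St hτ' _)) ?_
    refine Real.tendsto_exp_atBot.comp (tendsto_neg_atTop_atBot.comp ?_)
    refine Tendsto.atTop_div_const (by norm_num) ?_
    refine (tendsto_pow_atTop two_ne_zero).comp (Tendsto.const_mul_atTop hν ?_)
    refine Real.tendsto_exp_atTop.comp ?_
    have : (fun n : ℕ => -(τ - ((n * l : ℝ) : ℂ)).re) = fun n : ℕ => -τ.re + n * l := by
      ext n; rw [sub_re, ofReal_re]; ring
    rw [this]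
    exact tendsto_atTop_add_const_left _ _ hn
  have hb' : Tendsto (fun n : ℕ => Eb ν (τ + (n * l : ℝ))) atTop (𝓝 1) := by
    have h1 : Tendsto (fun n : ℕ => exp (-2 * (τ + (n * l : ℝ)))) atTop (𝓝 0) := by
      rw [tendsto_zero_iff_norm_tendsto_zero]
      simp only [norm_exp]
      refine Real.tendsto_exp_atBot.comp ?_
      have : (fun n : ℕ => (-2 * (τ + ((n * l : ℝ) : ℂ))).re) =
          fun n : ℕ => -2 * τ.re + -(2 * (n * l)) := by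
        ext n
        simp only [neg_mul, neg_re, mul_re, add_re, ofReal_re, add_im, ofReal_im, re_ofNat,
          im_ofNat]
        ring
      rw [this]
      exact tendsto_atBot_add_const_left _ _
        (tendsto_neg_atTop_atBot.comp (Tendsto.const_mul_atTop two_pos hn))
    have h2 : Continuous (fun z : ℂ => exp (-((ν : ℂ) ^ 2 * z))) := by fun_prop
    have h3 := (h2.tendsto 0).comp h1
    simpa [Eb, Function.comp_def] using h3
  unfold sumZ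
  rw [he, sumL_tele hL ha, sumR_tele hR hb']
  ring

lemma env_norm_cut {u : ℂ} (hu : u ∈ St (7 / 10)) :
    ‖exp (-exp u)‖ ≤ Real.exp (-(Real.exp u.re / 2)) := by
  rw [norm_exp, Real.exp_le_exp, neg_re, exp_re]
  have h2 := Real.one_sub_sq_div_two_le_cos (x := u.im)
  have h3 : |u.im| < 7 / 10 := hu
  have h4 : u.im ^ 2 ≤ (7 / 10) ^ 2 := by
    rw [← sq_abs]; exact pow_le_pow_left₀ (abs_nonneg _) h3.le 2
  have h5 : 1 / 2 ≤ Real.cos u.im := by nlinarith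
  have h6 := Real.exp_pos u.re
  nlinarith

lemma env_norm_cut_le_one {u : ℂ} (hu : u ∈ St (7 / 10)) : ‖exp (-exp u)‖ ≤ 1 := by
  refine (env_norm_cut hu).trans ?_
  rw [Real.exp_le_one_iff]
  have := Real.exp_pos u.re
  linarith

lemma env_norm_cut_sub {u : ℂ} (hu : u ∈ St (7 / 10)) :
    ‖exp (-exp u) - 1‖ ≤ 2 * Real.exp u.re := by
  have hn : ‖-exp u‖ = Real.exp u.re := by rw [norm_neg, norm_exp]
  rcases le_total (Real.exp u.re) 1 with h | h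
  · rw [← hn]; exact Complex.norm_exp_sub_one_le (by rwa [hn])
  · have h1 := env_norm_cut_le_one hu
    have h2 := norm_sub_le (exp (-exp u)) 1
    rw [norm_one] at h2
    linarith

theorem env_est : ∃ C : ℝ, 0 < C ∧ ∀ (k : ℕ) (l ν : ℝ) (τ : ℂ), k ≤ 1 → 0 < l → l ≤ 1 / 100 →
    0 < ν → τ ∈ St (1 / 2) →
      ‖be k l ν τ‖ ≤ C * env k l ν τ.re ∧
      ∀ a : ℂ, ‖a - τ‖ ≤ 1 / 20 →
        ‖bb k l ν a‖ ≤ C * env k l ν τ.re ∧
        ‖bb k l ν a - be k l ν τ‖ ≤ C * env k l ν τ.re * (‖a - τ - cst l‖ + Real.exp τ.re) ∧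
        ∀ b : ℂ, ‖b - τ‖ ≤ 1 / 20 →
          ‖bb k l ν a - bb k l ν b‖ ≤ C * env k l ν τ.re * ‖a - b‖ := by
  obtain ⟨C, hC, h⟩ := env_be_env
  refine ⟨120 * C, by positivity, fun k l ν τ hk hl hl1 hν hτ => ?_⟩
  have hl1' : l ≤ 1 / 10 := by linarith
  have hE := env_nonneg k hl.le ν τ.re
  obtain ⟨hc0, hc1⟩ := env_cst hl.le
  set B := 8 * C * env k l ν τ.re with hB
  have hB0 : 0 ≤ B := by positivity
  have hBle : 120 * C * env k l ν τ.re = 15 * B := by rw [hB]; ring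
  rw [hBle]
  have hSt : ∀ u : ℂ, ‖u - τ‖ ≤ 1 / 5 → u ∈ St (7 / 10) := fun u hu => by
    have := mem_St_of_norm_sub hτ hu
    norm_num at this ⊢; exact this
  have hbe : ∀ u : ℂ, u ∈ St (7 / 10) → |u.re - τ.re| ≤ 1 / 2 → ‖be k l ν u‖ ≤ B := by
    intro u hu hu2
    refine (h k l ν u hk hl hl1' hν hu).trans ?_
    have := mul_le_mul_of_nonneg_left (env_move hk hl.le ν hu2) hC.le
    rw [hB]; linarith
  have hbe1 : ∀ u : ℂ, ‖u - τ‖ ≤ 1 / 5 → ‖be k l ν u‖ ≤ B := fun u hu =>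
    hbe u (hSt u hu) ((abs_re_sub_le u τ).trans (by linarith))
  have hbe2 : ∀ u : ℂ, ‖u - τ‖ ≤ 1 / 5 → ‖be k l ν (u - cst l)‖ ≤ B := fun u hu => by
    refine hbe _ (sub_real_mem_St (hSt u hu) _) ?_
    have h1 := abs_le.1 ((abs_re_sub_le u τ).trans hu)
    rw [sub_re, ofReal_re, abs_le]
    constructor <;> linarith [h1.1, h1.2]
  have hbb : ∀ u : ℂ, ‖u - τ‖ ≤ 1 / 5 → ‖bb k l ν u‖ ≤ B := fun u hu => by
    unfold bb
    rw [norm_mul]
    have := mul_le_mul (hbe2 u hu) (env_norm_cut_le_one (hSt u hu)) (norm_nonneg _) hB0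
    rwa [mul_one] at this
  refine ⟨(hbe1 τ (by simp)).trans (by linarith), fun a ha => ⟨?_, ?_, fun b hb => ?_⟩⟩
  · exact (hbb a (by linarith)).trans (by linarith)
  · have e : bb k l ν a - be k l ν τ = be k l ν (a - cst l) * (exp (-exp a) - 1) +
        (be k l ν (a - cst l) - be k l ν τ) := by unfold bb; ring
    have h1 : ‖be k l ν (a - cst l) * (exp (-exp a) - 1)‖ ≤ B * (4 * Real.exp τ.re) := by
      rw [norm_mul]
      refine mul_le_mul (hbe2 a (by linarith)) ?_ (norm_nonneg _) hB0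
      refine (env_norm_cut_sub (hSt a (by linarith))).trans ?_
      have h2 := abs_le.1 ((abs_re_sub_le a τ).trans ha)
      have h3 : Real.exp a.re = Real.exp (a.re - τ.re) * Real.exp τ.re := by
        rw [← Real.exp_add, sub_add_cancel]
      have h4 : Real.exp (a.re - τ.re) ≤ 2 := exp_le_two (by linarith [h2.2])
      have h5 := Real.exp_pos τ.re
      rw [h3]; nlinarith
    have hm : a - cst l ∈ ball τ (1 / 5) := by
      rw [mem_ball_iff_norm]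
      have h2 : a - cst l - τ = (a - τ) - cst l := by ring
      have h3 := norm_sub_le (a - τ) (cst l)
      rw [norm_real, Real.norm_eq_abs, abs_of_nonneg hc0] at h3
      rw [h2]; linarith
    have h2 := schwarz1 (f := be k l ν) (c := τ) (R := 1 / 5) (B := B)
      (env_differentiable_be k l ν).differentiableOn
      (fun u hu => hbe1 u (le_of_lt (mem_ball_iff_norm.1 hu))) hm
    have h3 : a - cst l - τ = a - τ - cst l := by ring
    rw [h3] at h2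
    have h4 := norm_add_le (be k l ν (a - cst l) * (exp (-exp a) - 1))
      (be k l ν (a - cst l) - be k l ν τ)
    rw [e]
    have h5 := mul_nonneg hB0 (Real.exp_pos τ.re).le
    have h6 := mul_nonneg hB0 (norm_nonneg (a - τ - cst l))
    have h7 : 2 * B / (1 / 5) * ‖a - τ - cst l‖ = 10 * (B * ‖a - τ - cst l‖) := by ring
    rw [h7] at h2
    nlinarith
  · have hm : a ∈ ball b (3 / 20) := by
      rw [mem_ball_iff_norm]
      have h2 : a - b = (a - τ) - (b - τ) := by ring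
      have h3 := norm_sub_le (a - τ) (b - τ)
      rw [h2]; linarith
    have h2 := schwarz1 (f := bb k l ν) (c := b) (R := 3 / 20) (B := B)
      (differentiable_bb k l ν).differentiableOn
      (fun u hu => hbb u (by
        have h1 := mem_ball_iff_norm.1 hu
        have h2 : u - τ = (u - b) + (b - τ) := by ring
        have h3 := norm_add_le (u - b) (b - τ)
        rw [h2]; linarith)) hm
    have h6 := mul_nonneg hB0 (norm_nonneg (a - b))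
    have h7 : 2 * B / (3 / 20) * ‖a - b‖ = 40 / 3 * (B * ‖a - b‖) := by ring
    rw [h7] at h2
    nlinarith

theorem bb_flat (j : ℕ) : ∃ C : ℝ, 0 < C ∧ ∀ (k : ℕ) (l ν : ℝ) (τ : ℂ), k ≤ 1 → 0 < l →
    l ≤ 1 / 100 → 0 < ν → ν ≤ 1 → τ ∈ St (1 / 2) →
      ‖bb k l ν τ‖ ≤ C * l / ν ^ j * w τ.re ^ j := by
  obtain ⟨C, hC, h⟩ := env_pow_exp (j + 3)
  have hf : (1 : ℝ) ≤ 2 ^ j * (j.factorial : ℝ) := by
    have h1 : (1 : ℝ) ≤ 2 ^ j := one_le_pow₀ (by norm_num)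
    have h2 : (1 : ℝ) ≤ j.factorial := by exact_mod_cast Nat.one_le_iff_ne_zero.2 j.factorial_ne_zero
    nlinarith
  set D : ℝ := 2 ^ j * (j.factorial : ℝ) with hD
  refine ⟨3 * C * D, by positivity, fun k l ν τ hk hl hl1 hν hν1 hτ => ?_⟩
  have hτ' : τ ∈ St (7 / 10) := St_mono (by norm_num) hτ
  obtain ⟨hc0, hc1⟩ := env_cst hl.le
  have h1 := env_be_le k hl (by linarith) hν (sub_real_mem_St hτ' (cst l))
  set r := ν * Real.exp (-(τ - cst l).re) with hr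
  have hr0 : 0 < r := by positivity
  have hνj : 0 < ν ^ j := by positivity
  unfold bb
  rw [norm_mul]
  rcases le_total τ.re 0 with hx | hx
  · rw [w_of_nonpos hx]
    have h2 := h (k + 2 + j) (by omega) r hr0.le
    have h3 : ν ≤ r * Real.exp τ.re := by
      rw [hr, mul_assoc, ← Real.exp_add, sub_re, ofReal_re]
      have : 1 ≤ Real.exp (-(τ.re - cst l) + τ.re) := Real.one_le_exp (by linarith)
      nlinarith
    have h4 : ν ^ j ≤ r ^ j * Real.exp τ.re ^ j := by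
      rw [← mul_pow]; exact pow_le_pow_left₀ hν.le h3 j
    have h5 : ‖be k l ν (τ - cst l)‖ * ‖exp (-exp τ)‖ ≤
        3 * l * (r ^ (k + 2) * Real.exp (-(r ^ 2 / 50))) := by
      have := mul_le_mul h1 (env_norm_cut_le_one hτ') (norm_nonneg _) (by positivity)
      rwa [mul_one] at this
    refine h5.trans ?_
    rw [div_mul_eq_mul_div, le_div_iff₀ hνj]
    have he : 0 < Real.exp τ.re ^ j := by positivity
    calc 3 * l * (r ^ (k + 2) * Real.exp (-(r ^ 2 / 50))) * ν ^ j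
        ≤ 3 * l * (r ^ (k + 2) * Real.exp (-(r ^ 2 / 50))) * (r ^ j * Real.exp τ.re ^ j) := by
          gcongr
      _ = 3 * l * Real.exp τ.re ^ j * (r ^ (k + 2 + j) * Real.exp (-(r ^ 2 / 50))) := by ring
      _ ≤ 3 * l * Real.exp τ.re ^ j * C := by gcongr
      _ = 3 * C * 1 * l * Real.exp τ.re ^ j := by ring
      _ ≤ 3 * C * D * l * Real.exp τ.re ^ j := by gcongr
  · rw [w_of_nonneg hx]
    have h2 := h (k + 2) (by omega) r hr0.le
    have h3 : ‖be k l ν (τ - cst l)‖ ≤ 3 * l * C := h1.trans (by gcongr)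
    have h4 := env_pow_exp' j (Real.exp_pos τ.re).le
    have h5 : Real.exp τ.re ^ j * Real.exp (-τ.re) ^ j = 1 := by
      rw [← mul_pow, ← Real.exp_add]; simp
    have he : 0 < Real.exp (-τ.re) ^ j := by positivity
    have h6 : ‖exp (-exp τ)‖ ≤ D * Real.exp (-τ.re) ^ j := by
      refine (env_norm_cut hτ').trans ?_
      calc Real.exp (-(Real.exp τ.re / 2))
          = (Real.exp τ.re ^ j * Real.exp (-(Real.exp τ.re / 2))) * Real.exp (-τ.re) ^ j := by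
            linear_combination (-Real.exp (-(Real.exp τ.re / 2))) * h5
        _ ≤ D * Real.exp (-τ.re) ^ j := by gcongr
    have h7 : ν ^ j ≤ 1 := pow_le_one₀ hν.le hν1
    have h8 : 3 * C * D * l ≤ 3 * C * D * l / ν ^ j := by
      rw [le_div_iff₀ hνj]
      exact mul_le_of_le_one_right (by positivity) h7
    calc ‖be k l ν (τ - cst l)‖ * ‖exp (-exp τ)‖
        ≤ (3 * l * C) * (D * Real.exp (-τ.re) ^ j) :=
          mul_le_mul h3 h6 (norm_nonneg _) (by positivity)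
      _ = 3 * C * D * l * Real.exp (-τ.re) ^ j := by ring
      _ ≤ _ := by gcongr

end Pool.Agent.MP_be9872_an

end

-- part MP_be9872_an.Ctrl
section

set_option autoImplicit false
open Complex

namespace Pool.Agent.MP_be9872_an

lemma ctrl_pos_of_mem {ρ : ℝ} {τ : ℂ} (h : τ ∈ St ρ) : 0 < ρ :=
  lt_of_le_of_lt (abs_nonneg _) (mem_St.1 h)

/-- the summand of `Pp` -/
lemma ctrl_summand : ∃ C : ℝ, 0 < C ∧ ∀ (η : ℂ) (l ρ κ : ℝ) (W u : ℂ → ℂ), (η = 1 ∨ η = -1) →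
    0 < l → C * l ≤ 1 → ρ ≤ 1 / 4 → Pot ρ κ u → Bal ρ (l ^ 2) W →
      l ≤ 1 / 10 ∧
      DifferentiableOn ℂ (fun x => SU η u (Tt l W x) (Tt l W (x + l))) (St ρ) ∧
      ∀ x ∈ St ρ, ‖SU η u (Tt l W x) (Tt l W (x + l))‖ ≤ C * κ * w x.re := by
  obtain ⟨C, hC, h⟩ := locU_est
  refine ⟨C + 10, by positivity, fun η l ρ κ W u hη hl hCl hρ hu hW => ?_⟩
  have hl1 : l ≤ 1 / 10 := by nlinarith
  have hCl' : C * l ≤ 1 := by nlinarith
  refine ⟨hl1, fun x hx => ?_, fun x hx => ?_⟩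
  · obtain ⟨-, -, -, -, -, h6⟩ := h η l ρ κ u x _ _ hη hl hCl' hρ hu (hW.adm hl hl1 hx)
    have d1 : DifferentiableAt ℂ (Tt l W) x := diffAt_of_St (hW.diff_Tt hl hl1) hx
    have d2 : DifferentiableAt ℂ (fun z => Tt l W (z + l)) x :=
      (diffAt_of_St (hW.diff_Tt hl hl1) (add_real_mem_St hx l)).comp x
        (f := fun z : ℂ => z + l) (by fun_prop)
    exact (h6 _ _ x _ _ d1.hasDerivAt d2.hasDerivAt rfl
      (Tt_step hl hl1 hW.bd hx)).1.differentiableAt.differentiableWithinAt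
  · obtain ⟨-, -, -, h4, -, -⟩ := h η l ρ κ u x _ _ hη hl hCl' hρ hu (hW.adm hl hl1 hx)
    rw [Tt_step hl hl1 hW.bd hx]
    have hκ := hu.nonneg (ctrl_pos_of_mem hx)
    have hw : w x.re ^ 4 ≤ w x.re := by simpa using w_pow_le (x := x.re) (m := 1) (n := 4) (by norm_num)
    refine h4.trans ?_
    have := w_nonneg x.re
    gcongr
    linarith

theorem pp_basic : ∃ C : ℝ, 0 < C ∧ ∀ (η : ℂ) (l ρ κ : ℝ) (W u : ℂ → ℂ), (η = 1 ∨ η = -1) →
    0 < l → C * l ≤ 1 → ρ ≤ 1 / 4 → Pot ρ κ u → Bal ρ (l ^ 2) W →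
      DifferentiableOn ℂ (Pp η l W u) (St ρ) ∧
      (∀ τ ∈ St ρ, Pp η l W u (τ + l) = Pp η l W u τ) ∧
      (IsRe W → IsRe u → IsRe (Pp η l W u)) ∧
      ∀ (κ' : ℝ) (v : ℂ → ℂ), Pot ρ κ' v →
        ∀ τ ∈ St ρ, Pp η l W (fun a => u a + v a) τ = Pp η l W u τ + Pp η l W v τ := by
  obtain ⟨C, hC, h⟩ := ctrl_summand
  refine ⟨C, hC, fun η l ρ κ W u hη hl hCl hρ hu hW => ?_⟩
  obtain ⟨hl1, hd, hb⟩ := h η l ρ κ W u hη hl hCl hρ hu hW
  refine ⟨?_, fun τ hτ => ?_, fun rW ru => ?_, fun κ' v hv τ hτ => ?_⟩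
  · exact diffOn_sumZ (L := 0) (B := C * κ) hl hl1 hd (by simpa using hb)
  · exact (lineBd_of_St0 hb hτ).sumZ_shift hl hl1
  · refine IsRe.sumZ (fun x => ?_) l
    exact im_SU hη ru (rW.Tt l x) ((rW.Tt l).of_im (by simp))
  · obtain ⟨-, -, hb'⟩ := h η l ρ κ' W v hη hl hCl hρ hv hW
    unfold Pp
    rw [← (lineBd_of_St0 hb hτ).sumZ_add hl hl1 (lineBd_of_St0 hb' hτ)]
    congr 1
    funext x
    unfold SU
    ring

theorem ctrl_pot (j : ℕ) : ∃ C : ℝ, 0 < C ∧ ∀ (k : ℕ) (l ν ρ B : ℝ) (Y : ℂ → ℂ), k ≤ 1 → 0 < l →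
    l ≤ 1 / 100 → 0 < ν → ν ≤ 1 → 1 / 16 ≤ ρ → ρ ≤ 1 / 4 → DifferentiableOn ℂ Y (St ρ) →
    (∀ τ ∈ St ρ, ‖Y τ‖ ≤ B) →
      DifferentiableOn ℂ (ctrl k l ν Y) (Dom ρ (1 / 50)) ∧
      (∀ τ ∈ Dom ρ (1 / 50), ‖ctrl k l ν Y τ‖ ≤ C * l / ν ^ j * B * w τ.re ^ j) ∧
      (IsRe Y → IsRe (ctrl k l ν Y)) := by
  obtain ⟨C, hC, h⟩ := bb_flat j
  refine ⟨C, hC, fun k l ν ρ B Y hk hl hl1 hν hν1 hρ0 hρ hY hB => ?_⟩
  have m1 : ∀ τ ∈ Dom ρ (1 / 50), τ ∈ St (1 / 2) := fun τ hτ =>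
    St_mono (by linarith) (Dom_subset_St (by norm_num) hτ)
  have m2 : ∀ τ ∈ Dom ρ (1 / 50), phi τ - cst l ∈ St ρ := fun τ hτ =>
    sub_real_mem_St (phi_mem hρ0 hρ hτ) _
  refine ⟨fun τ hτ => ?_, fun τ hτ => ?_, fun rY x => ?_⟩
  · have d1 : DifferentiableAt ℂ (fun τ : ℂ => phi τ - cst l) τ :=
      (phi_diffAt (St_mono (by norm_num) (m1 τ hτ))).sub_const _
    have d2 : DifferentiableAt ℂ (fun τ : ℂ => Y (phi τ - cst l)) τ :=
      (diffAt_of_St hY (m2 τ hτ)).comp τ d1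
    exact ((differentiable_bb k l ν τ).mul d2).differentiableWithinAt
  · unfold ctrl
    rw [norm_mul]
    have b1 := h k l ν τ hk hl hl1 hν hν1 (m1 τ hτ)
    have b2 := hB _ (m2 τ hτ)
    calc _ ≤ (C * l / ν ^ j * w τ.re ^ j) * B := by
          gcongr
          exact (norm_nonneg _).trans b1
      _ = _ := by ring
  · unfold ctrl
    have e1 : (Y (phi x - cst l)).im = 0 := rY.of_im (by simp [isRe_phi x])
    simp [isRe_bb k l ν x, e1]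

lemma ctrl_Y_lip {ρ δ B : ℝ} {Y : ℂ → ℂ} (hδ : 0 < δ) (hY : DifferentiableOn ℂ Y (St ρ))
    (hB : ∀ τ ∈ St ρ, ‖Y τ‖ ≤ B) {x X : ℂ} (hx : x ∈ St (ρ - δ)) (hX : X ∈ St ρ) :
    ‖Y X - Y x‖ ≤ 2 * B / δ * ‖X - x‖ := by
  rcases lt_or_ge ‖X - x‖ δ with h | h
  · exact schwarz1 (hY.mono (ball_subset_St hx)) (fun u hu => hB u (ball_subset_St hx hu))
      (mem_ball_iff_norm.2 h)
  · have h1 := hB X hX
    have h2 := hB x (St_mono (by linarith) hx)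
    have h0 : 0 ≤ B := (norm_nonneg _).trans h1
    calc ‖Y X - Y x‖ ≤ 2 * B := by linarith [norm_sub_le (Y X) (Y x)]
      _ = 2 * B / δ * δ := by field_simp
      _ ≤ _ := by gcongr

/-- pointwise estimates for the summand of the symmetric control -/
lemma ctrl_term : ∃ C : ℝ, 0 < C ∧ ∀ (η : ℂ) (l ρ ν B : ℝ) (Y W : ℂ → ℂ), (η = 1 ∨ η = -1) →
    0 < l → C * l ≤ 1 → 1 / 16 ≤ ρ → ρ ≤ 1 / 4 → 0 < ν →
    DifferentiableOn ℂ Y (St ρ) → (∀ τ ∈ St ρ, ‖Y τ‖ ≤ B) → Bal ρ (l ^ 2) W →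
      l ≤ 1 / 10 ∧
      (∀ k : ℕ, k ≤ 1 → ∀ x ∈ St ρ, ‖SU η (ctrl k l ν Y) (Tt l W x) (Tt l W (x + l))‖ ≤
        C * B * l * w (x.re - Real.log ν)) ∧
      (∀ x ∈ St ρ, ‖2 * ((s0 : ℝ) : ℂ) * Y x * be 0 l ν x‖ ≤ C * B * l * w (x.re - Real.log ν)) ∧
      ∀ δ : ℝ, 0 < δ → δ ≤ 1 → ∀ x ∈ St (ρ - δ),
        ‖SU η (ctrl 0 l ν Y) (Tt l W x) (Tt l W (x + l)) - 2 * ((s0 : ℝ) : ℂ) * Y x * be 0 l ν x‖ ≤
          C * B * ν / δ * l * w (x.re - Real.log ν) := by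
  obtain ⟨C0, hC0, h0⟩ := loc0_est
  obtain ⟨C1, hC1, h1⟩ := adm_mid
  obtain ⟨Ce, hCe, he⟩ := env_est
  refine ⟨C0 + C1 + 18 * Ce + 100, by positivity, fun η l ρ ν B Y W hη hl hCl hρ0 hρ hν hY hB hW => ?_⟩
  have hl2 : l ≤ 1 / 100 := by nlinarith [mul_pos hC0 hl, mul_pos hC1 hl, mul_pos hCe hl]
  have hl1 : l ≤ 1 / 10 := by linarith
  have hC0l : C0 * l ≤ 1 := by nlinarith [mul_pos hC0 hl, mul_pos hC1 hl, mul_pos hCe hl]
  have hC1l : C1 * l ≤ 1 := by nlinarith [mul_pos hC0 hl, mul_pos hC1 hl, mul_pos hCe hl]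
  have hB0 : 0 ≤ B := (norm_nonneg _).trans (hB 0 (by simpa using ofReal_mem_St (by linarith) 0))
  have hs0 : ‖((s0 : ℝ) : ℂ)‖ ≤ 1 := by
    rw [Complex.norm_real, Real.norm_of_nonneg s0_pos.le]; linarith [s0_le]
  have hC2 : 2 * Ce ≤ C0 + C1 + 18 * Ce + 100 := by linarith
  have hC18 : 18 * Ce ≤ C0 + C1 + 18 * Ce + 100 := by linarith
  refine ⟨hl1, fun k hk x hx => ?_, fun x hx => ?_, fun δ hδ hδ1 x hx' => ?_⟩
  · have ha := hW.adm hl hl1 hx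
    obtain ⟨-, -, -, -, -, a1, a2, -⟩ := h1 l ρ x _ _ hl hC1l hρ ha
    obtain ⟨-, -, -, -, -, -, a3, -⟩ := h0 η l ρ x _ _ hη hl hC0l hρ ha
    rw [Tt_step hl hl1 hW.bd hx]
    set A := mid (Tt l W x) (Tt l W x + l + W x) with hA
    have a4 := ((he k l ν x hk hl hl2 hν (St_mono (by linarith) hx)).2 A (by linarith)).1
    have a5 := hB _ (sub_real_mem_St (phi_mem hρ0 hρ (Dom_mono le_rfl (by norm_num) a1)) (cst l))
    have a6 := env_le k hl.le hν x.re 0 (by omega)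
    simp only [pow_zero, mul_one] at a6
    have a7 := env_nonneg k hl.le ν x.re
    have a8 := w_nonneg (x.re - Real.log ν)
    unfold SU ctrl
    rw [← hA, norm_mul, norm_mul, norm_mul, Complex.norm_ofNat]
    calc _ ≤ 2 * ((Ce * env k l ν x.re) * B) * 1 := by gcongr
      _ ≤ 2 * ((Ce * (l * w (x.re - Real.log ν))) * B) * 1 := by gcongr
      _ = (2 * Ce) * B * l * w (x.re - Real.log ν) := by ring
      _ ≤ _ := by gcongr
  · have a4 := (he 0 l ν x (by norm_num) hl hl2 hν (St_mono (by linarith) hx)).1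
    have a5 := hB x hx
    have a6 := env_le 0 hl.le hν x.re 0 (by omega)
    simp only [pow_zero, mul_one] at a6
    have a7 := env_nonneg 0 hl.le ν x.re
    have a8 := w_nonneg (x.re - Real.log ν)
    rw [norm_mul, norm_mul, norm_mul, Complex.norm_ofNat]
    calc _ ≤ 2 * 1 * B * (Ce * env 0 l ν x.re) := by gcongr
      _ ≤ 2 * 1 * B * (Ce * (l * w (x.re - Real.log ν))) := by gcongr
      _ = (2 * Ce) * B * l * w (x.re - Real.log ν) := by ring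
      _ ≤ _ := by gcongr
  · have hx : x ∈ St ρ := St_mono (by linarith) hx'
    have ha := hW.adm hl hl1 hx
    obtain ⟨-, -, -, -, -, a1, a2, a9, -⟩ := h1 l ρ x _ _ hl hC1l hρ ha
    obtain ⟨-, -, -, -, -, a3, -⟩ := h0 η l ρ x _ _ hη hl hC0l hρ ha
    rw [Tt_step hl hl1 hW.bd hx]
    set A := mid (Tt l W x) (Tt l W x + l + W x) with hA
    set d := del η (Tt l W x) (Tt l W x + l + W x) with hd
    obtain ⟨b0, b1⟩ := he 0 l ν x (by norm_num) hl hl2 hν (St_mono (by linarith) hx)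
    obtain ⟨b2, b3, -⟩ := b1 A (by linarith)
    have mX : phi A - cst l ∈ St ρ :=
      sub_real_mem_St (phi_mem hρ0 hρ (Dom_mono le_rfl (by norm_num) a1)) (cst l)
    have a5 := hB _ mX
    have a6 := env_le 0 hl.le hν x.re 1 (by omega)
    simp only [pow_one] at a6
    have a7 := env_nonneg 0 hl.le ν x.re
    have a8 := w_nonneg (x.re - Real.log ν)
    set E := env 0 l ν x.re with hE
    set e := Real.exp x.re with he'
    have e0 : 0 < e := Real.exp_pos _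
    have c1 : ‖sin d - (s0 : ℝ)‖ ≤ e := by
      refine a3.trans ?_
      have := w_le_exp x.re
      have := w_nonneg x.re
      nlinarith
    have c2 : ‖A - x - cst l‖ ≤ e := by
      refine a9.trans ?_
      have := om_le_exp x.re
      have := om_nonneg x.re
      nlinarith
    have c3 : ‖phi A - A‖ ≤ 2 * e := by
      have mA : A ∈ St (3 / 2) := St_mono (by linarith) (Dom_subset_St (by norm_num) a1)
      refine (norm_phi_sub mA).trans ?_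
      have i1 := (le_abs_self _).trans (abs_re_sub_le A x)
      calc Real.exp A.re = Real.exp (A.re - x.re) * e := by rw [he', ← Real.exp_add]; congr 1; ring
        _ ≤ 2 * e := by gcongr; exact exp_le_two (by linarith)
    have c4 : ‖phi A - cst l - x‖ ≤ 3 * e := by
      have i1 := norm_add_le (phi A - A) (A - x - cst l)
      rw [show phi A - A + (A - x - cst l) = phi A - cst l - x by ring] at i1
      linarith
    have c5 : ‖Y (phi A - cst l) - Y x‖ ≤ 2 * B / δ * (3 * e) :=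
      (ctrl_Y_lip hδ hY hB hx' mX).trans (by gcongr)
    have eq : SU η (ctrl 0 l ν Y) (Tt l W x) (Tt l W x + l + W x) -
        2 * ((s0 : ℝ) : ℂ) * Y x * be 0 l ν x =
        2 * (bb 0 l ν A * Y (phi A - cst l) * (sin d - (s0 : ℝ))) +
        2 * (((s0 : ℝ) : ℂ) * (bb 0 l ν A - be 0 l ν x) * Y (phi A - cst l)) +
        2 * (((s0 : ℝ) : ℂ) * be 0 l ν x * (Y (phi A - cst l) - Y x)) := by
      unfold SU ctrl
      rw [← hA, ← hd]; ring
    have hBδ : B ≤ B / δ := by rw [le_div_iff₀ hδ]; nlinarith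
    have t1 : ‖2 * (bb 0 l ν A * Y (phi A - cst l) * (sin d - (s0 : ℝ)))‖ ≤
        2 * (Ce * (B / δ) * (E * e)) := by
      rw [norm_mul, norm_mul, norm_mul, Complex.norm_ofNat]
      calc _ ≤ 2 * ((Ce * E) * (B / δ) * e) := by gcongr; linarith
        _ = _ := by ring
    have t2 : ‖2 * (((s0 : ℝ) : ℂ) * (bb 0 l ν A - be 0 l ν x) * Y (phi A - cst l))‖ ≤
        4 * (Ce * (B / δ) * (E * e)) := by
      rw [norm_mul, norm_mul, norm_mul, Complex.norm_ofNat]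
      calc _ ≤ 2 * (1 * (Ce * E * (e + e)) * (B / δ)) := by
            gcongr
            · exact b3.trans (by gcongr)
            · linarith
        _ = _ := by ring
    have t3 : ‖2 * (((s0 : ℝ) : ℂ) * be 0 l ν x * (Y (phi A - cst l) - Y x))‖ ≤
        12 * (Ce * (B / δ) * (E * e)) := by
      rw [norm_mul, norm_mul, norm_mul, Complex.norm_ofNat]
      calc _ ≤ 2 * (1 * (Ce * E) * (2 * B / δ * (3 * e))) := by gcongr
        _ = _ := by ring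
    rw [eq]
    have n1 := norm_add₃_le (a := 2 * (bb 0 l ν A * Y (phi A - cst l) * (sin d - (s0 : ℝ))))
      (b := 2 * (((s0 : ℝ) : ℂ) * (bb 0 l ν A - be 0 l ν x) * Y (phi A - cst l)))
      (c := 2 * (((s0 : ℝ) : ℂ) * be 0 l ν x * (Y (phi A - cst l) - Y x)))
    calc _ ≤ 18 * (Ce * (B / δ) * (E * e)) := by linarith
      _ ≤ 18 * (Ce * (B / δ) * (l * ν * w (x.re - Real.log ν))) := by gcongr
      _ = (18 * Ce) * B * ν / δ * l * w (x.re - Real.log ν) := by ring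
      _ ≤ _ := by gcongr

/-- the symmetric control -/
theorem ctrl_L1 : ∃ C : ℝ, 0 < C ∧ ∀ (η : ℂ) (l ρ δ ν B : ℝ) (Y W : ℂ → ℂ), (η = 1 ∨ η = -1) →
    0 < l → C * l ≤ 1 → 1 / 16 ≤ ρ → ρ ≤ 1 / 4 → 0 < δ → δ ≤ 1 → 0 < ν → ν ≤ 1 →
    DifferentiableOn ℂ Y (St ρ) → (∀ τ ∈ St ρ, Y (τ + l) = Y τ) → (∀ τ ∈ St ρ, ‖Y τ‖ ≤ B) →
    Bal ρ (l ^ 2) W →
      (∀ τ ∈ St ρ, ‖Pp η l W (ctrl 1 l ν Y) τ‖ ≤ C * B) ∧
      ∀ τ ∈ St (ρ - δ), ‖Pp η l W (ctrl 0 l ν Y) τ - 2 * (s0 : ℝ) * Y τ‖ ≤ C * B * ν / δ := by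
  obtain ⟨C, hC, h⟩ := ctrl_term
  refine ⟨11 * C, by positivity,
    fun η l ρ δ ν B Y W hη hl hCl hρ0 hρ hδ hδ1 hν _ hY hper hB hW => ?_⟩
  obtain ⟨hl1, h1, h2, h3⟩ := h η l ρ ν B Y W hη hl (by nlinarith [mul_pos hC hl]) hρ0 hρ hν hY hB hW
  refine ⟨fun τ hτ => ?_, fun τ hτ' => ?_⟩
  · refine ((lineBd_of_St (h1 1 le_rfl) hτ).norm_sumZ hl hl1).trans (le_of_eq ?_)
    field_simp
  · have hτ : τ ∈ St ρ := St_mono (by linarith) hτ'
    have e1 : 2 * ((s0 : ℝ) : ℂ) * Y τ =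
        sumZ l (fun x => 2 * ((s0 : ℝ) : ℂ) * Y x * be 0 l ν x) τ := by
      rw [sumZ_per_mul (p := fun x => 2 * ((s0 : ℝ) : ℂ) * Y x) (ρ := ρ)
        (fun x hx => by simp only [hper x hx]) hτ, sumZ_be hl hl1 hν (St_mono (by linarith) hτ),
        mul_one]
    rw [e1]
    unfold Pp
    rw [← (lineBd_of_St (h1 0 (by norm_num)) hτ).sumZ_sub hl hl1 (lineBd_of_St h2 hτ)]
    refine ((lineBd_of_St (h3 δ hδ hδ1) hτ').norm_sumZ hl hl1).trans (le_of_eq ?_)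
    field_simp

end Pool.Agent.MP_be9872_an

end

-- part MP_be9872_an.Ctrl2
section

set_option autoImplicit false
open Complex

namespace Pool.Agent.MP_be9872_an

lemma ctrl2_Th {x : ℂ} (hx : x ∈ St (7 / 10)) :
    ‖Th x - 2 / 3 * exp x‖ ≤ 4 * Real.exp x.re ^ 2 := by
  have hE := Real.exp_pos x.re
  rcases le_total x.re 0 with h | h
  · have h1 : Real.exp x.re ≤ 1 := Real.exp_le_one_iff.2 h
    refine (norm_Th_sub_exp_le hx).trans ?_
    nlinarith [mul_pos hE hE]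
  · have h1 : 1 ≤ Real.exp x.re := Real.one_le_exp h
    have h2 := norm_Th_le_om hx
    have h3 : ‖2 / 3 * exp x‖ = 2 / 3 * Real.exp x.re := by
      rw [norm_mul, norm_exp]; norm_num
    have h4 := norm_sub_le (Th x) (2 / 3 * exp x)
    nlinarith [om_le_one x.re]

lemma ctrl2_lip {ρ δ B : ℝ} {f : ℂ → ℂ} (hδ : 0 < δ) (hf : DifferentiableOn ℂ f (St ρ))
    (hb : ∀ τ ∈ St ρ, ‖f τ‖ ≤ B) {x u : ℂ} (hx : x ∈ St (ρ - δ)) (hu : u ∈ St ρ) :
    ‖f u - f x‖ ≤ 2 * B / δ * ‖u - x‖ := by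
  by_cases h : u ∈ Metric.ball x δ
  · exact schwarz1 (hf.mono (ball_subset_St hx)) (fun v hv => hb v (ball_subset_St hx hv)) h
  · have h1 : δ ≤ ‖u - x‖ := by simpa [dist_eq_norm] using h
    have h2 := hb u hu
    have h3 := hb x (St_mono (by linarith) hx)
    have h4 : 0 ≤ B := (norm_nonneg _).trans h2
    calc ‖f u - f x‖ ≤ 2 * B := (norm_sub_le _ _).trans (by linarith)
      _ = 2 * B / δ * δ := by field_simp
      _ ≤ _ := by gcongr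

lemma ctrl2_taylor {ρ δ B₁ r : ℝ} {Y : ℂ → ℂ} (hδ : 0 < δ) (hY : DifferentiableOn ℂ Y (St ρ))
    (hb : ∀ τ ∈ St ρ, ‖deriv Y τ‖ ≤ B₁) {x a b : ℂ} (hx : x ∈ St (ρ - δ)) (ha : a ∈ St ρ)
    (hb' : b ∈ St ρ) (har : ‖a - x‖ ≤ r) (hbr : ‖b - x‖ ≤ r) :
    ‖Y a - Y b - deriv Y x * (a - b)‖ ≤ 2 * B₁ / δ * r * ‖a - b‖ := by
  have h0 : 0 ≤ B₁ := (norm_nonneg _).trans (hb a ha)
  have := mvt (f := fun u => Y u - deriv Y x * u) (f' := fun u => deriv Y u - deriv Y x)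
    (s := St ρ ∩ Metric.closedBall x r) (C := 2 * B₁ / δ * r)
    ((convex_St ρ).inter (convex_closedBall x r))
    (fun u hu => by
      simpa using (diffAt_of_St hY hu.1).hasDerivAt.fun_sub ((hasDerivAt_id u).const_mul (deriv Y x)))
    (fun u hu => (ctrl2_lip hδ (diffOn_deriv_St hY) hb hx hu.1).trans (by
      have : ‖u - x‖ ≤ r := by simpa [dist_eq_norm] using hu.2
      gcongr))
    (x := b) (y := a) ⟨hb', by simpa [dist_eq_norm] using hbr⟩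
    ⟨ha, by simpa [dist_eq_norm] using har⟩
  rwa [show Y a - deriv Y x * a - (Y b - deriv Y x * b) = Y a - Y b - deriv Y x * (a - b) by ring]
    at this

lemma ctrl2_alg {b₁ b₂ β s₁ s₂ s y₁ y₂ y' D c : ℂ} {e p q r d m B B₁ : ℝ}
    (hb₁ : ‖b₁‖ ≤ e) (hb₂ : ‖b₂‖ ≤ e) (hβ : ‖β‖ ≤ e) (h12 : ‖b₁ - b₂‖ ≤ e * p)
    (h1β : ‖b₁ - β‖ ≤ e * q) (hs₁ : ‖s₁‖ ≤ 1) (hs : ‖s‖ ≤ 1) (hs1 : ‖s₁ - s‖ ≤ p)
    (hs2 : ‖s₂ - s‖ ≤ p) (hy : ‖y₂‖ ≤ B) (hy' : ‖y'‖ ≤ B₁) (hR : ‖y₁ - y₂ - y' * D‖ ≤ r)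
    (hD : ‖D‖ ≤ d) (hm : ‖D + c‖ ≤ m) :
    ‖2 * (b₁ * y₁) * s₁ - 2 * (b₂ * y₂) * s₂ + 2 * s * c * β * y'‖ ≤
      2 * e * (3 * p * B + r + ((q + p) * d + m) * B₁) := by
  have he : 0 ≤ e := (norm_nonneg _).trans hb₁
  have hp : 0 ≤ p := (norm_nonneg _).trans hs1
  have hq : 0 ≤ e * q := (norm_nonneg _).trans h1β
  have hd : 0 ≤ d := (norm_nonneg _).trans hD
  have h1 : ‖s₁ - s₂‖ ≤ 2 * p := by
    rw [show s₁ - s₂ = (s₁ - s) - (s₂ - s) by ring]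
    exact (norm_sub_le _ _).trans (by linarith)
  have h2 : ‖(b₁ - b₂) * s₁ + b₂ * (s₁ - s₂)‖ ≤ e * p * 1 + e * (2 * p) := by
    refine (norm_add_le _ _).trans (add_le_add ?_ ?_) <;> rw [norm_mul] <;> gcongr
  have h3 : ‖(b₁ - β) * s₁ + β * (s₁ - s)‖ ≤ e * q * 1 + e * p := by
    refine (norm_add_le _ _).trans (add_le_add ?_ ?_) <;> rw [norm_mul] <;> gcongr
  have h4 : ‖((b₁ - β) * s₁ + β * (s₁ - s)) * D + s * β * (D + c)‖ ≤
      (e * q * 1 + e * p) * d + 1 * e * m := by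
    refine (norm_add_le _ _).trans (add_le_add ?_ ?_)
    · rw [norm_mul]; gcongr
    · rw [norm_mul, norm_mul]; gcongr
  rw [show 2 * (b₁ * y₁) * s₁ - 2 * (b₂ * y₂) * s₂ + 2 * s * c * β * y' =
    2 * (((b₁ - b₂) * s₁ + b₂ * (s₁ - s₂)) * y₂ + b₁ * s₁ * (y₁ - y₂ - y' * D) +
      (((b₁ - β) * s₁ + β * (s₁ - s)) * D + s * β * (D + c)) * y') by ring, norm_mul]
  have h5 : ‖((b₁ - b₂) * s₁ + b₂ * (s₁ - s₂)) * y₂ + b₁ * s₁ * (y₁ - y₂ - y' * D) +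
      (((b₁ - β) * s₁ + β * (s₁ - s)) * D + s * β * (D + c)) * y'‖ ≤
      (e * p * 1 + e * (2 * p)) * B + e * 1 * r + ((e * q * 1 + e * p) * d + 1 * e * m) * B₁ := by
    refine norm_add₃_le.trans (add_le_add (add_le_add ?_ ?_) ?_)
    · rw [norm_mul]; gcongr
    · rw [norm_mul, norm_mul]; gcongr
    · rw [norm_mul]; exact mul_le_mul h4 hy' (norm_nonneg _) ((norm_nonneg _).trans h4)
  rw [Complex.norm_two]
  nlinarith

/-- the data at one point of the orbit -/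
lemma ctrl2_pt : ∃ C : ℝ, 1 ≤ C ∧ ∀ (η : ℂ) (l ρ : ℝ) (W : ℂ → ℂ) (x : ℂ), (η = 1 ∨ η = -1) →
    0 < l → C * l ≤ 1 → 1 / 16 ≤ ρ → ρ ≤ 1 / 4 → Bal ρ (l ^ 2) W → x ∈ St ρ →
      l ≤ 1 / 1000 ∧ ∀ A, A = mid (Tt l W x) (Tt l W (x + l)) → ∀ s,
        s = sin (del η (Tt l W x) (Tt l W (x + l))) →
        A ∈ St (3 / 2) ∧ phi A - cst l ∈ St ρ ∧ ‖A - x‖ ≤ 1 / 40 ∧
        ‖A - x - cst l‖ ≤ C * l * om x.re ∧
        ‖A - Tt l W x - cst l‖ ≤ C * (l ^ 2 * Real.exp x.re + l * Real.exp x.re ^ 2) ∧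
        ‖phi A - cst l - x‖ ≤ 3 * Real.exp x.re ∧
        ‖s - (s0 : ℝ)‖ ≤ C * l * Real.exp x.re ∧ ‖s‖ ≤ 1 := by
  obtain ⟨C₁, hC₁, h₁⟩ := adm_mid
  obtain ⟨C₂, hC₂, h₂⟩ := loc0_est
  refine ⟨C₁ + C₂ + 10, by linarith, fun η l ρ W x hη hl hC hρ hρ' hW hx => ?_⟩
  have hl1 : l ≤ 1 / 10 := by nlinarith
  have hA := hW.adm hl hl1 hx
  obtain ⟨a1, -, -, -, -, a2, a3, a4, a5, -⟩ := h₁ l ρ x _ _ hl (by nlinarith) hρ' hA
  obtain ⟨-, -, -, -, -, b1, b2, -⟩ := h₂ η l ρ x _ _ hη hl (by nlinarith) hρ' hA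
  rw [← Tt_step hl hl1 hW.bd hx] at a2 a3 a4 a5 b1 b2
  refine ⟨a1, ?_⟩
  rintro A rfl s rfl
  set A := mid (Tt l W x) (Tt l W (x + l))
  have ho := om_le_exp x.re
  have ho0 := om_pos x.re
  have hAS : A ∈ St (3 / 2) := St_mono (by linarith) (Dom_subset_St (by norm_num) a2)
  refine ⟨hAS, sub_real_mem_St (phi_mem hρ hρ' (Dom_mono le_rfl (by norm_num) a2)) _, a3,
    a4.trans (by gcongr; linarith), a5.trans (by gcongr; linarith), ?_,
    b1.trans (mul_le_mul (by gcongr; linarith) (w_le_exp _) (w_nonneg _) (by positivity)), b2⟩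
  have h1 : Real.exp A.re ≤ 2 * Real.exp x.re := by
    have := (le_abs_self _).trans (abs_re_sub_le A x)
    calc Real.exp A.re = Real.exp (A.re - x.re) * Real.exp x.re := by
          rw [← Real.exp_add, sub_add_cancel]
      _ ≤ _ := by gcongr; exact exp_le_two (by linarith)
  have h2 : C₁ * l * om x.re ≤ 1 * Real.exp x.re := by gcongr; nlinarith
  rw [show phi A - cst l - x = (phi A - A) + (A - x - cst l) by ring]
  linarith [norm_add_le (phi A - A) (A - x - cst l), norm_phi_sub hAS]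

/-- the termwise estimate -/
lemma ctrl2_term (C₀ : ℝ) : ∃ C : ℝ, 0 < C ∧ ∀ (l ρ δ ν B B₁ : ℝ) (Y W₁ W₂ : ℂ → ℂ) (x : ℂ),
    0 < l → C * l ≤ 1 → 1 / 16 ≤ ρ → ρ ≤ 1 / 4 → 0 < δ → δ ≤ 1 → 0 < ν →
    DifferentiableOn ℂ Y (St ρ) → (∀ τ ∈ St ρ, ‖Y τ‖ ≤ B) →
    (∀ τ ∈ St ρ, ‖deriv Y τ‖ ≤ B₁) → Bal ρ (l ^ 2) W₁ → Bal ρ (l ^ 2) W₂ →
    ‖Vv l W₁ x + 1 * l * gam * Th x‖ ≤ C₀ * l ^ 2 * om x.re →
    ‖Vv l W₂ x + -1 * l * gam * Th x‖ ≤ C₀ * l ^ 2 * om x.re → x ∈ St (ρ - δ) →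
      l ≤ 1 / 1000 ∧
      ‖SU 1 (ctrl 1 l ν Y) (Tt l W₁ x) (Tt l W₁ (x + l))‖ ≤ C * B * l * w (x.re - Real.log ν) ∧
      ‖SU (-1) (ctrl 1 l ν Y) (Tt l W₂ x) (Tt l W₂ (x + l))‖ ≤ C * B * l * w (x.re - Real.log ν) ∧
      ‖deriv Y x * be 0 l ν x‖ ≤ C * B₁ * l * w (x.re - Real.log ν) ∧
      ‖SU 1 (ctrl 1 l ν Y) (Tt l W₁ x) (Tt l W₁ (x + l)) -
        SU (-1) (ctrl 1 l ν Y) (Tt l W₂ x) (Tt l W₂ (x + l)) +
        2 / 9 * l * ν * (deriv Y x * be 0 l ν x)‖ ≤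
        C * l ^ 2 * ν * (B + (l + ν / δ) * B₁) * w (x.re - Real.log ν) := by
  obtain ⟨C, hC, hpt⟩ := ctrl2_pt
  obtain ⟨Ce, hCe, henv⟩ := env_est
  have hK : 0 ≤ |C₀| := abs_nonneg _
  refine ⟨C + Ce * (200 * C + 4 * |C₀|), by positivity,
    fun l ρ δ ν B B₁ Y W₁ W₂ x hl hCl hρ hρ' hδ hδ1 hν hY hB hB₁ hW₁ hW₂ hV₁ hV₂ hx' => ?_⟩
  have hx : x ∈ St ρ := St_mono (by linarith) hx'
  have hCl' : C * l ≤ 1 := by
    have : 0 ≤ Ce * (200 * C + 4 * |C₀|) * l := by positivity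
    nlinarith
  obtain ⟨hl1, p₁⟩ := hpt 1 l ρ W₁ x (.inl rfl) hl hCl' hρ hρ' hW₁ hx
  obtain ⟨-, p₂⟩ := hpt (-1) l ρ W₂ x (.inr rfl) hl hCl' hρ hρ' hW₂ hx
  obtain ⟨a1, a2, a3, a4, a5, a6, a7, a8⟩ := p₁ _ rfl _ rfl
  obtain ⟨b1, b2, b3, b4, b5, b6, b7, b8⟩ := p₂ _ rfl _ rfl
  unfold SU ctrl
  set A₁ := mid (Tt l W₁ x) (Tt l W₁ (x + l))
  set A₂ := mid (Tt l W₂ x) (Tt l W₂ (x + l))
  set s₁ := sin (del 1 (Tt l W₁ x) (Tt l W₁ (x + l)))
  set s₂ := sin (del (-1) (Tt l W₂ x) (Tt l W₂ (x + l)))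
  have hx2 : x ∈ St (1 / 2) := St_mono (by linarith) hx
  obtain ⟨e1, e2⟩ := henv 1 l ν x le_rfl hl (by linarith) hν hx2
  obtain ⟨e3, e4, e5⟩ := e2 A₁ (by linarith)
  obtain ⟨e6, -⟩ := e2 A₂ (by linarith)
  have e7 := e5 A₂ (by linarith)
  have e8 := (henv 0 l ν x zero_le_one hl (by linarith) hν hx2).1
  have n0 := env_le 1 hl.le hν x.re 0 (by norm_num)
  have n1 := env_le 1 hl.le hν x.re 1 (by norm_num)
  have n2 := env_le 1 hl.le hν x.re 2 (by norm_num)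
  have n3 := env_le 0 hl.le hν x.re 0 (by norm_num)
  have n4 := env_nonneg 1 hl.le ν x.re
  simp only [pow_zero, mul_one, pow_one] at n0 n1 n3
  have hB0 : 0 ≤ B := (norm_nonneg _).trans (hB x hx)
  have hB1 : 0 ≤ B₁ := (norm_nonneg _).trans (hB₁ x hx)
  have ho := om_le_exp x.re
  have ho0 := om_pos x.re
  have ho1 := om_le_one x.re
  have hw := w_pos (x.re - Real.log ν)
  set E := Real.exp x.re
  set v := env 1 l ν x.re
  set o := om x.re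
  set ω := w (x.re - Real.log ν)
  have hE : 0 < E := Real.exp_pos _
  have hCC : 2 * Ce ≤ C + Ce * (200 * C + 4 * |C₀|) := by
    linarith only [mul_nonneg hCe.le hK, hC, hCe, mul_le_mul_of_nonneg_left hC hCe.le]
  have key : ∀ b y s : ℂ, ‖b‖ ≤ Ce * v → ‖y‖ ≤ B → ‖s‖ ≤ 1 →
      ‖2 * (b * y) * s‖ ≤ (C + Ce * (200 * C + 4 * |C₀|)) * B * l * ω := fun b y s hb hy hs => by
    rw [norm_mul, norm_mul, norm_mul, Complex.norm_two]
    calc _ ≤ 2 * (Ce * (l * ω) * B) * 1 := by gcongr; exact hb.trans (by gcongr)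
      _ = 2 * Ce * B * l * ω := by ring
      _ ≤ _ := by gcongr
  refine ⟨hl1, key _ _ _ e3 (hB _ a2) a8, key _ _ _ e6 (hB _ b2) b8, ?_, ?_⟩
  · rw [norm_mul]
    calc _ ≤ B₁ * (Ce * (l * ω)) := by gcongr; exacts [hB₁ x hx, e8.trans (by gcongr)]
      _ = Ce * B₁ * l * ω := by ring
      _ ≤ _ := by gcongr; linarith
  have hA : ‖A₁ - A₂‖ ≤ 2 * C * l * o := by
    rw [show A₁ - A₂ = (A₁ - x - cst l) - (A₂ - x - cst l) by ring]
    exact (norm_sub_le _ _).trans (by linarith)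
  have hph : ‖(phi A₁ - A₁) - (phi A₂ - A₂)‖ ≤ 2 * E * (2 * C * l * o) :=
    (norm_phi_sub_sub (τ := x) a1 b1 (by linarith only [a3]) (by linarith only [b3])).trans
      (by gcongr)
  have hClE : 0 ≤ C * l * E := by positivity
  have hCl0 : 0 ≤ C * l := by positivity
  have hD : ‖(phi A₁ - cst l) - (phi A₂ - cst l)‖ ≤ 6 * C * l * E := by
    rw [show (phi A₁ - cst l) - (phi A₂ - cst l) =
      (A₁ - A₂) + ((phi A₁ - A₁) - (phi A₂ - A₂)) by ring]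
    refine (norm_add_le _ _).trans ?_
    linarith only [hA, hph, mul_le_mul_of_nonneg_left ho hCl0, mul_le_mul_of_nonneg_left ho1 hClE]
  have hT : ‖2 * (l : ℂ) * gam * (Th x - 2 / 3 * exp x)‖ ≤ l * E ^ 2 := by
    rw [norm_mul, norm_mul, norm_mul, Complex.norm_two, norm_real, norm_real, Real.norm_of_nonneg hl.le,
      Real.norm_of_nonneg gam_pos.le]
    calc _ ≤ 2 * l * (1 / 9) * (4 * E ^ 2) := by
          gcongr; exacts [gam_le, ctrl2_Th (St_mono (by linarith) hx)]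
      _ ≤ _ := by linarith only [mul_pos hl (pow_pos hE 2)]
  have hV : C₀ * l ^ 2 * o ≤ |C₀| * l ^ 2 * E := by gcongr; exact le_abs_self _
  have hm : ‖(phi A₁ - cst l) - (phi A₂ - cst l) + 4 / 3 * gam * l * exp x‖ ≤
      (2 * C + 2 * |C₀|) * l ^ 2 * E + 7 * C * l * E ^ 2 := by
    rw [show (phi A₁ - cst l) - (phi A₂ - cst l) + 4 / 3 * gam * l * exp x =
      ((A₁ - Tt l W₁ x - cst l) - (A₂ - Tt l W₂ x - cst l)) +
      ((Vv l W₁ x + 1 * l * gam * Th x) - (Vv l W₂ x + -1 * l * gam * Th x)) +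
      (((phi A₁ - A₁) - (phi A₂ - A₂)) - 2 * (l : ℂ) * gam * (Th x - 2 / 3 * exp x)) by
        unfold Tt; ring]
    refine norm_add₃_le.trans ((add_le_add_three (norm_sub_le _ _) (norm_sub_le _ _)
      (norm_sub_le _ _)).trans ?_)
    linarith only [a5, b5, hV₁, hV₂, hV, hph, hT, mul_le_mul_of_nonneg_left ho hClE,
      mul_le_mul_of_nonneg_right hC (show 0 ≤ l * E ^ 2 by positivity)]
  have hs : ‖((s0 : ℝ) : ℂ)‖ ≤ 1 := by
    rw [norm_real, Real.norm_of_nonneg s0_pos.le]; linarith [s0_le]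
  have main := ctrl2_alg (p := 2 * C * l * E) (q := 2 * E) e3 e6 e1
    (e7.trans (by gcongr; exact hA.trans (by gcongr)))
    (e4.trans (by gcongr; linarith only [a4, mul_le_mul hCl' ho ho0.le zero_le_one])) a8 hs
    (a7.trans (by linarith only [hClE])) (b7.trans (by linarith only [hClE])) (hB _ b2) (hB₁ x hx)
    ((ctrl2_taylor hδ hY hB₁ hx' a2 b2 a6 b6).trans
      (mul_le_mul_of_nonneg_left hD (by positivity))) hD hm
  have hid : 2 / 9 * l * ν * (deriv Y x * be 0 l ν x) =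
      2 * (s0 : ℝ) * (4 / 3 * gam * l * exp x) * be 1 l ν x * deriv Y x := by
    have h1 : ((s0 : ℝ) : ℂ) * gam = 1 / 12 := by
      rw [← ofReal_mul, gam_mul]; norm_num
    linear_combination (-2 / 9 * l * deriv Y x) * be_one_mul l ν x -
      (8 / 3 * l * exp x * be 1 l ν x * deriv Y x) * h1
  rw [hid]
  refine main.trans ?_
  have hν' : ν ≤ ν / δ := le_div_self hν.le hδ hδ1
  have hq : (2 * E + 2 * C * l * E) * (6 * C * l * E) ≤ (2 * E + 2 * 1 * E) * (6 * C * l * E) := by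
    gcongr ?_ * _; linarith only [mul_le_mul_of_nonneg_right hCl' hE.le]
  calc _ ≤ 2 * (Ce * v) * (3 * (2 * C * l * E) * B + 2 * B₁ / δ * (3 * E) * (6 * C * l * E) +
        ((2 * E + 2 * 1 * E) * (6 * C * l * E) +
          ((2 * C + 2 * |C₀|) * l ^ 2 * E + 7 * C * l * E ^ 2)) * B₁) := by gcongr
    _ = Ce * l * ((v * E) * (12 * C * B + (4 * C + 4 * |C₀|) * l * B₁) +
        (v * E ^ 2) * (72 * C * B₁ / δ + 62 * C * B₁)) := by ring
    _ ≤ Ce * l * ((l * ν * ω) * (12 * C * B + (4 * C + 4 * |C₀|) * l * B₁) +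
        (l * ν ^ 2 * ω) * (72 * C * B₁ / δ + 62 * C * B₁)) := by gcongr
    _ = Ce * (12 * C * B + (4 * C + 4 * |C₀|) * (l * B₁) + 72 * C * (ν / δ * B₁) +
        62 * C * (ν * B₁)) * (l ^ 2 * ν * ω) := by ring
    _ ≤ Ce * ((200 * C + 4 * |C₀|) * (B + (l + ν / δ) * B₁)) * (l ^ 2 * ν * ω) := by
        gcongr Ce * ?_ * _
        have h1 : ν * B₁ ≤ ν / δ * B₁ := by gcongr
        have h2 : 0 ≤ ν / δ * B₁ := by positivity
        have h3 : 0 ≤ l * B₁ := by positivity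
        have h4 : 0 ≤ C := by linarith
        linarith only [mul_nonneg h4 hB0, mul_nonneg h4 h2, mul_nonneg h4 h3, mul_nonneg hK hB0,
          mul_nonneg hK h2, mul_le_mul_of_nonneg_left h1 h4]
    _ ≤ (C + Ce * (200 * C + 4 * |C₀|)) * (B + (l + ν / δ) * B₁) * (l ^ 2 * ν * ω) := by
        rw [← mul_assoc Ce]; gcongr ?_ * _ * _; linarith only [hC]
    _ = _ := by ring

/-- the antisymmetric control -/
theorem ctrl_L2 (C₀ : ℝ) : ∃ C : ℝ, 0 < C ∧ ∀ (l ρ δ ν B B₁ : ℝ) (Y W₁ W₂ : ℂ → ℂ),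
    0 < l → C * l ≤ 1 → 1 / 16 ≤ ρ → ρ ≤ 1 / 4 → 0 < δ → δ ≤ 1 → 0 < ν → ν ≤ 1 →
    DifferentiableOn ℂ Y (St ρ) → (∀ τ ∈ St ρ, Y (τ + l) = Y τ) → (∀ τ ∈ St ρ, ‖Y τ‖ ≤ B) →
    (∀ τ ∈ St ρ, ‖deriv Y τ‖ ≤ B₁) → Bal ρ (l ^ 2) W₁ → Bal ρ (l ^ 2) W₂ →
    (∀ τ ∈ St ρ, ‖Vv l W₁ τ + 1 * l * gam * Th τ‖ ≤ C₀ * l ^ 2 * om τ.re) →
    (∀ τ ∈ St ρ, ‖Vv l W₂ τ + -1 * l * gam * Th τ‖ ≤ C₀ * l ^ 2 * om τ.re) →
      ∀ τ ∈ St (ρ - δ), ‖Pp 1 l W₁ (ctrl 1 l ν Y) τ - Pp (-1) l W₂ (ctrl 1 l ν Y) τ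
        + 2 / 9 * l * ν * deriv Y τ‖ ≤ C * l * ν * (B + (l + ν / δ) * B₁) := by
  obtain ⟨C, hC, h⟩ := ctrl2_term C₀
  refine ⟨11 * C, by positivity,
    fun l ρ δ ν B B₁ Y W₁ W₂ hl hCl hρ hρ' hδ hδ1 hν _ hY hp hB hB₁ hW₁ hW₂ hV₁ hV₂ τ hτ => ?_⟩
  have hs : St (ρ - δ) ⊆ St ρ := St_mono (by linarith)
  have H := fun x hx => h l ρ δ ν B B₁ Y W₁ W₂ x hl (by nlinarith [mul_pos hC hl]) hρ hρ' hδ hδ1 hν
    hY hB hB₁ hW₁ hW₂ (hV₁ x (hs hx)) (hV₂ x (hs hx)) hx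
  have hl1 : l ≤ 1 / 10 := (H τ hτ).1.trans (by norm_num)
  have h1 := lineBd_of_St (fun x hx => (H x hx).2.1) hτ
  have h2 := lineBd_of_St (fun x hx => (H x hx).2.2.1) hτ
  have h4 := lineBd_of_St (fun x hx => (H x hx).2.2.2.2) hτ
  have h3 : LineBd (fun x => 2 / 9 * l * ν * (deriv Y x * be 0 l ν x)) τ
      (‖(2 / 9 * l * ν : ℂ)‖ * (C * B₁ * l)) (Real.log ν) :=
    lineBd_of_St (fun x hx => by
      rw [norm_mul (2 / 9 * l * ν : ℂ), mul_assoc ‖(2 / 9 * l * ν : ℂ)‖]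
      exact mul_le_mul_of_nonneg_left (H x hx).2.2.2.1 (norm_nonneg _)) hτ
  have h12 : LineBd (fun x => SU 1 (ctrl 1 l ν Y) (Tt l W₁ x) (Tt l W₁ (x + l)) -
      SU (-1) (ctrl 1 l ν Y) (Tt l W₂ x) (Tt l W₂ (x + l))) τ (2 * (C * B * l)) (Real.log ν) :=
    fun a => (norm_sub_le _ _).trans (by linarith [h1 a, h2 a])
  have hp' : ∀ x ∈ St ρ, deriv Y (x + l) = deriv Y x := fun x hx => by
    rw [← deriv_comp_add_const]
    exact Filter.EventuallyEq.deriv_eq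
      (Filter.mem_of_superset ((isOpen_St ρ).mem_nhds hx) fun y hy => hp y hy)
  have h5 := h4.norm_sumZ hl hl1
  rw [h12.sumZ_add hl hl1 h3, h1.sumZ_sub hl hl1 h2, sumZ_mul_left, sumZ_per_mul hp' (hs hτ),
    sumZ_be hl hl1 hν (St_mono (by linarith) hτ), mul_one] at h5
  refine h5.trans (le_of_eq ?_)
  field_simp

end Pool.Agent.MP_be9872_an

end

-- part MP_be9872_an.Step
section

set_option autoImplicit false
open Complex

namespace Pool.Agent.MP_be9872_an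

/-- invariants of the iteration -/
structure Inv (l ρ κ b e : ℝ) (U W₁ W₂ : ℂ → ℂ) : Prop where
  pot : Pot ρ κ U
  re : IsRe U
  s1 : Sol 1 l ρ U W₁
  s2 : Sol (-1) l ρ U W₂
  v1 : ∀ τ ∈ St ρ, ‖deriv (Vv l W₁) τ‖ ≤ b
  v2 : ∀ τ ∈ St ρ, ‖deriv (Vv l W₂) τ‖ ≤ b
  m1 : ∀ τ ∈ St ρ, ‖Mel 1 l U W₁ τ - Mel 1 l U W₁ 0‖ ≤ e
  m2 : ∀ τ ∈ St ρ, ‖Mel (-1) l U W₂ τ - Mel (-1) l U W₂ 0‖ ≤ e

lemma step_one : ∃ C : ℝ, 0 < C ∧ ∀ (η : ℂ) (l ρ δ b e κ : ℝ) (U W u : ℂ → ℂ), (η = 1 ∨ η = -1) →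
    0 < l → C * l ≤ 1 → 0 < δ → 0 < ρ → ρ ≤ 1 / 4 → C * b ≤ 1 → Pot ρ (l ^ 4) U → IsRe U →
    Sol η l ρ U W → (∀ τ ∈ St ρ, ‖deriv (Vv l W) τ‖ ≤ b) →
    (∀ τ ∈ St ρ, ‖Mel η l U W τ - Mel η l U W 0‖ ≤ e) →
    0 < κ → C * κ ≤ l ^ 3 → Pot ρ κ u → IsRe u → Pot ρ (l ^ 4) (fun a => U a + u a) →
      ∃ W', Sol η l ρ (fun a => U a + u a) W' ∧ ∀ τ ∈ St (ρ - δ),
        ‖muW η l U W τ‖ ≤ 4 * e / δ ∧ ‖deriv (Vv l W') τ‖ ≤ b + C * κ / (l ^ 2 * δ) ∧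
        ‖Mel η l (fun a => U a + u a) W' τ - Mel η l U W τ - Pp η l W u τ‖ ≤
          C * κ ^ 2 / l ^ 7 + C * κ / l ^ 2 * (4 * e / δ) := by
  obtain ⟨C₁, hC₁, h₁⟩ := ls_main
  obtain ⟨C₂, hC₂, h₂⟩ := mel_main
  refine ⟨12 * C₁ + C₂ + 10, by positivity,
    fun η l ρ δ b e κ U W u hη hl hC hδ hρ0 hρ hb hU hUre hS hv hm hκ hCκ hu hure hUu => ?_⟩
  have hl1 : l ≤ 1 / 10 := by nlinarith
  have hb0 : 0 ≤ b := (norm_nonneg _).trans (hv 0 (by simpa using ofReal_mem_St hρ0 0))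
  obtain ⟨l1, l2⟩ := h₁ η l ρ hη hl (by nlinarith) hρ0 hρ
  obtain ⟨W', hS'⟩ := l1 _ hUu (hUre.add hure)
  obtain ⟨m1, -, -, -, m5, m6⟩ := h₂ η l ρ U W hη hl (by nlinarith) hρ0 hρ hU hUre hS
  have hsub : St (ρ - δ) ⊆ St ρ := St_mono (by linarith)
  have hlip := (l2 U W hU hS).2.2.2 _ W' κ hUu (by simpa using hu) hS'
  refine ⟨W', hS', fun τ hτ => ?_⟩
  have hmu : ‖muW η l U W τ‖ ≤ 4 * e / δ := by
    have h1 := m5 b (by nlinarith) hv τ (hsub hτ)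
    have h2 := deriv_le_of_St hδ (m1.sub_const (Mel η l U W 0)) hm hτ
    rw [deriv_sub_const] at h2
    have : 4 * e / δ = 2 * (2 * e / δ) := by ring
    linarith
  refine ⟨hmu, ?_, ?_⟩
  · have d1 := hS.bal.diff_Vv hl hl1
    have d2 := hS'.bal.diff_Vv hl hl1
    have h1 : ∀ τ ∈ St ρ, ‖Vv l W' τ - Vv l W τ‖ ≤ 6 * (C₁ * κ / l) / l := by
      intro τ hτ
      rw [← Vv_sub hl hl1 hS.bal.bd hS'.bal.bd hτ]
      refine (norm_Vv_le hl hl1 (fun τ hτ => (hlip τ hτ).1) hτ).trans ?_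
      exact mul_le_of_le_one_right (by positivity) (om_le_one _)
    have h2 := deriv_le_of_St hδ (d2.sub d1) h1 hτ
    rw [deriv_sub (diffAt_of_St d2 (hsub hτ)) (diffAt_of_St d1 (hsub hτ))] at h2
    have h3 := hv τ (hsub hτ)
    have h4 : 2 * (6 * (C₁ * κ / l) / l) / δ ≤ (12 * C₁ + C₂ + 10) * κ / (l ^ 2 * δ) := by
      have : 2 * (6 * (C₁ * κ / l) / l) / δ = 12 * C₁ * κ / (l ^ 2 * δ) := by field_simp; ring
      rw [this]; gcongr; linarith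
    have h5 := norm_add_le (deriv (Vv l W') τ - deriv (Vv l W) τ) (deriv (Vv l W) τ)
    rw [sub_add_cancel] at h5
    linarith
  · refine (m6 κ u W' hκ (by nlinarith) hu hUu hS' τ (hsub hτ)).trans ?_
    gcongr <;> linarith

/-- construction of the control -/
lemma step_ctrl : ∃ (C : ℝ) (D : ℕ → ℝ), 0 < C ∧ (∀ j, 0 < D j) ∧
    ∀ (l ρ δ e : ℝ) (U W₁ W₂ G₁ G₂ : ℂ → ℂ), 0 < l → C * l ≤ 1 → 0 < δ → 1 / 16 ≤ ρ - δ →
    ρ ≤ 1 / 4 → Pot ρ (l ^ 4) U → Sol 1 l ρ U W₁ → Sol (-1) l ρ U W₂ →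
    DifferentiableOn ℂ G₁ (St ρ) → DifferentiableOn ℂ G₂ (St ρ) →
    (∀ τ ∈ St ρ, G₁ (τ + l) = G₁ τ) → (∀ τ ∈ St ρ, G₂ (τ + l) = G₂ τ) → IsRe G₁ → IsRe G₂ →
    (∀ τ ∈ St ρ, ‖G₁ τ‖ ≤ e) → (∀ τ ∈ St ρ, ‖G₂ τ‖ ≤ e) →
      ∃ (u : ℂ → ℂ) (m : ℂ), DifferentiableOn ℂ u (Dom ρ (1 / 50)) ∧ IsRe u ∧
        (∀ j : ℕ, ∀ τ ∈ Dom ρ (1 / 50), ‖u τ‖ ≤ D j * e / (l * δ) ^ (2 * j + 1) * w τ.re ^ j) ∧
        ∀ τ ∈ St (ρ - δ), ‖G₁ τ + Pp 1 l W₁ u τ‖ ≤ C * l * e ∧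
          ‖G₂ τ + Pp (-1) l W₂ u τ - m‖ ≤ C * l * e := by
  obtain ⟨Cl, hCl, hls⟩ := ls_main
  obtain ⟨Cp, hCp, hpp⟩ := pp_basic
  choose Cj hCj hpot using ctrl_pot
  obtain ⟨C₁, hC₁, hL1⟩ := ctrl_L1
  obtain ⟨C₂, hC₂, hL2⟩ := ctrl_L2 Cl
  refine ⟨Cl + Cp + C₁ * (2 + 9 * C₁) + 45 * C₂ + 100, fun j => Cj j * (10 + 9 * C₁),
    by positivity, fun j => by have := hCj j; positivity,
    fun l ρ δ e U W₁ W₂ G₁ G₂ hl hC hδ hρδ hρ hU s1 s2 d1 d2 p1 p2 r1 r2 b1 b2 => ?_⟩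
  have hq : 0 ≤ C₁ * (9 * C₁) := by positivity
  have hl100 : l ≤ 1 / 100 := by nlinarith
  have hcl : Cl * l ≤ 1 := by nlinarith
  have hcp : Cp * l ≤ 1 := by nlinarith
  have hc1 : C₁ * l ≤ 1 := by nlinarith
  have hc2 : C₂ * l ≤ 1 := by nlinarith
  have hρ0 : 0 < ρ := by linarith
  have hρ16 : 1 / 16 ≤ ρ := by linarith
  have hδ1 : δ ≤ 1 := by linarith
  have he : 0 ≤ e := (norm_nonneg _).trans (b1 0 (by simpa using ofReal_mem_St hρ0 0))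
  set ν : ℝ := l * δ with hν
  have hν0 : 0 < ν := by positivity
  have hν1 : ν ≤ 1 := by nlinarith
  have hsub : St (ρ - δ) ⊆ St ρ := St_mono (by linarith)
  obtain ⟨Y, m, dY, pY, rY, bY, bm, eY⟩ := exists_prim l ρ (2 * e) hl hρ0 (fun a => G₂ a - G₁ a)
    (d2.sub d1) (fun τ hτ => by rw [p1 τ hτ, p2 τ hτ]) (r2.sub r1)
    (fun τ hτ => by linarith [norm_sub_le (G₂ τ) (G₁ τ), b1 τ hτ, b2 τ hτ])
  set c : ℝ := -(9 / (2 * l * ν)) with hc
  have hcn : ‖(c : ℂ)‖ = 9 / (2 * l * ν) := by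
    rw [norm_real, hc, norm_neg, Real.norm_of_nonneg (by positivity)]
  set Y₂ : ℂ → ℂ := fun a => (c : ℂ) * Y a with hY₂
  have dY₂ : DifferentiableOn ℂ Y₂ (St ρ) := dY.const_mul _
  have pY₂ : ∀ τ ∈ St ρ, Y₂ (τ + l) = Y₂ τ := fun τ hτ => by simp only [hY₂, pY τ hτ]
  have rY₂ : IsRe Y₂ := fun x => by simp [hY₂, rY x]
  have bY₂ : ∀ τ ∈ St ρ, ‖Y₂ τ‖ ≤ 9 * e / ν := fun τ hτ => by
    simp only [hY₂]
    rw [norm_mul, hcn]
    calc 9 / (2 * l * ν) * ‖Y τ‖ ≤ 9 / (2 * l * ν) * (l * (2 * e)) := by gcongr; exact bY τ hτ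
      _ = 9 * e / ν := by field_simp
  have eY₂ : ∀ τ ∈ St ρ, deriv Y₂ τ = c * (G₂ τ - G₁ τ - m) := fun τ hτ => by
    simp only [hY₂]
    rw [deriv_const_mul _ (diffAt_of_St dY hτ), eY τ hτ]
  have bY₂' : ∀ τ ∈ St ρ, ‖deriv Y₂ τ‖ ≤ 18 * e / (l * ν) := fun τ hτ => by
    rw [eY₂ τ hτ, norm_mul, hcn]
    have : ‖G₂ τ - G₁ τ - m‖ ≤ 4 * e := by
      linarith [norm_sub_le (G₂ τ - G₁ τ) m, norm_sub_le (G₂ τ) (G₁ τ), b1 τ hτ, b2 τ hτ]
    calc 9 / (2 * l * ν) * ‖G₂ τ - G₁ τ - m‖ ≤ 9 / (2 * l * ν) * (4 * e) := by gcongr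
      _ = 18 * e / (l * ν) := by field_simp; ring
  have q2 := fun j => hpot j 1 l ν ρ _ Y₂ le_rfl hl hl100 hν0 hν1 hρ16 hρ dY₂ bY₂
  have pot2 : Pot ρ _ (ctrl 1 l ν Y₂) := ⟨(q2 4).1, (q2 4).2.1⟩
  obtain ⟨dP, pP, rP, aP⟩ := hpp 1 l ρ _ W₁ _ (Or.inl rfl) hl hcp hρ pot2 s1.bal
  obtain ⟨-, -, -, aP'⟩ := hpp (-1) l ρ _ W₂ _ (Or.inr rfl) hl hcp hρ pot2 s2.bal
  have bP := (hL1 1 l ρ δ ν _ Y₂ W₁ (Or.inl rfl) hl hc1 hρ16 hρ hδ hδ1 hν0 hν1 dY₂ pY₂ bY₂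
    s1.bal).1
  have hs0 : ((s0 : ℝ) : ℂ) ≠ 0 := ofReal_ne_zero.2 s0_pos.ne'
  set Y₁ : ℂ → ℂ := fun a => ((-(1 / (2 * s0)) : ℝ) : ℂ) * (G₁ a + Pp 1 l W₁ (ctrl 1 l ν Y₂) a)
    with hY₁
  have dY₁ : DifferentiableOn ℂ Y₁ (St ρ) := (d1.add dP).const_mul _
  have pY₁ : ∀ τ ∈ St ρ, Y₁ (τ + l) = Y₁ τ := fun τ hτ => by simp only [hY₁, p1 τ hτ, pP τ hτ]
  have rY₁ : IsRe Y₁ := fun x => by
    simp only [hY₁, mul_im, ofReal_im, add_im, r1 x, rP s1.re ((q2 4).2.2 rY₂) x]; simp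
  have bY₁ : ∀ τ ∈ St ρ, ‖Y₁ τ‖ ≤ (1 + 9 * C₁) * e / ν := fun τ hτ => by
    simp only [hY₁]
    have h1 : ‖((-(1 / (2 * s0)) : ℝ) : ℂ)‖ ≤ 1 := by
      have := s0_ge
      rw [norm_real, norm_neg, Real.norm_of_nonneg (by positivity), div_le_one (by positivity)]
      linarith
    have h2 : e ≤ e / ν := by rw [le_div_iff₀ hν0]; nlinarith
    have h3 := norm_add_le (G₁ τ) (Pp 1 l W₁ (ctrl 1 l ν Y₂) τ)
    have h4 := bP τ hτ
    have h5 := b1 τ hτ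
    rw [norm_mul]
    refine (mul_le_of_le_one_left (norm_nonneg _) h1).trans ?_
    have : (1 + 9 * C₁) * e / ν = e / ν + C₁ * (9 * e / ν) := by ring
    linarith
  have eY₁ : ∀ τ, 2 * (s0 : ℝ) * Y₁ τ = -(G₁ τ + Pp 1 l W₁ (ctrl 1 l ν Y₂) τ) := fun τ => by
    simp only [hY₁]; push_cast; field_simp
  have hν20 : 0 < ν ^ 2 := by positivity
  have hν21 : ν ^ 2 ≤ 1 := pow_le_one₀ hν0.le hν1
  have q1 := fun j => hpot j 0 l (ν ^ 2) ρ _ Y₁ zero_le_one hl hl100 hν20 hν21 hρ16 hρ dY₁ bY₁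
  have pot1 : Pot ρ _ (ctrl 0 l (ν ^ 2) Y₁) := ⟨(q1 4).1, (q1 4).2.1⟩
  have t1 := (hL1 1 l ρ δ (ν ^ 2) _ Y₁ W₁ (Or.inl rfl) hl hc1 hρ16 hρ hδ hδ1 hν20 hν21 dY₁ pY₁ bY₁
    s1.bal).2
  have t2 := (hL1 (-1) l ρ δ (ν ^ 2) _ Y₁ W₂ (Or.inr rfl) hl hc1 hρ16 hρ hδ hδ1 hν20 hν21 dY₁ pY₁
    bY₁ s2.bal).2
  have t3 := hL2 l ρ δ ν _ _ Y₂ W₁ W₂ hl hc2 hρ16 hρ hδ hδ1 hν0 hν1 dY₂ pY₂ bY₂ bY₂' s1.bal s2.bal
    ((hls 1 l ρ (Or.inl rfl) hl hcl hρ0 hρ).2 U W₁ hU s1).2.2.1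
    ((hls (-1) l ρ (Or.inr rfl) hl hcl hρ0 hρ).2 U W₂ hU s2).2.2.1
  have e1 : C₁ * ((1 + 9 * C₁) * e / ν) * ν ^ 2 / δ = C₁ * (1 + 9 * C₁) * (l * e) := by
    rw [hν]; field_simp
  have e2 : C₂ * l * ν * (9 * e / ν + (l + ν / δ) * (18 * e / (l * ν))) = 45 * C₂ * (l * e) := by
    rw [hν]; field_simp; ring
  have hle : 0 ≤ l * e := by positivity
  refine ⟨fun a => ctrl 1 l ν Y₂ a + ctrl 0 l (ν ^ 2) Y₁ a, m, (q2 4).1.add (q1 4).1,
    ((q2 4).2.2 rY₂).add ((q1 4).2.2 rY₁), fun j τ hτ => ?_, fun τ hτ => ⟨?_, ?_⟩⟩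
  · have h1 := (q2 j).2.1 τ hτ
    have h2 := (q1 j).2.1 τ hτ
    have hw := pow_nonneg (w_nonneg τ.re) j
    have hj := hCj j
    have h3 : Cj j * l / ν ^ j * (9 * e / ν) ≤ Cj j * 9 * e / ν ^ (2 * j + 1) := by
      have : Cj j * l / ν ^ j * (9 * e / ν) = (l * ν ^ j) * (Cj j * 9 * e / ν ^ (2 * j + 1)) := by
        field_simp; ring
      rw [this]
      exact mul_le_of_le_one_left (by positivity)
        (mul_le_one₀ (by linarith) (by positivity) (pow_le_one₀ hν0.le hν1))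
    have h4 : Cj j * l / (ν ^ 2) ^ j * ((1 + 9 * C₁) * e / ν) ≤
        Cj j * (1 + 9 * C₁) * e / ν ^ (2 * j + 1) := by
      have : Cj j * l / (ν ^ 2) ^ j * ((1 + 9 * C₁) * e / ν) =
          l * (Cj j * (1 + 9 * C₁) * e / ν ^ (2 * j + 1)) := by
        field_simp; ring
      rw [this]
      exact mul_le_of_le_one_left (by positivity) (by linarith)
    have h5 := mul_le_mul_of_nonneg_right h3 hw
    have h6 := mul_le_mul_of_nonneg_right h4 hw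
    have h7 : Cj j * (10 + 9 * C₁) * e / ν ^ (2 * j + 1) * w τ.re ^ j =
        Cj j * 9 * e / ν ^ (2 * j + 1) * w τ.re ^ j +
          Cj j * (1 + 9 * C₁) * e / ν ^ (2 * j + 1) * w τ.re ^ j := by ring
    linarith [norm_add_le (ctrl 1 l ν Y₂ τ) (ctrl 0 l (ν ^ 2) Y₁ τ)]
  · have h1 := t1 τ hτ
    rw [eY₁, e1] at h1
    rw [aP _ _ pot1 τ (hsub hτ)]
    have ee : G₁ τ + (Pp 1 l W₁ (ctrl 1 l ν Y₂) τ + Pp 1 l W₁ (ctrl 0 l (ν ^ 2) Y₁) τ) =
        Pp 1 l W₁ (ctrl 0 l (ν ^ 2) Y₁) τ - -(G₁ τ + Pp 1 l W₁ (ctrl 1 l ν Y₂) τ) := by ring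
    rw [ee]
    refine h1.trans ?_
    rw [mul_assoc _ l e]
    refine mul_le_mul_of_nonneg_right ?_ hle
    nlinarith
  · have h1 := t2 τ hτ
    rw [eY₁, e1] at h1
    have h2 := t3 τ hτ
    rw [e2, eY₂ τ (hsub hτ)] at h2
    rw [aP' _ _ pot1 τ (hsub hτ)]
    have hcc : (2 : ℂ) / 9 * l * ν * c = -1 := by
      have h1 : (l : ℂ) ≠ 0 := ofReal_ne_zero.2 hl.ne'
      have h2 : (ν : ℂ) ≠ 0 := ofReal_ne_zero.2 hν0.ne'
      rw [hc]; push_cast; field_simp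
    have ee : G₂ τ + (Pp (-1) l W₂ (ctrl 1 l ν Y₂) τ + Pp (-1) l W₂ (ctrl 0 l (ν ^ 2) Y₁) τ) - m =
        (Pp (-1) l W₂ (ctrl 0 l (ν ^ 2) Y₁) τ - -(G₁ τ + Pp 1 l W₁ (ctrl 1 l ν Y₂) τ)) -
          (Pp 1 l W₁ (ctrl 1 l ν Y₂) τ - Pp (-1) l W₂ (ctrl 1 l ν Y₂) τ +
            2 / 9 * l * ν * (c * (G₂ τ - G₁ τ - m))) := by
      linear_combination (G₂ τ - G₁ τ - m) * hcc
    rw [ee]
    refine (norm_sub_le _ _).trans ((add_le_add h1 h2).trans ?_)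
    rw [mul_assoc _ l e, ← add_mul]
    refine mul_le_mul_of_nonneg_right ?_ hle
    nlinarith

lemma step_small {a C x y : ℝ} (h : 200 * a ≤ C) (hx : 0 ≤ x) (hy : C * x ≤ y) :
    a * x ≤ y / 200 := by nlinarith

lemma step_num {C C₁ C₂ D l δ t ε : ℝ} (hl : 0 < l) (hδ : 0 < δ) (hδ1 : δ ≤ 1) (ht : 0 < t)
    (hC₁ : 0 < C₁) (hD : 0 < D) (hC : C * l ≤ 1) (hCt : C * t ≤ ε) (hε : ε ≤ 1)
    (k2 : 200 * C₂ ≤ C) (k4 : 200 * (C₁ * D) ≤ C) (k5 : 200 * (C₁ * D ^ 2) ≤ C)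
    (k6 : 200 * D ≤ C) (k7 : 200 * 4 ≤ C) {e κ : ℝ} (he : e = t * (l * δ) ^ 25)
    (hκ : κ = D * t * (l * δ) ^ 16) :
    κ ≤ ε * l ^ 4 ∧ C₁ * κ ≤ l ^ 3 ∧ C₁ * κ / (l ^ 2 * δ) ≤ ε * l ∧ 4 * e / δ ≤ ε ∧
      C₁ * κ ^ 2 / l ^ 7 + C₁ * κ / l ^ 2 * (4 * e / δ) ≤ e / 16 ∧ C₂ * l * e ≤ e / 16 := by
  have hε0 : 0 < ε := lt_of_lt_of_le (mul_pos (by linarith) ht) hCt
  have hl1 : l ≤ 1 := by linarith [step_small k7 hl.le hC]
  have he0 : 0 < e := by rw [he]; positivity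
  have pw : ∀ a b : ℕ, l ^ a * δ ^ b ≤ 1 := fun a b =>
    mul_le_one₀ (pow_le_one₀ hl.le hl1) (by positivity) (pow_le_one₀ hδ.le hδ1)
  have a4 := step_small k4 ht.le hCt
  have a5 := step_small k5 ht.le hCt
  have a6 := step_small k6 ht.le hCt
  have a7 := step_small k7 ht.le hCt
  have a2 := step_small k2 hl.le hC
  refine ⟨?_, ?_, ?_, ?_, ?_, ?_⟩
  · have : κ = (D * t) * (l ^ 12 * δ ^ 16) * l ^ 4 := by rw [hκ]; ring
    rw [this]
    have h2 := mul_le_mul (show D * t ≤ ε by linarith) (pw 12 16) (by positivity) hε0.le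
    rw [mul_one] at h2
    gcongr
  · have : C₁ * κ = (C₁ * D * t) * (l ^ 13 * δ ^ 16) * l ^ 3 := by rw [hκ]; ring
    rw [this]
    exact mul_le_of_le_one_left (by positivity)
      (mul_le_one₀ (by linarith) (by positivity) (pw 13 16))
  · have : C₁ * κ / (l ^ 2 * δ) = (C₁ * D * t) * (l ^ 13 * δ ^ 15) * l := by
      rw [hκ]; field_simp
    rw [this]
    have h2 := mul_le_mul (show C₁ * D * t ≤ ε by linarith) (pw 13 15) (by positivity) hε0.le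
    rw [mul_one] at h2
    gcongr
  · have : 4 * e / δ = (4 * t) * (l ^ 25 * δ ^ 24) := by rw [he]; field_simp
    rw [this]
    have h2 := mul_le_mul (show 4 * t ≤ ε by linarith) (pw 25 24) (by positivity) hε0.le
    rwa [mul_one] at h2
  · have e1 : C₁ * κ ^ 2 / l ^ 7 = (C₁ * D ^ 2 * t) * (l ^ 0 * δ ^ 7) * e := by
      rw [hκ, he]; field_simp
    have e2 : C₁ * κ / l ^ 2 * (4 * e / δ) = (4 * (C₁ * D * t)) * (l ^ 14 * δ ^ 15) * e := by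
      rw [hκ]; field_simp
    rw [e1, e2]
    have h3 := mul_le_mul (show C₁ * D ^ 2 * t ≤ 1 / 32 by linarith) (pw 0 7) (by positivity)
      (by norm_num)
    have h4 := mul_le_mul (show 4 * (C₁ * D * t) ≤ 1 / 32 by linarith) (pw 14 15) (by positivity)
      (by norm_num)
    have h5 := mul_le_mul_of_nonneg_right h3 he0.le
    have h6 := mul_le_mul_of_nonneg_right h4 he0.le
    linarith
  · have := mul_le_mul_of_nonneg_right (show C₂ * l ≤ 1 / 16 by linarith) he0.le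
    linarith

lemma step_const {C₁ C₂ C₃ D : ℝ} (hC₁ : 0 < C₁) (hC₂ : 0 < C₂) (hC₃ : 0 < C₃) (hD : 0 < D) :
    ∃ C : ℝ, 200 * C₁ ≤ C ∧ 200 * C₂ ≤ C ∧ 200 * C₃ ≤ C ∧ 200 * (C₁ * D) ≤ C ∧
      200 * (C₁ * D ^ 2) ≤ C ∧ 200 * D ≤ C ∧ 200 * 4 ≤ C := by
  have g0 : 0 ≤ C₁ * D := by positivity
  have g1 : 0 ≤ C₁ * D ^ 2 := by positivity
  refine ⟨200 * (C₁ + C₂ + C₃ + C₁ * D + C₁ * D ^ 2 + D + 4), ?_, ?_, ?_, ?_, ?_, ?_, ?_⟩ <;>
    linarith

theorem step_main : ∃ (C : ℝ) (D : ℕ → ℝ), 0 < C ∧ ∀ (l ρ δ κ b e ε : ℝ) (U W₁ W₂ : ℂ → ℂ),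
    0 < l → C * l ≤ 1 → 0 < δ → 1 / 16 ≤ ρ - δ → ρ ≤ 1 / 4 → 0 < e → ε ≤ 1 →
    C * e ≤ ε * (l * δ) ^ 25 → κ + ε * l ^ 4 ≤ l ^ 4 → C * b ≤ 1 → Inv l ρ κ b e U W₁ W₂ →
      (∀ τ ∈ St (ρ - δ), ‖muW 1 l U W₁ τ‖ ≤ ε ∧ ‖muW (-1) l U W₂ τ‖ ≤ ε) ∧
      ∃ u W₁' W₂' : ℂ → ℂ, Pot ρ (ε * l ^ 4) u ∧ IsRe u ∧
        (∀ j : ℕ, ∀ τ ∈ Dom ρ (1 / 50), ‖u τ‖ ≤ D j * e / (l * δ) ^ (2 * j + 1) * w τ.re ^ j) ∧
        Inv l (ρ - δ) (κ + ε * l ^ 4) (b + ε * l) (e / 4) (fun a => U a + u a) W₁' W₂' := by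
  obtain ⟨C₁, hC₁, h₁⟩ := step_one
  obtain ⟨C₂, D, hC₂, hD, h₂⟩ := step_ctrl
  obtain ⟨C₃, hC₃, h₃⟩ := mel_main
  have hD4 := hD 4
  obtain ⟨C, k1, k2, k3, k4, k5, k6, k7⟩ := step_const hC₁ hC₂ hC₃ hD4
  refine ⟨C, D, by linarith, fun l ρ δ κ b e ε U W₁ W₂ hl hC hδ hρδ hρ he hε hCe hκ hb hI => ?_⟩
  have hρ0 : 0 < ρ := by linarith
  have hρδ0 : 0 < ρ - δ := by linarith
  have hδ1 : δ ≤ 1 := by linarith
  have hb0 : 0 ≤ b := (norm_nonneg _).trans (hI.v1 0 (by simpa using ofReal_mem_St hρ0 0))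
  have j1 : C₁ * l ≤ 1 := by linarith [step_small k1 hl.le hC]
  have j2 : C₂ * l ≤ 1 := by linarith [step_small k2 hl.le hC]
  have j3 : C₃ * l ≤ 1 := by linarith [step_small k3 hl.le hC]
  have j4 : C₁ * b ≤ 1 := by linarith [step_small k1 hb0 hb]
  set t : ℝ := e / (l * δ) ^ 25 with ht
  have ht0 : 0 < t := by positivity
  have het : e = t * (l * δ) ^ 25 := by rw [ht]; field_simp
  have hCt : C * t ≤ ε := by
    rw [ht, ← mul_div_assoc, div_le_iff₀ (by positivity)]; exact hCe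
  have hε0 : 0 < ε := lt_of_lt_of_le (mul_pos (by linarith) ht0) hCt
  have hεl : 0 ≤ ε * l ^ 4 := by positivity
  have hU : Pot ρ (l ^ 4) U := hI.pot.mono le_rfl (by linarith)
  obtain ⟨a1, a2, a3, -⟩ := h₃ 1 l ρ U W₁ (Or.inl rfl) hl j3 hρ0 hρ hU hI.re hI.s1
  obtain ⟨c1, c2, c3, -⟩ := h₃ (-1) l ρ U W₂ (Or.inr rfl) hl j3 hρ0 hρ hU hI.re hI.s2
  obtain ⟨u, m, du, ru, bu, eu⟩ := h₂ l ρ δ e U W₁ W₂ (fun a => Mel 1 l U W₁ a - Mel 1 l U W₁ 0)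
    (fun a => Mel (-1) l U W₂ a - Mel (-1) l U W₂ 0) hl j2 hδ hρδ hρ hU hI.s1 hI.s2
    (a1.sub_const _) (c1.sub_const _) (fun τ hτ => by rw [a2 τ hτ]) (fun τ hτ => by rw [c2 τ hτ])
    (a3.sub (fun _ => by simpa using a3 0)) (c3.sub (fun _ => by simpa using c3 0)) hI.m1 hI.m2
  set κ' : ℝ := D 4 * t * (l * δ) ^ 16 with hκ'
  have hκ'0 : 0 < κ' := by positivity
  have pu : Pot ρ κ' u := ⟨du, fun τ hτ => (bu 4 τ hτ).trans (le_of_eq (by
    have : e / (l * δ) ^ (2 * 4 + 1) = t * (l * δ) ^ 16 := by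
      rw [het, div_eq_iff (by positivity)]; ring
    rw [hκ', mul_div_assoc, this]; ring))⟩
  obtain ⟨f1, f2, f3, f4, f5, f6⟩ := step_num hl hδ hδ1 ht0 hC₁ hD4 hC hCt hε k2 k4 k5 k6 k7 het hκ'
  have pUu : Pot ρ (κ + ε * l ^ 4) (fun a => U a + u a) := hI.pot.add (pu.mono le_rfl f1)
  obtain ⟨W₁', s1, z1⟩ := h₁ 1 l ρ δ b e κ' U W₁ u (Or.inl rfl) hl j1 hδ hρ0 hρ
    j4 hU hI.re hI.s1 hI.v1 hI.m1 hκ'0 f2 pu ru (pUu.mono le_rfl hκ)
  obtain ⟨W₂', s2, z2⟩ := h₁ (-1) l ρ δ b e κ' U W₂ u (Or.inr rfl) hl j1 hδ hρ0 hρ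
    j4 hU hI.re hI.s2 hI.v2 hI.m2 hκ'0 f2 pu ru (pUu.mono le_rfl hκ)
  have h0 : (0 : ℂ) ∈ St (ρ - δ) := by simpa using ofReal_mem_St hρδ0 0
  have fin : ∀ (M : ℂ → ℂ) (a : ℂ), (∀ τ ∈ St (ρ - δ), ‖M τ - a‖ ≤ e / 8) →
      ∀ τ ∈ St (ρ - δ), ‖M τ - M 0‖ ≤ e / 4 := by
    intro M a h τ hτ
    have := norm_sub_le (M τ - a) (M 0 - a)
    rw [sub_sub_sub_cancel_right] at this
    linarith [h τ hτ, h 0 h0]
  refine ⟨fun τ hτ => ⟨(z1 τ hτ).1.trans f4, (z2 τ hτ).1.trans f4⟩, u, W₁', W₂',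
    pu.mono le_rfl f1, ru, bu, pUu.mono (by linarith) le_rfl, hI.re.add ru,
    s1.mono (by linarith), s2.mono (by linarith),
    fun τ hτ => (z1 τ hτ).2.1.trans (by linarith), fun τ hτ => (z2 τ hτ).2.1.trans (by linarith),
    fin _ (Mel 1 l U W₁ 0) fun τ hτ => ?_, fin _ (Mel (-1) l U W₂ 0 + m) fun τ hτ => ?_⟩
  · have h1 := (z1 τ hτ).2.2
    have h2 := (eu τ hτ).1
    have h3 := norm_add_le (Mel 1 l (fun a => U a + u a) W₁' τ - Mel 1 l U W₁ τ - Pp 1 l W₁ u τ)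
      (Mel 1 l U W₁ τ - Mel 1 l U W₁ 0 + Pp 1 l W₁ u τ)
    have ee : Mel 1 l (fun a => U a + u a) W₁' τ - Mel 1 l U W₁ τ - Pp 1 l W₁ u τ +
      (Mel 1 l U W₁ τ - Mel 1 l U W₁ 0 + Pp 1 l W₁ u τ) =
      Mel 1 l (fun a => U a + u a) W₁' τ - Mel 1 l U W₁ 0 := by ring
    rw [ee] at h3
    linarith
  · have h1 := (z2 τ hτ).2.2
    have h2 := (eu τ hτ).2
    have h3 := norm_add_le
      (Mel (-1) l (fun a => U a + u a) W₂' τ - Mel (-1) l U W₂ τ - Pp (-1) l W₂ u τ)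
      (Mel (-1) l U W₂ τ - Mel (-1) l U W₂ 0 + Pp (-1) l W₂ u τ - m)
    have ee : Mel (-1) l (fun a => U a + u a) W₂' τ - Mel (-1) l U W₂ τ - Pp (-1) l W₂ u τ +
      (Mel (-1) l U W₂ τ - Mel (-1) l U W₂ 0 + Pp (-1) l W₂ u τ - m) =
      Mel (-1) l (fun a => U a + u a) W₂' τ - (Mel (-1) l U W₂ 0 + m) := by ring
    rw [ee] at h3
    linarith

end Pool.Agent.MP_be9872_an

end

-- part MP_be9872_an.Iter
section

set_option autoImplicit false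
open Complex Filter Topology

namespace Pool.Agent.MP_be9872_an

lemma iter_seq {α : Type} (P : ℕ → α → Prop) (R : ℕ → α → α → Prop) (a0 : α) (h0 : P 0 a0)
    (hs : ∀ n a, P n a → ∃ a', P (n + 1) a' ∧ R n a a') :
    ∃ s : ℕ → α, s 0 = a0 ∧ ∀ n, P n (s n) ∧ R n (s n) (s (n + 1)) := by
  choose f hf using hs
  let s : (n : ℕ) → {a // P n a} := fun n =>
    Nat.rec (motive := fun n => {a // P n a}) ⟨a0, h0⟩
      (fun n a => ⟨f n a.1 a.2, (hf n a.1 a.2).1⟩) n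
  exact ⟨fun n => (s n).1, rfl, fun n => ⟨(s n).2, (hf n (s n).1 (s n).2).2⟩⟩

noncomputable def iterRho (n : ℕ) : ℝ := 1 / 16 + 1 / (16 * ((n : ℝ) + 1))

noncomputable def iterDel (n : ℕ) : ℝ := 1 / (16 * (((n : ℝ) + 1) * ((n : ℝ) + 2)))

lemma iter_del_pos (n : ℕ) : 0 < iterDel n := by unfold iterDel; positivity

lemma iter_rho_sub (n : ℕ) : iterRho n - iterDel n = iterRho (n + 1) := by
  unfold iterRho iterDel
  push_cast
  field_simp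
  ring

lemma iter_rho_ge (n : ℕ) : 1 / 16 ≤ iterRho n :=
  le_add_of_nonneg_right (by positivity)

lemma iter_rho_le (n : ℕ) : iterRho n ≤ 1 / 4 := by
  unfold iterRho
  have h0 : (0 : ℝ) ≤ n := Nat.cast_nonneg n
  have : 1 / (16 * ((n : ℝ) + 1)) ≤ 1 / 16 :=
    one_div_le_one_div_of_le (by norm_num) (by linarith)
  linarith

lemma iter_rho_zero : iterRho 0 = 1 / 8 := by unfold iterRho; norm_num

lemma iter_summable (m : ℕ) : Summable fun k : ℕ => (1 / 2 : ℝ) ^ k / iterDel k ^ m := by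
  have h1 : Summable fun k : ℕ => (k : ℝ) ^ (2 * m) * (1 / 2 : ℝ) ^ k :=
    summable_pow_mul_geometric_of_norm_lt_one (2 * m) (by norm_num)
  have h2 := ((summable_nat_add_iff 2).2 h1).mul_left (4 * 16 ^ m)
  refine Summable.of_nonneg_of_le (fun k => by have := iter_del_pos k; positivity)
    (fun k => ?_) h2
  have h0 : (0 : ℝ) ≤ k := Nat.cast_nonneg k
  have h3 : (16 * (((k : ℝ) + 1) * ((k : ℝ) + 2))) ^ m ≤ (16 * ((k : ℝ) + 2) ^ 2) ^ m :=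
    pow_le_pow_left₀ (by positivity) (by nlinarith) m
  unfold iterDel
  rw [one_div_pow (16 * (((k : ℝ) + 1) * ((k : ℝ) + 2))), div_div_eq_mul_div, div_one]
  refine (mul_le_mul_of_nonneg_left h3 (by positivity)).trans (le_of_eq ?_)
  rw [mul_pow, ← pow_mul, pow_add]
  push_cast
  ring

lemma iter_K : ∃ K : ℝ, 0 < K ∧ ∀ n : ℕ,
    (1 / 4 : ℝ) ^ n ≤ K * ((1 / 2) ^ (n + 1) * iterDel n ^ 25) := by
  have hnn : ∀ k : ℕ, 0 ≤ (1 / 2 : ℝ) ^ k / iterDel k ^ 25 := fun k => by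
    have := iter_del_pos k; positivity
  have h0 : 0 ≤ ∑' k : ℕ, (1 / 2 : ℝ) ^ k / iterDel k ^ 25 := tsum_nonneg hnn
  refine ⟨2 * (∑' k : ℕ, (1 / 2 : ℝ) ^ k / iterDel k ^ 25 + 1), by positivity, fun n => ?_⟩
  have h1 := (iter_summable 25).le_tsum n fun k _ => hnn k
  have h2 := pow_pos (iter_del_pos n) 25
  rw [div_le_iff₀ h2] at h1
  have e : (1 / 4 : ℝ) ^ n = (1 / 2) ^ n * (1 / 2) ^ n := by rw [← mul_pow]; norm_num
  have h3 : (0 : ℝ) < (1 / 2) ^ n := by positivity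
  rw [e, pow_succ (1 / 2 : ℝ) n]
  nlinarith [mul_le_mul_of_nonneg_left h1 h3.le, mul_pos h3 h2]

lemma iter_deriv_Vv {l : ℝ} (hl : 0 < l) (hl1 : l ≤ 1 / 10) {W : ℂ → ℂ}
    (h : Bal (1 / 4) (l ^ 2) W) : ∀ τ ∈ St (1 / 8), ‖deriv (Vv l W) τ‖ ≤ 100 * l := by
  intro τ hτ
  have h1 := deriv_le_of_St (δ := 1 / 8) (B := 6 * l) (by norm_num) (h.diff_Vv hl hl1)
    (fun u hu => (norm_Vv_le hl hl1 h.bd hu).trans (by
      rw [show 6 * l ^ 2 / l = 6 * l by field_simp]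
      exact mul_le_of_le_one_right (by positivity) (om_le_one _)))
    (τ := τ) (St_mono (by norm_num) hτ)
  linarith

theorem iter_main : ∃ C : ℝ, 0 < C ∧ ∀ l : ℝ, 0 < l → C * l ≤ 1 → ∃ U W₁ W₂ : ℂ → ℂ,
    Pot (1 / 16) (l ^ 4) U ∧ IsRe U ∧
    (∀ j : ℕ, ∃ D : ℝ, ∀ τ ∈ St (1 / 16), ‖U τ‖ ≤ D * w τ.re ^ j) ∧
    Sol 1 l (1 / 16) U W₁ ∧ Sol (-1) l (1 / 16) U W₂ ∧
    ∀ τ ∈ St (1 / 16), EL 1 l U W₁ τ = 0 ∧ EL (-1) l U W₂ τ = 0 := by
  obtain ⟨Cs, D, hCs, step⟩ := step_main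
  obtain ⟨CL, hCL, ls⟩ := ls_main
  obtain ⟨CM, hCM, mel⟩ := mel_main
  obtain ⟨Co, hCo, osc⟩ := osc_small 27
  obtain ⟨K, hK, hK'⟩ := iter_K
  refine ⟨101 * Cs + CL + CM + 10 + Cs * Co * CM * K, by positivity, fun l hl hC => ?_⟩
  have p1 : 0 < Cs * l := by positivity
  have p2 : 0 < CL * l := by positivity
  have p3 : 0 < CM * l := by positivity
  have p4 : 0 < Cs * Co * CM * K * l := by positivity
  have hl1 : l ≤ 1 / 10 := by linarith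
  have c1 : Cs * (101 * l) ≤ 1 := by linarith
  have c2 : CL * l ≤ 1 := by linarith
  have c3 : CM * l ≤ 1 := by linarith
  have c4 : Cs * Co * CM * K * l ≤ 1 := by linarith
  have hl4 : 0 < l ^ 4 := by positivity
  have pot0 : Pot (1 / 4) (l ^ 4) (fun _ => 0) := (pot_zero _).mono le_rfl hl4.le
  have re0 : IsRe (fun _ => 0) := fun _ => rfl
  have start : ∀ η : ℂ, (η = 1 ∨ η = -1) → ∃ W, Sol η l (1 / 8) (fun _ => 0) W ∧
      (∀ τ ∈ St (1 / 8), ‖deriv (Vv l W) τ‖ ≤ 100 * l) ∧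
      ∀ τ ∈ St (1 / 8), ‖Mel η l (fun _ => 0) W τ - Mel η l (fun _ => 0) W 0‖
        ≤ Co * CM * l ^ 26 := by
    intro η hη
    obtain ⟨W, hW⟩ := (ls η l (1 / 4) hη hl c2 (by norm_num) le_rfl).1 _ pot0 re0
    obtain ⟨m1, m2, -, m3, -⟩ := mel η l (1 / 4) _ W hη hl c3 (by norm_num) le_rfl pot0 re0 hW
    refine ⟨W, hW.mono (by norm_num), iter_deriv_Vv hl hl1 hW.bal, fun τ hτ => ?_⟩
    refine (osc l _ _ hl (by linarith) m1 m2 m3 τ hτ).trans (le_of_eq ?_)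
    field_simp
  obtain ⟨A1, a1, a2, a3⟩ := start 1 (Or.inl rfl)
  obtain ⟨A2, b1, b2, b3⟩ := start (-1) (Or.inr rfl)
  set e0 := Co * CM * l ^ 26 with he0
  have he0' : 0 < e0 := by positivity
  have hhalf : ∀ n : ℕ, (0 : ℝ) < (1 / 2) ^ n ∧ (1 / 2 : ℝ) ^ n ≤ 1 := fun n =>
    ⟨by positivity, pow_le_one₀ (by norm_num) (by norm_num)⟩
  have step' := fun (n : ℕ) (U W₁ W₂ : ℂ → ℂ) => step l (iterRho n) (iterDel n)
    (l ^ 4 * (1 - (1 / 2) ^ n)) (100 * l + l * (1 - (1 / 2) ^ n)) (e0 * (1 / 4) ^ n)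
    ((1 / 2) ^ (n + 1)) U W₁ W₂ hl (by linarith) (iter_del_pos n)
    (by rw [iter_rho_sub]; exact iter_rho_ge _) (iter_rho_le n) (by positivity)
    (hhalf (n + 1)).2
    (by
      have h1 := iter_del_pos n
      calc Cs * (e0 * (1 / 4) ^ n)
          ≤ Cs * (e0 * (K * ((1 / 2) ^ (n + 1) * iterDel n ^ 25))) := by
            gcongr
            exact hK' n
        _ = (Cs * Co * CM * K * l) * ((1 / 2) ^ (n + 1) * (l * iterDel n) ^ 25) := by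
            rw [he0]; ring
        _ ≤ _ := mul_le_of_le_one_left (by positivity) c4)
    (by rw [pow_succ (1 / 2 : ℝ) n]; nlinarith [mul_pos hl4 (hhalf n).1])
    (by nlinarith [mul_pos p1 (hhalf n).1])
  obtain ⟨s, hs0, hs⟩ := iter_seq (α := (ℂ → ℂ) × (ℂ → ℂ) × (ℂ → ℂ))
    (fun n a => Inv l (iterRho n) (l ^ 4 * (1 - (1 / 2) ^ n)) (100 * l + l * (1 - (1 / 2) ^ n))
      (e0 * (1 / 4) ^ n) a.1 a.2.1 a.2.2)
    (fun n a a' => Pot (iterRho n) ((1 / 2) ^ (n + 1) * l ^ 4) (fun x => a'.1 x - a.1 x) ∧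
      ∀ j : ℕ, ∀ τ ∈ Dom (iterRho n) (1 / 50), ‖a'.1 τ - a.1 τ‖
        ≤ D j * (e0 * (1 / 4) ^ n) / (l * iterDel n) ^ (2 * j + 1) * w τ.re ^ j)
    (fun _ => 0, A1, A2)
    (by
      rw [iter_rho_zero]
      simp only [pow_zero, sub_self, mul_zero, add_zero, mul_one]
      exact ⟨pot_zero _, re0, a1, b1, a2, b2, a3, b3⟩)
    (fun n a ha => by
      obtain ⟨-, u, W₁, W₂, h1, -, h2, h3⟩ := step' n _ _ _ ha
      refine ⟨(fun x => a.1 x + u x, W₁, W₂), ?_, ?_⟩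
      · rw [iter_rho_sub,
          show l ^ 4 * (1 - (1 / 2) ^ n) + (1 / 2) ^ (n + 1) * l ^ 4
            = l ^ 4 * (1 - (1 / 2) ^ (n + 1)) by ring,
          show 100 * l + l * (1 - (1 / 2) ^ n) + (1 / 2) ^ (n + 1) * l
            = 100 * l + l * (1 - (1 / 2) ^ (n + 1)) by ring,
          show e0 * (1 / 4) ^ n / 4 = e0 * (1 / 4) ^ (n + 1) by ring] at h3
        exact h3
      · simp only [add_sub_cancel_left]
        exact ⟨h1, h2⟩)
  have hz : (s 0).1 = fun _ => 0 := by rw [hs0]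
  have hpot : ∀ n, Pot (1 / 16) ((1 / 2) ^ (n + 1) * l ^ 4)
      (fun x => (s (n + 1)).1 x - (s n).1 x) := fun n => (hs n).2.1.mono (iter_rho_ge n) le_rfl
  have hpotn : ∀ n, Pot (1 / 16) (l ^ 4) (s n).1 := fun n =>
    (hs n).1.pot.mono (iter_rho_ge n) (by nlinarith [mul_pos hl4 (hhalf n).1])
  have hbd : ∀ (n : ℕ) (τ : ℂ), τ ∈ Dom (1 / 16) (1 / 50) →
      ‖(s (n + 1)).1 τ - (s n).1 τ‖ ≤ l ^ 4 * (1 / 2) ^ n := by
    intro n τ hτ
    refine ((hpot n).bd τ hτ).trans ?_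
    have h1 : w τ.re ^ 4 ≤ 1 := pow_le_one₀ (w_nonneg _) (w_le_one _)
    refine (mul_le_of_le_one_right (by positivity) h1).trans ?_
    rw [pow_succ (1 / 2 : ℝ) n]
    nlinarith [mul_pos hl4 (hhalf n).1]
  have hsum : Summable fun n : ℕ => l ^ 4 * (1 / 2 : ℝ) ^ n := summable_geometric_two.mul_left _
  let U : ℂ → ℂ := fun τ => ∑' n, ((s (n + 1)).1 τ - (s n).1 τ)
  have hlim : ∀ τ ∈ Dom (1 / 16) (1 / 50), Tendsto (fun n => (s n).1 τ) atTop (𝓝 (U τ)) := by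
    intro τ hτ
    have h1 := (Summable.of_norm_bounded hsum fun n => hbd n τ hτ).hasSum.tendsto_sum_nat
    refine h1.congr fun n => ?_
    rw [Finset.sum_range_sub (fun n => (s n).1 τ), hz, sub_zero]
  have hUd : DifferentiableOn ℂ U (Dom (1 / 16) (1 / 50)) :=
    Complex.differentiableOn_tsum_of_summable_norm hsum (fun n => (hpot n).diff)
      (isOpen_Dom _ _) hbd
  have hU : Pot (1 / 16) (l ^ 4) U :=
    ⟨hUd, fun τ hτ => le_of_tendsto' (hlim τ hτ).norm fun n => (hpotn n).bd τ hτ⟩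
  have hUre : IsRe U := fun x => im_tsum_eq_zero fun n => ((hs (n + 1)).1.re.sub (hs n).1.re) x
  have hrest : ∀ n, Pot (1 / 16) (l ^ 4 * (1 / 2) ^ n) (fun a => U a - (s n).1 a) := by
    intro n
    refine ⟨hUd.sub (hpotn n).diff, fun τ hτ => ?_⟩
    have h2 := dist_le_of_le_geometric_two_of_tendsto (C := l ^ 4 * w τ.re ^ 4)
      (f := fun n => (s n).1 τ) (fun m => by
        rw [dist_comm, dist_eq_norm]
        exact ((hpot m).bd τ hτ).trans (le_of_eq (by rw [one_div_pow]; ring))) (hlim τ hτ) n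
    rw [dist_comm, dist_eq_norm] at h2
    exact h2.trans (le_of_eq (by rw [one_div_pow]; ring))
  have fin : ∀ η : ℂ, (η = 1 ∨ η = -1) → ∀ V : ℕ → ℂ → ℂ,
      (∀ n, Sol η l (iterRho n) (s n).1 (V n)) →
      (∀ n, ∀ τ ∈ St (iterRho n - iterDel n), ‖muW η l (s n).1 (V n) τ‖ ≤ (1 / 2) ^ (n + 1)) →
      ∃ W, Sol η l (1 / 16) U W ∧ ∀ τ ∈ St (1 / 16), EL η l U W τ = 0 := by
    intro η hη V hV hmu
    obtain ⟨l1, l2⟩ := ls η l (1 / 16) hη hl c2 (by norm_num) (by norm_num)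
    obtain ⟨W, hW⟩ := l1 U hU hUre
    refine ⟨W, hW, fun τ hτ => ?_⟩
    have h1 : ∀ n : ℕ, ‖muW η l U W τ‖ ≤ (CL * l ^ 3 + 1) * (1 / 2) ^ n := by
      intro n
      have h2 := ((l2 _ _ (hpotn n) ((hV n).mono (iter_rho_ge n))).2.2.2 U W _ hU (hrest n) hW
        τ hτ).2
      have h3 := hmu n τ (St_mono (by rw [iter_rho_sub]; exact iter_rho_ge _) hτ)
      have h4 := norm_add_le (muW η l U W τ - muW η l (s n).1 (V n) τ) (muW η l (s n).1 (V n) τ)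
      rw [sub_add_cancel] at h4
      rw [show CL * (l ^ 4 * (1 / 2) ^ n) / l = CL * l ^ 3 * (1 / 2) ^ n by field_simp] at h2
      rw [pow_succ (1 / 2 : ℝ) n] at h3
      linarith [(hhalf n).1]
    have h2 : Tendsto (fun n : ℕ => (CL * l ^ 3 + 1) * (1 / 2 : ℝ) ^ n) atTop (𝓝 0) :=
      (summable_geometric_two.mul_left _).tendsto_atTop_zero
    rw [(l2 U W hU hW).1 τ hτ, norm_le_zero_iff.1 (ge_of_tendsto' h2 h1), mul_zero]
  obtain ⟨W₁, s1, z1⟩ := fin 1 (Or.inl rfl) (fun n => (s n).2.1) (fun n => (hs n).1.s1)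
    (fun n τ hτ => ((step' n _ _ _ (hs n).1).1 τ hτ).1)
  obtain ⟨W₂, s2, z2⟩ := fin (-1) (Or.inr rfl) (fun n => (s n).2.2) (fun n => (hs n).1.s2)
    (fun n τ hτ => ((step' n _ _ _ (hs n).1).1 τ hτ).2)
  refine ⟨U, W₁, W₂, hU, hUre, fun j => ?_, s1, s2, fun τ hτ => ⟨z1 τ hτ, z2 τ hτ⟩⟩
  have hsj := (iter_summable (2 * j + 1)).mul_left (|D j| * e0 / l ^ (2 * j + 1))
  refine ⟨∑' k : ℕ, |D j| * e0 / l ^ (2 * j + 1) * ((1 / 2 : ℝ) ^ k / iterDel k ^ (2 * j + 1)),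
    fun τ hτ => ?_⟩
  rw [← tsum_mul_right]
  refine tsum_of_norm_bounded (hsj.mul_right _).hasSum fun k => ?_
  refine ((hs k).2.2 j τ (St_subset_Dom (by norm_num) (St_mono (iter_rho_ge k) hτ))).trans
    (mul_le_mul_of_nonneg_right ?_ (pow_nonneg (w_nonneg _) _))
  have h1 := iter_del_pos k
  rw [div_mul_div_comm, ← mul_pow]
  refine div_le_div_of_nonneg_right ?_ (by positivity)
  rw [mul_assoc |D j|]
  have h2 : (1 / 4 : ℝ) ^ k ≤ (1 / 2) ^ k := pow_le_pow_left₀ (by norm_num) (by norm_num) k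
  exact mul_le_mul (le_abs_self _) (mul_le_mul_of_nonneg_left h2 he0'.le)
    (mul_nonneg he0'.le (by positivity)) (abs_nonneg _)

end Pool.Agent.MP_be9872_an

end
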