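import Pool.Agent.MP_be9872_an.Mg.LocG

-- part MP_be9872_an.LocN
section

set_option autoImplicit false
open Complex

namespace Pool.Agent.MP_be9872_an

noncomputable def locn_gI (η μ x y : ℂ) : ℂ :=
  -6 * μ * sin (6 * psi x y) * sin (del η x y) - η * (1 + μ * cos (6 * psi x y)) * cos (del η x y)

noncomputable def locn_gJ (η μ x y : ℂ) : ℂ :=
  -6 * μ * sin (6 * psi x y) * sin (del η x y) + η * (1 + μ * cos (6 * psi x y)) * cos (del η x y)

noncomputable def locn_S12 (η μ x y : ℂ) : ℂ :=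
  (1 - 35 * μ * cos (6 * psi x y)) * sin (del η x y) / 2

noncomputable def locn_K (η μ x y : ℂ) : ℂ :=
  -(sinh y / cosh y) * Thp y * locn_gJ η μ x y + Thp y * Thp y *
    (-18 * μ * cos (6 * psi x y) * sin (del η x y) - 6 * η * μ * sin (6 * psi x y) * cos (del η x y)
      - η ^ 2 / 2 * (1 + μ * cos (6 * psi x y)) * sin (del η x y))

lemma locn_I0_eq (η μ x y : ℂ) : I0 η μ x y = -Thp x * locn_gI η μ x y := by
  have h : Th x + (Th y - Th x) / 2 = (Th x + Th y) / 2 := by ring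
  unfold I0 g0 locn_gI psi del
  rw [h]

lemma locn_J0_eq (η μ x y : ℂ) : J0 η μ x y = Thp y * locn_gJ η μ x y := by
  have h : Th y + (Th x - Th y) / 2 = (Th x + Th y) / 2 := by ring
  have h2 : (Real.pi : ℂ) / 3 + -η * (Th x - Th y) / 2 = Real.pi / 3 + η * (Th y - Th x) / 2 := by
    ring
  unfold J0 g0 locn_gJ psi del
  rw [h, h2]
  ring

lemma locn_psi {z X' Y' : ℂ} {X Y : ℂ → ℂ} (hX : HasDerivAt X X' z)
    (hY : HasDerivAt Y Y' z) (hx : X z ∈ St (3 / 2)) (hy : Y z ∈ St (3 / 2)) :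
    HasDerivAt (fun z => 6 * psi (X z) (Y z)) (6 * ((Thp (X z) * X' + Thp (Y z) * Y') / 2)) z :=
  ((((hasDerivAt_Th hx).comp z hX).add ((hasDerivAt_Th hy).comp z hY)).div_const 2).const_mul 6

lemma locn_del {η z X' Y' : ℂ} {X Y : ℂ → ℂ} (hX : HasDerivAt X X' z)
    (hY : HasDerivAt Y Y' z) (hx : X z ∈ St (3 / 2)) (hy : Y z ∈ St (3 / 2)) :
    HasDerivAt (fun z => del η (X z) (Y z)) (η * (Thp (Y z) * Y' - Thp (X z) * X') / 2) z :=
  (((((hasDerivAt_Th hy).comp z hY).sub ((hasDerivAt_Th hx).comp z hX)).const_mul η).div_const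
    2).const_add _

theorem hasDerivAt_S0 {η μ z X' Y' : ℂ} {X Y : ℂ → ℂ} (hX : HasDerivAt X X' z)
    (hY : HasDerivAt Y Y' z) (hx : X z ∈ St (3 / 2)) (hy : Y z ∈ St (3 / 2)) :
    HasDerivAt (fun z => S0 η μ (X z) (Y z))
      (-I0 η μ (X z) (Y z) * X' + J0 η μ (X z) (Y z) * Y') z := by
  have h1 := locn_psi hX hY hx hy
  have h2 := locn_del (η := η) hX hY hx hy
  have h3 := (((h1.ccos.const_mul μ).const_add 1).const_mul 2).mul h2.csin
  refine h3.congr_deriv ?_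
  rw [locn_I0_eq, locn_J0_eq]
  unfold locn_gI locn_gJ
  ring

lemma locn_hasDerivAt_gI {η μ z X' Y' : ℂ} {X Y : ℂ → ℂ} (hX : HasDerivAt X X' z)
    (hY : HasDerivAt Y Y' z) (hx : X z ∈ St (3 / 2)) (hy : Y z ∈ St (3 / 2)) :
    HasDerivAt (fun z => locn_gI η μ (X z) (Y z))
      (-6 * μ * (cos (6 * psi (X z) (Y z)) * (6 * ((Thp (X z) * X' + Thp (Y z) * Y') / 2))) *
          sin (del η (X z) (Y z)) +
        -6 * μ * sin (6 * psi (X z) (Y z)) *
          (cos (del η (X z) (Y z)) * (η * (Thp (Y z) * Y' - Thp (X z) * X') / 2)) -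
        (η * (μ * (-sin (6 * psi (X z) (Y z)) * (6 * ((Thp (X z) * X' + Thp (Y z) * Y') / 2)))) *
          cos (del η (X z) (Y z)) +
        η * (1 + μ * cos (6 * psi (X z) (Y z))) *
          (-sin (del η (X z) (Y z)) * (η * (Thp (Y z) * Y' - Thp (X z) * X') / 2)))) z := by
  have h1 := locn_psi hX hY hx hy
  have h2 := locn_del (η := η) hX hY hx hy
  exact ((h1.csin.const_mul (-6 * μ)).mul h2.csin).sub
    ((((h1.ccos.const_mul μ).const_add 1).const_mul η).mul h2.ccos)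

lemma locn_hasDerivAt_gJ {η μ z X' Y' : ℂ} {X Y : ℂ → ℂ} (hX : HasDerivAt X X' z)
    (hY : HasDerivAt Y Y' z) (hx : X z ∈ St (3 / 2)) (hy : Y z ∈ St (3 / 2)) :
    HasDerivAt (fun z => locn_gJ η μ (X z) (Y z))
      (-6 * μ * (cos (6 * psi (X z) (Y z)) * (6 * ((Thp (X z) * X' + Thp (Y z) * Y') / 2))) *
          sin (del η (X z) (Y z)) +
        -6 * μ * sin (6 * psi (X z) (Y z)) *
          (cos (del η (X z) (Y z)) * (η * (Thp (Y z) * Y' - Thp (X z) * X') / 2)) +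
        (η * (μ * (-sin (6 * psi (X z) (Y z)) * (6 * ((Thp (X z) * X' + Thp (Y z) * Y') / 2)))) *
          cos (del η (X z) (Y z)) +
        η * (1 + μ * cos (6 * psi (X z) (Y z))) *
          (-sin (del η (X z) (Y z)) * (η * (Thp (Y z) * Y' - Thp (X z) * X') / 2)))) z := by
  have h1 := locn_psi hX hY hx hy
  have h2 := locn_del (η := η) hX hY hx hy
  exact ((h1.csin.const_mul (-6 * μ)).mul h2.csin).add
    ((((h1.ccos.const_mul μ).const_add 1).const_mul η).mul h2.ccos)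

theorem diffAt_I0 {η μ z : ℂ} {X Y : ℂ → ℂ} (hX : DifferentiableAt ℂ X z)
    (hY : DifferentiableAt ℂ Y z) (hx : X z ∈ St (3 / 2)) (hy : Y z ∈ St (3 / 2)) :
    DifferentiableAt ℂ (fun z => I0 η μ (X z) (Y z)) z := by
  simp only [locn_I0_eq]
  exact ((diffAt_Thp hx).comp z hX).neg.mul
    (locn_hasDerivAt_gI hX.hasDerivAt hY.hasDerivAt hx hy).differentiableAt

theorem diffAt_J0 {η μ z : ℂ} {X Y : ℂ → ℂ} (hX : DifferentiableAt ℂ X z)
    (hY : DifferentiableAt ℂ Y z) (hx : X z ∈ St (3 / 2)) (hy : Y z ∈ St (3 / 2)) :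
    DifferentiableAt ℂ (fun z => J0 η μ (X z) (Y z)) z := by
  simp only [locn_J0_eq]
  exact ((diffAt_Thp hy).comp z hY).mul
    (locn_hasDerivAt_gJ hX.hasDerivAt hY.hasDerivAt hx hy).differentiableAt

/-- derivative of `I0` in the second variable -/
lemma locn_hasDerivAt_I0 {η μ z x a : ℂ} (hη : η = 1 ∨ η = -1) (hx : x ∈ St (3 / 2))
    (hy : a + z ∈ St (3 / 2)) :
    HasDerivAt (fun u => I0 η μ x (a + u))
      (-(Thp x * Thp (a + z) * locn_S12 η μ x (a + z))) z := by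
  simp only [locn_I0_eq]
  have h := (locn_hasDerivAt_gI (η := η) (μ := μ) (X := fun _ => x) (Y := fun u => a + u)
    (hasDerivAt_const z x) ((hasDerivAt_id z).const_add a) hx hy).const_mul (-Thp x)
  refine h.congr_deriv ?_
  unfold locn_S12
  rcases hη with rfl | rfl <;> ring

/-- chain rule for `J0` -/
lemma locn_hasDerivAt_J0 {η μ z X' Y' : ℂ} {X Y : ℂ → ℂ} (hη : η = 1 ∨ η = -1)
    (hX : HasDerivAt X X' z) (hY : HasDerivAt Y Y' z) (hx : X z ∈ St (3 / 2))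
    (hy : Y z ∈ St (3 / 2)) :
    HasDerivAt (fun z => J0 η μ (X z) (Y z))
      (Thp (X z) * Thp (Y z) * locn_S12 η μ (X z) (Y z) * X' + locn_K η μ (X z) (Y z) * Y') z := by
  simp only [locn_J0_eq]
  have h := ((hasDerivAt_Thp hy).comp z hY).mul
    (locn_hasDerivAt_gJ (η := η) (μ := μ) hX hY hx hy)
  refine h.congr_deriv ?_
  unfold locn_S12 locn_K
  simp only [Function.comp_apply]
  rcases hη with rfl | rfl <;> ring

/-- trigonometric estimates at a close pair -/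
lemma locn_trig {η x y : ℂ} {d : ℝ} (hη : η = 1 ∨ η = -1) (hx : x ∈ St (7 / 10))
    (hy : y ∈ St (7 / 10)) (hd : ‖y - x‖ ≤ d) (hd1 : d ≤ 1 / 25) :
    ‖sin (del η x y) - (s0 : ℝ)‖ ≤ 2 * d * w x.re ∧ ‖sin (del η x y)‖ ≤ 1 ∧
      ‖cos (del η x y)‖ ≤ 1 ∧ ‖cos (6 * psi x y) - 1‖ ≤ 200 * w x.re ∧
      ‖cos (6 * psi x y)‖ ≤ 201 ∧ ‖sin (6 * psi x y)‖ ≤ 200 := by
  have hη1 : ‖η‖ = 1 := by rcases hη with rfl | rfl <;> simp
  have hw0 := w_pos x.re
  have hw1 := w_le_one x.re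
  have hd0 : 0 ≤ d := (norm_nonneg _).trans hd
  have hT : ‖Th y - Th x‖ ≤ 2 * (d * w x.re) := by
    have h1 := norm_Th_sub_le hx hy (by linarith)
    have h2 := mul_le_mul_of_nonneg_left hd (by positivity : 0 ≤ 2 * w x.re)
    linarith
  have hdw : d * w x.re ≤ 1 / 25 := by nlinarith
  have hdw0 : 0 ≤ d * w x.re := by positivity
  have hs1 := s0_le
  have hs0 := s0_pos
  have hns : ‖((s0 : ℝ) : ℂ)‖ = s0 := by rw [Complex.norm_real, Real.norm_of_nonneg hs0.le]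
  -- the angle
  set v : ℂ := η * (Th y - Th x) / 2 with hv
  have hv1 : ‖v‖ ≤ d * w x.re := by
    rw [hv, norm_div, norm_mul, hη1]
    simp only [Complex.norm_ofNat]
    linarith
  have hv0 := norm_nonneg v
  have c1 := mid_cos_sub (e := v) (by linarith)
  have c2 := mid_sin_le (e := v) (by linarith)
  have c3 : ‖v‖ ^ 2 ≤ ‖v‖ := by nlinarith
  have e1 : sin (del η x y) - (s0 : ℝ) = (s0 : ℝ) * (cos v - 1) + 1 / 2 * sin v := by
    unfold del
    rw [← hv, Complex.sin_add, locg_sin_pi3, locg_cos_pi3]; ring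
  have e2 : cos (del η x y) = 1 / 2 + 1 / 2 * (cos v - 1) - (s0 : ℝ) * sin v := by
    unfold del
    rw [← hv, Complex.cos_add, locg_sin_pi3, locg_cos_pi3]; ring
  have hhalf : ‖(1 / 2 : ℂ)‖ = 1 / 2 := by simp
  have r1 : ‖sin (del η x y) - (s0 : ℝ)‖ ≤ 2 * d * w x.re := by
    rw [e1]
    refine (norm_add_le _ _).trans ?_
    rw [norm_mul, norm_mul, hns, hhalf]
    have : s0 * ‖cos v - 1‖ ≤ 1 * ‖v‖ :=
      mul_le_mul (by linarith) (c1.trans c3) (norm_nonneg _) (by norm_num)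
    nlinarith
  have r2 : ‖sin (del η x y)‖ ≤ 1 := by
    have h1 : sin (del η x y) = (sin (del η x y) - (s0 : ℝ)) + (s0 : ℝ) := by ring
    rw [h1]
    refine (norm_add_le _ _).trans ?_
    rw [hns]; nlinarith
  have r3 : ‖cos (del η x y)‖ ≤ 1 := by
    rw [e2]
    refine (norm_sub_le _ _).trans ?_
    have h1 := norm_add_le (1 / 2 : ℂ) (1 / 2 * (cos v - 1))
    rw [norm_mul, hhalf] at h1
    rw [norm_mul, hns]
    have : s0 * ‖sin v‖ ≤ 1 * (2 * ‖v‖) :=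
      mul_le_mul (by linarith) c2 (norm_nonneg _) (by norm_num)
    linarith
  -- the normal
  set e : ℂ := 3 / 2 * (Th y - Th x) with he
  have he1 : ‖e‖ ≤ 3 * (d * w x.re) := by
    rw [he, norm_mul]
    have : ‖(3 / 2 : ℂ)‖ = 3 / 2 := by simp
    rw [this]; linarith
  have he0 := norm_nonneg e
  have b1 := mid_cos_sub (e := e) (by linarith)
  have b2 := mid_sin_le (e := e) (by linarith)
  have b3 : ‖cos e‖ ≤ 2 := by
    have h1 : cos e = (cos e - 1) + 1 := by ring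
    have h2 := norm_add_le (cos e - 1) 1
    rw [← h1, norm_one] at h2
    nlinarith
  have b4 : ‖sin e‖ ≤ w x.re := by nlinarith
  have hx' := St7_subset hx
  have a1 : ‖sin (3 * Th x)‖ ≤ 3 * w x.re := by rw [sin_three_Th hx']; exact norm_inv_cosh_le hx
  have a2 : ‖cos (3 * Th x)‖ ≤ 3 := by rw [cos_three_Th hx', norm_neg]; exact norm_tanh_le hx
  have e3 : 3 * psi x y = 3 * Th x + e := by rw [he]; unfold psi; ring
  have s3 : ‖sin (3 * psi x y)‖ ≤ 9 * w x.re := by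
    rw [e3, Complex.sin_add]
    refine (norm_add_le _ _).trans ?_
    rw [norm_mul, norm_mul]
    have h1 : ‖sin (3 * Th x)‖ * ‖cos e‖ ≤ 3 * w x.re * 2 :=
      mul_le_mul a1 b3 (norm_nonneg _) (by positivity)
    have h2 : ‖cos (3 * Th x)‖ * ‖sin e‖ ≤ 3 * w x.re :=
      mul_le_mul a2 b4 (norm_nonneg _) (by positivity)
    linarith
  have s4 : ‖cos (3 * psi x y)‖ ≤ 9 := by
    rw [e3, Complex.cos_add]
    refine (norm_sub_le _ _).trans ?_
    rw [norm_mul, norm_mul]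
    have h1 : ‖cos (3 * Th x)‖ * ‖cos e‖ ≤ 3 * 2 :=
      mul_le_mul a2 b3 (norm_nonneg _) (by positivity)
    have h2 : ‖sin (3 * Th x)‖ * ‖sin e‖ ≤ 3 * 1 :=
      mul_le_mul (by linarith) (by linarith) (norm_nonneg _) (by positivity)
    linarith
  have e6 : 6 * psi x y = 2 * (3 * psi x y) := by ring
  have r4 : ‖cos (6 * psi x y) - 1‖ ≤ 200 * w x.re := by
    have h1 : cos (6 * psi x y) - 1 = -2 * sin (3 * psi x y) ^ 2 := by
      rw [e6, Complex.cos_two_mul, Complex.cos_sq']; ring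
    rw [h1, norm_mul, norm_pow, norm_neg]
    simp only [Complex.norm_ofNat]
    have h2 : ‖sin (3 * psi x y)‖ ^ 2 ≤ (9 * w x.re) ^ 2 :=
      pow_le_pow_left₀ (norm_nonneg _) s3 2
    nlinarith
  have r5 : ‖cos (6 * psi x y)‖ ≤ 201 := by
    have h1 : cos (6 * psi x y) = (cos (6 * psi x y) - 1) + 1 := by ring
    have h2 := norm_add_le (cos (6 * psi x y) - 1) 1
    rw [← h1, norm_one] at h2
    linarith
  have r6 : ‖sin (6 * psi x y)‖ ≤ 200 := by
    rw [e6, Complex.sin_two_mul, norm_mul, norm_mul]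
    simp only [Complex.norm_ofNat]
    have h1 : ‖sin (3 * psi x y)‖ * ‖cos (3 * psi x y)‖ ≤ 9 * 9 :=
      mul_le_mul (by linarith) s4 (norm_nonneg _) (by positivity)
    linarith
  exact ⟨r1, r2, r3, r4, r5, r6⟩

lemma locn_g_le {η μ x y : ℂ} (hη : η = 1 ∨ η = -1) (hμ : ‖μ‖ ≤ 1) (hx : x ∈ St (7 / 10))
    (hy : y ∈ St (7 / 10)) (hd : ‖y - x‖ ≤ 1 / 25) :
    ‖locn_gI η μ x y‖ ≤ 1500 ∧ ‖locn_gJ η μ x y‖ ≤ 1500 := by
  obtain ⟨-, r2, r3, -, r5, r6⟩ := locn_trig hη hx hy hd le_rfl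
  have hη1 : ‖η‖ = 1 := by rcases hη with rfl | rfl <;> simp
  have h1 : ‖-6 * μ * sin (6 * psi x y) * sin (del η x y)‖ ≤ 6 * 1 * 200 * 1 := by
    rw [norm_mul, norm_mul, norm_mul, norm_neg]
    simp only [Complex.norm_ofNat]
    gcongr
  have h2 : ‖1 + μ * cos (6 * psi x y)‖ ≤ 202 := by
    refine (norm_add_le _ _).trans ?_
    rw [norm_one, norm_mul]
    have : ‖μ‖ * ‖cos (6 * psi x y)‖ ≤ 1 * 201 := by gcongr
    linarith
  have h3 : ‖η * (1 + μ * cos (6 * psi x y)) * cos (del η x y)‖ ≤ 1 * 202 * 1 := by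
    rw [norm_mul, norm_mul, hη1]
    gcongr
  constructor
  · unfold locn_gI
    refine (norm_sub_le _ _).trans ?_
    linarith
  · unfold locn_gJ
    refine (norm_add_le _ _).trans ?_
    linarith

lemma locn_IJ_le {η μ τ x y : ℂ} (hη : η = 1 ∨ η = -1) (hμ : ‖μ‖ ≤ 1) (hτ : τ ∈ St (1 / 4))
    (hx : ‖x - τ‖ ≤ 1 / 4) (hd : ‖y - x‖ ≤ 1 / 25) :
    ‖I0 η μ x y‖ ≤ 3000 * w τ.re ∧ ‖J0 η μ x y‖ ≤ 3000 * w τ.re := by
  have hy : ‖y - τ‖ ≤ 1 / 4 + 1 / 25 := by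
    have h1 : y - τ = (y - x) + (x - τ) := by ring
    rw [h1]; linarith [norm_add_le (y - x) (x - τ)]
  have hx7 : x ∈ St (7 / 10) := St_mono (by norm_num) (mem_St_of_norm_sub hτ hx)
  have hy7 : y ∈ St (7 / 10) := St_mono (by norm_num) (mem_St_of_norm_sub hτ hy)
  obtain ⟨g1, g2⟩ := locn_g_le hη hμ hx7 hy7 hd
  have t1 : ‖Thp x‖ ≤ 2 * w τ.re := (norm_Thp_le hx7).trans (w_re_le_two_mul (by linarith))
  have t2 : ‖Thp y‖ ≤ 2 * w τ.re := (norm_Thp_le hy7).trans (w_re_le_two_mul (by linarith))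
  have hw := w_pos τ.re
  constructor
  · rw [locn_I0_eq, norm_mul, norm_neg]
    have : ‖Thp x‖ * ‖locn_gI η μ x y‖ ≤ 2 * w τ.re * 1500 := by gcongr
    linarith
  · rw [locn_J0_eq, norm_mul]
    have : ‖Thp y‖ * ‖locn_gJ η μ x y‖ ≤ 2 * w τ.re * 1500 := by gcongr
    linarith

lemma locn_mu {l : ℝ} (h0 : 0 < l) (h1 : l ≤ 1 / 100) : ‖mu l‖ ≤ l ^ 2 / 100 := by
  have h : ‖(l : ℂ)‖ = l := by rw [Complex.norm_real, Real.norm_of_nonneg h0.le]
  have := norm_mu_le (s := l) (by rw [h]; linarith)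
  rwa [h] at this

/-- the derivative of `Nn` in the displacement -/
lemma locn_Nn_deriv {η τ x y : ℂ} {l : ℝ} (hη : η = 1 ∨ η = -1) (h0 : 0 < l) (h1 : l ≤ 1 / 100)
    (hτ : τ ∈ St (1 / 4)) (hx : ‖x - τ‖ ≤ 12 * l) (hd : ‖y - x‖ ≤ 2 * l) :
    ‖-(Thp x * Thp y * locn_S12 η (mu l) x y) + mm τ‖ ≤ 400 * l * w τ.re ^ 2 := by
  have hy : ‖y - τ‖ ≤ 14 * l := by
    have h1 : y - τ = (y - x) + (x - τ) := by ring
    rw [h1]; linarith [norm_add_le (y - x) (x - τ)]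
  have hτ7 : τ ∈ St (7 / 10) := St_mono (by norm_num) hτ
  have hx7 : x ∈ St (7 / 10) := St_mono (by linarith) (mem_St_of_norm_sub hτ hx)
  have hy7 : y ∈ St (7 / 10) := St_mono (by linarith) (mem_St_of_norm_sub hτ hy)
  obtain ⟨r1, r2, -, -, r5, -⟩ := locn_trig hη hx7 hy7 hd (by linarith)
  have hw := w_pos τ.re
  have hwx1 := w_le_one x.re
  have hwx0 := w_pos x.re
  have hμ := locn_mu h0 h1
  have hs1 := s0_le
  have hs0 := s0_pos
  have hns : ‖((s0 : ℝ) : ℂ)‖ = s0 := by rw [Complex.norm_real, Real.norm_of_nonneg hs0.le]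
  have t0 : ‖Thp τ‖ ≤ w τ.re := norm_Thp_le hτ7
  have t1 : ‖Thp x‖ ≤ 2 * w τ.re := (norm_Thp_le hx7).trans (w_re_le_two_mul (by linarith))
  have t2 : ‖Thp y‖ ≤ 2 * w τ.re := (norm_Thp_le hy7).trans (w_re_le_two_mul (by linarith))
  have u1 : ‖Thp x - Thp τ‖ ≤ 6 * w τ.re * (12 * l) :=
    (norm_Thp_sub_le hτ7 hx7 (by linarith)).trans (by gcongr)
  have u2 : ‖Thp y - Thp τ‖ ≤ 6 * w τ.re * (14 * l) :=
    (norm_Thp_sub_le hτ7 hy7 (by linarith)).trans (by gcongr)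
  have v1 : ‖locn_S12 η (mu l) x y - (s0 : ℝ) / 2‖ ≤ 3 * l := by
    have e : locn_S12 η (mu l) x y - (s0 : ℝ) / 2 = (sin (del η x y) - (s0 : ℝ)) / 2 -
        35 * mu l * cos (6 * psi x y) * sin (del η x y) / 2 := by
      unfold locn_S12; ring
    rw [e]
    refine (norm_sub_le _ _).trans ?_
    rw [norm_div, norm_div, norm_mul, norm_mul, norm_mul]
    simp only [Complex.norm_ofNat]
    have a1 : 35 * ‖mu l‖ * ‖cos (6 * psi x y)‖ * ‖sin (del η x y)‖ ≤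
        35 * (l ^ 2 / 100) * 201 * 1 := by gcongr
    have a2 : 2 * (2 * l) * w x.re ≤ 2 * (2 * l) * 1 := by gcongr
    nlinarith
  have e : -(Thp x * Thp y * locn_S12 η (mu l) x y) + mm τ =
      -(Thp x * Thp y * (locn_S12 η (mu l) x y - (s0 : ℝ) / 2) +
        (s0 : ℝ) / 2 * ((Thp x - Thp τ) * Thp y + Thp τ * (Thp y - Thp τ))) := by
    unfold mm; ring
  rw [e, norm_neg]
  refine (norm_add_le _ _).trans ?_
  have b1 : ‖Thp x * Thp y * (locn_S12 η (mu l) x y - (s0 : ℝ) / 2)‖ ≤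
      2 * w τ.re * (2 * w τ.re) * (3 * l) := by
    rw [norm_mul, norm_mul]; gcongr
  have b2 : ‖(Thp x - Thp τ) * Thp y + Thp τ * (Thp y - Thp τ)‖ ≤
      6 * w τ.re * (12 * l) * (2 * w τ.re) + w τ.re * (6 * w τ.re * (14 * l)) := by
    refine (norm_add_le _ _).trans ?_
    rw [norm_mul, norm_mul]; gcongr
  have b3 : ‖((s0 : ℝ) : ℂ) / 2‖ ≤ 1 := by
    rw [norm_div, hns]; simp only [Complex.norm_ofNat]; linarith
  have b4 : ‖((s0 : ℝ) : ℂ) / 2 * ((Thp x - Thp τ) * Thp y + Thp τ * (Thp y - Thp τ))‖ ≤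
      1 * (6 * w τ.re * (12 * l) * (2 * w τ.re) + w τ.re * (6 * w τ.re * (14 * l))) := by
    rw [norm_mul]; gcongr
  have b5 : 0 ≤ l * w τ.re ^ 2 := by positivity
  nlinarith

lemma locn_Nn {η τ x W : ℂ} {l : ℝ} (hη : η = 1 ∨ η = -1) (h0 : 0 < l) (h1 : l ≤ 1 / 100)
    (hτ : τ ∈ St (1 / 4)) (hx : ‖x - τ‖ ≤ 12 * l) (hW : ‖W‖ ≤ l) :
    ‖Nn η l τ x W‖ ≤ 400 * l * w τ.re ^ 2 * ‖W‖ := by
  have hl : ‖(l : ℂ)‖ = l := by rw [Complex.norm_real, Real.norm_of_nonneg h0.le]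
  have hx3 : x ∈ St (3 / 2) := St_mono (by linarith) (mem_St_of_norm_sub hτ hx)
  have hd : ∀ u ∈ Metric.closedBall (0 : ℂ) l, ‖x + l + u - x‖ ≤ 2 * l := by
    intro u hu
    have h2 : x + l + u - x = l + u := by ring
    have h3 := mem_closedBall_zero_iff.1 hu
    rw [h2]; linarith [norm_add_le (l : ℂ) u]
  have key := mvt (f := fun u => I0 η (mu l) x (x + l + u) + mm τ * u)
    (f' := fun u => -(Thp x * Thp (x + l + u) * locn_S12 η (mu l) x (x + l + u)) + mm τ)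
    (C := 400 * l * w τ.re ^ 2) (convex_closedBall (0 : ℂ) l)
    (fun u hu => by
      have hy3 : x + l + u ∈ St (3 / 2) :=
        St_mono (by linarith) (mem_St_of_norm_sub (mem_St_of_norm_sub hτ hx) (hd u hu))
      have h2 := (locn_hasDerivAt_I0 (μ := mu l) hη hx3 hy3).add
        ((hasDerivAt_id u).const_mul (mm τ))
      rw [mul_one] at h2
      exact h2)
    (fun u hu => locn_Nn_deriv hη h0 h1 hτ hx (hd u hu))
    (Metric.mem_closedBall_self h0.le) (mem_closedBall_zero_iff.2 hW)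
  have e : Nn η l τ x W = I0 η (mu l) x (x + l + W) + mm τ * W -
      (I0 η (mu l) x (x + l + 0) + mm τ * 0) := by
    unfold Nn Dd; rw [add_zero]; ring
  rw [e]
  simpa using key

lemma locn_Qr {η τ x W : ℂ} {l : ℝ} (hη : η = 1 ∨ η = -1) (h0 : 0 < l) (h1 : l ≤ 1 / 100)
    (hτ : τ ∈ St (1 / 4)) (hx : ‖x - τ‖ ≤ 12 * l) (hW : ‖W‖ ≤ l) :
    ‖Qr η l x W‖ ≤ 4 * (12000 * w τ.re) * (‖W‖ * 50) ^ 2 := by
  have hl : ‖(l : ℂ)‖ = l := by rw [Complex.norm_real, Real.norm_of_nonneg h0.le]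
  have hμ : ‖mu l‖ ≤ 1 := (locn_mu h0 h1).trans (by nlinarith)
  have hx2 : x ∈ St (1 / 4 + 12 * l) := mem_St_of_norm_sub hτ hx
  have hx3 : x ∈ St (3 / 2) := St_mono (by linarith) hx2
  have hd : ∀ u : ℂ, ‖u‖ < 1 / 50 → ‖x + l + u - x‖ ≤ 1 / 25 := by
    intro u hu
    have h2 : x + l + u - x = l + u := by ring
    rw [h2]; linarith [norm_add_le (l : ℂ) u]
  have hd2 : ∀ u : ℂ, ‖x + l + u - (x + u)‖ ≤ 1 / 25 := by
    intro u
    have h2 : x + l + u - (x + u) = l := by ring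
    rw [h2]; linarith
  have hd3 : ∀ u : ℂ, ‖u‖ < 1 / 50 → ‖x + u - τ‖ ≤ 1 / 4 := by
    intro u hu
    have h2 : x + u - τ = (x - τ) + u := by ring
    rw [h2]; linarith [norm_add_le (x - τ) u]
  have hy3 : ∀ u : ℂ, ‖u‖ < 1 / 50 → x + l + u ∈ St (3 / 2) := fun u hu =>
    St_mono (by linarith) (mem_St_of_norm_sub hx2 (hd u hu))
  have hz3 : ∀ u : ℂ, ‖u‖ < 1 / 50 → x + u ∈ St (3 / 2) := fun u hu =>
    St_mono (by linarith) (mem_St_of_norm_sub hτ (hd3 u hu))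
  have hder : ∀ u : ℂ, ‖u‖ < 1 / 50 → HasDerivAt (fun v => Qr η l x v)
      ((Thp x * Thp (x + l + u) * locn_S12 η (mu l) x (x + l + u) * 0 +
          locn_K η (mu l) x (x + l + u) * 1) -
        (Thp (x + u) * Thp (x + l + u) * locn_S12 η (mu l) (x + u) (x + l + u) * 1 +
          locn_K η (mu l) (x + u) (x + l + u) * 1) -
        (-(Thp x * Thp (x + l + u) * locn_S12 η (mu l) x (x + l + u)))) u := by
    intro u hu
    have a1 := locn_hasDerivAt_J0 (μ := mu l) (X := fun _ => x) (Y := fun v => x + l + v) hη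
      (hasDerivAt_const u x) ((hasDerivAt_id u).const_add _) hx3 (hy3 u hu)
    have a2 := locn_hasDerivAt_J0 (μ := mu l) (X := fun v => x + v) (Y := fun v => x + l + v) hη
      ((hasDerivAt_id u).const_add _) ((hasDerivAt_id u).const_add _) (hz3 u hu) (hy3 u hu)
    have a3 := (locn_hasDerivAt_I0 (μ := mu l) hη hx3 (hy3 u hu)).sub_const
      (I0 η (mu l) x (x + l))
    exact (a1.sub a2).sub a3
  have hder0 : HasDerivAt (fun v => Qr η l x v) 0 0 := by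
    refine (hder 0 (by simp)).congr_deriv ?_
    simp only [add_zero]; ring
  have hbd : ∀ u ∈ Metric.ball (0 : ℂ) (1 / 50), ‖Qr η l x u‖ ≤ 12000 * w τ.re := by
    intro u hu
    have hu' := mem_ball_zero_iff.1 hu
    have hx4 : ‖x - τ‖ ≤ 1 / 4 := by linarith
    obtain ⟨i1, j1⟩ := locn_IJ_le hη hμ hτ hx4 (hd u hu')
    obtain ⟨-, j2⟩ := locn_IJ_le hη hμ hτ (hd3 u hu') (hd2 u)
    obtain ⟨i3, -⟩ := locn_IJ_le hη hμ hτ hx4 (hd 0 (by simp))
    rw [add_zero] at i3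
    unfold Qr Dd
    have n1 := norm_sub_le (J0 η (mu l) x (x + l + u) - J0 η (mu l) (x + u) (x + l + u))
      (I0 η (mu l) x (x + l + u) - I0 η (mu l) x (x + l))
    have n2 := norm_sub_le (J0 η (mu l) x (x + l + u)) (J0 η (mu l) (x + u) (x + l + u))
    have n3 := norm_sub_le (I0 η (mu l) x (x + l + u)) (I0 η (mu l) x (x + l))
    linarith
  have key := schwarz2 (f := fun v => Qr η l x v) (z := W)
    (fun u hu => (hder u (mem_ball_zero_iff.1 hu)).differentiableAt.differentiableWithinAt)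
    hbd hder0 (mem_ball_zero_iff.2 (by linarith))
  have q0 : Qr η l x 0 = 0 := by unfold Qr Dd; simp
  rw [q0] at key
  have e : ‖W - 0‖ / (1 / 50) = ‖W‖ * 50 := by rw [sub_zero]; ring
  rw [e] at key
  simpa using key

/-- estimates for the unperturbed generating function at an admissible pair -/
theorem loc0_est : ∃ C : ℝ, 0 < C ∧ ∀ (η : ℂ) (l ρ : ℝ) (τ x W : ℂ), (η = 1 ∨ η = -1) → 0 < l →
    C * l ≤ 1 → ρ ≤ 1 / 4 → Adm l ρ τ x W →
      ‖Nn η l τ x W‖ ≤ C * l ^ 3 * w τ.re ^ 3 ∧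
      ‖Qr η l x W‖ ≤ C * l ^ 4 * w τ.re ^ 3 ∧
      ‖I0 η (mu l) x (x + l + W)‖ ≤ C * w τ.re ∧
      ‖J0 η (mu l) x (x + l + W)‖ ≤ C * w τ.re ∧
      ‖S0 η (mu l) x (x + l + W) - Sst (mu l)‖ ≤ C * w τ.re ∧
      ‖sin (del η x (x + l + W)) - (s0 : ℝ)‖ ≤ C * l * w τ.re ∧
      ‖sin (del η x (x + l + W))‖ ≤ 1 ∧ ‖cos (del η x (x + l + W))‖ ≤ 1 := by
  refine ⟨480000000, by norm_num, ?_⟩
  intro η l ρ τ x W hη h0 hC hρ hA
  have h1 : l ≤ 1 / 100 := by linarith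
  have hl : ‖(l : ℂ)‖ = l := by rw [Complex.norm_real, Real.norm_of_nonneg h0.le]
  have hτ : τ ∈ St (1 / 4) := St_mono hρ hA.mem
  have hw0 := w_pos τ.re
  have hw1 := w_le_one τ.re
  have hx : ‖x - τ‖ ≤ 12 * l := by
    have := mul_le_mul_of_nonneg_left (om_le_one τ.re) (by positivity : 0 ≤ 12 * l)
    linarith [hA.hx]
  have hW0 := hA.hW
  have hW : ‖W‖ ≤ l := by
    have a1 : 2 * l ^ 2 * w τ.re ≤ 2 * l ^ 2 * 1 := by gcongr
    nlinarith
  have hd : ‖x + l + W - x‖ ≤ 2 * l := by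
    have h2 : x + l + W - x = l + W := by ring
    rw [h2]; linarith [norm_add_le (l : ℂ) W]
  have hμ : ‖mu l‖ ≤ 1 := (locn_mu h0 h1).trans (by nlinarith)
  have hx2 : x ∈ St (1 / 4 + 12 * l) := mem_St_of_norm_sub hτ hx
  have hx7 : x ∈ St (7 / 10) := St_mono (by linarith) hx2
  have hy7 : x + l + W ∈ St (7 / 10) := St_mono (by linarith) (mem_St_of_norm_sub hx2 hd)
  obtain ⟨r1, r2, r3, r4, -, -⟩ := locn_trig hη hx7 hy7 hd (by linarith)
  have hwx : w x.re ≤ 2 * w τ.re := w_re_le_two_mul (by linarith)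
  obtain ⟨i1, j1⟩ := locn_IJ_le (y := x + l + W) hη hμ hτ (by linarith : ‖x - τ‖ ≤ 1 / 4)
    (by linarith)
  have r1' : ‖sin (del η x (x + l + W)) - (s0 : ℝ)‖ ≤ 8 * l * w τ.re := by
    have : 2 * (2 * l) * w x.re ≤ 2 * (2 * l) * (2 * w τ.re) := by gcongr
    linarith
  refine ⟨?_, ?_, by linarith, by linarith, ?_, ?_, r2, r3⟩
  · refine (locn_Nn hη h0 h1 hτ hx hW).trans ?_
    have a1 : 400 * l * w τ.re ^ 2 * ‖W‖ ≤ 400 * l * w τ.re ^ 2 * (2 * l ^ 2 * w τ.re) := by gcongr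
    have a2 : 0 ≤ l ^ 3 * w τ.re ^ 3 := by positivity
    nlinarith
  · refine (locn_Qr hη h0 h1 hτ hx hW).trans ?_
    have a1 : 4 * (12000 * w τ.re) * (‖W‖ * 50) ^ 2 ≤
        4 * (12000 * w τ.re) * (2 * l ^ 2 * w τ.re * 50) ^ 2 := by gcongr
    refine a1.trans (le_of_eq ?_)
    ring
  · have e : S0 η (mu l) x (x + l + W) - Sst (mu l) =
        2 * ((1 + mu l) * (sin (del η x (x + l + W)) - (s0 : ℝ)) +
          mu l * (cos (6 * psi x (x + l + W)) - 1) * sin (del η x (x + l + W))) := by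
      unfold S0 Sst; ring
    have a1 : ‖1 + mu l‖ ≤ 2 := by
      have := norm_add_le (1 : ℂ) (mu l)
      rw [norm_one] at this; linarith
    have a2 : ‖(1 + mu l) * (sin (del η x (x + l + W)) - (s0 : ℝ))‖ ≤ 2 * (8 * l * w τ.re) := by
      rw [norm_mul]; gcongr
    have a3 : ‖mu l * (cos (6 * psi x (x + l + W)) - 1) * sin (del η x (x + l + W))‖ ≤
        1 * (200 * w x.re) * 1 := by
      rw [norm_mul, norm_mul]
      have := w_pos x.re
      gcongr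
    have a4 := norm_add_le ((1 + mu l) * (sin (del η x (x + l + W)) - (s0 : ℝ)))
      (mu l * (cos (6 * psi x (x + l + W)) - 1) * sin (del η x (x + l + W)))
    rw [e, norm_mul]
    simp only [Complex.norm_ofNat]
    nlinarith
  · have : 0 ≤ l * w τ.re := by positivity
    nlinarith

end Pool.Agent.MP_be9872_an

end

-- part MP_be9872_an.LocU
section

set_option autoImplicit false
open Complex

namespace Pool.Agent.MP_be9872_an

/-- position of the points of an admissible pair -/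
theorem adm_mid : ∃ C : ℝ, 0 < C ∧ ∀ (l ρ : ℝ) (τ x W : ℂ), 0 < l → C * l ≤ 1 → ρ ≤ 1 / 4 →
    Adm l ρ τ x W →
      l ≤ 1 / 1000 ∧ ‖x - τ‖ ≤ 1 / 40 ∧ ‖x + l + W - τ‖ ≤ 1 / 40 ∧
      x ∈ St (1 / 2) ∧ x + l + W ∈ St (1 / 2) ∧
      mid x (x + l + W) ∈ Dom ρ (1 / 100) ∧ ‖mid x (x + l + W) - τ‖ ≤ 1 / 40 ∧
      ‖mid x (x + l + W) - τ - cst l‖ ≤ C * l * om τ.re ∧
      ‖mid x (x + l + W) - x - cst l‖ ≤ C * (l ^ 2 * om τ.re + l * om τ.re ^ 2) ∧
      HasDerivAt Lam (3 / sin (3 * psi x (x + l + W))) (psi x (x + l + W)) ∧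
      w τ.re / 4 ≤ ‖sin (3 * psi x (x + l + W))‖ := by
  obtain ⟨Cm, hCm, hm⟩ := mid_est
  refine ⟨2400 + 1200 * Cm, by positivity, ?_⟩
  intro l ρ τ x W hl hC hρ hA
  have hCl : 0 ≤ Cm * l := by positivity
  have hl1 : l ≤ 1 / 2400 := by nlinarith
  have hCl1 : Cm * l ≤ 1 / 1200 := by nlinarith
  have ho := om_pos τ.re
  have ho1 := om_le_one τ.re
  have hw := w_pos τ.re
  have hwo := w_le_om τ.re
  have hx0 := hA.hx
  have hW0 : ‖W‖ ≤ 2 * l ^ 2 * om τ.re := hA.hW.trans (by gcongr)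
  have hx1 : ‖x - τ‖ ≤ 12 * l := hx0.trans (by nlinarith)
  have hW1 : ‖W‖ ≤ l := hW0.trans (by nlinarith [mul_le_mul hl1 ho1 ho.le (by norm_num)])
  have hy1 : ‖x + l + W - τ‖ ≤ 14 * l := by
    have e : x + l + W - τ = (x - τ) + l + W := by ring
    have h1 : ‖(l : ℂ)‖ = l := by rw [Complex.norm_real, Real.norm_eq_abs, abs_of_pos hl]
    rw [e]
    refine norm_add₃_le.trans ?_
    linarith
  have hxS : x ∈ St (1 / 2) := St_mono (by linarith) (mem_St_of_norm_sub hA.mem hx1)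
  have hyS : x + l + W ∈ St (1 / 2) := St_mono (by linarith) (mem_St_of_norm_sub hA.mem hy1)
  have eW : x + l + W - x - l = W := by ring
  obtain ⟨m1, m2, m3⟩ := hm l x (x + l + W) hl (by linarith) hxS (by rw [eW]; exact hW1)
  rw [eW] at m3
  have hox : om x.re ≤ 2 * om τ.re := om_re_le_two_mul (by linarith)
  have hox2 : om x.re ^ 2 ≤ 4 * om τ.re ^ 2 := by nlinarith [om_pos x.re]
  have m4 : ‖mid x (x + l + W) - x - cst l‖ ≤
      4 * Cm * (l ^ 2 * om τ.re + l * om τ.re ^ 2) := by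
    refine m3.trans ?_
    have h1 : l * om x.re ^ 2 ≤ l * (4 * om τ.re ^ 2) := by gcongr
    have h2 : 0 ≤ l ^ 2 * om τ.re := by positivity
    calc Cm * (‖W‖ + l * om x.re ^ 2) ≤ Cm * (4 * (l ^ 2 * om τ.re + l * om τ.re ^ 2)) := by
          gcongr; linarith
      _ = _ := by ring
  have m5 : ‖mid x (x + l + W) - τ - cst l‖ ≤ (12 + 5 * Cm) * l * om τ.re := by
    have e : mid x (x + l + W) - τ - cst l = (mid x (x + l + W) - x - cst l) + (x - τ) := by ring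
    have h1 : l ^ 2 * om τ.re + l * om τ.re ^ 2 ≤ 5 / 4 * (l * om τ.re) := by
      have h2 : 0 < l * om τ.re := by positivity
      nlinarith
    have h3 : 4 * Cm * (l ^ 2 * om τ.re + l * om τ.re ^ 2) ≤ 4 * Cm * (5 / 4 * (l * om τ.re)) := by
      gcongr
    rw [e]
    refine (norm_add_le _ _).trans ?_
    nlinarith
  have m6 : (12 + 5 * Cm) * l ≤ 1 / 200 := by nlinarith
  have m7 : ‖mid x (x + l + W) - τ - cst l‖ ≤ 1 / 200 * om τ.re := m5.trans (by gcongr)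
  obtain ⟨c0, c1⟩ := cst_bounds hl
  have m8 : ‖mid x (x + l + W) - τ‖ ≤ 1 / 40 := by
    have e : mid x (x + l + W) - τ = (mid x (x + l + W) - τ - cst l) + cst l := by ring
    have h1 : ‖(cst l : ℂ)‖ = cst l := by
      rw [Complex.norm_real, Real.norm_eq_abs, abs_of_nonneg c0]
    rw [e]
    refine (norm_add_le _ _).trans ?_
    linarith
  refine ⟨by linarith, by linarith, by linarith, hxS, hyS, ?_, m8, m5.trans ?_, m4.trans ?_, m1, ?_⟩
  · have h1 : om τ.re ≤ 2 * om (mid x (x + l + W)).re :=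
      om_re_le_two_mul (by rw [norm_sub_rev]; linarith)
    have h2 := Complex.abs_im_le_norm (mid x (x + l + W) - τ - cst l)
    simp only [sub_im, ofReal_im, sub_zero] at h2
    have h3 := abs_sub_abs_le_abs_sub (mid x (x + l + W)).im τ.im
    have h4 : |τ.im| < ρ := hA.mem
    rw [mem_Dom]
    linarith
  · have h1 : 12 + 5 * Cm ≤ 2400 + 1200 * Cm := by linarith
    gcongr
  · have h1 : 4 * Cm ≤ 2400 + 1200 * Cm := by linarith
    gcongr
  · have h1 : w τ.re ≤ 2 * w x.re := w_re_le_two_mul (by rw [norm_sub_rev]; linarith)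
    have h2 : w x.re / 2 ≤ ‖sin (3 * psi x (x + l + W))‖ := m2
    linarith

theorem pot_deriv : ∃ C : ℝ, 0 < C ∧ ∀ (ρ κ : ℝ) (U : ℂ → ℂ) (a : ℂ), Pot ρ κ U →
    a ∈ Dom ρ (1 / 100) →
      DifferentiableAt ℂ U a ∧ DifferentiableAt ℂ (deriv U) a ∧
        ‖deriv U a‖ ≤ C * κ * w a.re ^ 3 := by
  refine ⟨6400, by norm_num, ?_⟩
  intro ρ κ U a hP ha
  have ha' : a ∈ Dom ρ (1 / 50) := Dom_mono le_rfl (by norm_num) ha
  have ho := om_pos a.re
  have ho1 := om_le_one a.re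
  have hw := w_pos a.re
  have hκ : 0 ≤ κ := nonneg_of_mul_nonneg_left ((norm_nonneg _).trans (hP.bd a ha')) (by positivity)
  have hsub : Metric.ball a (om a.re / 200) ⊆ Dom ρ (1 / 50) := by
    intro u hu
    have h1 : ‖u - a‖ < om a.re / 200 := mem_ball_iff_norm.1 hu
    have h2 := abs_im_sub_le u a
    have h3 := abs_sub_abs_le_abs_sub u.im a.im
    have h4 := om_le_exp_mul u.re a.re
    have h5 : |a.re - u.re| ≤ 1 / 200 := by
      have := abs_re_sub_le a u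
      rw [norm_sub_rev] at this
      linarith
    have h6 : Real.exp |a.re - u.re| ≤ 4 / 3 :=
      (exp_le_one_add_two_mul (abs_nonneg _) (by linarith)).trans (by linarith)
    have h7 : om a.re ≤ 4 / 3 * om u.re := h4.trans (by have := om_nonneg u.re; gcongr)
    rw [mem_Dom] at ha ⊢
    linarith
  refine ⟨diffAt_of_Dom hP.diff ha', diffAt_of_Dom (hP.diff.deriv (isOpen_Dom _ _)) ha', ?_⟩
  have h1 := cauchy1 (B := κ * (2 * w a.re) ^ 4) (by positivity) (hP.diff.mono hsub)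
    (fun u hu => (hP.bd u (hsub hu)).trans (by
      have h2 : w u.re ≤ 2 * w a.re :=
        w_re_le_two_mul (le_of_lt (lt_of_lt_of_le (mem_ball_iff_norm.1 hu) (by linarith)))
      have := w_nonneg u.re
      gcongr))
  refine h1.trans ?_
  rw [div_le_iff₀ (by positivity)]
  have h3 := w_le_om a.re
  calc 2 * (κ * (2 * w a.re) ^ 4) = 32 * κ * w a.re ^ 3 * w a.re := by ring
    _ ≤ 32 * κ * w a.re ^ 3 * om a.re := by gcongr
    _ = _ := by ring

theorem psi_comm (x y : ℂ) : psi y x = psi x y := by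
  unfold psi; ring

theorem mid_comm (x y : ℂ) : mid y x = mid x y := by
  unfold mid; rw [add_comm]

theorem del_neg_comm (η x y : ℂ) : del (-η) y x = del η x y := by
  unfold del; ring

/-- estimates and calculus for the perturbation at an admissible pair -/
theorem locU_est : ∃ C : ℝ, 0 < C ∧ ∀ (η : ℂ) (l ρ κ : ℝ) (U : ℂ → ℂ) (τ x W : ℂ),
    (η = 1 ∨ η = -1) → 0 < l → C * l ≤ 1 → ρ ≤ 1 / 4 → Pot ρ κ U → Adm l ρ τ x W →
      ‖gU η U x (x + l + W)‖ ≤ C * κ * w τ.re ^ 2 ∧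
      ‖IU η U x (x + l + W)‖ ≤ C * κ * w τ.re ^ 3 ∧
      ‖JU η U x (x + l + W)‖ ≤ C * κ * w τ.re ^ 3 ∧
      ‖SU η U x (x + l + W)‖ ≤ C * κ * w τ.re ^ 4 ∧
      (∀ (κ' : ℝ) (U' : ℂ → ℂ), Pot ρ κ' U' →
        IU η (fun a => U' a - U a) x (x + l + W) = IU η U' x (x + l + W) - IU η U x (x + l + W) ∧
        JU η (fun a => U' a - U a) x (x + l + W) = JU η U' x (x + l + W) - JU η U x (x + l + W)) ∧
      (∀ (X Y : ℂ → ℂ) (z X' Y' : ℂ), HasDerivAt X X' z → HasDerivAt Y Y' z → X z = x →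
        Y z = x + l + W →
          HasDerivAt (fun z => SU η U (X z) (Y z))
            (-IU η U x (x + l + W) * X' + JU η U x (x + l + W) * Y') z ∧
          DifferentiableAt ℂ (fun z => gU η U (X z) (Y z)) z ∧
          DifferentiableAt ℂ (fun z => IU η U (X z) (Y z)) z ∧
          DifferentiableAt ℂ (fun z => JU η U (X z) (Y z)) z) := by
  obtain ⟨C0, hC0, h0⟩ := loc0_est
  obtain ⟨CM, hCM, hM⟩ := adm_mid
  obtain ⟨Cp, hCp, hp⟩ := pot_deriv
  refine ⟨C0 + CM + 192 * Cp + 32, by positivity, ?_⟩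
  intro η l ρ κ U τ x W hη hl hC hρ hP hA
  have k0 : C0 * l ≤ 1 := by nlinarith
  have kM : CM * l ≤ 1 := by nlinarith
  obtain ⟨-, -, -, -, -, -, hs, hc⟩ := h0 η l ρ τ x W hη hl k0 hρ hA
  obtain ⟨-, mx, my, xS, yS, aD, ma, -, -, dL, sL⟩ := hM l ρ τ x W hl kM hρ hA
  obtain ⟨dU, ddU, bU⟩ := hp ρ κ U _ hP aD
  have hρ0 : 0 < ρ := lt_of_le_of_lt (abs_nonneg _) hA.mem
  have hκ : 0 ≤ κ := hP.nonneg hρ0
  have hw := w_pos τ.re
  have hw1 := w_le_one τ.re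
  have hη1 : ‖η‖ = 1 := by rcases hη with rfl | rfl <;> simp
  generalize x + l + W = y at *
  have wa : w (mid x y).re ≤ 2 * w τ.re := w_re_le_two_mul (by linarith)
  have wa0 := w_nonneg (mid x y).re
  have tx : ‖Thp x‖ ≤ 2 * w τ.re :=
    (norm_Thp_le (St_mono (by norm_num) xS)).trans (w_re_le_two_mul (by linarith))
  have ty : ‖Thp y‖ ≤ 2 * w τ.re :=
    (norm_Thp_le (St_mono (by norm_num) yS)).trans (w_re_le_two_mul (by linarith))
  have s0' : 0 < ‖sin (3 * psi x y)‖ := lt_of_lt_of_le (by positivity) sL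
  have sne : sin (3 * psi x y) ≠ 0 := norm_pos_iff.1 s0'
  have b1 : ‖U (mid x y)‖ ≤ 16 * κ * w τ.re ^ 4 := by
    refine (hP.bd _ (Dom_mono le_rfl (by norm_num) aD)).trans ?_
    calc κ * w (mid x y).re ^ 4 ≤ κ * (2 * w τ.re) ^ 4 := by gcongr
      _ = _ := by ring
  have b2 : ‖deriv U (mid x y) * (3 / sin (3 * psi x y)) * sin (del η x y)‖ ≤
      96 * Cp * κ * w τ.re ^ 2 := by
    have h1 : ‖deriv U (mid x y)‖ ≤ Cp * κ * (2 * w τ.re) ^ 3 := bU.trans (by gcongr)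
    have h2 : ‖3 / sin (3 * psi x y)‖ ≤ 12 / w τ.re := by
      rw [norm_div, div_le_div_iff₀ s0' hw]
      simp only [Complex.norm_ofNat]
      linarith
    rw [norm_mul, norm_mul]
    calc _ ≤ Cp * κ * (2 * w τ.re) ^ 3 * (12 / w τ.re) * 1 := by gcongr
      _ = _ := by field_simp; ring
  have b3 : ‖η * U (mid x y) * cos (del η x y)‖ ≤ 16 * κ * w τ.re ^ 2 := by
    have h1 : w τ.re ^ 4 ≤ w τ.re ^ 2 := w_pow_le (by norm_num)
    rw [norm_mul, norm_mul, hη1, one_mul]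
    calc _ ≤ 16 * κ * w τ.re ^ 4 * 1 := by gcongr
      _ ≤ 16 * κ * w τ.re ^ 2 * 1 := by gcongr
      _ = _ := by ring
  have eJ : ∀ (V : ℂ → ℂ) (x y : ℂ), gU (-η) V y x =
      deriv V (mid x y) * (3 / sin (3 * psi x y)) * sin (del η x y) +
        η * V (mid x y) * cos (del η x y) := by
    intro V x y
    unfold gU
    rw [mid_comm x y, psi_comm x y, del_neg_comm η x y]
    ring
  have g1 : ‖gU η U x y‖ ≤ (96 * Cp + 16) * κ * w τ.re ^ 2 := by
    unfold gU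
    refine (norm_sub_le _ _).trans ?_
    linarith
  have g2 : ‖gU (-η) U y x‖ ≤ (96 * Cp + 16) * κ * w τ.re ^ 2 := by
    rw [eJ]
    refine (norm_add_le _ _).trans ?_
    linarith
  have fin : 2 * w τ.re * ((96 * Cp + 16) * κ * w τ.re ^ 2) ≤
      (C0 + CM + 192 * Cp + 32) * κ * w τ.re ^ 3 := by
    calc _ = (192 * Cp + 32) * κ * w τ.re ^ 3 := by ring
      _ ≤ _ := by gcongr; linarith
  refine ⟨g1.trans ?_, ?_, ?_, ?_, ?_, ?_⟩
  · have h1 : 96 * Cp + 16 ≤ C0 + CM + 192 * Cp + 32 := by linarith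
    gcongr
  · unfold IU
    rw [norm_mul, norm_neg]
    exact le_trans (by gcongr) fin
  · unfold JU
    rw [norm_mul]
    exact le_trans (by gcongr) fin
  · unfold SU
    rw [norm_mul, norm_mul]
    simp only [Complex.norm_ofNat]
    calc _ ≤ 2 * (16 * κ * w τ.re ^ 4) * 1 := by gcongr
      _ = 32 * κ * w τ.re ^ 4 := by ring
      _ ≤ _ := by gcongr; linarith
  · intro κ' U' hP'
    have dU' := (hp ρ κ' U' _ hP' aD).1
    have e : deriv (fun a => U' a - U a) (mid x y) = deriv U' (mid x y) - deriv U (mid x y) :=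
      deriv_fun_sub dU' dU
    constructor
    · unfold IU gU
      rw [e]; ring
    · unfold JU
      rw [eJ, eJ, eJ, e]; ring
  · intro X Y z X' Y' hX hY hx hy
    have x3 : X z ∈ St (3 / 2) := by rw [hx]; exact St_mono (by norm_num) xS
    have y3 : Y z ∈ St (3 / 2) := by rw [hy]; exact St_mono (by norm_num) yS
    have dTx : HasDerivAt (fun z => Th (X z)) (Thp (X z) * X') z := (hasDerivAt_Th x3).comp z hX
    have dTy : HasDerivAt (fun z => Th (Y z)) (Thp (Y z) * Y') z := (hasDerivAt_Th y3).comp z hY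
    have dpx : DifferentiableAt ℂ (fun z => Thp (X z)) z :=
      (diffAt_Thp x3).comp z hX.differentiableAt
    have dpy : DifferentiableAt ℂ (fun z => Thp (Y z)) z :=
      (diffAt_Thp y3).comp z hY.differentiableAt
    have dpsi : HasDerivAt (fun z => psi (X z) (Y z)) ((Thp (X z) * X' + Thp (Y z) * Y') / 2) z :=
      (dTx.add dTy).div_const 2
    have ddel : HasDerivAt (fun z => del η (X z) (Y z))
        (η * (Thp (Y z) * Y' - Thp (X z) * X') / 2) z :=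
      (((dTy.sub dTx).const_mul η).div_const 2).const_add _
    rw [← hx, ← hy] at dL dU ddU sne
    have dmid : HasDerivAt (fun z => mid (X z) (Y z))
        (3 / sin (3 * psi (X z) (Y z)) * ((Thp (X z) * X' + Thp (Y z) * Y') / 2)) z :=
      HasDerivAt.comp (h₂ := Lam) (h := fun z => psi (X z) (Y z)) z dL dpsi
    have dUm : HasDerivAt (fun z => U (mid (X z) (Y z))) (deriv U (mid (X z) (Y z)) *
        (3 / sin (3 * psi (X z) (Y z)) * ((Thp (X z) * X' + Thp (Y z) * Y') / 2))) z :=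
      HasDerivAt.comp (h₂ := U) (h := fun z => mid (X z) (Y z)) z dU.hasDerivAt dmid
    have dU'm : DifferentiableAt ℂ (fun z => deriv U (mid (X z) (Y z))) z :=
      DifferentiableAt.comp (g := deriv U) (f := fun z => mid (X z) (Y z)) z ddU
        dmid.differentiableAt
    have dA : DifferentiableAt ℂ (fun z => deriv U (mid (X z) (Y z)) *
        (3 / sin (3 * psi (X z) (Y z))) * sin (del η (X z) (Y z))) z :=
      (dU'm.mul ((differentiableAt_const _).div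
        (dpsi.differentiableAt.const_mul 3).csin sne)).mul ddel.differentiableAt.csin
    have dB : DifferentiableAt ℂ
        (fun z => η * U (mid (X z) (Y z)) * cos (del η (X z) (Y z))) z :=
      (dUm.differentiableAt.const_mul η).mul ddel.differentiableAt.ccos
    have dg : DifferentiableAt ℂ (fun z => gU η U (X z) (Y z)) z := dA.sub dB
    refine ⟨?_, dg, dpx.neg.mul dg, ?_⟩
    · have h1 := (dUm.const_mul 2).mul ddel.csin
      refine HasDerivAt.congr_deriv h1 ?_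
      rw [← hx, ← hy]
      unfold JU
      rw [eJ]
      unfold IU gU
      ring
    · unfold JU
      simp only [eJ]
      exact dpy.mul (dA.add dB)

end Pool.Agent.MP_be9872_an

end

-- part MP_be9872_an.LocR
section

set_option autoImplicit false
open Complex

namespace Pool.Agent.MP_be9872_an

lemma locr_cube_sub (a b : ℂ) {B D : ℝ} (ha : ‖a‖ ≤ B) (hb : ‖b‖ ≤ B) (hd : ‖a - b‖ ≤ D) :
    ‖a ^ 3 - b ^ 3‖ ≤ 3 * B ^ 2 * D := by
  have e : a ^ 3 - b ^ 3 = (a - b) * (a * a + a * b + b * b) := by ring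
  have hB : 0 ≤ B := (norm_nonneg _).trans ha
  have hD : 0 ≤ D := (norm_nonneg _).trans hd
  have h1 : ‖a * a‖ ≤ B * B := by rw [norm_mul]; gcongr
  have h2 : ‖a * b‖ ≤ B * B := by rw [norm_mul]; gcongr
  have h3 : ‖b * b‖ ≤ B * B := by rw [norm_mul]; gcongr
  have h4 : ‖a * a + a * b + b * b‖ ≤ 3 * B ^ 2 := by
    have := norm_add₃_le (a := a * a) (b := a * b) (c := b * b)
    nlinarith
  rw [e, norm_mul]
  calc ‖a - b‖ * ‖a * a + a * b + b * b‖ ≤ D * (3 * B ^ 2) := by gcongr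
    _ = _ := by ring

lemma locr_norm_eta {η : ℂ} (hη : η = 1 ∨ η = -1) : ‖η‖ = 1 := by
  rcases hη with h | h <;> simp [h]

/-- moving the base point in the difference of `F0` -/
theorem F0_move : ∃ C : ℝ, 0 < C ∧ ∀ (η : ℂ) (l : ℝ) (τ x : ℂ), (η = 1 ∨ η = -1) → 0 < l →
    l ≤ 1 / 10 → τ ∈ St (1 / 4) → ‖x - τ‖ ≤ 1 / 20 →
      ‖(F0 η l x - F0 η l (x - l)) - (F0 η l τ - F0 η l (τ - l))‖ ≤
        C * l ^ 3 * w τ.re ^ 3 * ‖x - τ‖ := by
  refine ⟨120, by norm_num, fun η l τ x hη hl hl1 hτ hx => ?_⟩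
  have hball : Metric.ball τ (1 / 10) ⊆ St (7 / 10) :=
    ball_subset_St (St_mono (by norm_num) hτ)
  have hw := w_pos τ.re
  have key := schwarz1 (f := fun u => F0 η l u - F0 η l (u - l)) (c := τ) (z := x) (R := 1 / 10)
    (B := 6 * l ^ 3 * w τ.re ^ 3) ?_ ?_ (mem_ball_iff_norm.2 (by linarith))
  · refine key.trans (le_of_eq ?_)
    ring
  · intro u hu
    have h1 := diffAt_Thp (St7_subset (hball hu))
    have h2 : DifferentiableAt ℂ (fun u : ℂ => Thp (u - l)) u :=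
      DifferentiableAt.comp (g := Thp) (f := fun u : ℂ => u - l) u
        (diffAt_Thp (St7_subset (sub_real_mem_St (hball hu) l))) (differentiableAt_id.sub_const _)
    unfold F0
    refine DifferentiableAt.differentiableWithinAt ?_
    exact (((h1.pow 3).const_mul _).div_const _).sub (((h2.pow 3).const_mul _).div_const _)
  · intro u hu
    have hu1 := hball hu
    have hu2 := sub_real_mem_St hu1 l
    have hn : ‖u - τ‖ ≤ 1 / 10 := le_of_lt (mem_ball_iff_norm.1 hu)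
    have hl' : ‖(l : ℂ)‖ = l := by rw [Complex.norm_real, Real.norm_of_nonneg hl.le]
    have hn2 : ‖u - l - τ‖ ≤ 1 / 2 := by
      have e : u - l - τ = (u - τ) - l := by ring
      rw [e]; linarith [norm_sub_le (u - τ) (l : ℂ)]
    have a1 : ‖Thp u‖ ≤ 2 * w τ.re := (norm_Thp_le hu1).trans (w_re_le_two_mul (by linarith))
    have a2 : ‖Thp (u - l)‖ ≤ 2 * w τ.re := (norm_Thp_le hu2).trans (w_re_le_two_mul hn2)
    have e1 : u - (u - l) = l := by ring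
    have a3 : ‖Thp u - Thp (u - l)‖ ≤ 12 * w τ.re * l := by
      have h := norm_Thp_sub_le hu2 hu1 (by rw [e1, hl']; linarith)
      rw [e1, hl'] at h
      have h5 := w_re_le_two_mul hn2
      nlinarith
    have a4 := locr_cube_sub _ _ a1 a2 a3
    have e2 : F0 η l u - F0 η l (u - l) = η * l ^ 2 * (Thp u ^ 3 - Thp (u - l) ^ 3) / 24 := by
      unfold F0; ring
    have e3 : ‖(24 : ℂ)‖ = 24 := by simp
    show ‖F0 η l u - F0 η l (u - l)‖ ≤ _
    rw [e2, norm_div, norm_mul, norm_mul, norm_pow, hl', locr_norm_eta hη, e3, one_mul,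
      div_le_iff₀ (by norm_num)]
    calc l ^ 2 * ‖Thp u ^ 3 - Thp (u - l) ^ 3‖
        ≤ l ^ 2 * (3 * (2 * w τ.re) ^ 2 * (12 * w τ.re * l)) := by gcongr
      _ = _ := by ring

lemma locr_s0_le : ‖((s0 : ℝ) : ℂ)‖ ≤ 1 := by
  rw [Complex.norm_real, Real.norm_eq_abs]
  unfold s0
  have h1 : Real.sqrt 3 ≤ 2 := by
    rw [Real.sqrt_le_left (by norm_num)]; norm_num
  rw [abs_of_nonneg (by positivity)]; linarith

lemma locr_sinh_le {s : ℂ} (h : ‖s‖ ≤ 1) : ‖sinh s‖ ≤ 2 * ‖s‖ := by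
  have h1 := Complex.norm_exp_sub_one_le h
  have h2 := Complex.norm_exp_sub_one_le (x := -s) (by rwa [norm_neg])
  rw [norm_neg] at h2
  have e : sinh s = ((exp s - 1) - (exp (-s) - 1)) / 2 := by unfold Complex.sinh; ring
  rw [e, norm_div, Complex.norm_two]
  linarith [norm_sub_le (exp s - 1) (exp (-s) - 1)]

lemma locr_left : ∃ C : ℝ, 0 < C ∧ ∀ (η : ℂ) (t : ℝ) (x W : ℂ), (η = 1 ∨ η = -1) →
    |t| ≤ 1 / 100 → x ∈ St (1 / 2) → x.re ≤ 0 → ‖W‖ ≤ 4 * |t| ^ 2 * w x.re →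
      ‖g0 η (mu t) (Th x) (Th (x + t + W) - Th x) + η * (1 + mu t) / 2 + sig t / cosh x‖ ≤
        C * |t| * w x.re ^ 2 := by
  obtain ⟨C, hC, H⟩ := g0_near
  refine ⟨C + 30, by linarith, fun η t x W hη ht hx hre hW => ?_⟩
  obtain ⟨l, hl⟩ : ∃ l, l = |t| := ⟨_, rfl⟩
  obtain ⟨v, hv⟩ : ∃ v, v = w x.re := ⟨_, rfl⟩
  rw [← hl, ← hv] at hW ⊢
  rw [← hl] at ht
  have hl0 : 0 ≤ l := by rw [hl]; exact abs_nonneg _
  have hv0 : 0 < v := by rw [hv]; exact w_pos _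
  have hv1 : v ≤ 1 := by rw [hv]; exact w_le_one _
  have hve : Real.exp x.re = v := by rw [hv, w_of_nonpos hre]
  have htn : ‖(t : ℂ)‖ = l := by rw [Complex.norm_real, Real.norm_eq_abs, hl]
  have hW1 : ‖W‖ ≤ l / 25 * v := by nlinarith [mul_nonneg hl0 hv0.le]
  have hW2 : ‖W‖ ≤ l / 25 := hW1.trans (by nlinarith)
  have hx7 : x ∈ St (7 / 10) := St_mono (by norm_num) hx
  have eyx : x + t + W - x = t + W := by ring
  have hyx : ‖x + t + W - x‖ ≤ 2 * l := by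
    rw [eyx]; linarith [norm_add_le (t : ℂ) W]
  have hy7 : x + t + W ∈ St (7 / 10) :=
    St_mono (by linarith) (mem_St_of_norm_sub hx hyx)
  have hs5 : ‖(t : ℂ)‖ ≤ 1 / 5 := by linarith
  have hmu : ‖mu t‖ ≤ l ^ 2 / 100 := by rw [← htn]; exact norm_mu_le hs5
  have hmu1 : ‖mu t‖ ≤ l / 100 := by nlinarith
  have hid := mu_id hs5
  have hθ : ‖Th x‖ ≤ v := by rw [← hve]; exact norm_Th_le_exp hx7
  have ha : ‖Th (x + t + W) - Th x‖ ≤ 4 * l * v := by
    have h := norm_Th_sub_le hx7 hy7 (by linarith)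
    rw [← hv] at h
    nlinarith
  have ha1 : ‖Th (x + t + W) - Th x‖ ≤ v := ha.trans (by nlinarith)
  have hR1 := H η (mu t) (Th x) (Th (x + t + W) - Th x) hη (by linarith) (by linarith)
    (by linarith)
  have hR1' : ‖mu t‖ * (‖Th x‖ + ‖Th (x + t + W) - Th x‖) ^ 2 + ‖Th (x + t + W) - Th x‖ ^ 2
      ≤ l * v ^ 2 := by
    have b1 : ‖mu t‖ * (‖Th x‖ + ‖Th (x + t + W) - Th x‖) ^ 2 ≤ l / 100 * (v + v) ^ 2 := by
      gcongr
    have b2 : ‖Th (x + t + W) - Th x‖ ^ 2 ≤ (4 * l * v) ^ 2 := by gcongr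
    have b3 : 0 ≤ l * v ^ 2 := by positivity
    have b4 : (4 * l * v) ^ 2 = 16 * l * (l * v ^ 2) := by ring
    nlinarith
  have hr1 := norm_Th_sub_exp_le hx7
  have hr2 := norm_rho_sub_le hx7 hy7 (by linarith)
  have hr4 := norm_Thp_sub_exp_le hx7
  rw [hve] at hr1 hr2 hr4
  have hr3 : ‖exp x * exp t * (exp W - 1)‖ ≤ l * v ^ 2 := by
    have c1 : ‖exp x‖ = v := by rw [norm_exp, hve]
    have c2 : ‖exp (t : ℂ)‖ ≤ 2 := by
      rw [norm_exp, ofReal_re]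
      exact exp_le_two (by linarith [le_abs_self t])
    have c3 : ‖exp W - 1‖ ≤ 2 * (l / 25 * v) :=
      (Complex.norm_exp_sub_one_le (by linarith)).trans (by linarith)
    rw [norm_mul, norm_mul, c1]
    calc v * ‖exp (t : ℂ)‖ * ‖exp W - 1‖ ≤ v * 2 * (2 * (l / 25 * v)) := by gcongr
      _ ≤ _ := by nlinarith [mul_nonneg hl0 (sq_nonneg v)]
  have h35 : ‖1 - 35 * mu t‖ ≤ 2 := by
    have c1 := norm_sub_le (1 : ℂ) (35 * mu t)
    rw [norm_mul, norm_one] at c1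
    have c2 : ‖(35 : ℂ)‖ = 35 := by simp
    rw [c2] at c1
    linarith
  have hsig : ‖sig t‖ ≤ l := by
    have c1 := locr_sinh_le (s := (t : ℂ)) (by linarith)
    rw [htn] at c1
    have c2 : ‖(6 : ℂ)‖ = 6 := by simp
    unfold sig
    rw [norm_div, norm_mul, norm_mul, norm_neg, c2, div_le_iff₀ (by norm_num)]
    calc ‖((s0 : ℝ) : ℂ)‖ * ‖1 - 35 * mu t‖ * ‖sinh (t : ℂ)‖ ≤ 1 * 2 * (2 * l) := by
          gcongr; exact locr_s0_le
      _ ≤ _ := by linarith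
  have hcosh : sig t / cosh x = sig t * (3 * Thp x) := by rw [Thp_eq]; ring
  have hexp : exp (x + t + W) = exp x * exp t * exp W := by rw [exp_add, exp_add]
  have het : exp (t : ℂ) = cosh t + sinh t := (cosh_add_sinh _).symm
  have e : g0 η (mu t) (Th x) (Th (x + t + W) - Th x) + η * (1 + mu t) / 2 + sig t / cosh x =
      (g0 η (mu t) (Th x) (Th (x + t + W) - Th x) + η * (1 + mu t) / 2 -
        (s0 : ℝ) * (-36 * mu t * Th x + (1 - 35 * mu t) * (Th (x + t + W) - Th x) / 2)) +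
      ((s0 : ℝ) * (-36 * (mu t * (Th x - 2 / 3 * exp x)) + (1 - 35 * mu t) *
        (1 / 2 * ((Th (x + t + W) - 2 / 3 * exp (x + t + W)) - (Th x - 2 / 3 * exp x)) +
          1 / 3 * (exp x * exp t * (exp W - 1)))) + 3 * (sig t * (Thp x - 2 / 3 * exp x))) := by
    rw [hcosh, hexp]
    unfold sig
    linear_combination ((s0 : ℝ) : ℂ) * exp x / 3 * hid +
      ((s0 : ℝ) : ℂ) * exp x / 3 * (1 - 35 * mu t) * het
  have hv3 : v ^ 3 ≤ v ^ 2 := pow_le_pow_of_le_one hv0.le hv1 (by norm_num)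
  have d1 : ‖-36 * (mu t * (Th x - 2 / 3 * exp x))‖ ≤ l * v ^ 2 := by
    have c2 : ‖(-36 : ℂ)‖ = 36 := by simp
    rw [norm_mul, norm_mul, c2]
    calc 36 * (‖mu t‖ * ‖Th x - 2 / 3 * exp x‖) ≤ 36 * (l / 100 * v ^ 2) := by
          gcongr; exact hr1.trans hv3
      _ ≤ _ := by nlinarith [mul_nonneg hl0 (sq_nonneg v)]
  have d2 : ‖1 / 2 * ((Th (x + t + W) - 2 / 3 * exp (x + t + W)) - (Th x - 2 / 3 * exp x)) +
          1 / 3 * (exp x * exp t * (exp W - 1))‖ ≤ 9 * (l * v ^ 2) := by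
    have c1 : ‖(1 / 2 : ℂ)‖ = 1 / 2 := by simp
    have c2 : ‖(1 / 3 : ℂ)‖ = 1 / 3 := by simp
    have c3 : 8 * v ^ 3 * ‖x + t + W - x‖ ≤ 8 * v ^ 2 * (2 * l) := by gcongr
    refine (norm_add_le _ _).trans ?_
    rw [norm_mul (1 / 2 : ℂ), norm_mul (1 / 3 : ℂ), c1, c2]
    nlinarith [mul_nonneg hl0 (sq_nonneg v)]
  have d3 : ‖3 * (sig t * (Thp x - 2 / 3 * exp x))‖ ≤ 3 * (l * v ^ 2) := by
    have c2 : ‖(3 : ℂ)‖ = 3 := by simp
    rw [norm_mul, norm_mul, c2]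
    gcongr
    exact hr4.trans hv3
  have d4 : ‖((s0 : ℝ) : ℂ) * (-36 * (mu t * (Th x - 2 / 3 * exp x)) + (1 - 35 * mu t) *
        (1 / 2 * ((Th (x + t + W) - 2 / 3 * exp (x + t + W)) - (Th x - 2 / 3 * exp x)) +
          1 / 3 * (exp x * exp t * (exp W - 1))))‖ ≤ 1 * (l * v ^ 2 + 2 * (9 * (l * v ^ 2))) := by
    rw [norm_mul]
    refine mul_le_mul locr_s0_le ((norm_add_le _ _).trans (add_le_add d1 ?_)) (norm_nonneg _)
      zero_le_one
    rw [norm_mul]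
    gcongr
  rw [e]
  refine (norm_add_le _ _).trans ?_
  have d5 := (norm_add_le _ _).trans (add_le_add d4 d3)
  have d6 := hR1.trans (mul_le_mul_of_nonneg_left hR1' hC.le)
  nlinarith [mul_nonneg hl0 (sq_nonneg v)]

/-- the unperturbed part of the remainder of the support function of the caustic -/
theorem rr0_est : ∃ C : ℝ, 0 < C ∧ ∀ (η : ℂ) (l : ℝ) (x W : ℂ), (η = 1 ∨ η = -1) → 0 < l →
    l ≤ 1 / 100 → x ∈ St (1 / 2) → ‖W‖ ≤ 4 * l ^ 2 * w x.re →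
      ‖-η * g0 η (mu l) (Th x) (Th (x + l + W) - Th x) - (1 + mu l) / 2 - η * sig l / cosh x‖ ≤
        C * l * w x.re ^ 2 := by
  obtain ⟨C, hC, H⟩ := locr_left
  refine ⟨C, hC, fun η l x W hη hl hl1 hx hW => ?_⟩
  have hη2 : η * η = 1 := by rcases hη with h | h <;> simp [h]
  have e : -η * g0 η (mu l) (Th x) (Th (x + l + W) - Th x) - (1 + mu l) / 2 - η * sig l / cosh x =
      -η * (g0 η (mu l) (Th x) (Th (x + l + W) - Th x) + η * (1 + mu l) / 2 + sig l / cosh x) := by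
    linear_combination (1 + mu l) / 2 * hη2
  rw [e, norm_mul, norm_neg, locr_norm_eta hη, one_mul]
  have hla : |l| = l := abs_of_pos hl
  rcases le_total x.re 0 with h | h
  · have := H η l x W hη (by rwa [hla]) hx h (by rwa [hla])
    rwa [hla] at this
  · have hla' : |-l| = l := by rw [abs_neg, hla]
    have hw : w (-x).re = w x.re := by rw [neg_re, w_neg]
    have := H (-η) (-l) (-x) (-W) (by rcases hη with h | h <;> simp [h]) (by rwa [hla'])
      (neg_mem_St hx) (by rw [neg_re]; linarith) (by rwa [hla', hw, norm_neg])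
    rw [hla', hw] at this
    have m1 : mu ((-l : ℝ) : ℂ) = mu l := by
      unfold mu; rw [ofReal_neg, cosh_neg]
    have m2 : sig (-l) = -sig l := by
      unfold sig; rw [m1, ofReal_neg, sinh_neg]; ring
    have m3 : -x + ((-l : ℝ) : ℂ) + -W = -(x + l + W) := by rw [ofReal_neg]; ring
    have hW2 : ‖W‖ ≤ 1 / 10 := by nlinarith [w_le_one x.re, w_pos x.re]
    have hy : x + l + W ∈ St (3 / 2) := by
      have h1 : ‖x + l + W - (x + l)‖ ≤ 1 / 10 := by rwa [add_sub_cancel_left]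
      exact St_mono (by norm_num) (mem_St_of_norm_sub (add_real_mem_St hx l) h1)
    have hx3 : x ∈ St (3 / 2) := St_mono (by norm_num) hx
    have g1 := g0_symm η (mu l) (Th (-x)) (Th (-(x + l + W)) - Th (-x))
    have g2 : (Real.pi / 3 : ℂ) - Th (-x) = Th x := by rw [Th_neg hx3]; ring
    have g3 : -(Th (-(x + l + W)) - Th (-x)) = Th (x + l + W) - Th x := by
      rw [Th_neg hx3, Th_neg hy]; ring
    rw [g2, g3] at g1
    rw [m1, m2, m3, cosh_neg] at this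
    rw [g1, ← norm_neg]
    refine le_of_eq_of_le (congrArg norm ?_) this
    ring

end Pool.Agent.MP_be9872_an

end

-- part MP_be9872_an.LocF
section

set_option autoImplicit false
open Complex

namespace Pool.Agent.MP_be9872_an

/-- real complex numbers -/
structure locf_R (z : ℂ) : Prop where
  im0 : z.im = 0

lemma locf_ex {z : ℂ} (h : locf_R z) : ∃ x : ℝ, z = x :=
  ⟨z.re, Complex.ext (by simp) (by simp [h.im0])⟩

lemma locf_real (x : ℝ) : locf_R (x : ℂ) := ⟨ofReal_im x⟩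
lemma locf_one : locf_R 1 := ⟨one_im⟩
lemma locf_nat (n : ℕ) [n.AtLeastTwo] : locf_R (OfNat.ofNat n) := ⟨im_ofNat n⟩
lemma locf_add {a b : ℂ} (ha : locf_R a) (hb : locf_R b) : locf_R (a + b) :=
  ⟨by rw [add_im, ha.im0, hb.im0, add_zero]⟩
lemma locf_sub {a b : ℂ} (ha : locf_R a) (hb : locf_R b) : locf_R (a - b) :=
  ⟨by rw [sub_im, ha.im0, hb.im0, sub_zero]⟩
lemma locf_neg {a : ℂ} (ha : locf_R a) : locf_R (-a) := ⟨by rw [neg_im, ha.im0, neg_zero]⟩
lemma locf_mul {a b : ℂ} (ha : locf_R a) (hb : locf_R b) : locf_R (a * b) :=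
  ⟨by rw [mul_im, ha.im0, hb.im0]; ring⟩
lemma locf_div {a b : ℂ} (ha : locf_R a) (hb : locf_R b) : locf_R (a / b) := by
  obtain ⟨x, rfl⟩ := locf_ex ha
  obtain ⟨y, rfl⟩ := locf_ex hb
  rw [← ofReal_div]
  exact locf_real _
lemma locf_pow {a : ℂ} (ha : locf_R a) (n : ℕ) : locf_R (a ^ n) := by
  obtain ⟨x, rfl⟩ := locf_ex ha
  rw [← ofReal_pow]
  exact locf_real _
lemma locf_sin {a : ℂ} (ha : locf_R a) : locf_R (sin a) := by
  obtain ⟨x, rfl⟩ := locf_ex ha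
  rw [← ofReal_sin]
  exact locf_real _
lemma locf_cos {a : ℂ} (ha : locf_R a) : locf_R (cos a) := by
  obtain ⟨x, rfl⟩ := locf_ex ha
  rw [← ofReal_cos]
  exact locf_real _
lemma locf_sinh {a : ℂ} (ha : locf_R a) : locf_R (sinh a) := by
  obtain ⟨x, rfl⟩ := locf_ex ha
  rw [← ofReal_sinh]
  exact locf_real _
lemma locf_cosh {a : ℂ} (ha : locf_R a) : locf_R (cosh a) := by
  obtain ⟨x, rfl⟩ := locf_ex ha
  rw [← ofReal_cosh]
  exact locf_real _
lemma locf_app {f : ℂ → ℂ} (hf : IsRe f) {a : ℂ} (ha : locf_R a) : locf_R (f a) :=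
  ⟨hf.of_im ha.im0⟩
lemma locf_Th {a : ℂ} (ha : locf_R a) : locf_R (Th a) := locf_app isRe_Th ha
lemma locf_Thp {a : ℂ} (ha : locf_R a) : locf_R (Thp a) := locf_app isRe_Thp ha
lemma locf_mid {a b : ℂ} (ha : locf_R a) (hb : locf_R b) : locf_R (mid a b) := by
  obtain ⟨x, rfl⟩ := locf_ex ha
  obtain ⟨y, rfl⟩ := locf_ex hb
  exact ⟨im_mid x y⟩
lemma locf_eta {η : ℂ} (hη : η = 1 ∨ η = -1) : locf_R η := by
  rcases hη with rfl | rfl
  · exact locf_one
  · exact locf_neg locf_one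
lemma locf_mu {a : ℂ} (ha : locf_R a) : locf_R (mu a) :=
  locf_div (locf_sub (locf_cosh ha) locf_one)
    (locf_add (locf_nat 37) (locf_mul (locf_nat 35) (locf_cosh ha)))
lemma locf_sig (l : ℝ) : locf_R (sig l) :=
  locf_div (locf_mul (locf_mul (locf_neg (locf_real _))
    (locf_sub locf_one (locf_mul (locf_nat 35) (locf_mu (locf_real l))))) (locf_sinh (locf_real l)))
    (locf_nat 6)
lemma locf_psi {a b : ℂ} (ha : locf_R a) (hb : locf_R b) : locf_R (psi a b) :=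
  locf_div (locf_add (locf_Th ha) (locf_Th hb)) (locf_nat 2)
lemma locf_del {η a b : ℂ} (hη : locf_R η) (ha : locf_R a) (hb : locf_R b) : locf_R (del η a b) :=
  locf_add (locf_div (locf_real _) (locf_nat 3))
    (locf_div (locf_mul hη (locf_sub (locf_Th hb) (locf_Th ha))) (locf_nat 2))
lemma locf_g0 {η μ θ a : ℂ} (hη : locf_R η) (hμ : locf_R μ) (hθ : locf_R θ) (ha : locf_R a) :
    locf_R (g0 η μ θ a) := by
  have h1 : locf_R (6 * (θ + a / 2)) := locf_mul (locf_nat 6) (locf_add hθ (locf_div ha (locf_nat 2)))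
  have h2 : locf_R (Real.pi / 3 + η * a / 2) :=
    locf_add (locf_div (locf_real _) (locf_nat 3)) (locf_div (locf_mul hη ha) (locf_nat 2))
  exact locf_sub (locf_mul (locf_mul (locf_mul (locf_neg (locf_nat 6)) hμ) (locf_sin h1)) (locf_sin h2))
    (locf_mul (locf_mul hη (locf_add locf_one (locf_mul hμ (locf_cos h1)))) (locf_cos h2))
lemma locf_I0 {η μ x y : ℂ} (hη : locf_R η) (hμ : locf_R μ) (hx : locf_R x) (hy : locf_R y) :
    locf_R (I0 η μ x y) :=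
  locf_mul (locf_neg (locf_Thp hx)) (locf_g0 hη hμ (locf_Th hx) (locf_sub (locf_Th hy) (locf_Th hx)))
lemma locf_J0 {η μ x y : ℂ} (hη : locf_R η) (hμ : locf_R μ) (hx : locf_R x) (hy : locf_R y) :
    locf_R (J0 η μ x y) :=
  locf_mul (locf_Thp hy)
    (locf_g0 (locf_neg hη) hμ (locf_Th hy) (locf_sub (locf_Th hx) (locf_Th hy)))
lemma locf_F0 {η s x : ℂ} (hη : locf_R η) (hs : locf_R s) (hx : locf_R x) : locf_R (F0 η s x) :=
  locf_div (locf_mul (locf_mul hη (locf_pow hs 2)) (locf_pow (locf_Thp hx) 3)) (locf_nat 24)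
lemma locf_E0 {η s x : ℂ} (hη : locf_R η) (hs : locf_R s) (hx : locf_R x) : locf_R (E0 η s x) :=
  locf_sub (locf_J0 hη (locf_mu hs) (locf_sub hx hs) hx) (locf_I0 hη (locf_mu hs) hx (locf_add hx hs))
lemma locf_Dd {η x W : ℂ} (l : ℝ) (hη : locf_R η) (hx : locf_R x) (hW : locf_R W) :
    locf_R (Dd η l x W) :=
  locf_sub (locf_I0 hη (locf_mu (locf_real l)) hx (locf_add (locf_add hx (locf_real l)) hW))
    (locf_I0 hη (locf_mu (locf_real l)) hx (locf_add hx (locf_real l)))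
lemma locf_Qr {η x W : ℂ} (l : ℝ) (hη : locf_R η) (hx : locf_R x) (hW : locf_R W) :
    locf_R (Qr η l x W) :=
  locf_sub (locf_sub
    (locf_J0 hη (locf_mu (locf_real l)) hx (locf_add (locf_add hx (locf_real l)) hW))
    (locf_J0 hη (locf_mu (locf_real l)) (locf_add hx hW) (locf_add (locf_add hx (locf_real l)) hW)))
    (locf_Dd l hη hx hW)
lemma locf_mm {τ : ℂ} (hτ : locf_R τ) : locf_R (mm τ) :=
  locf_mul (locf_div (locf_real _) (locf_nat 2)) (locf_pow (locf_Thp hτ) 2)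
lemma locf_deriv {U : ℂ → ℂ} (hU : IsRe U) {a : ℂ} (ha : locf_R a) (hd : DifferentiableAt ℂ U a) :
    locf_R (deriv U a) := by
  obtain ⟨x, rfl⟩ := locf_ex ha
  exact ⟨im_deriv_eq_zero hU hd⟩
lemma locf_gU {η x y : ℂ} {U : ℂ → ℂ} (hη : locf_R η) (hU : IsRe U) (hx : locf_R x)
    (hy : locf_R y) (hd : DifferentiableAt ℂ U (mid x y)) : locf_R (gU η U x y) :=
  locf_sub (locf_mul (locf_mul (locf_deriv hU (locf_mid hx hy) hd)
      (locf_div (locf_nat 3) (locf_sin (locf_mul (locf_nat 3) (locf_psi hx hy)))))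
      (locf_sin (locf_del hη hx hy)))
    (locf_mul (locf_mul hη (locf_app hU (locf_mid hx hy))) (locf_cos (locf_del hη hx hy)))
lemma locf_IU {η x y : ℂ} {U : ℂ → ℂ} (hη : locf_R η) (hU : IsRe U) (hx : locf_R x)
    (hy : locf_R y) (hd : DifferentiableAt ℂ U (mid x y)) : locf_R (IU η U x y) :=
  locf_mul (locf_neg (locf_Thp hx)) (locf_gU hη hU hx hy hd)
lemma locf_JU {η x y : ℂ} {U : ℂ → ℂ} (hη : locf_R η) (hU : IsRe U) (hx : locf_R x)
    (hy : locf_R y) (hd : DifferentiableAt ℂ U (mid x y)) : locf_R (JU η U x y) :=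
  locf_mul (locf_Thp hy) (locf_gU (locf_neg hη) hU hy hx (by rwa [mid_comm]))
lemma locf_SU {η x y : ℂ} {U : ℂ → ℂ} (hη : locf_R η) (hU : IsRe U) (hx : locf_R x)
    (hy : locf_R y) : locf_R (SU η U x y) :=
  locf_mul (locf_mul (locf_nat 2) (locf_app hU (locf_mid hx hy))) (locf_sin (locf_del hη hx hy))
lemma locf_S0 {η μ x y : ℂ} (hη : locf_R η) (hμ : locf_R μ) (hx : locf_R x) (hy : locf_R y) :
    locf_R (S0 η μ x y) :=
  locf_mul (locf_mul (locf_nat 2) (locf_add locf_one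
    (locf_mul hμ (locf_cos (locf_mul (locf_nat 6) (locf_psi hx hy)))))) (locf_sin (locf_del hη hx hy))
lemma locf_Sst {μ : ℂ} (hμ : locf_R μ) : locf_R (Sst μ) :=
  locf_mul (locf_mul (locf_nat 2) (locf_add locf_one hμ)) (locf_real _)
lemma locf_rr {η x y : ℂ} {U : ℂ → ℂ} (l : ℝ) (hη : locf_R η) (hU : IsRe U) (hx : locf_R x)
    (hy : locf_R y) (hd : DifferentiableAt ℂ U (mid x y)) : locf_R (rr η l U x y) :=
  locf_sub (locf_sub (locf_mul (locf_neg hη) (locf_add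
      (locf_g0 hη (locf_mu (locf_real l)) (locf_Th hx) (locf_sub (locf_Th hy) (locf_Th hx)))
      (locf_gU hη hU hx hy hd)))
    (locf_div (locf_add locf_one (locf_mu (locf_real l))) (locf_nat 2)))
    (locf_div (locf_mul hη (locf_sig l)) (locf_cosh hx))

lemma locf_cube {a b : ℝ} (ha : 0 ≤ a) (h : a ≤ 2 * b) : a ^ 3 ≤ 8 * b ^ 3 := by
  have := pow_le_pow_left₀ ha h 3
  linarith

lemma locf_dDd {η : ℂ} {l : ℝ} {X V : ℂ → ℂ} {z : ℂ} (hX : DifferentiableAt ℂ X z)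
    (hV : DifferentiableAt ℂ V z) (h1 : X z ∈ St (3 / 2)) (h2 : X z + l + V z ∈ St (3 / 2)) :
    DifferentiableAt ℂ (fun z => Dd η l (X z) (V z)) z :=
  (diffAt_I0 (Y := fun z => X z + l + V z) hX ((hX.add_const _).add hV) h1 h2).sub
    (diffAt_I0 (Y := fun z => X z + l) hX (hX.add_const _) h1 (add_real_mem_St h1 l))

lemma locf_dF0 {η s : ℂ} {t : ℂ → ℂ} {z : ℂ} (ht : DifferentiableAt ℂ t z)
    (h : t z ∈ St (3 / 2)) : DifferentiableAt ℂ (fun z => F0 η s (t z)) z :=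
  ((((diffAt_Thp h).comp z ht).pow 3).const_mul (η * s ^ 2)).div_const 24

/-- the second-order remainder, pointwise -/
theorem ff_est : ∃ C : ℝ, 0 < C ∧ ∀ (η : ℂ) (l ρ : ℝ) (U : ℂ → ℂ) (τ x₀ W₀ x₁ W₁ : ℂ),
    (η = 1 ∨ η = -1) → 0 < l → C * l ≤ 1 → ρ ≤ 1 / 4 → Pot ρ (l ^ 4) U →
    Adm l ρ (τ - l) x₀ W₀ → Adm l ρ τ x₁ W₁ →
      ‖ff η l U τ x₀ W₀ x₁ W₁‖ ≤ C * l ^ 4 * w τ.re ^ 3 ∧
      (∀ (κ : ℝ) (U' : ℂ → ℂ), Pot ρ (l ^ 4) U' → Pot ρ κ (fun a => U' a - U a) →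
        ‖ff η l U' τ x₀ W₀ x₁ W₁ - ff η l U τ x₀ W₀ x₁ W₁‖ ≤ C * κ * w τ.re ^ 3) ∧
      (∀ (t X₀ V₀ X₁ V₁ : ℂ → ℂ) (z : ℂ), DifferentiableAt ℂ t z → DifferentiableAt ℂ X₀ z →
        DifferentiableAt ℂ V₀ z → DifferentiableAt ℂ X₁ z → DifferentiableAt ℂ V₁ z →
        t z = τ → X₀ z = x₀ → V₀ z = W₀ → X₁ z = x₁ → V₁ z = W₁ →
          DifferentiableAt ℂ (fun z => ff η l U (t z) (X₀ z) (V₀ z) (X₁ z) (V₁ z)) z ∧
          DifferentiableAt ℂ (fun z => Nn η l (t z) (X₁ z) (V₁ z)) z) ∧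
      (IsRe U → τ.im = 0 → x₀.im = 0 → W₀.im = 0 → x₁.im = 0 → W₁.im = 0 →
        (ff η l U τ x₀ W₀ x₁ W₁).im = 0 ∧ (Nn η l τ x₁ W₁).im = 0 ∧
        (rr η l U x₁ (x₁ + l + W₁)).im = 0 ∧
        (S0 η (mu l) x₁ (x₁ + l + W₁) + SU η U x₁ (x₁ + l + W₁) - Sst (mu l)).im = 0) := by
  obtain ⟨C₁, p₁, h₁⟩ := E0_est
  obtain ⟨C₂, p₂, h₂⟩ := F0_move
  obtain ⟨C₃, p₃, h₃⟩ := loc0_est
  obtain ⟨C₄, p₄, h₄⟩ := locU_est
  obtain ⟨C₅, p₅, h₅⟩ := adm_mid
  obtain ⟨C₆, -, h₆⟩ := pot_deriv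
  refine ⟨8 * C₁ + 12 * C₂ + 8 * C₃ + 9 * C₄ + C₅, by positivity,
    fun η l ρ U τ x₀ W₀ x₁ W₁ hη hl hC hρ hU A₀ A₁ => ?_⟩
  have q₁ := mul_pos p₁ hl
  have q₂ := mul_pos p₂ hl
  have q₃ := mul_pos p₃ hl
  have q₄ := mul_pos p₄ hl
  have q₅ := mul_pos p₅ hl
  have k₃ : C₃ * l ≤ 1 := by linarith
  have k₄ : C₄ * l ≤ 1 := by linarith
  have k₅ : C₅ * l ≤ 1 := by linarith
  obtain ⟨l1, -, -, a0, b0, m0, -⟩ := h₅ l ρ (τ - l) x₀ W₀ hl k₅ hρ A₀
  obtain ⟨-, n1, -, a1, b1, m1, -⟩ := h₅ l ρ τ x₁ W₁ hl k₅ hρ A₁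
  have hτ : τ ∈ St (1 / 4) := St_mono hρ A₁.mem
  have hρ0 : 0 < ρ := lt_of_le_of_lt (abs_nonneg _) A₁.mem
  have w0 : w (τ - l).re ^ 3 ≤ 8 * w τ.re ^ 3 := by
    refine locf_cube (w_nonneg _) (w_re_le_two_mul ?_)
    rw [sub_sub_cancel_left, norm_neg, norm_real, Real.norm_of_nonneg hl.le]
    linarith
  have w1 : w x₁.re ^ 3 ≤ 8 * w τ.re ^ 3 :=
    locf_cube (w_nonneg _) (w_re_le_two_mul (by linarith))
  have hw : 0 ≤ w τ.re ^ 3 := pow_nonneg (w_nonneg _) 3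
  have s3 : St (1 / 2) ⊆ St (3 / 2) := St_mono (by norm_num)
  refine ⟨?_, fun κ U' hU' hD => ?_, fun t X₀ V₀ X₁ V₁ z dt dX₀ dV₀ dX₁ dV₁ e e0 f0 e1 f1 => ?_,
    fun hre rτ rx₀ rW₀ rx₁ rW₁ => ?_⟩
  · have u1 := h₁ η l x₁ hη hl (by linarith) a1
    have u2 := h₂ η l τ x₁ hη hl (by linarith) hτ (by linarith)
    have u3 := (h₃ η l ρ (τ - l) x₀ W₀ hη hl k₃ hρ A₀).2.1
    have u4 := (h₄ η l ρ _ U (τ - l) x₀ W₀ hη hl k₄ hρ hU A₀).2.2.1
    have u5 := (h₄ η l ρ _ U τ x₁ W₁ hη hl k₄ hρ hU A₁).2.1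
    have hx : ‖x₁ - τ‖ ≤ 12 * l := by
      have := A₁.hx
      have := om_le_one τ.re
      nlinarith
    have l4 : 0 ≤ l ^ 4 := by positivity
    have v1 : C₁ * l ^ 4 * w x₁.re ^ 3 ≤ C₁ * l ^ 4 * (8 * w τ.re ^ 3) :=
      mul_le_mul_of_nonneg_left w1 (by positivity)
    have v2 : C₂ * l ^ 3 * w τ.re ^ 3 * ‖x₁ - τ‖ ≤ C₂ * l ^ 3 * w τ.re ^ 3 * (12 * l) :=
      mul_le_mul_of_nonneg_left hx (by positivity)
    have v3 : C₃ * l ^ 4 * w (τ - l).re ^ 3 ≤ C₃ * l ^ 4 * (8 * w τ.re ^ 3) :=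
      mul_le_mul_of_nonneg_left w0 (by positivity)
    have v4 : C₄ * l ^ 4 * w (τ - l).re ^ 3 ≤ C₄ * l ^ 4 * (8 * w τ.re ^ 3) :=
      mul_le_mul_of_nonneg_left w0 (by positivity)
    have v5 : 0 ≤ C₅ * l ^ 4 * w τ.re ^ 3 := by positivity
    have id : ff η l U τ x₀ W₀ x₁ W₁ = (E0 η l x₁ - (F0 η l x₁ - F0 η l (x₁ - l))) +
        ((F0 η l x₁ - F0 η l (x₁ - l)) - (F0 η l τ - F0 η l (τ - l))) + Qr η l x₀ W₀ +
        (JU η U x₀ (x₀ + l + W₀) - IU η U x₁ (x₁ + l + W₁)) := by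
      unfold ff
      ring
    rw [id]
    refine (norm_add_le _ _).trans ?_
    refine (add_le_add norm_add₃_le (norm_sub_le _ _)).trans ?_
    linarith
  · have hκ : 0 ≤ κ := hD.nonneg hρ0
    have u4 := (h₄ η l ρ _ _ (τ - l) x₀ W₀ hη hl k₄ hρ hD A₀).2.2.1
    have u5 := (h₄ η l ρ _ _ τ x₁ W₁ hη hl k₄ hρ hD A₁).2.1
    rw [((h₄ η l ρ _ U (τ - l) x₀ W₀ hη hl k₄ hρ hU A₀).2.2.2.2.1 _ U' hU').2] at u4
    rw [((h₄ η l ρ _ U τ x₁ W₁ hη hl k₄ hρ hU A₁).2.2.2.2.1 _ U' hU').1] at u5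
    have v4 : C₄ * κ * w (τ - l).re ^ 3 ≤ C₄ * κ * (8 * w τ.re ^ 3) :=
      mul_le_mul_of_nonneg_left w0 (by positivity)
    have v5 : 0 ≤ (8 * C₁ + 12 * C₂ + 8 * C₃ + C₅) * κ * w τ.re ^ 3 := by positivity
    have id : ff η l U' τ x₀ W₀ x₁ W₁ - ff η l U τ x₀ W₀ x₁ W₁ =
        (JU η U' x₀ (x₀ + l + W₀) - JU η U x₀ (x₀ + l + W₀)) -
          (IU η U' x₁ (x₁ + l + W₁) - IU η U x₁ (x₁ + l + W₁)) := by
      unfold ff
      ring
    rw [id]
    refine (norm_sub_le _ _).trans ?_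
    linarith
  · have dY₀ : DifferentiableAt ℂ (fun z => X₀ z + l + V₀ z) z := (dX₀.add_const _).add dV₀
    have dY₁ : DifferentiableAt ℂ (fun z => X₁ z + l + V₁ z) z := (dX₁.add_const _).add dV₁
    have j0 := ((h₄ η l ρ _ U (τ - l) x₀ W₀ hη hl k₄ hρ hU A₀).2.2.2.2.2 X₀
      (fun z => X₀ z + l + V₀ z) z _ _ dX₀.hasDerivAt dY₀.hasDerivAt e0
      (by rw [← e0, ← f0])).2.2.2
    have j1 := ((h₄ η l ρ _ U τ x₁ W₁ hη hl k₄ hρ hU A₁).2.2.2.2.2 X₁
      (fun z => X₁ z + l + V₁ z) z _ _ dX₁.hasDerivAt dY₁.hasDerivAt e1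
      (by rw [← e1, ← f1])).2.2.1
    have c0 : X₀ z ∈ St (3 / 2) := by rw [e0]; exact s3 a0
    have c1 : X₁ z ∈ St (3 / 2) := by rw [e1]; exact s3 a1
    have d0 : X₀ z + l + V₀ z ∈ St (3 / 2) := by rw [e0, f0]; exact s3 b0
    have d1 : X₁ z + l + V₁ z ∈ St (3 / 2) := by rw [e1, f1]; exact s3 b1
    have d2 : X₀ z + V₀ z ∈ St (3 / 2) := by
      have h := sub_real_mem_St d0 l
      rwa [show X₀ z + l + V₀ z - l = X₀ z + V₀ z by ring] at h
    have ct : t z ∈ St (3 / 2) := by rw [e]; exact St_mono (by norm_num) hτ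
    have dE : DifferentiableAt ℂ (fun z => E0 η l (X₁ z)) z :=
      (diffAt_J0 (X := fun z => X₁ z - l) (dX₁.sub_const _) dX₁ (sub_real_mem_St c1 l) c1).sub
        (diffAt_I0 (Y := fun z => X₁ z + l) dX₁ (dX₁.add_const _) c1 (add_real_mem_St c1 l))
    have dQ : DifferentiableAt ℂ (fun z => Qr η l (X₀ z) (V₀ z)) z :=
      ((diffAt_J0 (Y := fun z => X₀ z + l + V₀ z) dX₀ dY₀ c0 d0).sub
        (diffAt_J0 (X := fun z => X₀ z + V₀ z) (Y := fun z => X₀ z + l + V₀ z) (dX₀.add dV₀) dY₀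
          d2 d0)).sub (locf_dDd dX₀ dV₀ c0 d0)
    have dF : DifferentiableAt ℂ (fun z => F0 η l (t z) - F0 η l (t z - l)) z :=
      (locf_dF0 dt ct).sub
        (locf_dF0 (t := fun z => t z - l) (dt.sub_const _) (sub_real_mem_St ct l))
    have dm : DifferentiableAt ℂ (fun z => mm (t z)) z :=
      (((diffAt_Thp ct).comp z dt).pow 2).const_mul _
    exact ⟨((dE.sub dF).add dQ).add (j0.sub j1), (locf_dDd dX₁ dV₁ c1 d1).add (dm.mul dV₁)⟩
  · have rη := locf_eta hη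
    have rl := locf_real l
    have r0 : locf_R (x₀ + l + W₀) := locf_add (locf_add ⟨rx₀⟩ rl) ⟨rW₀⟩
    have r1 : locf_R (x₁ + l + W₁) := locf_add (locf_add ⟨rx₁⟩ rl) ⟨rW₁⟩
    have g0 := (h₆ ρ _ U _ hU m0).1
    have g1 := (h₆ ρ _ U _ hU m1).1
    refine ⟨locf_R.im0 ?_, locf_R.im0 ?_, (locf_rr l rη hre ⟨rx₁⟩ r1 g1).im0, locf_R.im0 ?_⟩
    · exact locf_add (locf_add (locf_sub (locf_E0 rη rl ⟨rx₁⟩)
        (locf_sub (locf_F0 rη rl ⟨rτ⟩) (locf_F0 rη rl (locf_sub ⟨rτ⟩ rl))))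
        (locf_Qr l rη ⟨rx₀⟩ ⟨rW₀⟩))
        (locf_sub (locf_JU rη hre ⟨rx₀⟩ r0 g0) (locf_IU rη hre ⟨rx₁⟩ r1 g1))
    · exact locf_add (locf_Dd l rη ⟨rx₁⟩ ⟨rW₁⟩) (locf_mul (locf_mm ⟨rτ⟩) ⟨rW₁⟩)
    · exact locf_sub (locf_add (locf_S0 rη (locf_mu rl) ⟨rx₁⟩ r1) (locf_SU rη hre ⟨rx₁⟩ r1))
        (locf_Sst (locf_mu rl))

theorem im_SU {η : ℂ} (hη : η = 1 ∨ η = -1) {U : ℂ → ℂ} (hU : IsRe U) {x y : ℂ} (hx : x.im = 0)
    (hy : y.im = 0) : (SU η U x y).im = 0 :=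
  (locf_SU (locf_eta hη) hU ⟨hx⟩ ⟨hy⟩).im0

end Pool.Agent.MP_be9872_an

end

-- part MP_be9872_an.Beta
section

set_option autoImplicit false
open Complex Filter Topology

namespace Pool.Agent.MP_be9872_an

lemma beta_re_nonneg {τ : ℂ} (hτ : τ ∈ St (1 / 4)) : 0 ≤ (exp (-3 * τ)).re := by
  refine le_of_lt (exp_re_pos ?_)
  rw [mem_St] at *
  have e : (-3 * τ).im = -3 * τ.im := by simp
  rw [e, abs_mul]
  norm_num
  linarith

lemma beta_den_ne {τ : ℂ} (hτ : τ ∈ St (1 / 4)) : 1 + exp (-3 * τ) ≠ 0 := by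
  rw [← norm_pos_iff]
  linarith [one_le_norm_one_add (beta_re_nonneg hτ)]

lemma beta_norm_exp (τ : ℂ) : ‖exp (-3 * τ)‖ = Real.exp (-τ.re) ^ 3 := by
  rw [norm_exp, ← Real.exp_nat_mul]
  congr 1
  simp

lemma beta_norm_Es {τ : ℂ} (hτ : τ ∈ St (1 / 4)) : ‖Es τ‖ ≤ om τ.re ^ 3 := by
  have h1 := one_le_norm_one_add (beta_re_nonneg hτ)
  have h2 := norm_le_norm_one_add (beta_re_nonneg hτ)
  unfold Es
  rw [norm_div, norm_one, div_le_iff₀ (by linarith)]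
  rcases le_total τ.re 0 with h | h
  · rw [om_of_nonpos h]
    rw [beta_norm_exp] at h2
    have e : Real.exp τ.re ^ 3 * Real.exp (-τ.re) ^ 3 = 1 := by
      rw [← mul_pow, ← Real.exp_add]; simp
    nlinarith [pow_pos (Real.exp_pos τ.re) 3]
  · rw [om_of_nonneg h]
    linarith

lemma beta_one_sub_Es {τ : ℂ} (hτ : τ ∈ St (1 / 4)) :
    1 - Es τ = exp (-3 * τ) / (1 + exp (-3 * τ)) := by
  have := beta_den_ne hτ
  unfold Es
  rw [eq_div_iff this, sub_mul, one_div_mul_cancel this]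
  ring

lemma beta_norm_one_sub_Es {τ : ℂ} (hτ : τ ∈ St (1 / 4)) : ‖1 - Es τ‖ ≤ om (-τ.re) ^ 3 := by
  have h1 := one_le_norm_one_add (beta_re_nonneg hτ)
  have h2 := norm_le_norm_one_add (beta_re_nonneg hτ)
  rw [beta_one_sub_Es hτ, norm_div, div_le_iff₀ (by linarith)]
  rcases le_total τ.re 0 with h | h
  · rw [om_of_nonneg (by linarith)]
    linarith
  · rw [om_of_nonpos (by linarith), beta_norm_exp]
    nlinarith [pow_pos (Real.exp_pos (-τ.re)) 3]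

lemma beta_hasDerivAt_Es {τ : ℂ} (hτ : τ ∈ St (1 / 4)) :
    HasDerivAt Es (3 * (Es τ * (1 - Es τ))) τ := by
  have h0 := beta_den_ne hτ
  have h1 : HasDerivAt (fun τ : ℂ => 1 + exp (-3 * τ)) (exp (-3 * τ) * -3) τ :=
    ((((hasDerivAt_id τ).const_mul (-3 : ℂ)).cexp).const_add 1).congr_deriv (by simp)
  have h2 := (hasDerivAt_const τ (1 : ℂ)).div h1 h0
  refine HasDerivAt.congr_deriv h2 ?_
  rw [beta_one_sub_Es hτ]
  unfold Es
  generalize exp (-3 * τ) = e at h0 ⊢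
  field_simp
  ring

theorem Es_diffAt {τ : ℂ} (hτ : τ ∈ St (1 / 4)) : DifferentiableAt ℂ Es τ :=
  (beta_hasDerivAt_Es hτ).differentiableAt

theorem isRe_Es : IsRe Es := fun x => by
  unfold Es
  have e : (1 : ℂ) / (1 + exp (-3 * (x : ℂ))) = ((1 / (1 + Real.exp (-3 * x)) : ℝ) : ℂ) := by
    push_cast; rfl
  rw [e, ofReal_im]

theorem isRe_beta (l : ℝ) : IsRe (beta l) := fun x => by
  unfold beta
  rw [sub_im, isRe_Es x, isRe_Es.of_im (by simp), sub_zero]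

theorem norm_beta_le {l : ℝ} (hl : 0 < l) (hl1 : l ≤ 1 / 10) {τ : ℂ} (hτ : τ ∈ St (1 / 4)) :
    ‖beta l τ‖ ≤ 100 * l * w τ.re ^ 3 := by
  have hn : ‖τ - (τ - l)‖ = l := by
    rw [sub_sub_cancel, norm_real, Real.norm_eq_abs, abs_of_pos hl]
  have h := mvt (f := Es) (f' := fun u => 3 * (Es u * (1 - Es u))) (C := 24 * w τ.re ^ 3)
    ((convex_St (1 / 4)).inter (convex_closedBall τ (1 / 2)))
    (fun u hu => beta_hasDerivAt_Es hu.1) (fun u hu => by
      have h1 := beta_norm_Es hu.1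
      have h2 := beta_norm_one_sub_Es hu.1
      have h3 := w_re_le_two_mul (mem_closedBall_iff_norm.1 hu.2)
      have h4 : ‖Es u‖ * ‖1 - Es u‖ ≤ w u.re ^ 3 := by
        rw [w_eq_om_mul, mul_pow]
        exact mul_le_mul h1 h2 (norm_nonneg _) (pow_nonneg (om_nonneg _) _)
      have h5 := pow_le_pow_left₀ (w_nonneg _) h3 3
      rw [norm_mul, norm_mul, Complex.norm_ofNat]
      nlinarith)
    (x := τ - l) (y := τ)
    ⟨sub_real_mem_St hτ l, by
      rw [mem_closedBall_iff_norm, ← norm_neg, neg_sub, hn]; linarith⟩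
    ⟨hτ, Metric.mem_closedBall_self (by norm_num)⟩
  rw [hn] at h
  unfold beta
  nlinarith [mul_pos hl (pow_pos (w_pos τ.re) 3)]

lemma beta_om_cube_le (x : ℝ) : om x ^ 3 ≤ om x :=
  pow_le_of_le_one (om_nonneg x) (om_le_one x) (by norm_num)

lemma beta_w_cube_le (x : ℝ) : w x ^ 3 ≤ w x :=
  pow_le_of_le_one (w_nonneg x) (w_le_one x) (by norm_num)

theorem sumZ_beta {l : ℝ} (hl : 0 < l) (hl1 : l ≤ 1 / 10) {τ : ℂ} (hτ : τ ∈ St (1 / 4)) :
    sumZ l (beta l) τ = 1 := by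
  have hb : LineBd (beta l) τ (100 * l) 0 := lineBd_of_St0 (fun u hu =>
    (norm_beta_le hl hl1 hu).trans
      (mul_le_mul_of_nonneg_left (beta_w_cube_le _) (by positivity))) hτ
  have ha : Tendsto (fun n : ℕ => Es (τ - (n * l : ℝ))) atTop (𝓝 0) := by
    rw [tendsto_zero_iff_norm_tendsto_zero]
    refine squeeze_zero (fun _ => norm_nonneg _) (fun n => ?_) (tendsto_om_left hl τ.re)
    simpa using (beta_norm_Es (sub_real_mem_St hτ (n * l))).trans (beta_om_cube_le _)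
  have hb' : Tendsto (fun n : ℕ => Es (τ + (n * l : ℝ))) atTop (𝓝 1) := by
    rw [tendsto_iff_norm_sub_tendsto_zero]
    refine squeeze_zero (fun _ => norm_nonneg _) (fun n => ?_) (tendsto_om_left hl (-τ.re))
    have := (beta_norm_one_sub_Es (add_real_mem_St hτ (n * l))).trans (beta_om_cube_le _)
    rw [add_re, ofReal_re, neg_add, ← sub_eq_add_neg] at this
    rwa [norm_sub_rev]
  have h1 := sumL_tele (F := Es) (hb.left hl hl1).1 ha
  have h2 := sumR_tele (F := Es) (hb.right hl hl1).1 hb'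
  change sumL l (fun x => Es x - Es (x - l)) τ + sumR l (fun x => Es x - Es (x - l)) τ = 1
  rw [h1, h2]
  ring

lemma beta_nonneg_of {ρ B : ℝ} {f : ℂ → ℂ} (hb : ∀ τ ∈ St ρ, ‖f τ‖ ≤ B * w τ.re ^ 3) {τ : ℂ}
    (hτ : τ ∈ St ρ) : 0 ≤ B :=
  nonneg_of_mul_nonneg_left ((norm_nonneg _).trans (hb τ hτ)) (pow_pos (w_pos _) 3)

lemma beta_weak {ρ B : ℝ} {f : ℂ → ℂ} (hb : ∀ τ ∈ St ρ, ‖f τ‖ ≤ B * w τ.re ^ 3) :
    ∀ τ ∈ St ρ, ‖f τ‖ ≤ B * w τ.re := fun τ hτ =>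
  (hb τ hτ).trans (mul_le_mul_of_nonneg_left (beta_w_cube_le _) (beta_nonneg_of hb hτ))

lemma beta_cube_le {y z : ℝ} (h : w y ≤ z) : w y ^ 3 ≤ z ^ 2 * w y := by
  rw [pow_succ]
  exact mul_le_mul_of_nonneg_right (pow_le_pow_left₀ (w_nonneg _) h 2) (w_nonneg _)

/-- the approximate inverse of the difference operator -/
theorem Tinv_est {l ρ B : ℝ} (hl : 0 < l) (hl1 : l ≤ 1 / 10) (hρ : ρ ≤ 1 / 4) {f : ℂ → ℂ}
    (hb : ∀ τ ∈ St ρ, ‖f τ‖ ≤ B * w τ.re ^ 3) {τ : ℂ} (hτ : τ ∈ St ρ) :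
    ‖Tinv l f τ‖ ≤ 100 * B / l * w τ.re ^ 3 ∧
      Tinv l f τ - Tinv l f (τ - l) = f τ - beta l τ * sumZ l f τ ∧
      ∀ (g : ℂ → ℂ) (B' : ℝ), (∀ τ ∈ St ρ, ‖g τ‖ ≤ B' * w τ.re ^ 3) →
        Tinv l (fun a => g a - f a) τ = Tinv l g τ - Tinv l f τ := by
  have hB := beta_nonneg_of hb hτ
  have hf := lineBd_of_St0 (beta_weak hb) hτ
  refine ⟨?_, ?_, fun g B' hg => ?_⟩
  · have h1 : ‖sumL l f τ‖ ≤ 6 * (B * om τ.re ^ 2) / l * om τ.re := by
      refine (seq_left hl hl1 (mul_nonneg hB (sq_nonneg _)) fun n => ?_).2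
      refine (hb _ (sub_real_mem_St hτ _)).trans ?_
      rw [sub_re, ofReal_re, mul_assoc]
      refine mul_le_mul_of_nonneg_left (beta_cube_le ((w_le_om _).trans (om_mono ?_))) hB
      have : (0 : ℝ) ≤ n * l := by positivity
      linarith
    have h2 : ‖sumR l f τ‖ ≤ 5 * (B * om (-τ.re) ^ 2) / l * om (-τ.re) := by
      refine (seq_right hl hl1 (mul_nonneg hB (sq_nonneg _)) fun n => ?_).2
      refine (hb _ (add_real_mem_St hτ _)).trans ?_
      rw [add_re, ofReal_re, mul_assoc]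
      refine mul_le_mul_of_nonneg_left (beta_cube_le ?_) hB
      rw [← w_neg]
      refine (w_le_om _).trans (om_mono ?_)
      have : (0 : ℝ) ≤ (n + 1) * l := by positivity
      linarith
    have h3 := beta_norm_Es (St_mono hρ hτ)
    have h4 := beta_norm_one_sub_Es (St_mono hρ hτ)
    have e : Tinv l f τ = (1 - Es τ) * sumL l f τ - Es τ * sumR l f τ := by
      unfold Tinv sumZ; ring
    rw [e]
    refine (norm_sub_le _ _).trans ?_
    rw [norm_mul, norm_mul]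
    have h5 := mul_le_mul h4 h1 (norm_nonneg _) (pow_nonneg (om_nonneg _) _)
    have h6 := mul_le_mul h3 h2 (norm_nonneg _) (pow_nonneg (om_nonneg _) _)
    have h7 : 0 ≤ B / l * w τ.re ^ 3 := mul_nonneg (by positivity) (pow_nonneg (w_nonneg _) _)
    have e1 : om (-τ.re) ^ 3 * (6 * (B * om τ.re ^ 2) / l * om τ.re)
        = 6 * (B / l * w τ.re ^ 3) := by rw [w_eq_om_mul]; ring
    have e2 : om τ.re ^ 3 * (5 * (B * om (-τ.re) ^ 2) / l * om (-τ.re))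
        = 5 * (B / l * w τ.re ^ 3) := by rw [w_eq_om_mul]; ring
    have e3 : 100 * B / l * w τ.re ^ 3 = 100 * (B / l * w τ.re ^ 3) := by ring
    linarith
  · have h1 := (lineBd_of_St0 (beta_weak hb) (sub_real_mem_St hτ l)).sumZ_shift hl hl1
    rw [sub_add_cancel] at h1
    unfold Tinv beta
    rw [← h1, hf.sumL_step hl hl1]
    ring
  · have hg' := lineBd_of_St0 (beta_weak hg) hτ
    unfold Tinv
    rw [hg'.sumL_sub hl hl1 hf, hg'.sumZ_sub hl hl1 hf]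
    ring

theorem Tinv_diff {l ρ B : ℝ} (hl : 0 < l) (hl1 : l ≤ 1 / 10) (hρ : ρ ≤ 1 / 4) {f : ℂ → ℂ}
    (hf : DifferentiableOn ℂ f (St ρ)) (hb : ∀ τ ∈ St ρ, ‖f τ‖ ≤ B * w τ.re ^ 3) :
    DifferentiableOn ℂ (Tinv l f) (St ρ) := by
  have hb' : ∀ τ ∈ St ρ, ‖f τ‖ ≤ B * w (τ.re - 0) := by simpa using beta_weak hb
  have h1 : DifferentiableOn ℂ Es (St ρ) := fun τ hτ =>
    (Es_diffAt (St_mono hρ hτ)).differentiableWithinAt
  exact (diffOn_sumL hl hl1 hf hb').sub (h1.mul (diffOn_sumZ hl hl1 hf hb'))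

theorem IsRe.Tinv {f : ℂ → ℂ} (hf : IsRe f) (l : ℝ) : IsRe (Tinv l f) := fun x => by
  unfold Pool.Agent.MP_be9872_an.Tinv
  rw [sub_im, mul_im, hf.sumL l x, hf.sumZ l x, isRe_Es x]
  simp

/-- fixed point of a contraction of a weighted ball -/
theorem fixed_point {ρ r : ℝ} (hρ : 0 < ρ) (hr : 0 ≤ r) (Φ : (ℂ → ℂ) → ℂ → ℂ)
    (hmap : ∀ W, Bal ρ r W → IsRe W → Bal ρ r (Φ W) ∧ IsRe (Φ W))
    (hcon : ∀ (W W' : ℂ → ℂ) (d : ℝ), 0 < d → Bal ρ r W → Bal ρ r W' →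
      (∀ τ ∈ St ρ, ‖W' τ - W τ‖ ≤ d * w τ.re) →
      ∀ τ ∈ St ρ, ‖Φ W' τ - Φ W τ‖ ≤ d / 2 * w τ.re) :
    ∃ W, Bal ρ r W ∧ IsRe W ∧ ∀ τ ∈ St ρ, W τ = Φ W τ := by
  have _ := hρ
  let V : ℕ → ℂ → ℂ := fun n => Φ^[n] (fun _ => 0)
  have hV0 : V 0 = fun _ => 0 := rfl
  have hVs : ∀ n, V (n + 1) = Φ (V n) := fun n => Function.iterate_succ_apply' _ _ _
  have hV : ∀ n, Bal ρ r (V n) ∧ IsRe (V n) := by
    intro n
    induction n with
    | zero =>
      exact ⟨⟨differentiableOn_const _, fun τ _ => by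
        rw [hV0, norm_zero]; exact mul_nonneg hr (w_nonneg _)⟩, fun _ => rfl⟩
    | succ n ih => rw [hVs]; exact hmap _ ih.1 ih.2
  have hd : ∀ n, ∀ τ ∈ St ρ, ‖V (n + 1) τ - V n τ‖ ≤ (r + 1) / 2 ^ n * w τ.re := by
    intro n
    induction n with
    | zero =>
      intro τ hτ
      have h1 := (hV 1).1.bd τ hτ
      rw [hV0, sub_zero]
      nlinarith [w_nonneg τ.re]
    | succ n ih =>
      intro τ hτ
      have h1 := hcon (V n) (V (n + 1)) _ (by positivity) (hV n).1 (hV (n + 1)).1 ih τ hτ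
      rw [← hVs, ← hVs] at h1
      refine h1.trans (le_of_eq ?_)
      rw [pow_succ]
      ring
  have hd' : ∀ (n : ℕ) (τ : ℂ), τ ∈ St ρ → ‖V (n + 1) τ - V n τ‖ ≤ (r + 1) * (1 / 2) ^ n := by
    intro n τ hτ
    refine (hd n τ hτ).trans ?_
    rw [one_div_pow, mul_one_div]
    exact mul_le_of_le_one_right (by positivity) (w_le_one _)
  have hs : Summable fun n : ℕ => (r + 1) * (1 / 2 : ℝ) ^ n :=
    summable_geometric_two.mul_left _
  let W : ℂ → ℂ := fun τ => ∑' n, (V (n + 1) τ - V n τ)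
  have hlim : ∀ τ ∈ St ρ, Tendsto (fun n => V n τ) atTop (𝓝 (W τ)) := by
    intro τ hτ
    have h1 := (Summable.of_norm_bounded hs fun n => hd' n τ hτ).hasSum.tendsto_sum_nat
    refine h1.congr fun n => ?_
    rw [Finset.sum_range_sub (fun n => V n τ), hV0, sub_zero]
  have hW : Bal ρ r W := ⟨Complex.differentiableOn_tsum_of_summable_norm hs
      (fun n => (hV (n + 1)).1.diff.sub (hV n).1.diff) (isOpen_St ρ) hd',
    fun τ hτ => le_of_tendsto' (hlim τ hτ).norm fun n => (hV n).1.bd τ hτ⟩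
  refine ⟨W, hW, fun x => im_tsum_eq_zero fun n => ((hV (n + 1)).2.sub (hV n).2) x,
    fun τ hτ => ?_⟩
  have h1 : ∀ n, ∀ u ∈ St ρ, ‖W u - V n u‖ ≤ 2 * (r + 1) / 2 ^ n * w u.re := by
    intro n u hu
    have h2 := dist_le_of_le_geometric_two_of_tendsto (C := 2 * (r + 1) * w u.re)
      (f := fun n => V n u) (fun m => by
        rw [dist_comm, dist_eq_norm]
        exact (hd m u hu).trans (le_of_eq (by ring))) (hlim u hu) n
    rw [dist_comm, dist_eq_norm] at h2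
    exact h2.trans (le_of_eq (by ring))
  have h2 : Tendsto (fun n => V (n + 1) τ) atTop (𝓝 (Φ W τ)) := by
    rw [tendsto_iff_norm_sub_tendsto_zero]
    refine squeeze_zero (fun _ => norm_nonneg _) (fun n => ?_) hs.tendsto_atTop_zero
    have h3 := hcon (V n) W _ (by positivity) (hV n).1 hW (h1 n) τ hτ
    rw [hVs, norm_sub_rev]
    refine h3.trans ?_
    rw [one_div_pow, mul_one_div, show 2 * (r + 1) / 2 ^ n / 2 = (r + 1) / 2 ^ n by ring]
    exact mul_le_of_le_one_right (by positivity) (w_le_one _)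
  exact tendsto_nhds_unique ((hlim τ hτ).comp (tendsto_add_atTop_nat 1)) h2

theorem bootstrap {ρ a d₀ : ℝ} {g : ℂ → ℂ} (ha : 0 ≤ a) (hd₀ : 0 < d₀)
    (h0 : ∀ τ ∈ St ρ, ‖g τ‖ ≤ d₀ * w τ.re)
    (hstep : ∀ d : ℝ, 0 < d → (∀ τ ∈ St ρ, ‖g τ‖ ≤ d * w τ.re) →
      ∀ τ ∈ St ρ, ‖g τ‖ ≤ (d / 2 + a) * w τ.re) :
    ∀ τ ∈ St ρ, ‖g τ‖ ≤ 2 * a * w τ.re := by
  have h1 : ∀ n : ℕ, ∀ τ ∈ St ρ, ‖g τ‖ ≤ (d₀ * (1 / 2) ^ n + 2 * a) * w τ.re := by
    intro n
    induction n with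
    | zero =>
      intro τ hτ
      have := h0 τ hτ
      nlinarith [w_nonneg τ.re]
    | succ n ih =>
      intro τ hτ
      refine (hstep _ (by positivity) ih τ hτ).trans (le_of_eq ?_)
      ring
  intro τ hτ
  have h2 : Tendsto (fun n : ℕ => (d₀ * (1 / 2) ^ n + 2 * a) * w τ.re) atTop
      (𝓝 ((d₀ * 0 + 2 * a) * w τ.re)) :=
    (((tendsto_pow_atTop_nhds_zero_of_lt_one (by norm_num) (by norm_num)).const_mul d₀).add_const
      _).mul_const _
  rw [mul_zero, zero_add] at h2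
  exact ge_of_tendsto' h2 fun n => h1 n τ hτ

lemma beta_Th_taylor {l : ℝ} (hl : 0 < l) (hl1 : l ≤ 1 / 10) {x : ℂ} (hx : x ∈ St (7 / 10)) :
    ‖Th (x + l) - Th x - l * Thp x‖ ≤ 6 * l ^ 2 * w x.re := by
  have hn : ‖x + l - x‖ = l := by
    rw [add_sub_cancel_left, norm_real, Real.norm_eq_abs, abs_of_pos hl]
  have h := mvt (f := fun u => Th u - Thp x * u) (f' := fun u => Thp u - Thp x)
    (C := 6 * w x.re * l) ((convex_St (7 / 10)).inter (convex_closedBall x l))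
    (fun u hu => ((hasDerivAt_Th (St7_subset hu.1)).sub
      ((hasDerivAt_id u).const_mul (Thp x))).congr_deriv (by simp))
    (fun u hu => by
      have h1 := mem_closedBall_iff_norm.1 hu.2
      exact (norm_Thp_sub_le hx hu.1 (by linarith)).trans
        (mul_le_mul_of_nonneg_left h1 (by have := w_nonneg x.re; positivity)))
    (x := x) (y := x + l) ⟨hx, Metric.mem_closedBall_self hl.le⟩
    ⟨add_real_mem_St hx l, by rw [mem_closedBall_iff_norm, hn]⟩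
  rw [hn] at h
  rw [show Th (x + l) - Th x - l * Thp x = Th (x + l) - Thp x * (x + l) - (Th x - Thp x * x) by
    ring]
  exact h.trans (le_of_eq (by ring))

/-- summing the leading term of the increment -/
theorem Vv_asymp {l ρ A : ℝ} (hl : 0 < l) (hl1 : l ≤ 1 / 10) (hρ : ρ ≤ 1 / 4) {c : ℂ}
    (hc : ‖c‖ ≤ 1) {W : ℂ → ℂ}
    (hW : ∀ τ ∈ St ρ, ‖W τ + c * l ^ 2 * Thp τ‖ ≤ A * l ^ 3 * w τ.re) {τ : ℂ} (hτ : τ ∈ St ρ) :
    ‖Vv l W τ + c * l * Th τ‖ ≤ (6 * A + 100) * l ^ 2 * om τ.re := by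
  have hsub : St ρ ⊆ St (7 / 10) := St_mono (by linarith)
  have hnl : ‖(l : ℂ)‖ = l := by rw [norm_real, Real.norm_eq_abs, abs_of_pos hl]
  have h1 : ∀ u ∈ St ρ, ‖W u‖ ≤ (A * l ^ 3 + l ^ 2) * w u.re := by
    intro u hu
    have h2 := hW u hu
    have h3 : ‖c * l ^ 2 * Thp u‖ ≤ l ^ 2 * w u.re := by
      rw [norm_mul, norm_mul, norm_pow, hnl]
      exact mul_le_mul (mul_le_of_le_one_left (by positivity) hc) (norm_Thp_le (hsub hu))
        (norm_nonneg _) (by positivity)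
    have h4 := norm_sub_le (W u + c * l ^ 2 * Thp u) (c * l ^ 2 * Thp u)
    rw [add_sub_cancel_right] at h4
    linarith
  have h2 : ∀ u ∈ St ρ, ‖Th (u + l) - Th u‖ ≤ 2 * l * w u.re := by
    intro u hu
    have hn : ‖u + l - u‖ = l := by rw [add_sub_cancel_left, hnl]
    have := norm_Th_sub_le (hsub hu) (hsub (add_real_mem_St hu l)) (by rw [hn]; linarith)
    rw [hn] at this
    linarith
  have h3 : ∀ u ∈ St ρ, ‖W u + c * l * (Th (u + l) - Th u)‖ ≤ (A + 6) * l ^ 3 * w u.re := by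
    intro u hu
    have h4 := hW u hu
    have h5 : ‖c * l * (Th (u + l) - Th u - l * Thp u)‖ ≤ l * (6 * l ^ 2 * w u.re) := by
      rw [norm_mul, norm_mul, hnl]
      exact mul_le_mul (mul_le_of_le_one_left hl.le hc) (beta_Th_taylor hl hl1 (hsub hu))
        (norm_nonneg _) hl.le
    have h6 := norm_add_le (W u + c * l ^ 2 * Thp u) (c * l * (Th (u + l) - Th u - l * Thp u))
    rw [show W u + c * l ^ 2 * Thp u + c * l * (Th (u + l) - Th u - l * Thp u)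
      = W u + c * l * (Th (u + l) - Th u) by ring] at h6
    linarith
  have h4 : Vv l (fun a => Th (a + l) - Th a) τ = Th τ := by
    have hs := ((lineBd_of_St0 h2 (sub_real_mem_St hτ l)).left hl hl1).1
    have ha : Tendsto (fun n : ℕ => Th (τ - l - (n * l : ℝ) + l)) atTop (𝓝 0) := by
      rw [tendsto_zero_iff_norm_tendsto_zero]
      have h5 := (tendsto_om_left hl τ.re).const_mul 3
      rw [mul_zero] at h5
      refine squeeze_zero (fun _ => norm_nonneg _) (fun n => ?_) h5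
      rw [show τ - l - (n * l : ℝ) + l = τ - (n * l : ℝ) by ring]
      simpa using norm_Th_le_om (hsub (sub_real_mem_St hτ (n * l)))
    have h5 := sumL_tele (F := fun x => Th (x + l)) (τ := τ - l) (l := l)
      (by simpa only [sub_add_cancel] using hs) ha
    simp only [sub_add_cancel, sub_zero] at h5
    exact h5
  have h5 := norm_Vv_le hl hl1 h3 hτ
  rw [Vv_line hl hl1 h1 h2 (c * l) hτ, h4] at h5
  refine h5.trans (mul_le_mul_of_nonneg_right ?_ (om_nonneg _))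
  rw [show 6 * ((A + 6) * l ^ 3) / l = (6 * A + 36) * l ^ 2 by field_simp; ring]
  exact mul_le_mul_of_nonneg_right (by linarith) (sq_nonneg _)

end Pool.Agent.MP_be9872_an

end

-- part MP_be9872_an.LS
section

set_option autoImplicit false
open Complex Metric

namespace Pool.Agent.MP_be9872_an

lemma ls_pack : ∃ K : ℝ, 10 ≤ K ∧ ∀ (η : ℂ) (l ρ : ℝ) (U : ℂ → ℂ), (η = 1 ∨ η = -1) → 0 < l →
    K * l ≤ 1 → ρ ≤ 1 / 4 → Pot ρ (l ^ 4) U →
      (∀ W : ℂ → ℂ, (∀ τ ∈ St ρ, ‖W τ‖ ≤ 2 * l ^ 2 * w τ.re) → ∀ τ ∈ St ρ,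
        ‖f2 η l U W τ‖ ≤ K * l ^ 4 * w τ.re ^ 3 ∧
        ‖Nn η l τ (Tt l W τ) (W τ)‖ ≤ K * l ^ 3 * w τ.re ^ 3 ∧
        ∀ (κ : ℝ) (U' : ℂ → ℂ), Pot ρ (l ^ 4) U' → Pot ρ κ (fun a => U' a - U a) →
          ‖f2 η l U' W τ - f2 η l U W τ‖ ≤ K * κ * w τ.re ^ 3) ∧
      (∀ W : ℂ → ℂ, Bal ρ (l ^ 2) W → DifferentiableOn ℂ (f2 η l U W) (St ρ) ∧
        DifferentiableOn ℂ (fun τ => Nn η l τ (Tt l W τ) (W τ)) (St ρ) ∧
        (0 < ρ → IsRe U → IsRe W →
          IsRe (f2 η l U W) ∧ IsRe (fun τ => Nn η l τ (Tt l W τ) (W τ)))) ∧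
      (∀ (W W' : ℂ → ℂ) (d : ℝ), 0 < d → Bal ρ (l ^ 2) W → Bal ρ (l ^ 2) W' →
        (∀ τ ∈ St ρ, ‖W' τ - W τ‖ ≤ d * w τ.re) → ∀ τ ∈ St ρ,
          ‖f2 η l U W' τ - f2 η l U W τ‖ ≤ 2 * K * l ^ 2 * d * w τ.re ^ 3 ∧
          ‖Nn η l τ (Tt l W' τ) (W' τ) - Nn η l τ (Tt l W τ) (W τ)‖ ≤
            2 * K * l * d * w τ.re ^ 3) := by
  obtain ⟨C₀, hC₀, h₀⟩ := loc0_est
  obtain ⟨C₁, hC₁, h₁⟩ := ff_est
  refine ⟨C₀ + C₁ + 10, by linarith, fun η l ρ U hη hl hK hρ hU => ?_⟩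
  have hl1 : l ≤ 1 / 10 := by nlinarith
  have hc0 : C₀ * l ≤ 1 := by nlinarith
  have hc1 : C₁ * l ≤ 1 := by nlinarith
  have A : ∀ W : ℂ → ℂ, (∀ τ ∈ St ρ, ‖W τ‖ ≤ 2 * l ^ 2 * w τ.re) → ∀ τ ∈ St ρ,
      ‖f2 η l U W τ‖ ≤ (C₀ + C₁ + 10) * l ^ 4 * w τ.re ^ 3 ∧
      ‖Nn η l τ (Tt l W τ) (W τ)‖ ≤ (C₀ + C₁ + 10) * l ^ 3 * w τ.re ^ 3 ∧
      ∀ (κ : ℝ) (U' : ℂ → ℂ), Pot ρ (l ^ 4) U' → Pot ρ κ (fun a => U' a - U a) →
        ‖f2 η l U' W τ - f2 η l U W τ‖ ≤ (C₀ + C₁ + 10) * κ * w τ.re ^ 3 := by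
    intro W hW τ hτ
    have a0 := adm_Tt hl hl1 hW (sub_real_mem_St hτ l)
    have a1 := adm_Tt hl hl1 hW hτ
    have hw := w_pos τ.re
    obtain ⟨b1, b2, -, -⟩ := h₁ η l ρ U τ _ _ _ _ hη hl hc1 hρ hU a0 a1
    refine ⟨b1.trans (by gcongr; linarith),
      (h₀ η l ρ τ _ _ hη hl hc0 hρ a1).1.trans (by gcongr; linarith), fun κ U' hU' hκ => ?_⟩
    have hκ0 : 0 ≤ κ := hκ.nonneg (lt_of_le_of_lt (abs_nonneg _) hτ)
    exact (b2 κ U' hU' hκ).trans (by gcongr; linarith)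
  refine ⟨A, fun W hW => ?_, fun W W' d hd hW hW' hb τ hτ => ?_⟩
  · have hT := hW.diff_Tt hl hl1
    have key : ∀ τ ∈ St ρ, DifferentiableAt ℂ (f2 η l U W) τ ∧
        DifferentiableAt ℂ (fun τ => Nn η l τ (Tt l W τ) (W τ)) τ := by
      intro τ hτ
      have hτ' := sub_real_mem_St hτ l
      have hs : DifferentiableAt ℂ (fun z : ℂ => z - l) τ := by fun_prop
      exact (h₁ η l ρ U τ _ _ _ _ hη hl hc1 hρ hU (hW.adm hl hl1 hτ') (hW.adm hl hl1 hτ)).2.2.1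
        (fun z => z) (fun z => Tt l W (z - l)) (fun z => W (z - l)) (Tt l W) W τ
        differentiableAt_id
        (DifferentiableAt.comp (g := Tt l W) (f := fun z : ℂ => z - l) τ (diffAt_of_St hT hτ') hs)
        (DifferentiableAt.comp (g := W) (f := fun z : ℂ => z - l) τ (diffAt_of_St hW.diff hτ') hs)
        (diffAt_of_St hT hτ) (diffAt_of_St hW.diff hτ)
        rfl rfl rfl rfl rfl
    refine ⟨fun τ hτ => (key τ hτ).1.differentiableWithinAt,
      fun τ hτ => (key τ hτ).2.differentiableWithinAt, fun hρ0 hUre hWre => ?_⟩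
    have key2 : ∀ x : ℝ, (f2 η l U W x).im = 0 ∧ (Nn η l x (Tt l W x) (W x)).im = 0 := by
      intro x
      have hτ := ofReal_mem_St hρ0 x
      have hτ' := sub_real_mem_St hτ l
      have := (h₁ η l ρ U x _ _ _ _ hη hl hc1 hρ hU (hW.adm hl hl1 hτ') (hW.adm hl hl1 hτ)).2.2.2
        hUre (by simp) ((hWre.Tt l).of_im (by simp)) (hWre.of_im (by simp)) (hWre.Tt l x) (hWre x)
      exact ⟨this.1, this.2.1⟩
    exact ⟨fun x => (key2 x).1, fun x => (key2 x).2⟩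
  · set δ : ℂ → ℂ := fun a => ((l ^ 2 / d : ℝ) : ℂ) * (W' a - W a) with hδ
    have hδb : ∀ τ ∈ St ρ, ‖δ τ‖ ≤ l ^ 2 * w τ.re := by
      intro a ha
      simp only [hδ]
      rw [norm_mul, norm_real, Real.norm_of_nonneg (by positivity)]
      calc l ^ 2 / d * ‖W' a - W a‖ ≤ l ^ 2 / d * (d * w a.re) := by gcongr; exact hb a ha
        _ = l ^ 2 * w a.re := by field_simp
    have hZ : ∀ ζ ∈ ball (0 : ℂ) 1, ∀ τ ∈ St ρ, ‖W τ + ζ * δ τ‖ ≤ 2 * l ^ 2 * w τ.re := by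
      intro ζ hζ a ha
      have h1 : ‖ζ‖ ≤ 1 := (mem_ball_zero_iff.1 hζ).le
      have h2 := hδb a ha
      have h3 := hW.bd a ha
      have h4 : ‖ζ * δ a‖ ≤ ‖δ a‖ := by
        rw [norm_mul]; exact mul_le_of_le_one_left (norm_nonneg _) h1
      linarith [norm_add_le (W a) (ζ * δ a)]
    have e0 : (fun a => W a + (0 : ℂ) * δ a) = W := funext fun a => by simp
    have e1 : (fun a => W a + ((d / l ^ 2 : ℝ) : ℂ) * δ a) = W' := funext fun a => by
      simp only [hδ]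
      have h1 : (l : ℂ) ≠ 0 := ofReal_ne_zero.2 hl.ne'
      have h2 : (d : ℂ) ≠ 0 := ofReal_ne_zero.2 hd.ne'
      push_cast; field_simp; ring
    have hτ' := sub_real_mem_St hτ l
    have key : ∀ ζ ∈ ball (0 : ℂ) 1,
        DifferentiableAt ℂ (fun ζ => f2 η l U (fun a => W a + ζ * δ a) τ) ζ ∧
        DifferentiableAt ℂ (fun ζ => Nn η l τ (Tt l (fun a => W a + ζ * δ a) τ) (W τ + ζ * δ τ)) ζ := by
      intro ζ hζ
      have t0 : (fun ζ : ℂ => Tt l (fun a => W a + ζ * δ a) (τ - l)) =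
          fun ζ => Tt l W (τ - l) + ζ * Vv l δ (τ - l) :=
        funext fun ζ => Tt_line hl hl1 hW.bd hδb ζ hτ'
      have t1 : (fun ζ : ℂ => Tt l (fun a => W a + ζ * δ a) τ) =
          fun ζ => Tt l W τ + ζ * Vv l δ τ :=
        funext fun ζ => Tt_line hl hl1 hW.bd hδb ζ hτ
      exact (h₁ η l ρ U τ _ _ _ _ hη hl hc1 hρ hU (adm_Tt hl hl1 (hZ ζ hζ) hτ')
        (adm_Tt hl hl1 (hZ ζ hζ) hτ)).2.2.1
        (fun _ => τ) (fun ζ : ℂ => Tt l (fun a => W a + ζ * δ a) (τ - l))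
        (fun ζ => W (τ - l) + ζ * δ (τ - l)) (fun ζ : ℂ => Tt l (fun a => W a + ζ * δ a) τ)
        (fun ζ => W τ + ζ * δ τ) ζ (by fun_prop) (by rw [t0]; fun_prop) (by fun_prop)
        (by rw [t1]; fun_prop) (by fun_prop) rfl rfl rfl rfl rfl
    have hW'2 : ∀ τ ∈ St ρ, ‖W' τ‖ ≤ 2 * l ^ 2 * w τ.re := (hW'.mono le_rfl (by nlinarith)).bd
    have hd' : 0 < d / l ^ 2 := by positivity
    constructor
    · have := lip_line (F := fun ζ => f2 η l U (fun a => W a + ζ * δ a) τ) hd'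
        (fun ζ hζ => (key ζ hζ).1.differentiableWithinAt)
        (fun ζ hζ => (A _ (hZ ζ hζ) τ hτ).1) (by rw [e1]; exact (A _ hW'2 τ hτ).1)
      simp only [e0, e1] at this
      refine this.trans (le_of_eq ?_)
      field_simp
    · have e1' := congrFun e1 τ
      have e0' := congrFun e0 τ
      have := lip_line
        (F := fun ζ => Nn η l τ (Tt l (fun a => W a + ζ * δ a) τ) (W τ + ζ * δ τ)) hd'
        (fun ζ hζ => (key ζ hζ).2.differentiableWithinAt)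
        (fun ζ hζ => (A _ (hZ ζ hζ) τ hτ).2.1) (by rw [e1, e1']; exact (A _ hW'2 τ hτ).2.1)
      simp only [e0, e1, e0', e1'] at this
      refine this.trans (le_of_eq ?_)
      field_simp

lemma ls_mm_ge {τ : ℂ} (hτ : τ ∈ St (1 / 4)) : w τ.re ^ 2 / 23 ≤ ‖mm τ‖ := by
  unfold mm
  have h1 := norm_Thp_ge (St_mono (by norm_num) hτ : τ ∈ St (3 / 2))
  have h2 := s0_ge
  have hw := w_pos τ.re
  rw [norm_mul, norm_div, norm_pow, norm_real, Real.norm_of_nonneg s0_pos.le]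
  have h3 : (w τ.re / 3) ^ 2 ≤ ‖Thp τ‖ ^ 2 := by gcongr
  have h4 : ‖(2 : ℂ)‖ = 2 := by simp
  rw [h4]
  nlinarith [sq_nonneg (w τ.re)]

lemma ls_mm_ne {τ : ℂ} (hτ : τ ∈ St (1 / 4)) : mm τ ≠ 0 := by
  intro h
  have := ls_mm_ge hτ
  rw [h, norm_zero] at this
  have hw := pow_pos (w_pos τ.re) 2
  linarith

lemma ls_div_mm {τ z : ℂ} {B : ℝ} (hτ : τ ∈ St (1 / 4)) (hz : ‖z‖ ≤ B * w τ.re ^ 3) :
    ‖z / mm τ‖ ≤ 23 * B * w τ.re := by
  have hw := w_pos τ.re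
  have h1 := ls_mm_ge hτ
  have hB : 0 ≤ B := by
    by_contra hc
    have := mul_neg_of_neg_of_pos (not_le.1 hc) (pow_pos hw 3)
    linarith [norm_nonneg z]
  rw [norm_div, div_le_iff₀ (lt_of_lt_of_le (by positivity) h1)]
  calc ‖z‖ ≤ B * w τ.re ^ 3 := hz
    _ = 23 * B * w τ.re * (w τ.re ^ 2 / 23) := by ring
    _ ≤ _ := by gcongr

lemma ls_F0_div (η : ℂ) (l : ℝ) {τ : ℂ} (hτ : τ ∈ St (1 / 4)) :
    F0 η l τ / mm τ = η * gam * l ^ 2 * Thp τ := by
  have h1 := Thp_ne_zero (St_mono (by norm_num) hτ : τ ∈ St (3 / 2))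
  have h2 : ((s0 : ℝ) : ℂ) ≠ 0 := ofReal_ne_zero.2 s0_pos.ne'
  unfold F0 mm gam
  push_cast
  field_simp
  ring

lemma ls_mm_diff {τ : ℂ} (hτ : τ ∈ St (1 / 4)) : DifferentiableAt ℂ mm τ := by
  have h1 := diffAt_Thp (St_mono (by norm_num) hτ : τ ∈ St (3 / 2))
  unfold mm
  fun_prop

lemma ls_F0_diff (η : ℂ) (l : ℝ) {τ : ℂ} (hτ : τ ∈ St (1 / 4)) :
    DifferentiableAt ℂ (F0 η l) τ := by
  have h1 := diffAt_Thp (St_mono (by norm_num) hτ : τ ∈ St (3 / 2))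
  unfold F0
  fun_prop

lemma ls_w3 {f : ℂ → ℂ} {ρ B : ℝ} (hB : 0 ≤ B) (h : ∀ τ ∈ St ρ, ‖f τ‖ ≤ B * w τ.re ^ 3) :
    ∀ τ ∈ St ρ, ‖f τ‖ ≤ B * w τ.re := fun τ hτ => (h τ hτ).trans (by
  have := w_pow_le (x := τ.re) (show 1 ≤ 3 by norm_num)
  rw [pow_one] at this
  gcongr)

theorem ls_main : ∃ C : ℝ, 0 < C ∧ ∀ (η : ℂ) (l ρ : ℝ), (η = 1 ∨ η = -1) → 0 < l → C * l ≤ 1 →
    0 < ρ → ρ ≤ 1 / 4 →
      (∀ U : ℂ → ℂ, Pot ρ (l ^ 4) U → IsRe U → ∃ W, Sol η l ρ U W) ∧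
      ∀ U W : ℂ → ℂ, Pot ρ (l ^ 4) U → Sol η l ρ U W →
        (∀ τ ∈ St ρ, EL η l U W τ = beta l τ * muW η l U W τ) ∧
        (∀ τ ∈ St ρ, muW η l U W (τ + l) = muW η l U W τ) ∧
        (∀ τ ∈ St ρ, ‖Vv l W τ + η * l * gam * Th τ‖ ≤ C * l ^ 2 * om τ.re) ∧
        ∀ (U' W' : ℂ → ℂ) (κ : ℝ), Pot ρ (l ^ 4) U' → Pot ρ κ (fun a => U' a - U a) →
          Sol η l ρ U' W' → ∀ τ ∈ St ρ, ‖W' τ - W τ‖ ≤ C * κ / l * w τ.re ∧
            ‖muW η l U' W' τ - muW η l U W τ‖ ≤ C * κ / l := by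
  obtain ⟨K, hK, h⟩ := ls_pack
  refine ⟨200000 * K, by linarith, fun η l ρ hη hl hC hρ0 hρ => ?_⟩
  have hl1 : l ≤ 1 / 10 := by nlinarith
  have hKl : K * l ≤ 1 := by nlinarith
  have hK0 : 0 < K := by linarith
  have hηn : ‖η‖ = 1 := by rcases hη with rfl | rfl <;> simp
  have hsub : St ρ ⊆ St (1 / 4) := St_mono hρ
  have two : ∀ {W : ℂ → ℂ}, Bal ρ (l ^ 2) W → ∀ τ ∈ St ρ, ‖W τ‖ ≤ 2 * l ^ 2 * w τ.re :=
    fun hW => (hW.mono le_rfl (by nlinarith)).bd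
  -- leading term of `Phi`
  have lead : ∀ U W : ℂ → ℂ, Pot ρ (l ^ 4) U → Bal ρ (l ^ 2) W → ∀ τ ∈ St ρ,
      ‖Phi η l U W τ + η * gam * l ^ 2 * Thp τ‖ ≤ 2323 * K * l ^ 3 * w τ.re := by
    intro U W hU hW τ hτ
    obtain ⟨A, -, -⟩ := h η l ρ U hη hl hKl hρ hU
    have h1 := (Tinv_est hl hl1 hρ (fun τ hτ => (A W (two hW) τ hτ).1) hτ).1
    have h2 := (A W (two hW) τ hτ).2.1
    have e : Phi η l U W τ + η * gam * l ^ 2 * Thp τ =
        (Nn η l τ (Tt l W τ) (W τ) - Tinv l (f2 η l U W) τ) / mm τ := by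
      rw [← ls_F0_div η l (hsub hτ)]; unfold Phi; ring
    rw [e]
    refine (ls_div_mm (B := 101 * K * l ^ 3) (hsub hτ) ((norm_sub_le _ _).trans ?_)).trans
      (le_of_eq (by ring))
    have : 100 * (K * l ^ 4) / l = 100 * K * l ^ 3 := by field_simp
    rw [this] at h1
    linarith
  -- contraction
  have con : ∀ U : ℂ → ℂ, Pot ρ (l ^ 4) U → ∀ (W W' : ℂ → ℂ) (d : ℝ), 0 < d → Bal ρ (l ^ 2) W →
      Bal ρ (l ^ 2) W' → (∀ τ ∈ St ρ, ‖W' τ - W τ‖ ≤ d * w τ.re) →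
      ∀ τ ∈ St ρ, ‖Phi η l U W' τ - Phi η l U W τ‖ ≤ d / 2 * w τ.re := by
    intro U hU W W' d hd hW hW' hb τ hτ
    obtain ⟨A, -, L⟩ := h η l ρ U hη hl hKl hρ hU
    have h1 := (Tinv_est hl hl1 hρ (fun τ hτ => (L W W' d hd hW hW' hb τ hτ).1) hτ).1
    have h2 := (L W W' d hd hW hW' hb τ hτ).2
    rw [(Tinv_est hl hl1 hρ (fun τ hτ => (A W (two hW) τ hτ).1) hτ).2.2 _ _
      (fun τ hτ => (A W' (two hW') τ hτ).1)] at h1
    have e : Phi η l U W' τ - Phi η l U W τ =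
        ((Nn η l τ (Tt l W' τ) (W' τ) - Nn η l τ (Tt l W τ) (W τ)) -
          (Tinv l (f2 η l U W') τ - Tinv l (f2 η l U W) τ)) / mm τ := by
      unfold Phi; ring
    rw [e]
    refine (ls_div_mm (B := 202 * K * l * d) (hsub hτ) ((norm_sub_le _ _).trans ?_)).trans ?_
    · have : 100 * (2 * K * l ^ 2 * d) / l = 200 * K * l * d := by field_simp; ring
      rw [this] at h1
      linarith
    · have hw := w_pos τ.re
      have : 23 * (202 * K * l * d) ≤ d / 2 := by nlinarith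
      gcongr
  refine ⟨fun U hU hUre => ?_, fun U W hU hS => ?_⟩
  · obtain ⟨A, B, -⟩ := h η l ρ U hη hl hKl hρ hU
    suffices hmap : ∀ W, Bal ρ (l ^ 2) W → IsRe W →
        Bal ρ (l ^ 2) (Phi η l U W) ∧ IsRe (Phi η l U W) by
      obtain ⟨W, h1, h2, h3⟩ := fixed_point hρ0 (by positivity : 0 ≤ l ^ 2) (Phi η l U)
        hmap (con U hU)
      exact ⟨W, h1, h2, h3⟩
    intro W hW hWre
    obtain ⟨b1, b2, b3⟩ := B W hW
    refine ⟨⟨?_, fun τ hτ => ?_⟩, fun x => ?_⟩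
    · have t1 := Tinv_diff hl hl1 hρ b1 (fun τ hτ => (A W (two hW) τ hτ).1)
      exact ((b2.sub (fun τ hτ => (ls_F0_diff η l (hsub hτ)).differentiableWithinAt)).sub t1).div
        (fun τ hτ => (ls_mm_diff (hsub hτ)).differentiableWithinAt)
        (fun τ hτ => ls_mm_ne (hsub hτ))
    · have h1 := lead U W hU hW τ hτ
      have hw := w_pos τ.re
      have h2 : ‖η * gam * l ^ 2 * Thp τ‖ ≤ 1 / 9 * l ^ 2 * w τ.re := by
        rw [norm_mul, norm_mul, norm_mul, hηn, one_mul, norm_pow, norm_real, norm_real,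
          Real.norm_of_nonneg gam_pos.le, Real.norm_of_nonneg hl.le]
        have := norm_Thp_le (St_mono (by norm_num) (hsub hτ) : τ ∈ St (7 / 10))
        have := gam_le
        gcongr
      have h3 := norm_sub_le (Phi η l U W τ + η * gam * l ^ 2 * Thp τ) (η * gam * l ^ 2 * Thp τ)
      rw [add_sub_cancel_right] at h3
      have h4 : 2323 * K * l ^ 3 * w τ.re ≤ 8 / 9 * l ^ 2 * w τ.re := by
        have : 2323 * K * l ≤ 8 / 9 := by nlinarith
        calc 2323 * K * l ^ 3 * w τ.re = (2323 * K * l) * l ^ 2 * w τ.re := by ring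
          _ ≤ _ := by gcongr
      linarith
    · obtain ⟨r1, r2⟩ := b3 hρ0 hUre hWre
      have r3 := (r1.Tinv l) x
      have r4 := r2 x
      have r5 := isRe_Thp x
      have hηi : η.im = 0 := by rcases hη with rfl | rfl <;> simp
      simp only at r4
      have r6 : (F0 η l x).im = 0 := by
        unfold F0
        rw [← conj_eq_iff_im] at r5 hηi ⊢
        simp [r5, hηi, map_ofNat]
      have r7 : (mm x).im = 0 := by
        unfold mm
        rw [← conj_eq_iff_im] at r5 ⊢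
        simp [r5, map_ofNat]
      unfold Phi
      rw [← conj_eq_iff_im] at r3 r4 r6 r7 ⊢
      simp [r3, r4, r6, r7]
  · obtain ⟨A, -, L⟩ := h η l ρ U hη hl hKl hρ hU
    have hW := hS.bal
    have hf := fun τ hτ => (A W (two hW) τ hτ).1
    refine ⟨fun τ hτ => ?_, fun τ hτ => ?_, fun τ hτ => ?_, fun U' W' κ hU' hκ hS' => ?_⟩
    · have fx : ∀ τ ∈ St ρ, Dd η l (Tt l W τ) (W τ) = F0 η l τ + Tinv l (f2 η l U W) τ := by
        intro τ hτ
        have h1 := hS.fix τ hτ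
        unfold Phi Nn at h1
        rw [eq_div_iff (ls_mm_ne (hsub hτ))] at h1
        linear_combination -h1
      have hτ' := sub_real_mem_St hτ l
      have e1 := fx τ hτ
      have e2 := fx _ hτ'
      have e3 := (Tinv_est hl hl1 hρ hf hτ).2.1
      have s1 := Tt_step hl hl1 hW.bd hτ
      have s2 := Tt_step' hl hl1 hW.bd hτ
      have s3 : Tt l W (τ - l) + W (τ - l) = Tt l W τ - l := by linear_combination s2
      have e4 : f2 η l U W τ = (E0 η l (Tt l W τ) - (F0 η l τ - F0 η l (τ - l))) +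
          Qr η l (Tt l W (τ - l)) (W (τ - l)) + (JU η U (Tt l W (τ - l)) (Tt l W τ) -
          IU η U (Tt l W τ) (Tt l W (τ + l))) := by
        unfold f2 ff; rw [s2, ← s1]
      unfold Qr E0 at e4
      rw [s2, s3] at e4
      unfold Dd at e1
      rw [← s1] at e1
      unfold EL muW
      linear_combination e2 - e1 - e3 - e4
    · exact (lineBd_of_St0 (ls_w3 (by positivity) hf) hτ).sumZ_shift hl hl1
    · have hc : ‖η * gam‖ ≤ 1 := by
        rw [norm_mul, hηn, one_mul, norm_real, Real.norm_of_nonneg gam_pos.le]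
        linarith [gam_le]
      have h1 := Vv_asymp hl hl1 hρ hc (A := 2323 * K) (W := W)
        (fun τ hτ => by rw [hS.fix τ hτ]; exact lead U W hU hW τ hτ) hτ
      have e : η * l * gam * Th τ = η * gam * l * Th τ := by ring
      rw [e]
      refine h1.trans ?_
      have := om_pos τ.re
      gcongr
      linarith
    · have hW' := hS'.bal
      have hκ0 : 0 ≤ κ := hκ.nonneg hρ0
      obtain ⟨A', -, L'⟩ := h η l ρ U' hη hl hKl hρ hU'
      have hfU : ∀ τ ∈ St ρ, ‖f2 η l U' W τ - f2 η l U W τ‖ ≤ K * κ * w τ.re ^ 3 :=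
        fun τ hτ => (A W (two hW) τ hτ).2.2 κ U' hU' hκ
      have hPU : ∀ τ ∈ St ρ, ‖Phi η l U' W τ - Phi η l U W τ‖ ≤ 2300 * K * κ / l * w τ.re := by
        intro τ hτ
        have h1 := (Tinv_est hl hl1 hρ hfU hτ).1
        rw [(Tinv_est hl hl1 hρ hf hτ).2.2 _ _ (fun τ hτ => (A' W (two hW) τ hτ).1)] at h1
        have e : Phi η l U' W τ - Phi η l U W τ =
            -(Tinv l (f2 η l U' W) τ - Tinv l (f2 η l U W) τ) / mm τ := by
          unfold Phi; ring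
        rw [e]
        exact (ls_div_mm (hsub hτ) (by rw [norm_neg]; exact h1)).trans (le_of_eq (by ring))
      have hWW : ∀ τ ∈ St ρ, ‖W' τ - W τ‖ ≤ 2 * (2300 * K * κ / l) * w τ.re := by
        refine bootstrap (g := fun a => W' a - W a) (d₀ := 2 * l ^ 2) (by positivity)
          (by positivity) (fun τ hτ => ?_) (fun d hd hb τ hτ => ?_)
        · have := hW.bd τ hτ
          have := hW'.bd τ hτ
          linarith [norm_sub_le (W' τ) (W τ)]
        · have h1 := con U' hU' W W' d hd hW hW' hb τ hτ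
          have h2 := hPU τ hτ
          have e : W' τ - W τ = (Phi η l U' W' τ - Phi η l U' W τ) +
              (Phi η l U' W τ - Phi η l U W τ) := by
            rw [← hS'.fix τ hτ, ← hS.fix τ hτ]; ring
          rw [e]
          linarith [norm_add_le (Phi η l U' W' τ - Phi η l U' W τ) (Phi η l U' W τ - Phi η l U W τ)]
      intro τ hτ
      have hw := w_pos τ.re
      constructor
      · refine (hWW τ hτ).trans ?_
        have : 2 * (2300 * K * κ / l) = 4600 * K * κ / l := by ring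
        rw [this]
        gcongr
        norm_num
      · have key : ∀ d : ℝ, 2 * (2300 * K * κ / l) < d →
            ‖muW η l U' W' τ - muW η l U W τ‖ ≤ 11 * (2 * K * l ^ 2 * d + K * κ) / l := by
          intro d hd
          have hd0 : 0 < d := lt_of_le_of_lt (by positivity) hd
          have hb : ∀ τ ∈ St ρ, ‖W' τ - W τ‖ ≤ d * w τ.re := fun τ hτ =>
            (hWW τ hτ).trans (mul_le_mul_of_nonneg_right hd.le (w_nonneg _))
          have h1 : ∀ τ ∈ St ρ, ‖f2 η l U' W' τ - f2 η l U W τ‖ ≤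
              (2 * K * l ^ 2 * d + K * κ) * w τ.re ^ 3 := by
            intro τ hτ
            have h2 := (L' W W' d hd0 hW hW' hb τ hτ).1
            have h3 := hfU τ hτ
            have := norm_add_le (f2 η l U' W' τ - f2 η l U' W τ) (f2 η l U' W τ - f2 η l U W τ)
            rw [sub_add_sub_cancel] at this
            linarith
          unfold muW
          rw [← (lineBd_of_St0 (ls_w3 (by positivity) (fun τ hτ => (A' W' (two hW') τ hτ).1))
            hτ).sumZ_sub hl hl1 (lineBd_of_St0 (ls_w3 (by positivity) hf) hτ)]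
          exact (lineBd_of_St0 (ls_w3 (by positivity) h1) hτ).norm_sumZ hl hl1
        have hlim : ‖muW η l U' W' τ - muW η l U W τ‖ ≤
            11 * (2 * K * l ^ 2 * (2 * (2300 * K * κ / l)) + K * κ) / l := by
          refine le_of_forall_pos_le_add fun ε hε => ?_
          have := key (2 * (2300 * K * κ / l) + ε / (22 * K * l))
            (by have : 0 < ε / (22 * K * l) := by positivity
                linarith)
          refine this.trans (le_of_eq ?_)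
          field_simp
          ring
        refine hlim.trans ?_
        have e : 2 * K * l ^ 2 * (2 * (2300 * K * κ / l)) = 9200 * (K * l) * (K * κ) := by
          field_simp; ring
        rw [e]
        have hKκ : 0 ≤ K * κ := by positivity
        refine div_le_div_of_nonneg_right ?_ hl.le
        nlinarith

end Pool.Agent.MP_be9872_an

end
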