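import Pool.Agent.MP_be9872_an.Mg.Iter
import Pool.Agent.MP_be9872_an.Mg.Fin

set_option autoImplicit false
open Complex

namespace Pool.Agent.MP_be9872_an

theorem main_goal : Goal := by
  obtain ⟨C₁, hC₁, h₁⟩ := iter_main
  obtain ⟨C₂, hC₂, h₂⟩ := branch_main
  obtain ⟨ε, hε, h₃⟩ := final_geo
  set l : ℝ := min (1 / (C₁ + C₂ + 1)) (ε / (C₂ + 1)) with hl
  have hl0 : 0 < l := lt_min (by positivity) (by positivity)
  have ha : l * (C₁ + C₂ + 1) ≤ 1 := by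
    rw [← le_div_iff₀ (by positivity)]; exact min_le_left _ _
  have hb : l * (C₂ + 1) ≤ ε := by
    rw [← le_div_iff₀ (by positivity)]; exact min_le_right _ _
  have hc1 : C₁ * l ≤ 1 := by nlinarith
  have hc2 : C₂ * l ≤ 1 := by nlinarith
  have hl1 : l ≤ 1 := by nlinarith
  obtain ⟨U, W₁, W₂, hU, hre, hflat, s1, s2, hEL⟩ := h₁ l hl0 hc1
  have b1 := h₂ 1 l U W₁ (Or.inl rfl) hl0 hc2 hU hre s1.bal s1.re
  have b2 := h₂ (-1) l U W₂ (Or.inr rfl) hl0 hc2 hU hre s2.bal s2.re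
  have hsub : St (1 / 32) ⊆ Dom (1 / 16) (1 / 50) :=
    (St_mono (by norm_num)).trans (St_subset_Dom (by norm_num))
  have hl4 : l ^ 4 ≤ l := by
    have := pow_le_pow_of_le_one hl0.le hl1 (show 1 ≤ 4 by norm_num)
    simpa using this
  have mono : ∀ {T r : ℂ → ℂ}, Branch (1 / 32) (C₂ * l) T r → Branch (1 / 32) ((C₂ + 1) * l) T r :=
    fun h => ⟨h.dT, h.reT, h.dT1, h.bT, h.dr, h.rer, fun τ hτ => (h.br τ hτ).trans
      (mul_le_mul_of_nonneg_right (by nlinarith) (pow_nonneg (w_nonneg _) _))⟩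
  refine h₃ l ((C₂ + 1) * l) U (Tt l W₁) (Tt l W₂) hl0 (by nlinarith) (by nlinarith)
    (hU.diff.mono hsub) hre (fun j => ?_) (fun τ hτ => ?_) (mono b1) (mono b2) (fun t => ?_)
    (fun t => ?_)
  · obtain ⟨D, hD⟩ := hflat j
    exact ⟨D, fun τ hτ => hD τ (St_mono (by norm_num) hτ)⟩
  · exact (hU.bd τ (hsub hτ)).trans
      (mul_le_mul_of_nonneg_right (by nlinarith) (pow_nonneg (w_nonneg _) _))
  · exact sub_eq_zero.1 (hEL t (ofReal_mem_St (by norm_num) t)).1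
  · exact sub_eq_zero.1 (hEL t (ofReal_mem_St (by norm_num) t)).2

end Pool.Agent.MP_be9872_an
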